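import Pool.Agent.H78.K4.Def

/-!
# One cycle of the equation (3,20)

Write `w = x n`, `v = x (n+1)`, `X = x (n+2)`, `S = x (n+3)`, `x_k = x (n+2+k)`; `E` satisfies
`1 / X ≤ E`, `S / X ≤ E`, `1 / (S * X) ≤ E`, `E ≤ 1`, `e ≤ 1`. `C` denotes constants depending on
`a`, `c` only. One uses only the rules of `R` (sums, products, quotients, `R.small`).
* `x_2 = (a + S) / (X + c w)` and `R e (X + c w) X` (`R.small`).
* `x_3 = (a + x_2) / (S + c v)`: `x_2 ≤ exp 1 * (a + S) / X ≤ 3 (a + 1) E`, so `R (C E) (a + x_2) a`;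
  `R e v (X / S)`, so `R e (S + c v) (S + c X / S)`; and `a / (S + c X / S) = a S / (S ^ 2 + c X)`.
* `x_4 = (a + x_3) / (x_2 + c X)`: `x_3 ≤ C * S / X ≤ C E`, `x_2 ≤ C E ≤ C E * (c X)` as
  `1 ≤ E * X ≤ X`.
* `x_5 = (a + x_4) / (x_3 + c S)`: `x_4 ≤ C / X ≤ C E`; `x_3 ≤ C S / X ≤ C E * (c S)`.
* `x_6 = (a + x_5) / (x_4 + c x_2)`: sums of close terms:
  `R _ x_6 ((a + a / (c S)) / (a / (c X) + c (a + S) / X))`, which is the value of the statement.
* `x_7 = (a + x_6) / (x_5 + c x_3)`: the value `F6` of `x_6` is at least `C⁻¹ * min X (X / S)`, so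
  `1 / F6 ≤ C E`, `a ≤ C E * x_6`; the denominator is close to
  `a / (c S) + c * a S / (S ^ 2 + c X) = a / (c S) * (1 + c ^ 2 S ^ 2 / (S ^ 2 + c X))`.
* `x_8 = (a + x_7) / (x_6 + c x_4)`: `x_7 ≥ X / C`, `a ≤ C E * x_7`; `c x_4 ≤ C E * x_6` as
  `x_4 ≤ C / X ≤ C E` and `x_6 ≥ 1 / C` (because `1 / F6 ≤ C E ≤ C`). The value is `F7 / F6`.
* `w`: `c x_5 ≤ (a + x_4) / S` and `x_8 ≤ exp (2 C) * (c / a) * S`.
* `v`: `x_6 x_8 / x_7 = (1 + a / x_7) / (1 + c x_4 / x_6)`, `x_4 * x_7 ≤ C`, `x_6 ≥ 1 / C`, so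
  `c x_4 / x_6 ≤ C / x_7`.
* `w3`: `x_4 ≤ C / X`, `x_7 ≤ C X`.
* `v3`: `x_5 x_7 / x_6 = (1 + a / x_6) / (1 + c x_3 / x_5)`, `x_3 / x_5 ≤ C S ^ 2 / X ≤ C S / X`
  and `x_6 ≤ C X / S` for `S ≤ 1`.
It is convenient to prove one lemma for each term, of the form `∃ C > 0, ∀ x n e E, Eq320 a c x →
In320 c x n e E → R (C * (e + E)) _ _`, and to take the sum of the constants.
All statements were tested numerically.
-/

namespace Pool.Agent.H78.K4

open Real

/-- the data of one cycle -/
private structure Dat (a c w v X S x2 x3 x4 x5 x6 x7 x8 e E : ℝ) : Prop where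
  a0 : 0 < a
  c0 : 0 < c
  w0 : 0 < w
  v0 : 0 < v
  X0 : 0 < X
  S0 : 0 < S
  p2 : 0 < x2
  p3 : 0 < x3
  p4 : 0 < x4
  p5 : 0 < x5
  p6 : 0 < x6
  p7 : 0 < x7
  p8 : 0 < x8
  q2 : x2 * (X + c * w) = a + S
  q3 : x3 * (S + c * v) = a + x2
  q4 : x4 * (x2 + c * X) = a + x3
  q5 : x5 * (x3 + c * S) = a + x4
  q6 : x6 * (x4 + c * x2) = a + x5
  q7 : x7 * (x5 + c * x3) = a + x6
  q8 : x8 * (x6 + c * x4) = a + x7
  e0 : 0 ≤ e
  e1 : e ≤ 1
  E1 : E ≤ 1
  hw : c * w ≤ e * X
  hv : R e (v * S) X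
  hX : 1 ≤ E * X
  hS : S ≤ E * X
  hi : 1 ≤ E * (S * X)

private noncomputable def K3 (a : ℝ) : ℝ := (a + 1) / a + 1
private noncomputable def k3 (a c : ℝ) : ℝ := 3 * (2 * a + 1) / c
private noncomputable def K4 (a c : ℝ) : ℝ := k3 a c / a + (a + 1) / c
private noncomputable def k4 (a c : ℝ) : ℝ := (a + k3 a c) / c
private noncomputable def K5 (a c : ℝ) : ℝ := k4 a c / a + k3 a c / c
private noncomputable def k5 (a c : ℝ) : ℝ := (a + k4 a c) / c
private noncomputable def l5 (a c : ℝ) : ℝ := a / (k3 a c + c)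
private noncomputable def K6 (a c : ℝ) : ℝ := K5 a c + (K4 a c + 1)
private noncomputable def l6 (a c : ℝ) : ℝ := min (a / c) (l5 a c / (k4 a c + c * a))
private noncomputable def k57 (a c : ℝ) : ℝ := k5 a c + c * (2 * a + 1)
private noncomputable def l7 (a c : ℝ) : ℝ := l6 a c / k57 a c
private noncomputable def K7 (a c : ℝ) : ℝ := a / l6 a c + K6 a c + (K5 a c + K3 a)
private noncomputable def K8 (a c : ℝ) : ℝ :=
  a / l7 a c + K7 a c + (c * k4 a c / l6 a c + K6 a c)
private noncomputable def k6 (a c : ℝ) : ℝ := 2 / c * (a + k5 a c / a)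
private noncomputable def k7 (a c : ℝ) : ℝ := (a + k6 a c) / l5 a c
private noncomputable def k8 (a c : ℝ) : ℝ := (a + k7 a c) / l6 a c

section consts

variable {a c : ℝ} (ha : 0 < a) (hc : 0 < c)
include ha

private theorem K3_pos : 0 < K3 a := by unfold K3; positivity

include hc

private theorem k3_pos : 0 < k3 a c := by unfold k3; positivity
private theorem K4_pos : 0 < K4 a c := by
  have := k3_pos ha hc
  unfold K4; positivity
private theorem k4_pos : 0 < k4 a c := by
  have := k3_pos ha hc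
  unfold k4; positivity
private theorem K5_pos : 0 < K5 a c := by
  have := k3_pos ha hc
  have := k4_pos ha hc
  unfold K5; positivity
private theorem k5_pos : 0 < k5 a c := by
  have := k4_pos ha hc
  unfold k5; positivity
private theorem l5_pos : 0 < l5 a c := by
  have := k3_pos ha hc
  unfold l5; positivity
private theorem K6_pos : 0 < K6 a c := by
  have := K5_pos ha hc
  have := K4_pos ha hc
  unfold K6; positivity
private theorem l6_pos : 0 < l6 a c := by
  have := l5_pos ha hc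
  have := k4_pos ha hc
  unfold l6
  refine lt_min (by positivity) (by positivity)
private theorem k57_pos : 0 < k57 a c := by
  have := k5_pos ha hc
  unfold k57; positivity
private theorem l7_pos : 0 < l7 a c := by
  have := l6_pos ha hc
  have := k57_pos ha hc
  unfold l7; positivity
private theorem K7_pos : 0 < K7 a c := by
  have := l6_pos ha hc
  have := K6_pos ha hc
  have := K5_pos ha hc
  have := K3_pos ha
  unfold K7; positivity
private theorem K8_pos : 0 < K8 a c := by
  have := l7_pos ha hc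
  have := K7_pos ha hc
  have := k4_pos ha hc
  have := l6_pos ha hc
  have := K6_pos ha hc
  unfold K8; positivity
private theorem k6_pos : 0 < k6 a c := by
  have := k5_pos ha hc
  unfold k6; positivity
private theorem k7_pos : 0 < k7 a c := by
  have := k6_pos ha hc
  have := l5_pos ha hc
  unfold k7; positivity
private theorem k8_pos : 0 < k8 a c := by
  have := k7_pos ha hc
  have := l6_pos ha hc
  unfold k8; positivity

end consts

namespace Dat

variable {a c w v X S x2 x3 x4 x5 x6 x7 x8 e E : ℝ}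
  (h : Dat a c w v X S x2 x3 x4 x5 x6 x7 x8 e E)
include h

private theorem E0 : 0 < E := by
  by_contra hc
  push Not at hc
  have := h.hX
  have := h.X0
  nlinarith

private theorem X1 : 1 ≤ X := by
  have := h.hX
  have := h.X0
  have := h.E1
  nlinarith

private theorem SX : S ≤ X := by
  have := h.hS
  have := h.X0
  have := h.E1
  nlinarith

private theorem S1 : 1 ≤ S * X := by
  have := h.hi
  have := mul_pos h.S0 h.X0
  have := h.E1
  nlinarith

/-- `x2 * X ≤ a + S` -/
private theorem u2' : x2 * X ≤ a + S := by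
  have := h.q2
  have := mul_pos h.p2 (mul_pos h.c0 h.w0)
  nlinarith

private theorem u2 : x2 ≤ (a + 1) * E := by
  have h1 := h.u2'
  have h2 : a + S ≤ (a + 1) * E * X := by
    have := h.hX
    have := h.hS
    have := h.a0
    nlinarith
  exact le_of_mul_le_mul_right (h1.trans h2) h.X0

private theorem u21 : x2 ≤ a + 1 := by
  have := h.u2
  have := h.E1
  have := h.a0
  nlinarith

private theorem l2 : a + S ≤ 2 * X * x2 := by
  have h1 := h.q2
  have h2 := h.hw
  have h3 := h.p2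
  have h4 : c * w ≤ X := by
    have := h.e1
    have := h.X0
    nlinarith
  nlinarith

private theorem r2 : R e x2 ((a + S) / X) := by
  have h0 : 0 < a + S := add_pos h.a0 h.S0
  have hp : 0 < X + c * w := add_pos h.X0 (mul_pos h.c0 h.w0)
  have h1 : x2 = (a + S) / (X + c * w) := by rw [eq_div_iff hp.ne', h.q2]
  have h2 : R e (X + c * w) X := R.small h.X0 (mul_pos h.c0 h.w0).le h.hw
  have h3 := (R.refl h0 le_rfl).div h2
  rw [zero_add] at h3
  rw [h1]
  exact h3

private theorem r3 : R (K3 a * (e + E)) x3 (a * S / (S ^ 2 + c * X)) := by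
  have hE := h.E0
  have ha := h.a0
  have hc := h.c0
  have hS := h.S0
  have hX := h.X0
  have hp : 0 < S + c * v := add_pos h.S0 (mul_pos h.c0 h.v0)
  have h1 : x3 = (a + x2) / (S + c * v) := by rw [eq_div_iff hp.ne', h.q3]
  have h2 : R ((a + 1) / a * E) (a + x2) a := by
    refine R.small h.a0 h.p2.le ?_
    have h5 : (a + 1) / a * E * a = (a + 1) * E := by field_simp
    rw [h5]
    exact h.u2
  have h3 : R e v (X / S) := by
    have h5 := h.hv.div (R.refl h.S0 (le_refl (0 : ℝ)))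
    rw [add_zero, mul_div_assoc, div_self h.S0.ne', mul_one] at h5
    exact h5
  have h4 : R e (S + c * v) (S + c * (X / S)) := (R.refl h.S0 h.e0).add (h3.const_mul h.c0)
  have h5 := h2.div h4
  rw [← h1] at h5
  have h6 : a / (S + c * (X / S)) = a * S / (S ^ 2 + c * X) := by
    field_simp
  rw [h6] at h5
  refine h5.mono ?_
  unfold K3
  have h7 : 0 < (a + 1) / a := by positivity
  have := h.e0
  nlinarith [mul_nonneg h7.le h.e0]

/-- `x3 * S ≤ 2 a + 1` -/
private theorem u3' : x3 * S ≤ 2 * a + 1 := by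
  have h1 := h.q3
  have h2 := h.u21
  have := mul_pos h.p3 (mul_pos h.c0 h.v0)
  nlinarith

private theorem u3 : x3 * X ≤ k3 a c * S := by
  have hc := h.c0
  have h1 := h.q3
  have h2 := h.u21
  have h3 : X ≤ 3 * (v * S) := by
    have h4 := h.hv.ge
    have h5 : exp e ≤ 3 := by
      have h6 := exp_le_exp.2 h.e1
      have h7 := exp_one_lt_d9
      linarith
    have h8 := mul_pos h.v0 h.S0
    nlinarith
  have h4 : x3 * (c * v) ≤ 2 * a + 1 := by
    have := mul_pos h.p3 h.S0
    nlinarith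
  have h5 : c * (x3 * X) ≤ 3 * (2 * a + 1) * S := by
    calc c * (x3 * X) ≤ c * (x3 * (3 * (v * S))) :=
          mul_le_mul_of_nonneg_left (mul_le_mul_of_nonneg_left h3 h.p3.le) hc.le
      _ = 3 * (x3 * (c * v)) * S := by ring
      _ ≤ 3 * (2 * a + 1) * S := by
          apply mul_le_mul_of_nonneg_right _ h.S0.le
          linarith
  unfold k3
  rw [div_mul_eq_mul_div, le_div_iff₀ hc]
  linarith

private theorem u3S : x3 ≤ k3 a c * E * S := by
  have h1 := h.u3
  have h2 := h.hX
  have h3 := k3_pos h.a0 h.c0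
  have h4 : k3 a c * S ≤ k3 a c * E * S * X := by
    have : k3 a c * S * 1 ≤ k3 a c * S * (E * X) :=
      mul_le_mul_of_nonneg_left h2 (mul_pos h3 h.S0).le
    calc k3 a c * S = k3 a c * S * 1 := (mul_one _).symm
      _ ≤ _ := this
      _ = _ := by ring
  exact le_of_mul_le_mul_right (h1.trans h4) h.X0

private theorem u3E : x3 ≤ k3 a c * E := by
  have h1 := h.u3
  have h2 := h.hS
  have h3 := k3_pos h.a0 h.c0
  have h4 : k3 a c * S ≤ k3 a c * E * X := by
    calc k3 a c * S ≤ k3 a c * (E * X) := mul_le_mul_of_nonneg_left h2 h3.le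
      _ = _ := by ring
  exact le_of_mul_le_mul_right (h1.trans h4) h.X0

private theorem u31 : x3 ≤ k3 a c := by
  have h1 := h.u3E
  have h3 := k3_pos h.a0 h.c0
  have := h.E1
  nlinarith

private theorem r4 : R (K4 a c * (e + E)) x4 (a / (c * X)) := by
  have hE := h.E0
  have ha := h.a0
  have hc := h.c0
  have hX := h.X0
  have hk := k3_pos ha hc
  have hp : 0 < x2 + c * X := add_pos h.p2 (mul_pos hc hX)
  have h1 : x4 = (a + x3) / (x2 + c * X) := by rw [eq_div_iff hp.ne', h.q4]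
  have h2 : R (k3 a c / a * E) (a + x3) a := by
    refine R.small ha h.p3.le ?_
    have h5 : k3 a c / a * E * a = k3 a c * E := by field_simp
    rw [h5]
    exact h.u3E
  have h3 : R ((a + 1) / c * E) (x2 + c * X) (c * X) := by
    refine R.small' (mul_pos hc hX) h.p2.le ?_
    have h5 : (a + 1) / c * E * (c * X) = (a + 1) * E * X := by field_simp
    rw [h5]
    have h6 := h.u2
    have h7 := h.X1
    have h8 : 0 < (a + 1) * E := by positivity
    nlinarith
  have h5 := h2.div h3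
  rw [← h1] at h5
  refine h5.mono ?_
  unfold K4
  have h7 : 0 < k3 a c / a + (a + 1) / c := by positivity
  nlinarith [mul_nonneg h7.le h.e0]

private theorem u4 : x4 * X ≤ k4 a c := by
  have hc := h.c0
  have h1 := h.q4
  have h2 := h.u31
  have h3 := mul_pos h.p4 h.p2
  unfold k4
  rw [le_div_iff₀ hc]
  nlinarith

private theorem u4E : x4 ≤ k4 a c * E := by
  have h1 := h.u4
  have h3 := k4_pos h.a0 h.c0
  have h4 : k4 a c ≤ k4 a c * E * X := by
    have := mul_le_mul_of_nonneg_left h.hX h3.le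
    calc k4 a c = k4 a c * 1 := (mul_one _).symm
      _ ≤ _ := this
      _ = _ := by ring
  exact le_of_mul_le_mul_right (h1.trans h4) h.X0

private theorem u41 : x4 ≤ k4 a c := by
  have h1 := h.u4E
  have h3 := k4_pos h.a0 h.c0
  have := h.E1
  nlinarith

private theorem r5 : R (K5 a c * (e + E)) x5 (a / (c * S)) := by
  have hE := h.E0
  have ha := h.a0
  have hc := h.c0
  have hS := h.S0
  have hk := k3_pos ha hc
  have hk4 := k4_pos ha hc
  have hp : 0 < x3 + c * S := add_pos h.p3 (mul_pos hc hS)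
  have h1 : x5 = (a + x4) / (x3 + c * S) := by rw [eq_div_iff hp.ne', h.q5]
  have h2 : R (k4 a c / a * E) (a + x4) a := by
    refine R.small ha h.p4.le ?_
    have h5 : k4 a c / a * E * a = k4 a c * E := by field_simp
    rw [h5]
    exact h.u4E
  have h3 : R (k3 a c / c * E) (x3 + c * S) (c * S) := by
    refine R.small' (mul_pos hc hS) h.p3.le ?_
    have h5 : k3 a c / c * E * (c * S) = k3 a c * E * S := by field_simp
    rw [h5]
    exact h.u3S
  have h5 := h2.div h3
  rw [← h1] at h5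
  refine h5.mono ?_
  unfold K5
  have h7 : 0 < k4 a c / a + k3 a c / c := by positivity
  nlinarith [mul_nonneg h7.le h.e0]

private theorem u5 : x5 * S ≤ k5 a c := by
  have hc := h.c0
  have h1 := h.q5
  have h2 := h.u41
  have h3 := mul_pos h.p5 h.p3
  unfold k5
  rw [le_div_iff₀ hc]
  nlinarith

private theorem l5' : l5 a c ≤ x5 * S := by
  have ha := h.a0
  have hc := h.c0
  have h1 := h.q5
  have hk := k3_pos ha hc
  have h2 : x3 ≤ k3 a c * S := by
    have h4 := h.u3S
    have h5 := mul_pos hk h.S0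
    have h6 := h.E1
    nlinarith
  unfold l5
  rw [div_le_iff₀ (by positivity)]
  have h3 := mul_le_mul_of_nonneg_left h2 h.p5.le
  have := h.p4
  nlinarith

private theorem r6 : R (K6 a c * (e + E)) x6
    (X / S * (a / c) * ((S + 1 / c) / (S + q320 a c))) := by
  have hE := h.E0
  have ha := h.a0
  have hc := h.c0
  have hS := h.S0
  have hX := h.X0
  have hD : 0 ≤ e + E := add_nonneg h.e0 hE.le
  have hK4 := K4_pos ha hc
  have hK5 := K5_pos ha hc
  have hp : 0 < x4 + c * x2 := add_pos h.p4 (mul_pos hc h.p2)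
  have h1 : x6 = (a + x5) / (x4 + c * x2) := by rw [eq_div_iff hp.ne', h.q6]
  have h2 : R (K5 a c * (e + E)) (a + x5) (a + a / (c * S)) :=
    (R.refl ha (mul_nonneg hK5.le hD)).add h.r5
  have h3 : R ((K4 a c + 1) * (e + E)) (x4 + c * x2) (a / (c * X) + c * ((a + S) / X)) := by
    refine R.add (h.r4.mono ?_) ((h.r2.const_mul hc).mono ?_)
    · nlinarith
    · nlinarith [mul_nonneg hK4.le hD]
  have h5 := h2.div h3
  rw [← h1] at h5
  have h6 : (a + a / (c * S)) / (a / (c * X) + c * ((a + S) / X)) =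
      X / S * (a / c) * ((S + 1 / c) / (S + q320 a c)) := by
    have hq : 0 < S + a * (1 + c ^ 2) / c ^ 2 := by positivity
    have hq' : 0 < S * c ^ 2 + a * (1 + c ^ 2) := by positivity
    have hq'' : 0 < a + c ^ 2 * (a + S) := by positivity
    unfold q320
    rw [show a + a / (c * S) = a * (c * S + 1) / (c * S) by field_simp,
      show a / (c * X) + c * ((a + S) / X) = (a + c ^ 2 * (a + S)) / (c * X) by field_simp,
      show S + 1 / c = (c * S + 1) / c by field_simp,
      show S + a * (1 + c ^ 2) / c ^ 2 = (a + c ^ 2 * (a + S)) / c ^ 2 by field_simp; ring]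
    field_simp
  rw [h6] at h5
  refine h5.mono ?_
  unfold K6
  linarith

private theorem l6' : l6 a c * X ≤ x6 * S := by
  have ha := h.a0
  have hc := h.c0
  have hS := h.S0
  have hX := h.X0
  have hk4 := k4_pos ha hc
  have hl5 := l5_pos ha hc
  have hl6 := l6_pos ha hc
  have h1 := h.q6
  -- (x4 + c x2) X ≤ k4 + c (a + S)
  have h2 : (x4 + c * x2) * X ≤ k4 a c + c * (a + S) := by
    have h3 := h.u4
    have h4 := mul_le_mul_of_nonneg_left h.u2' hc.le
    nlinarith
  -- l5 + a S ≤ (a + x5) S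
  have h3 : l5 a c + a * S ≤ (a + x5) * S := by
    have := h.l5'
    nlinarith
  have h4 : l6 a c * (k4 a c + c * (a + S)) ≤ l5 a c + a * S := by
    have h5 : l6 a c * c ≤ a := by
      have := min_le_left (a / c) (l5 a c / (k4 a c + c * a))
      have h6 : l6 a c ≤ a / c := this
      rwa [le_div_iff₀ hc] at h6
    have h7 : l6 a c * (k4 a c + c * a) ≤ l5 a c := by
      have := min_le_right (a / c) (l5 a c / (k4 a c + c * a))
      have h6 : l6 a c ≤ l5 a c / (k4 a c + c * a) := this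
      rwa [le_div_iff₀ (by positivity)] at h6
    nlinarith
  -- combine: l6 X (x4 + c x2) X ≤ (a + x5) S X = x6 (x4 + c x2) S X
  have hp : 0 < (x4 + c * x2) := add_pos h.p4 (mul_pos hc h.p2)
  have h5 : l6 a c * X * (x4 + c * x2) ≤ x6 * S * (x4 + c * x2) := by
    calc l6 a c * X * (x4 + c * x2) = l6 a c * ((x4 + c * x2) * X) := by ring
      _ ≤ l6 a c * (k4 a c + c * (a + S)) := mul_le_mul_of_nonneg_left h2 hl6.le
      _ ≤ l5 a c + a * S := h4
      _ ≤ (a + x5) * S := h3
      _ = x6 * S * (x4 + c * x2) := by rw [← h1]; ring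
  exact le_of_mul_le_mul_right h5 hp

/-- `l6 ≤ E * x6` -/
private theorem l6E : l6 a c ≤ E * x6 := by
  have hl6 := l6_pos h.a0 h.c0
  have h1 := h.l6'
  have h2 := h.hS
  have h3 : l6 a c * S ≤ E * x6 * S := by
    calc l6 a c * S ≤ l6 a c * (E * X) := mul_le_mul_of_nonneg_left h2 hl6.le
      _ = E * (l6 a c * X) := by ring
      _ ≤ E * (x6 * S) := mul_le_mul_of_nonneg_left h1 h.E0.le
      _ = E * x6 * S := by ring
  exact le_of_mul_le_mul_right h3 h.S0

private theorem l61 : l6 a c ≤ x6 := by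
  have h1 := h.l6E
  have h2 := h.E1
  have h3 := h.p6
  nlinarith

private theorem r7 : R (K7 a c * (e + E)) x7
    (X * ((S + 1 / c) / (S + q320 a c)) * G320 c X S) := by
  have hE := h.E0
  have ha := h.a0
  have hc := h.c0
  have hS := h.S0
  have hX := h.X0
  have hD : 0 ≤ e + E := add_nonneg h.e0 hE.le
  have hK3 := K3_pos ha
  have hK5 := K5_pos ha hc
  have hl6 := l6_pos ha hc
  have hp : 0 < x5 + c * x3 := add_pos h.p5 (mul_pos hc h.p3)
  have h1 : x7 = (a + x6) / (x5 + c * x3) := by rw [eq_div_iff hp.ne', h.q7]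
  have h2 : R (a / l6 a c * E) (a + x6) x6 := by
    refine R.small' h.p6 ha.le ?_
    calc a = a / l6 a c * l6 a c := by field_simp
      _ ≤ a / l6 a c * (E * x6) := mul_le_mul_of_nonneg_left h.l6E (by positivity)
      _ = _ := by ring
  have h3 : R ((K5 a c + K3 a) * (e + E)) (x5 + c * x3)
      (a / (c * S) + c * (a * S / (S ^ 2 + c * X))) := by
    refine R.add (h.r5.mono ?_) ((h.r3.const_mul hc).mono ?_)
    · nlinarith [mul_nonneg hK3.le hD]
    · nlinarith [mul_nonneg hK5.le hD]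
  have h5 := (h2.trans h.r6).div h3
  rw [← h1] at h5
  have h6 : (X / S * (a / c) * ((S + 1 / c) / (S + q320 a c))) /
      (a / (c * S) + c * (a * S / (S ^ 2 + c * X))) =
      X * ((S + 1 / c) / (S + q320 a c)) * G320 c X S := by
    have hden : 0 < S ^ 2 + c * X := by positivity
    have hden2 : 0 < 1 + c ^ 2 * S ^ 2 / (S ^ 2 + c * X) := by positivity
    unfold G320
    rw [show a / (c * S) + c * (a * S / (S ^ 2 + c * X)) =
      a / (c * S) * (1 + c ^ 2 * S ^ 2 / (S ^ 2 + c * X)) by field_simp]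
    generalize 1 + c ^ 2 * S ^ 2 / (S ^ 2 + c * X) = g at hden2
    generalize (S + 1 / c) / (S + q320 a c) = t
    field_simp
  rw [h6] at h5
  refine h5.mono ?_
  unfold K7
  have h7 : 0 < a / l6 a c := by positivity
  nlinarith [mul_nonneg h7.le h.e0]

private theorem l7' : l7 a c * X ≤ x7 := by
  have ha := h.a0
  have hc := h.c0
  have hk := k57_pos ha hc
  have h1 := h.q7
  have h2 := h.l6'
  have h3 := h.u5
  have h4 := h.u3'
  -- x6 S ≤ x7 (x5 + c x3) S ≤ x7 k57
  have h5 : (x5 + c * x3) * S ≤ k57 a c := by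
    unfold k57
    nlinarith
  have h6 : x6 * S ≤ x7 * k57 a c := by
    calc x6 * S ≤ (a + x6) * S := by nlinarith [h.S0]
      _ = x7 * ((x5 + c * x3) * S) := by rw [← h1]; ring
      _ ≤ x7 * k57 a c := mul_le_mul_of_nonneg_left h5 h.p7.le
  unfold l7
  rw [div_mul_eq_mul_div, div_le_iff₀ hk]
  exact h2.trans h6

private theorem r8 : R (K8 a c * (e + E)) x8 (c / a * S * G320 c X S) := by
  have hE := h.E0
  have ha := h.a0
  have hc := h.c0
  have hS := h.S0
  have hX := h.X0
  have hD : 0 ≤ e + E := add_nonneg h.e0 hE.le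
  have hl6 := l6_pos ha hc
  have hl7 := l7_pos ha hc
  have hk4 := k4_pos ha hc
  have hp : 0 < x6 + c * x4 := add_pos h.p6 (mul_pos hc h.p4)
  have h1 : x8 = (a + x7) / (x6 + c * x4) := by rw [eq_div_iff hp.ne', h.q8]
  have h2 : R (a / l7 a c * E) (a + x7) x7 := by
    refine R.small' h.p7 ha.le ?_
    calc a = a / l7 a c * (l7 a c * 1) := by field_simp
      _ ≤ a / l7 a c * (l7 a c * (E * X)) :=
          mul_le_mul_of_nonneg_left (mul_le_mul_of_nonneg_left h.hX hl7.le) (by positivity)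
      _ = a / l7 a c * E * (l7 a c * X) := by ring
      _ ≤ _ := mul_le_mul_of_nonneg_left h.l7' (by positivity)
  have h3 : R (c * k4 a c / l6 a c * E) (x6 + c * x4) x6 := by
    refine R.small h.p6 (mul_pos hc h.p4).le ?_
    calc c * x4 ≤ c * (k4 a c * E) := mul_le_mul_of_nonneg_left h.u4E hc.le
      _ = c * k4 a c / l6 a c * E * l6 a c := by field_simp
      _ ≤ _ := mul_le_mul_of_nonneg_left h.l61 (by positivity)
  have h5 := (h2.trans h.r7).div (h3.trans h.r6)
  rw [← h1] at h5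
  have h6 : (X * ((S + 1 / c) / (S + q320 a c)) * G320 c X S) /
      (X / S * (a / c) * ((S + 1 / c) / (S + q320 a c))) = c / a * S * G320 c X S := by
    have hq : 0 < S + q320 a c := by
      unfold q320
      positivity
    have ht : 0 < (S + 1 / c) / (S + q320 a c) := by positivity
    generalize (S + 1 / c) / (S + q320 a c) = t at ht
    generalize G320 c X S = g
    field_simp
  rw [h6] at h5
  refine h5.mono ?_
  unfold K8
  have h7 : 0 < a / l7 a c := by positivity
  have h8 : 0 < c * k4 a c / l6 a c := by positivity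
  nlinarith [mul_nonneg h7.le h.e0, mul_nonneg h8.le h.e0]

private theorem u6 : x6 * S ≤ k6 a c * X := by
  have ha := h.a0
  have hc := h.c0
  have hS := h.S0
  have hX := h.X0
  have hk5 := k5_pos ha hc
  have h1 := h.q6
  have h2 := h.u5
  have h3 := h.l2
  -- c x2 x6 ≤ a + x5
  have h4 : c * x2 * x6 ≤ a + x5 := by
    have := mul_pos h.p6 h.p4
    nlinarith
  -- (a + S) c x6 S ≤ 2 X c x2 x6 S ≤ 2 X (a S + k5) ≤ 2 X (a + k5 / a) (a + S)
  have h5 : (a + S) * (c * (x6 * S)) ≤ (a + S) * (2 * (a + k5 a c / a) * X) := by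
    calc (a + S) * (c * (x6 * S)) ≤ (2 * X * x2) * (c * (x6 * S)) := by
          apply mul_le_mul_of_nonneg_right h3
          have := h.p6
          positivity
      _ = 2 * X * S * (c * x2 * x6) := by ring
      _ ≤ 2 * X * S * (a + x5) := mul_le_mul_of_nonneg_left h4 (by positivity)
      _ = 2 * X * (a * S + x5 * S) := by ring
      _ ≤ 2 * X * (a * S + k5 a c) := by
          apply mul_le_mul_of_nonneg_left _ (by positivity)
          linarith
      _ ≤ 2 * X * ((a + k5 a c / a) * (a + S)) := by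
          apply mul_le_mul_of_nonneg_left _ (by positivity)
          have h6 : k5 a c / a * a = k5 a c := by field_simp
          have h7 : 0 < k5 a c / a := by positivity
          nlinarith [mul_pos h7 hS]
      _ = _ := by ring
  have h6 := le_of_mul_le_mul_left h5 (add_pos ha hS)
  unfold k6
  have h7 : 2 / c * (a + k5 a c / a) * X = 2 * (a + k5 a c / a) * X / c := by ring
  rw [h7, le_div_iff₀ hc]
  linarith

private theorem u7 : x7 ≤ k7 a c * X := by
  have ha := h.a0
  have hc := h.c0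
  have hS := h.S0
  have hX := h.X0
  have hl5 := l5_pos ha hc
  have h1 := h.q7
  have h2 := h.u6
  have h3 := h.l5'
  -- x7 l5 ≤ x7 x5 S ≤ (a + x6) S ≤ (a + k6) X
  have h4 : x7 * l5 a c ≤ (a + k6 a c) * X := by
    calc x7 * l5 a c ≤ x7 * (x5 * S) := mul_le_mul_of_nonneg_left h3 h.p7.le
      _ = (x7 * x5) * S := by ring
      _ ≤ (a + x6) * S := by
          apply mul_le_mul_of_nonneg_right _ hS.le
          have := mul_pos h.p7 (mul_pos hc h.p3)
          nlinarith
      _ = a * S + x6 * S := by ring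
      _ ≤ a * X + k6 a c * X := add_le_add (mul_le_mul_of_nonneg_left h.SX ha.le) h2
      _ = _ := by ring
  unfold k7
  rw [div_mul_eq_mul_div, le_div_iff₀ hl5]
  exact h4

private theorem u8 : x8 ≤ k8 a c * S := by
  have ha := h.a0
  have hc := h.c0
  have hS := h.S0
  have hX := h.X0
  have hl6 := l6_pos ha hc
  have h1 := h.q8
  have h2 := h.u7
  have h3 := h.l6'
  -- x8 l6 X ≤ x8 x6 S ≤ (a + x7) S ≤ (a + k7) X S
  have h4 : (x8 * l6 a c) * X ≤ ((a + k7 a c) * S) * X := by
    calc (x8 * l6 a c) * X = x8 * (l6 a c * X) := by ring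
      _ ≤ x8 * (x6 * S) := mul_le_mul_of_nonneg_left h3 h.p8.le
      _ = (x8 * x6) * S := by ring
      _ ≤ (a + x7) * S := by
          apply mul_le_mul_of_nonneg_right _ hS.le
          have := mul_pos h.p8 (mul_pos hc h.p4)
          nlinarith
      _ ≤ (a * X + k7 a c * X) * S := by
          apply mul_le_mul_of_nonneg_right _ hS.le
          have := h.X1
          nlinarith
      _ = _ := by ring
  have h5 := le_of_mul_le_mul_right h4 hX
  unfold k8
  rw [div_mul_eq_mul_div, le_div_iff₀ hl6]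
  exact h5

private theorem outw : c * x5 * x8 ≤ c * (k5 a c * k8 a c) := by
  have hc := h.c0
  have hk8 := k8_pos h.a0 hc
  calc c * x5 * x8 = c * (x5 * x8) := by ring
    _ ≤ c * (x5 * (k8 a c * S)) :=
        mul_le_mul_of_nonneg_left (mul_le_mul_of_nonneg_left h.u8 h.p5.le) hc.le
    _ = c * (k8 a c * (x5 * S)) := by ring
    _ ≤ c * (k8 a c * k5 a c) :=
        mul_le_mul_of_nonneg_left (mul_le_mul_of_nonneg_left h.u5 hk8.le) hc.le
    _ = _ := by ring

private theorem u47 : x4 * x7 ≤ k4 a c * k7 a c := by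
  have hk7 := k7_pos h.a0 h.c0
  calc x4 * x7 ≤ x4 * (k7 a c * X) := mul_le_mul_of_nonneg_left h.u7 h.p4.le
    _ = k7 a c * (x4 * X) := by ring
    _ ≤ k7 a c * k4 a c := mul_le_mul_of_nonneg_left h.u4 hk7.le
    _ = _ := by ring

private theorem outv : R ((a + c * (k4 a c * k7 a c) / l6 a c) / x7) (x6 * x8) x7 := by
  have ha := h.a0
  have hc := h.c0
  have hl6 := l6_pos ha hc
  have hk4 := k4_pos ha hc
  have hk7 := k7_pos ha hc
  have hp : 0 < x6 + c * x4 := add_pos h.p6 (mul_pos hc h.p4)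
  have p6 := h.p6
  have p7 := h.p7
  have h1 : x8 = (a + x7) / (x6 + c * x4) := by rw [eq_div_iff hp.ne', h.q8]
  have h2 : R (a / x7) (a + x7) x7 := by
    refine R.small' p7 ha.le ?_
    rw [div_mul_cancel₀ _ p7.ne']
  have h3 : R (c * (k4 a c * k7 a c) / l6 a c / x7) (x6 + c * x4) x6 := by
    refine R.small p6 (mul_pos hc h.p4).le ?_
    have h4 : x4 ≤ k4 a c * k7 a c / x7 := by
      rw [le_div_iff₀ p7]
      exact h.u47
    calc c * x4 ≤ c * (k4 a c * k7 a c / x7) := mul_le_mul_of_nonneg_left h4 hc.le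
      _ = c * (k4 a c * k7 a c) / l6 a c / x7 * l6 a c := by field_simp
      _ ≤ _ := mul_le_mul_of_nonneg_left h.l61 (by positivity)
  have h5 := (h2.div h3).const_mul p6
  rw [← h1] at h5
  have h6 : x6 * (x7 / x6) = x7 := by field_simp
  rw [h6] at h5
  refine h5.mono (le_of_eq ?_)
  rw [← add_div]

private theorem outw3 : c * x4 * x7 ≤ c * (k4 a c * k7 a c) := by
  have := mul_le_mul_of_nonneg_left h.u47 h.c0.le
  linarith

private theorem outv3 (hS1 : S ≤ 1) :
    R ((a + c * (k3 a c / l5 a c * k6 a c)) / x6) (x5 * x7) x6 := by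
  have ha := h.a0
  have hc := h.c0
  have hS := h.S0
  have hX := h.X0
  have hl5 := l5_pos ha hc
  have hk3 := k3_pos ha hc
  have hk6 := k6_pos ha hc
  have hp : 0 < x5 + c * x3 := add_pos h.p5 (mul_pos hc h.p3)
  have p5 := h.p5
  have p6 := h.p6
  have p3 := h.p3
  have h1 : x7 = (a + x6) / (x5 + c * x3) := by rw [eq_div_iff hp.ne', h.q7]
  have h2 : R (a / x6) (a + x6) x6 := by
    refine R.small' p6 ha.le ?_
    rw [div_mul_cancel₀ _ p6.ne']
  have h3 : R (c * (k3 a c / l5 a c * k6 a c) / x6) (x5 + c * x3) x5 := by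
    refine R.small p5 (mul_pos hc p3).le ?_
    -- x3 x6 ≤ (k3 k6 / l5) x5
    have h4 : x3 * x6 ≤ k3 a c / l5 a c * k6 a c * x5 := by
      have e1 : (x3 * X) * (x6 * S) ≤ (k3 a c * S) * (k6 a c * X) :=
        mul_le_mul h.u3 h.u6 (mul_pos p6 hS).le (mul_pos hk3 hS).le
      have e2 : (x3 * x6) * (X * S) ≤ (k3 a c * k6 a c) * (X * S) := by
        calc (x3 * x6) * (X * S) = (x3 * X) * (x6 * S) := by ring
          _ ≤ _ := e1
          _ = _ := by ring
      have e3 := le_of_mul_le_mul_right e2 (mul_pos hX hS)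
      have e4 : l5 a c ≤ x5 := by
        have := h.l5'
        nlinarith
      calc x3 * x6 ≤ k3 a c * k6 a c := e3
        _ = k3 a c / l5 a c * k6 a c * l5 a c := by field_simp
        _ ≤ _ := mul_le_mul_of_nonneg_left e4 (by positivity)
    have h5 : x3 ≤ k3 a c / l5 a c * k6 a c * x5 / x6 := by
      rw [le_div_iff₀ p6]
      exact h4
    calc c * x3 ≤ c * (k3 a c / l5 a c * k6 a c * x5 / x6) :=
          mul_le_mul_of_nonneg_left h5 hc.le
      _ = _ := by ring
  have h5 := (h2.div h3).const_mul p5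
  rw [← h1] at h5
  have h6 : x5 * (x6 / x5) = x6 := by field_simp
  rw [h6] at h5
  refine h5.mono (le_of_eq ?_)
  rw [← add_div]

end Dat

/-- One cycle of (3,20). -/
theorem chain320 {a c : ℝ} (ha : 0 < a) (hc : 0 < c) : ∃ C : ℝ, 0 < C ∧
    ∀ (x : ℕ → ℝ) (n : ℕ) (e E : ℝ), Eq320 a c x → In320 c x n e E →
      Out320 a c C x n (C * (e + E)) (x (n + 2)) (x (n + 3)) := by
  have hK3 := K3_pos ha
  have hK4 := K4_pos ha hc
  have hK5 := K5_pos ha hc
  have hK6 := K6_pos ha hc
  have hK7 := K7_pos ha hc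
  have hK8 := K8_pos ha hc
  have hk3 := k3_pos ha hc
  have hk4 := k4_pos ha hc
  have hk5 := k5_pos ha hc
  have hk6 := k6_pos ha hc
  have hk7 := k7_pos ha hc
  have hk8 := k8_pos ha hc
  have hl5 := l5_pos ha hc
  have hl6 := l6_pos ha hc
  obtain ⟨C1, hC1⟩ : ∃ C1, C1 = c * (k5 a c * k8 a c) := ⟨_, rfl⟩
  obtain ⟨C2, hC2⟩ : ∃ C2, C2 = a + c * (k4 a c * k7 a c) / l6 a c := ⟨_, rfl⟩
  obtain ⟨C3, hC3⟩ : ∃ C3, C3 = c * (k4 a c * k7 a c) := ⟨_, rfl⟩
  obtain ⟨C4, hC4⟩ : ∃ C4, C4 = a + c * (k3 a c / l5 a c * k6 a c) := ⟨_, rfl⟩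
  have p1 : 0 < C1 := by rw [hC1]; positivity
  have p2 : 0 < C2 := by rw [hC2]; positivity
  have p3 : 0 < C3 := by rw [hC3]; positivity
  have p4 : 0 < C4 := by rw [hC4]; positivity
  refine ⟨1 + K3 a + K4 a c + K5 a c + K6 a c + K7 a c + K8 a c + C1 + C2 + C3 + C4,
    by positivity, ?_⟩
  intro x n e E hx hI
  have hdat : Dat a c (x n) (x (n + 1)) (x (n + 2)) (x (n + 3)) (x (n + 4)) (x (n + 5))
      (x (n + 6)) (x (n + 7)) (x (n + 8)) (x (n + 9)) (x (n + 10)) e E :=
    { a0 := ha, c0 := hc, w0 := hx.pos _, v0 := hx.pos _, X0 := hx.pos _, S0 := hx.pos _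
      p2 := hx.pos _, p3 := hx.pos _, p4 := hx.pos _, p5 := hx.pos _, p6 := hx.pos _
      p7 := hx.pos _, p8 := hx.pos _
      q2 := hx.eq n, q3 := hx.eq (n + 1), q4 := hx.eq (n + 2), q5 := hx.eq (n + 3)
      q6 := hx.eq (n + 4), q7 := hx.eq (n + 5), q8 := hx.eq (n + 6)
      e0 := hI.e0, e1 := hI.e1, E1 := hI.E1, hw := hI.hw, hv := hI.hv, hX := hI.hX
      hS := hI.hS, hi := hI.hi }
  have hD : 0 ≤ e + E := add_nonneg hdat.e0 hdat.E0.le
  obtain ⟨C, hC⟩ : ∃ C, C = 1 + K3 a + K4 a c + K5 a c + K6 a c + K7 a c + K8 a c + C1 + C2 +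
    C3 + C4 := ⟨_, rfl⟩
  rw [← hC]
  have hm : ∀ {k : ℝ}, k ≤ C → k * (e + E) ≤ C * (e + E) := fun h =>
    mul_le_mul_of_nonneg_right h hD
  have hCe : e ≤ C * (e + E) := by
    have h1 : (1 : ℝ) ≤ C := by rw [hC]; linarith
    have h2 := hdat.E0
    have h3 := hm h1
    linarith
  refine ⟨hdat.r2.mono hCe, hdat.r3.mono (hm (by rw [hC]; linarith)),
    hdat.r4.mono (hm (by rw [hC]; linarith)), hdat.r5.mono (hm (by rw [hC]; linarith)),
    hdat.r6.mono (hm (by rw [hC]; linarith)), hdat.r7.mono (hm (by rw [hC]; linarith)),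
    hdat.r8.mono (hm (by rw [hC]; linarith)), ?_, ?_, ?_, ?_⟩
  · refine hdat.outw.trans ?_
    rw [← hC1, hC]; linarith
  · refine hdat.outv.mono ?_
    rw [← hC2]
    exact div_le_div_of_nonneg_right (by rw [hC]; linarith) hdat.p7.le
  · refine hdat.outw3.trans ?_
    rw [← hC3, hC]; linarith
  · intro hS1
    refine (hdat.outv3 hS1).mono ?_
    rw [← hC4]
    exact div_le_div_of_nonneg_right (by rw [hC]; linarith) hdat.p6.le

end Pool.Agent.H78.K4
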