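import Pool.Agent.H78.K4.Def

/-!
# One cycle of the equation (5,18)

Write `u = x n`, `X = x (n+1)`, `y = x (n+2)`, `S = x (n+3)`, `x_k = x (n+1+k)`; `E` satisfies
`1 / X ≤ E`, `S / X ≤ E`, `1 / (S * X) ≤ E`, `E ≤ 1`, `e ≤ 1`. `C` denotes constants depending on
`a`, `c` only, `q = a (1 + c ^ 2)`, `F = F518 a c X S = a c X (S + 1) / (S (S + q))`.
* `x_3 (S + c u) = a + y`: `y ≤ exp e * a / X ≤ 3 E * a`, `R.small` twice.
* `x_4 (x_3 + c X) = a + S`: `x_3 ≤ C / S ≤ C E * (c X)`.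
* `x_5 (x_4 + c y) = a + x_3`: sums of close terms: value
  `(a + a / S) / ((a + S) / (c X) + c a / X) = F`.
* `x_6 (x_5 + c S) = a + x_4`: `x_4 ≤ C (1 + S) / X ≤ C E`.
* `x_7 (x_6 + c x_3) = a + x_5`: `F ≥ C⁻¹ min (X / S) X`, so `a ≤ C E * x_5`; value
  `F / (a / (F + c S) + c a / S) = F S (F + c S) / (a (c F + (1 + c ^ 2) S))`, which is the value of
  the statement.
* `x_8 (x_7 + c x_4) = a + x_6`: `x_6 ≤ C / F ≤ C E`, `x_7 ≥ X / C`, `c x_4 ≤ C E * x_7`
  (`x_4 ≤ C E`, `x_7 ≥ 1 / C`). So `x_8 x_7 / a = (1 + x_6 / a) / (1 + c x_4 / x_7)`.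
* `x_9 (x_8 + c x_5) = a + x_7`: `a ≤ C E * x_7`, `x_8 ≤ C / x_7 ≤ C E * (c x_5)` as
  `x_7 ≥ 1 / (C E)` and `x_5 ≥ 1 / C`. The value is `(value of x_7) / (c F)`.
* `x79`: `x_7 ≤ a + x_7 = x_9 (x_8 + c x_5) ≤ x_9 * c x_5 * (1 + C E)`.
* `u`: `x_6 ≤ (a + x_4) / x_5` and `x_9 / x_7 ≥ 1 / (x_8 + c x_5) ≥ 1 / (C x_5)`.
It is convenient to prove one lemma for each term, of the form `∃ C > 0, ∀ x n e E, Eq518 a c x →
In518 a c x n e E → R (C * (e + E)) _ _`, and to take the sum of the constants.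
All statements were tested numerically.
-/

namespace Pool.Agent.H78.K4

open Real

private theorem le_one_mul {b E z X : ℝ} (hz : 0 ≤ z) (h : 1 ≤ E * X) (hb : z * X ≤ b)
    (hE : 0 ≤ E) : z ≤ b * E := by
  calc z = z * 1 := (mul_one z).symm
    _ ≤ z * (E * X) := mul_le_mul_of_nonneg_left h hz
    _ = (z * X) * E := by ring
    _ ≤ b * E := mul_le_mul_of_nonneg_right hb hE

private theorem Epos {E X : ℝ} (hX0 : 0 < X) (hX : 1 ≤ E * X) : 0 < E := by
  by_contra h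
  push Not at h
  have := mul_nonpos_of_nonpos_of_nonneg h hX0.le
  linarith

private theorem cyc1 {a c u X y S A B e E : ℝ}
    (ha : 0 < a) (hc : 0 < c) (hu0 : 0 < u) (hX0 : 0 < X) (hy0 : 0 < y) (hS0 : 0 < S)
    (hA0 : 0 < A) (hB0 : 0 < B)
    (hA : A * (S + c * u) = a + y) (hB : B * (A + c * X) = a + S)
    (e1 : e ≤ 1) (E1 : E ≤ 1) (hu : c * u ≤ e * S) (hy : R e (y * X) a)
    (hX : 1 ≤ E * X) (hS : S ≤ E * X) (hi : 1 ≤ E * (S * X)) :
    y * X ≤ 3 * a ∧ R (3 * E + e) A (a / S) ∧ A * S ≤ 4 * a ∧ a ≤ 2 * (S * A) ∧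
    R (4 * a / c * E) B ((a + S) / (c * X)) ∧ B * c * X ≤ a + S ∧ B * c ≤ (a + 1) * E := by
  have hE0 : 0 < E := Epos hX0 hX
  have hexp : exp e ≤ 3 := by
    have h1 : exp e ≤ exp 1 := exp_le_exp.2 e1
    have h2 := Real.exp_one_lt_d9
    linarith
  have hyX : y * X ≤ 3 * a := hy.le.trans (mul_le_mul_of_nonneg_right hexp ha.le)
  have hyE : y ≤ 3 * E * a := by
    have h1 := le_one_mul hy0.le hX hyX hE0.le
    linarith
  have hy3 : y ≤ 3 * a := by
    have h1 : a * E ≤ a * 1 := mul_le_mul_of_nonneg_left E1 ha.le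
    linarith
  have hcu : c * u ≤ S := by
    have h1 : e * S ≤ 1 * S := mul_le_mul_of_nonneg_right e1 hS0.le
    linarith
  have hcu0 : 0 < c * u := mul_pos hc hu0
  have R1 : R (3 * E) (a + y) a := R.small ha hy0.le hyE
  have R2 : R e (S + c * u) S := R.small hS0 hcu0.le hu
  have hAq : A = (a + y) / (S + c * u) := by
    rw [eq_div_iff (by positivity)]
    exact hA
  have RA : R (3 * E + e) A (a / S) := by
    rw [hAq]
    exact R1.div R2
  have hAcu : 0 < A * (c * u) := mul_pos hA0 hcu0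
  have hAS : A * S ≤ 4 * a := by linarith [mul_add A S (c * u)]
  have hAlo : a ≤ 2 * (S * A) := by
    have h1 : A * (c * u) ≤ A * S := mul_le_mul_of_nonneg_left hcu hA0.le
    linarith [mul_add A S (c * u), mul_comm S A]
  have hAX : A ≤ 4 * a * E * X := by
    have h1 := le_one_mul hA0.le hi (b := 4 * a * X) (by
      have h2 : A * S * X ≤ 4 * a * X := mul_le_mul_of_nonneg_right hAS hX0.le
      linarith [mul_assoc A S X]) hE0.le
    linarith
  have R3 : R (4 * a / c * E) (A + c * X) (c * X) := by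
    refine R.small' (by positivity) hA0.le (hAX.trans (le_of_eq ?_))
    field_simp
  have hBq : B = (a + S) / (A + c * X) := by
    rw [eq_div_iff (by positivity)]
    exact hB
  have RB : R (4 * a / c * E) B ((a + S) / (c * X)) := by
    have h1 := (R.refl (add_pos ha hS0) (le_refl (0 : ℝ))).div R3
    rw [zero_add] at h1
    rw [hBq]
    exact h1
  have hBcX : B * c * X ≤ a + S := by
    linarith [mul_add B A (c * X), mul_pos hB0 hA0, mul_assoc B c X]
  have hBc : B * c ≤ (a + 1) * E := by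
    refine le_of_mul_le_mul_right (hBcX.trans ?_) hX0
    calc a + S ≤ a * (E * X) + E * X := by
          have := mul_le_mul_of_nonneg_left hX ha.le
          linarith
      _ = (a + 1) * E * X := by ring
  exact ⟨hyX, RA, hAS, hAlo, RB, hBcX, hBc⟩

private theorem cyc2 {a c X y S A B F e E Q3 K5 D5 : ℝ}
    (ha : 0 < a) (hc : 0 < c) (hX0 : 0 < X) (hy0 : 0 < y) (hS0 : 0 < S)
    (hA0 : 0 < A) (hB0 : 0 < B) (hF0 : 0 < F)
    (hF : F * (B + c * y) = a + A)
    (e0 : 0 ≤ e) (E0 : 0 < E) (E1 : E ≤ 1) (hy : R e (y * X) a) (hS : S ≤ E * X)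
    (hyX : y * X ≤ 3 * a) (RA : R (3 * E + e) A (a / S)) (hAlo : a ≤ 2 * (S * A))
    (RB : R (4 * a / c * E) B ((a + S) / (c * X))) (hBcX : B * c * X ≤ a + S)
    (hQ3 : Q3 = a * (1 + 3 * c ^ 2)) (hK5 : K5 = 2 * (1 + Q3) / (a * c))
    (hD5 : D5 = 3 + 4 * a / c) :
    R (D5 * (e + E)) F (F518 a c X S) ∧ X ≤ K5 * (F * S) ∧ 1 ≤ K5 * F * E ∧ 1 ≤ K5 * F := by
  have hc2 : 0 < c ^ 2 := pow_pos hc 2
  have hac : 0 < a * c := mul_pos ha hc
  have hQ30 : 0 < Q3 := by rw [hQ3]; positivity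
  have hK50 : 0 < K5 := by rw [hK5]; positivity
  have hfrac : 0 < 4 * a / c := by positivity
  have hfE := mul_nonneg hfrac.le E0.le
  have hfe := mul_nonneg hfrac.le e0
  have Ry : R e y (a / X) := by
    have h1 := hy.div (R.refl hX0 (le_refl (0 : ℝ)))
    rwa [mul_div_cancel_right₀ _ hX0.ne', add_zero] at h1
  have RaA : R (3 * E + e) (a + A) (a + a / S) := (R.refl ha (by positivity)).add RA
  have RBcy : R (4 * a / c * E + e) (B + c * y) ((a + S) / (c * X) + c * (a / X)) :=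
    (RB.mono (by linarith)).add ((Ry.const_mul hc).mono (by linarith))
  have hFq : F = (a + A) / (B + c * y) := by
    rw [eq_div_iff (by positivity)]
    exact hF
  have hFv : (a + a / S) / ((a + S) / (c * X) + c * (a / X)) = F518 a c X S := by
    unfold F518 q518
    field_simp
    ring
  have RF : R (D5 * (e + E)) F (F518 a c X S) := by
    rw [← hFv, hFq]
    refine (RaA.div RBcy).mono ?_
    have h1 : D5 * (e + E) = 3 * e + 3 * E + 4 * a / c * e + 4 * a / c * E := by rw [hD5]; ring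
    rw [h1]
    linarith
  have hFlo : X ≤ K5 * (F * S) := by
    have h1 : c * X * (B + c * y) ≤ S + Q3 := by
      have h2 : c * X * (B + c * y) = B * c * X + c ^ 2 * (y * X) := by ring
      have h3 : c ^ 2 * (y * X) ≤ c ^ 2 * (3 * a) := mul_le_mul_of_nonneg_left hyX hc2.le
      have h4 : Q3 = a + c ^ 2 * (3 * a) := by rw [hQ3]; ring
      rw [h2, h4]
      linarith
    have h4 : a * c * X * (2 * S + 1) ≤ 2 * (F * S) * (S + Q3) := by
      calc a * c * X * (2 * S + 1) = c * X * (2 * S * a + a) := by ring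
        _ ≤ c * X * (2 * S * a + 2 * (S * A)) := by gcongr
        _ = 2 * S * (c * X) * (a + A) := by ring
        _ = 2 * S * (c * X) * (F * (B + c * y)) := by rw [hF]
        _ = 2 * (F * S) * (c * X * (B + c * y)) := by ring
        _ ≤ 2 * (F * S) * (S + Q3) := by gcongr
    have h5 : a * c * X * (S + Q3) ≤ (2 * (1 + Q3) * (F * S)) * (S + Q3) := by
      have h6 : S + Q3 ≤ (2 * S + 1) * (1 + Q3) := by
        have h7 : (2 * S + 1) * (1 + Q3) = 2 * S + 1 + 2 * (S * Q3) + Q3 := by ring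
        rw [h7]
        linarith [mul_pos hS0 hQ30]
      calc a * c * X * (S + Q3) ≤ a * c * X * ((2 * S + 1) * (1 + Q3)) :=
            mul_le_mul_of_nonneg_left h6 (by positivity)
        _ = (1 + Q3) * (a * c * X * (2 * S + 1)) := by ring
        _ ≤ (1 + Q3) * (2 * (F * S) * (S + Q3)) := mul_le_mul_of_nonneg_left h4 (by positivity)
        _ = _ := by ring
    have h6 : a * c * X ≤ 2 * (1 + Q3) * (F * S) := le_of_mul_le_mul_right h5 (by positivity)
    rw [hK5, div_mul_eq_mul_div, le_div_iff₀ hac]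
    linarith
  have hF1 : 1 ≤ K5 * F * E := by
    have h1 : 1 * X ≤ (K5 * F * E) * X := by
      calc 1 * X = X := one_mul X
        _ ≤ K5 * (F * S) := hFlo
        _ ≤ K5 * (F * (E * X)) := by gcongr
        _ = _ := by ring
    exact le_of_mul_le_mul_right h1 hX0
  have hF2 : 1 ≤ K5 * F := by
    refine hF1.trans ?_
    calc K5 * F * E ≤ K5 * F * 1 := by gcongr
      _ = K5 * F := mul_one _
  exact ⟨RF, hFlo, hF1, hF2⟩

private theorem cyc3 {a c S B F G Fv e E K5 KA K6 D5 D6 : ℝ}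
    (ha : 0 < a) (hc : 0 < c) (hS0 : 0 < S) (hB0 : 0 < B) (hF0 : 0 < F) (hG0 : 0 < G)
    (hG : G * (F + c * S) = a + B)
    (e0 : 0 ≤ e) (E0 : 0 < E) (E1 : E ≤ 1) (hBc : B * c ≤ (a + 1) * E)
    (RF : R (D5 * (e + E)) F Fv) (hF1 : 1 ≤ K5 * F * E) (hK50 : 0 < K5) (hD50 : 0 < D5)
    (hKA : KA = a + (a + 1) / c) (hK6 : K6 = KA * K5)
    (hD6 : D6 = (a + 1) / (a * c) + D5) :
    R (D6 * (e + E)) G (a / (Fv + c * S)) ∧ G * F ≤ KA ∧ G * (c * S) ≤ KA ∧ G ≤ K6 * E := by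
  have hac : 0 < a * c := mul_pos ha hc
  have hcS : 0 < c * S := mul_pos hc hS0
  have hBE : B ≤ (a + 1) / (a * c) * E * a := by
    have h1 : (a + 1) / (a * c) * E * a = (a + 1) * E / c := by field_simp
    rw [h1, le_div_iff₀ hc]
    exact hBc
  have haB : a + B ≤ KA := by
    have h1 : B ≤ (a + 1) / c := by
      rw [le_div_iff₀ hc]
      have h2 : (a + 1) * E ≤ (a + 1) * 1 := mul_le_mul_of_nonneg_left E1 (by positivity)
      linarith
    rw [hKA]
    linarith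
  have RaB : R ((a + 1) / (a * c) * E) (a + B) a := R.small ha hB0.le hBE
  have RFS : R (D5 * (e + E)) (F + c * S) (Fv + c * S) :=
    RF.add (R.refl (by positivity) (by positivity))
  have hGq : G = (a + B) / (F + c * S) := by
    rw [eq_div_iff (by positivity)]
    exact hG
  have hP2 : 0 < (a + 1) / (a * c) := by positivity
  have RG : R (D6 * (e + E)) G (a / (Fv + c * S)) := by
    rw [hGq]
    refine (RaB.div RFS).mono ?_
    have h1 := mul_nonneg hP2.le e0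
    have h2 : D6 * (e + E) = (a + 1) / (a * c) * e + (a + 1) / (a * c) * E + D5 * (e + E) := by
      rw [hD6]; ring
    rw [h2]
    linarith
  have hGd := mul_add G F (c * S)
  have hGF : G * F ≤ KA := by linarith [mul_pos hG0 hcS]
  have hGS : G * (c * S) ≤ KA := by linarith [mul_pos hG0 hF0]
  have hGE : G ≤ K6 * E := by
    calc G = G * 1 := (mul_one G).symm
      _ ≤ G * (K5 * F * E) := mul_le_mul_of_nonneg_left hF1 hG0.le
      _ = K5 * E * (G * F) := by ring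
      _ ≤ K5 * E * KA := mul_le_mul_of_nonneg_left hGF (by positivity)
      _ = K6 * E := by rw [hK6]; ring
  exact ⟨RG, hGF, hGS, hGE⟩

private theorem cyc4 {a c X S A F G H e E K5 KA K' K7 D5 D6 D7 : ℝ}
    (ha : 0 < a) (hc : 0 < c) (hX0 : 0 < X) (hS0 : 0 < S)
    (hA0 : 0 < A) (hF0 : 0 < F) (hG0 : 0 < G) (hH0 : 0 < H) (hH : H * (G + c * A) = a + F)
    (e0 : 0 ≤ e) (E0 : 0 < E) (hX : 1 ≤ E * X)
    (RA : R (3 * E + e) A (a / S)) (hAS : A * S ≤ 4 * a)
    (RF : R (D5 * (e + E)) F (F518 a c X S)) (hFlo : X ≤ K5 * (F * S)) (hF1 : 1 ≤ K5 * F * E)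
    (RG : R (D6 * (e + E)) G (a / (F518 a c X S + c * S))) (hGS : G * (c * S) ≤ KA)
    (hK50 : 0 < K5) (hD5 : D5 = 3 + 4 * a / c)
    (hK' : K' = KA / c + 4 * a * c) (hK7 : K7 = K5 * K')
    (hD6 : D6 = (a + 1) / (a * c) + D5) (hD7 : D7 = a * K5 + D5 + D6) :
    R (D7 * (e + E)) H (X * ((S + 1) / (S + q518 a c)) * G518 a c X S) ∧ 1 ≤ K7 * E * H := by
  have hac : 0 < a * c := mul_pos ha hc
  have hq0 : 0 < q518 a c := by unfold q518; positivity
  have hFv0 : 0 < F518 a c X S := by unfold F518; positivity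
  have ht0 : 0 ≤ e + E := by linarith
  have hfrac : 0 < 4 * a / c := by positivity
  have hP2 : 0 < (a + 1) / (a * c) := by positivity
  have RaF : R (a * K5 * E) (a + F) F := by
    refine R.small' hF0 ha.le ?_
    calc a = a * 1 := (mul_one a).symm
      _ ≤ a * (K5 * F * E) := mul_le_mul_of_nonneg_left hF1 ha.le
      _ = a * K5 * E * F := by ring
  have h3D : 3 * E + e ≤ D6 * (e + E) := by
    have h1 := mul_nonneg hP2.le ht0
    have h2 := mul_nonneg hfrac.le ht0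
    have h3 : D6 * (e + E) = (a + 1) / (a * c) * (e + E) + 3 * (e + E) + 4 * a / c * (e + E) := by
      rw [hD6, hD5]; ring
    rw [h3]
    linarith
  have RGA : R (D6 * (e + E)) (G + c * A) (a / (F518 a c X S + c * S) + c * (a / S)) :=
    RG.add ((RA.const_mul hc).mono h3D)
  have hHq : H = (a + F) / (G + c * A) := by
    rw [eq_div_iff (by positivity)]
    exact hH
  have hHv : F518 a c X S / (a / (F518 a c X S + c * S) + c * (a / S)) =
      X * ((S + 1) / (S + q518 a c)) * G518 a c X S := by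
    have h1 : X * ((S + 1) / (S + q518 a c)) = F518 a c X S * S / (a * c) := by
      unfold F518
      field_simp
    rw [h1]
    unfold G518
    field_simp
    ring
  have RH : R (D7 * (e + E)) H (X * ((S + 1) / (S + q518 a c)) * G518 a c X S) := by
    rw [← hHv, hHq]
    refine ((RaF.trans RF).div RGA).mono ?_
    have h1 := mul_nonneg (mul_pos ha hK50).le e0
    have h2 : D7 * (e + E) = a * K5 * e + a * K5 * E + D5 * (e + E) + D6 * (e + E) := by
      rw [hD7]; ring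
    rw [h2]
    linarith
  have hX7 : X ≤ K7 * H := by
    have h1 : S * (G + c * A) ≤ K' := by
      have h2 : S * G ≤ KA / c := by
        rw [le_div_iff₀ hc]
        linarith
      have h3 : S * (c * A) ≤ 4 * a * c := by
        have h4 : c * (A * S) ≤ c * (4 * a) := mul_le_mul_of_nonneg_left hAS hc.le
        linarith
      rw [hK']
      linarith [mul_add S G (c * A)]
    calc X ≤ K5 * (F * S) := hFlo
      _ ≤ K5 * ((a + F) * S) := by gcongr; linarith
      _ = K5 * (H * (S * (G + c * A))) := by rw [← hH]; ring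
      _ ≤ K5 * (H * K') := by gcongr
      _ = K7 * H := by rw [hK7]; ring
  have hH1 : 1 ≤ K7 * E * H := by
    calc 1 ≤ E * X := hX
      _ ≤ E * (K7 * H) := by gcongr
      _ = _ := by ring
  exact ⟨RH, hH1⟩

private theorem cyc5 {a c B F G H I E K5 K6 K7 D9a : ℝ}
    (ha : 0 < a) (hc : 0 < c) (hB0 : 0 < B) (hF0 : 0 < F) (hG0 : 0 < G) (hH0 : 0 < H)
    (hI0 : 0 < I) (hI : I * (H + c * B) = a + G) (E0 : 0 < E) (E1 : E ≤ 1)
    (hBc : B * c ≤ (a + 1) * E) (hGE : G ≤ K6 * E) (hH1 : 1 ≤ K7 * E * H)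
    (hF2 : 1 ≤ K5 * F) (hK60 : 0 < K6) (hK70 : 0 < K7)
    (hD9a : D9a = (a + K6) * K7 * K5 / c) :
    R ((K6 / a + (a + 1) * K7) * E) (I * H) a ∧ I ≤ D9a * E * (c * F) := by
  have RaG : R (K6 / a * E) (a + G) a := by
    refine R.small ha hG0.le (hGE.trans (le_of_eq ?_))
    field_simp
  have hK7H : 1 ≤ K7 * H := by
    refine hH1.trans ?_
    have h1 : K7 * H * E ≤ K7 * H * 1 := mul_le_mul_of_nonneg_left E1 (by positivity)
    linarith
  have RHB : R ((a + 1) * K7 * E) (H + c * B) H := by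
    refine R.small hH0 (by positivity) ?_
    calc c * B = B * c := mul_comm _ _
      _ ≤ (a + 1) * E := hBc
      _ = (a + 1) * E * 1 := (mul_one _).symm
      _ ≤ (a + 1) * E * (K7 * H) := mul_le_mul_of_nonneg_left hK7H (by positivity)
      _ = (a + 1) * K7 * E * H := by ring
  have hIq : I = (a + G) / (H + c * B) := by
    rw [eq_div_iff (by positivity)]
    exact hI
  have RI : R ((K6 / a + (a + 1) * K7) * E) (I * H) a := by
    have h1 := (RaG.div RHB).mul (R.refl hH0 (le_refl (0 : ℝ)))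
    rw [← hIq, div_mul_cancel₀ _ hH0.ne'] at h1
    refine h1.mono (le_of_eq ?_)
    ring
  have hIH : I * H ≤ a + K6 := by
    have h1 : K6 * E ≤ K6 * 1 := mul_le_mul_of_nonneg_left E1 hK60.le
    linarith [mul_add I H (c * B), mul_pos hI0 (mul_pos hc hB0)]
  have hIE : I ≤ D9a * E * (c * F) := by
    calc I = I * 1 := (mul_one I).symm
      _ ≤ I * (K7 * E * H) := mul_le_mul_of_nonneg_left hH1 hI0.le
      _ = K7 * E * (I * H) := by ring
      _ ≤ K7 * E * (a + K6) := mul_le_mul_of_nonneg_left hIH (by positivity)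
      _ = K7 * E * (a + K6) * 1 := (mul_one _).symm
      _ ≤ K7 * E * (a + K6) * (K5 * F) := mul_le_mul_of_nonneg_left hF2 (by positivity)
      _ = D9a * E * (c * F) := by
          rw [hD9a]
          field_simp
  exact ⟨RI, hIE⟩

private theorem cyc6 {a c X S F G H I J e E KA K7 D5 D7 D9a : ℝ}
    (ha : 0 < a) (hc : 0 < c) (hX0 : 0 < X) (hS0 : 0 < S) (hF0 : 0 < F) (hG0 : 0 < G)
    (hH0 : 0 < H) (hI0 : 0 < I) (hJ0 : 0 < J)
    (hJ : J * (I + c * F) = a + H) (e0 : 0 ≤ e) (E1 : E ≤ 1)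
    (RF : R (D5 * (e + E)) F (F518 a c X S)) (hGF : G * F ≤ KA)
    (RH : R (D7 * (e + E)) H (X * ((S + 1) / (S + q518 a c)) * G518 a c X S))
    (hH1 : 1 ≤ K7 * E * H) (hIE : I ≤ D9a * E * (c * F))
    (hK70 : 0 < K7) (hD9a0 : 0 < D9a) :
    R ((a * K7 + D7 + D9a + D5) * (e + E)) J (S / (a * c ^ 2) * G518 a c X S) ∧
    H ≤ exp (D9a * E) * (c * F * J) ∧
    G * H ≤ KA * (1 + D9a) * c * J := by
  have hq0 : 0 < q518 a c := by unfold q518; positivity
  have hFv0 : 0 < F518 a c X S := by unfold F518; positivity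
  have RIF : R (D9a * E) (I + c * F) (c * F) := R.small' (by positivity) hI0.le hIE
  have RaH : R (a * K7 * E) (a + H) H := by
    refine R.small' hH0 ha.le ?_
    calc a = a * 1 := (mul_one a).symm
      _ ≤ a * (K7 * E * H) := mul_le_mul_of_nonneg_left hH1 ha.le
      _ = a * K7 * E * H := by ring
  have hJq : J = (a + H) / (I + c * F) := by
    rw [eq_div_iff (by positivity)]
    exact hJ
  have hJv : X * ((S + 1) / (S + q518 a c)) * G518 a c X S / (c * F518 a c X S) =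
      S / (a * c ^ 2) * G518 a c X S := by
    have h1 : X * ((S + 1) / (S + q518 a c)) = F518 a c X S * S / (a * c) := by
      unfold F518
      field_simp
    rw [h1]
    field_simp
  have RJ : R ((a * K7 + D7 + D9a + D5) * (e + E)) J (S / (a * c ^ 2) * G518 a c X S) := by
    rw [← hJv, hJq]
    refine ((RaH.trans RH).div (RIF.trans (RF.const_mul hc))).mono ?_
    have h1 := mul_nonneg (mul_pos ha hK70).le e0
    have h2 := mul_nonneg hD9a0.le e0
    have h3 : (a * K7 + D7 + D9a + D5) * (e + E) = a * K7 * e + a * K7 * E + D7 * (e + E) +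
        (D9a * e + D9a * E) + D5 * (e + E) := by ring
    rw [h3]
    linarith
  have hHle : H ≤ exp (D9a * E) * (c * F * J) := by
    calc H ≤ a + H := by linarith
      _ = J * (I + c * F) := hJ.symm
      _ ≤ J * (exp (D9a * E) * (c * F)) := mul_le_mul_of_nonneg_left RIF.le hJ0.le
      _ = _ := by ring
  have hGH : G * H ≤ KA * (1 + D9a) * c * J := by
    have h1 : I ≤ D9a * (c * F) := by
      have h3 : D9a * (c * F) * E ≤ D9a * (c * F) * 1 :=
        mul_le_mul_of_nonneg_left E1 (by positivity)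
      linarith
    have h2 : H ≤ J * ((1 + D9a) * (c * F)) := by
      calc H ≤ a + H := by linarith
        _ = J * (I + c * F) := hJ.symm
        _ ≤ J * ((1 + D9a) * (c * F)) := mul_le_mul_of_nonneg_left (by linarith) hJ0.le
    calc G * H ≤ G * (J * ((1 + D9a) * (c * F))) := mul_le_mul_of_nonneg_left h2 hG0.le
      _ = (G * F) * ((1 + D9a) * c * J) := by ring
      _ ≤ KA * ((1 + D9a) * c * J) := mul_le_mul_of_nonneg_right hGF (by positivity)
      _ = _ := by ring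
  exact ⟨RJ, hHle, hGH⟩

/-- the estimates of one cycle with explicit constants -/
private theorem cyc {a c u X y S A B F G H I J e E Q3 K5 KA K6 K' K7 D5 D6 D7 D9a : ℝ}
    (ha : 0 < a) (hc : 0 < c) (hu0 : 0 < u) (hX0 : 0 < X) (hy0 : 0 < y) (hS0 : 0 < S)
    (hA0 : 0 < A) (hB0 : 0 < B) (hF0 : 0 < F) (hG0 : 0 < G) (hH0 : 0 < H) (hI0 : 0 < I)
    (hJ0 : 0 < J) (hA : A * (S + c * u) = a + y) (hB : B * (A + c * X) = a + S)
    (hF : F * (B + c * y) = a + A) (hG : G * (F + c * S) = a + B) (hH : H * (G + c * A) = a + F)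
    (hI : I * (H + c * B) = a + G) (hJ : J * (I + c * F) = a + H)
    (e0 : 0 ≤ e) (e1 : e ≤ 1) (E1 : E ≤ 1) (hu : c * u ≤ e * S) (hy : R e (y * X) a)
    (hX : 1 ≤ E * X) (hS : S ≤ E * X) (hi : 1 ≤ E * (S * X))
    (hQ3 : Q3 = a * (1 + 3 * c ^ 2)) (hK5 : K5 = 2 * (1 + Q3) / (a * c))
    (hKA : KA = a + (a + 1) / c) (hK6 : K6 = KA * K5) (hK' : K' = KA / c + 4 * a * c)
    (hK7 : K7 = K5 * K') (hD5 : D5 = 3 + 4 * a / c) (hD6 : D6 = (a + 1) / (a * c) + D5)
    (hD7 : D7 = a * K5 + D5 + D6) (hD9a : D9a = (a + K6) * K7 * K5 / c)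
    (hK50 : 0 < K5) (hK60 : 0 < K6) (hK70 : 0 < K7) (hD50 : 0 < D5) (hD9a0 : 0 < D9a) :
    R (D5 * (e + E)) A (a / S) ∧
    R (D5 * (e + E)) B ((a + S) / (c * X)) ∧
    R (D5 * (e + E)) F (F518 a c X S) ∧
    R (D6 * (e + E)) G (a / (F518 a c X S + c * S)) ∧
    R (D7 * (e + E)) H (X * ((S + 1) / (S + q518 a c)) * G518 a c X S) ∧
    R ((K6 / a + (a + 1) * K7) * E) (I * H) a ∧
    R ((a * K7 + D7 + D9a + D5) * (e + E)) J (S / (a * c ^ 2) * G518 a c X S) ∧
    H ≤ exp (D9a * E) * (c * F * J) ∧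
    G * H ≤ KA * (1 + D9a) * c * J := by
  have hE0 : 0 < E := Epos hX0 hX
  obtain ⟨hyX, RA, hAS, hAlo, RB, hBcX, hBc⟩ :=
    cyc1 ha hc hu0 hX0 hy0 hS0 hA0 hB0 hA hB e1 E1 hu hy hX hS hi
  obtain ⟨RF, hFlo, hF1, hF2⟩ := cyc2 ha hc hX0 hy0 hS0 hA0 hB0 hF0 hF e0 hE0 E1 hy hS hyX RA
    hAlo RB hBcX hQ3 hK5 hD5
  obtain ⟨RG, hGF, hGS, hGE⟩ := cyc3 ha hc hS0 hB0 hF0 hG0 hG e0 hE0 E1 hBc RF hF1 hK50 hD50
    hKA hK6 hD6
  obtain ⟨RH, hH1⟩ := cyc4 ha hc hX0 hS0 hA0 hF0 hG0 hH0 hH e0 hE0 hX RA hAS RF hFlo hF1 RG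
    hGS hK50 hD5 hK' hK7 hD6 hD7
  obtain ⟨RI, hIE⟩ := cyc5 ha hc hB0 hF0 hG0 hH0 hI0 hI hE0 E1 hBc hGE hH1 hF2 hK60 hK70 hD9a
  obtain ⟨RJ, hHle, hGH⟩ := cyc6 ha hc hX0 hS0 hF0 hG0 hH0 hI0 hJ0 hJ e0 E1 RF hGF RH hH1 hIE
    hK70 hD9a0
  have hfrac : 0 < 4 * a / c := by positivity
  have h1 : D5 * (e + E) = 3 * e + 3 * E + 4 * a / c * e + 4 * a / c * E := by rw [hD5]; ring
  have h2 := mul_nonneg hfrac.le e0
  have h3 := mul_nonneg hfrac.le hE0.le
  have h4 : 3 * E + e ≤ D5 * (e + E) := by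
    rw [h1]
    linarith only [h2, h3, e0, hE0]
  have h5 : 4 * a / c * E ≤ D5 * (e + E) := by
    rw [h1]
    linarith only [h2, h3, e0, hE0]
  exact ⟨RA.mono h4, RB.mono h5, RF, RG, RH, RI, RJ, hHle, hGH⟩

/-- One cycle of (5,18). -/
theorem chain518 {a c : ℝ} (ha : 0 < a) (hc : 0 < c) : ∃ C : ℝ, 0 < C ∧
    ∀ (x : ℕ → ℝ) (n : ℕ) (e E : ℝ), Eq518 a c x → In518 a c x n e E →
      Out518 a c C x n E (C * (e + E)) (x (n + 1)) (x (n + 3)) := by
  obtain ⟨Q3, hQ3⟩ : ∃ Q3 : ℝ, Q3 = a * (1 + 3 * c ^ 2) := ⟨_, rfl⟩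
  obtain ⟨K5, hK5⟩ : ∃ K5 : ℝ, K5 = 2 * (1 + Q3) / (a * c) := ⟨_, rfl⟩
  obtain ⟨KA, hKA⟩ : ∃ KA : ℝ, KA = a + (a + 1) / c := ⟨_, rfl⟩
  obtain ⟨K6, hK6⟩ : ∃ K6 : ℝ, K6 = KA * K5 := ⟨_, rfl⟩
  obtain ⟨K', hK'⟩ : ∃ K' : ℝ, K' = KA / c + 4 * a * c := ⟨_, rfl⟩
  obtain ⟨K7, hK7⟩ : ∃ K7 : ℝ, K7 = K5 * K' := ⟨_, rfl⟩
  obtain ⟨D5, hD5⟩ : ∃ D5 : ℝ, D5 = 3 + 4 * a / c := ⟨_, rfl⟩
  obtain ⟨D6, hD6⟩ : ∃ D6 : ℝ, D6 = (a + 1) / (a * c) + D5 := ⟨_, rfl⟩
  obtain ⟨D7, hD7⟩ : ∃ D7 : ℝ, D7 = a * K5 + D5 + D6 := ⟨_, rfl⟩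
  obtain ⟨D9a, hD9a⟩ : ∃ D9a : ℝ, D9a = (a + K6) * K7 * K5 / c := ⟨_, rfl⟩
  have hQ30 : 0 < Q3 := by rw [hQ3]; positivity
  have hK50 : 0 < K5 := by rw [hK5]; positivity
  have hKA0 : 0 < KA := by rw [hKA]; positivity
  have hK60 : 0 < K6 := by rw [hK6]; positivity
  have hK'0 : 0 < K' := by rw [hK']; positivity
  have hK70 : 0 < K7 := by rw [hK7]; positivity
  have hD50 : 0 < D5 := by rw [hD5]; positivity
  have hD60 : 0 < D6 := by rw [hD6]; positivity
  have hD70 : 0 < D7 := by rw [hD7]; positivity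
  have hD9a0 : 0 < D9a := by rw [hD9a]; positivity
  have hD80 : 0 < K6 / a + (a + 1) * K7 := by positivity
  have hD90 : 0 < a * K7 := by positivity
  have hDu0 : 0 < KA * (1 + D9a) * c := by positivity
  refine ⟨D5 + D6 + D7 + (K6 / a + (a + 1) * K7) + (a * K7 + D7 + D9a + D5) + D9a +
    KA * (1 + D9a) * c, by positivity, ?_⟩
  intro x n e E h hin
  obtain ⟨h3, h4, h5, h6, h7, h8, h9, h10, h11⟩ := cyc ha hc (h.pos n) (h.pos (n + 1))
    (h.pos (n + 2)) (h.pos (n + 3)) (h.pos (n + 4)) (h.pos (n + 5)) (h.pos (n + 6))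
    (h.pos (n + 7)) (h.pos (n + 8)) (h.pos (n + 9)) (h.pos (n + 10)) (h.eq n) (h.eq (n + 1))
    (h.eq (n + 2)) (h.eq (n + 3)) (h.eq (n + 4)) (h.eq (n + 5)) (h.eq (n + 6)) hin.e0 hin.e1
    hin.E1 hin.hu hin.hy hin.hX hin.hS hin.hi hQ3 hK5 hKA hK6 hK' hK7 hD5 hD6 hD7 hD9a
    hK50 hK60 hK70 hD50 hD9a0
  have hE0 : 0 < E := by
    by_contra h'
    push Not at h'
    have := mul_nonpos_of_nonpos_of_nonneg h' (h.pos (n + 1)).le
    linarith [hin.hX]
  have ht0 : 0 ≤ e + E := by linarith [hin.e0]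
  refine ⟨h3.mono ?_, h4.mono ?_, h5.mono ?_, h6.mono ?_, h7.mono ?_, h8.mono ?_, h9.mono ?_,
    h10.trans ?_, h11.trans ?_⟩
  · exact mul_le_mul_of_nonneg_right (by linarith) ht0
  · exact mul_le_mul_of_nonneg_right (by linarith) ht0
  · exact mul_le_mul_of_nonneg_right (by linarith) ht0
  · exact mul_le_mul_of_nonneg_right (by linarith) ht0
  · exact mul_le_mul_of_nonneg_right (by linarith) ht0
  · exact mul_le_mul_of_nonneg_right (by linarith) hE0.le
  · exact mul_le_mul_of_nonneg_right (by linarith) ht0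
  · refine mul_le_mul_of_nonneg_right (exp_le_exp.2 ?_) ?_
    · exact mul_le_mul_of_nonneg_right (by linarith) hE0.le
    · have h1 := h.pos (n + 6)
      have h2 := h.pos (n + 10)
      positivity
  · exact mul_le_mul_of_nonneg_right (by linarith) (h.pos (n + 10)).le

end Pool.Agent.H78.K4
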