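import Mathlib

/-!
# The potential

`g` is the logarithm of `1 / G`; `A s = log ((exp s + p) / (exp s + q))`.
-/

namespace Pool.Agent.H78.K4

open Real

/-- the properties of `g = -log G`: it passes from `0` to `η` near `s = M / 2` -/
structure GP (η : ℝ) (g : ℝ → ℝ → ℝ) : Prop where
  nonneg : ∀ M s, 0 ≤ g M s
  le : ∀ M s, g M s ≤ η
  small : ∀ ε > 0, ∃ κ, ∀ M s, s ≤ M / 2 - κ → g M s ≤ ε
  large : ∀ ε > 0, ∃ κ, ∀ M s, M / 2 + κ ≤ s → η - ε ≤ g M s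

noncomputable def Af (p q s : ℝ) : ℝ := log ((exp s + p) / (exp s + q))

noncomputable def hf (K s : ℝ) : ℝ := log (1 + K * exp (-s))

/-- the two slopes of the potential for `r > 1` -/
noncomputable def Pgt (l M s : ℝ) : ℝ :=
  max (M - l * s + (1 - 2 * l) * max 0 (-s)) ((1 - l) * M + l * s)

/-- the two slopes of the potential for `r < 1` -/
noncomputable def Plt (l M s : ℝ) : ℝ :=
  min (M - l * s + (1 - 2 * l) * max 0 (-s)) ((1 - l) * M + l * s + 3 * max 0 (-s))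

/-- a potential for the cycles -/
structure PotT (p q ℓ : ℝ) (g P : ℝ → ℝ → ℝ) (ε δ m B : ℝ) (V : ℝ → ℝ → ℝ) : Prop where
  near : ∀ M s, 1 ≤ M → |V M s - P M s| ≤ B
  t1 : ∀ M s M' s', m ≤ M → |s| ≤ M → |M' - (M + Af p q s - g M s)| ≤ ε →
    |s' - (s + ℓ - g M s)| ≤ ε → V M' s' ≤ V M s - δ

/-- a potential for the cycles and for the two changes of description -/
structure Pot (p q ℓ : ℝ) (g : ℝ → ℝ → ℝ) (ε C m B : ℝ) (W : ℝ → ℝ → ℝ) : Prop where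
  low : ∀ M s, 1 ≤ M → |s| ≤ 4 / 5 * M → M ≤ 2 * (W M s + B)
  up : ∀ M s, 1 ≤ M → |s| ≤ 4 / 5 * M → W M s ≤ 3 * M + B
  t1 : ∀ M s M' s', m ≤ M → |s| ≤ 3 / 4 * M → |M' - (M + Af p q s - g M s)| ≤ ε →
    |s' - (s + ℓ - g M s)| ≤ ε → W M' s' ≤ W M s
  t2 : ∀ M s M' s', m ≤ M → 3 / 4 * M ≤ s → s ≤ 4 / 5 * M → |M' - s| ≤ C → |s' - (s - M)| ≤ C →
    W M' s' ≤ W M s
  t3 : ∀ M s M' s', m ≤ M → s ≤ -(3 / 4 * M) → -(4 / 5 * M) ≤ s → |M' - (M - s)| ≤ C →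
    |s' - M| ≤ C → W M' s' ≤ W M s

end Pool.Agent.H78.K4
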