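import Pool.Agent.H78.K4.Def
import Pool.Agent.H78.K4.Pot

/-!
# The functions `g` of the two cases

* `g320 c M s = log (1 + c ^ 2 z)` with `z = e^{2s} / (e^{2s} + c e^M)` in `(0, 1)`, `z ≤ e^{2s-M}/c`,
  `z ≥ 1 - c e^{M-2s}`.
* `g518 a c M s = log (1 + 1 / (c ρ + c ^ 2))` with `ρ = a c e^M (e^s + 1) / (e^{2s} (e^s + q))`,
  where `(e^s + 1) / (e^s + q)` lies between `min 1 (1/q)` and `max 1 (1/q)`.
-/

namespace Pool.Agent.H78.K4

open Real

private theorem gp_kappa {K ε : ℝ} (hK : 0 < K) (hε : 0 < ε) : ∃ κ : ℝ, ∀ t : ℝ, t ≤ -(2 * κ) → K * exp t ≤ ε := by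
  refine ⟨log (K / ε) / 2, fun t ht => ?_⟩
  have h1 : exp t ≤ exp (-log (K / ε)) := exp_le_exp.2 (by linarith)
  have h2 : exp (-log (K / ε)) = ε / K := by
    rw [exp_neg, exp_log (div_pos hK hε), inv_div]
  rw [h2] at h1
  calc K * exp t ≤ K * (ε / K) := mul_le_mul_of_nonneg_left h1 hK.le
    _ = ε := by field_simp

private theorem gp_diff {u v : ℝ} (hu : 0 ≤ u) (h : u ≤ v) : log (1 + v) - log (1 + u) ≤ v - u := by
  have h1 : 0 < 1 + u := by linarith
  have h2 : 0 < 1 + v := by linarith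
  rw [← log_div h2.ne' h1.ne']
  have h3 := log_le_sub_one_of_pos (div_pos h2 h1)
  have h4 : (1 + v) / (1 + u) - 1 = (v - u) / (1 + u) := by field_simp; ring
  rw [h4] at h3
  exact h3.trans (div_le_self (by linarith) (by linarith))

private theorem gp_gen {η c : ℝ} {g : ℝ → ℝ → ℝ} (z : ℝ → ℝ → ℝ) (hη : η = log (1 + c))
    (hg : ∀ M s, g M s = log (1 + z M s)) (z0 : ∀ M s, 0 ≤ z M s) (z1 : ∀ M s, z M s ≤ c)
    {K L : ℝ} (hK : 0 < K) (hL : 0 < L) (hs : ∀ M s, z M s ≤ K * exp (2 * s - M))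
    (hl : ∀ M s, c - z M s ≤ L * exp (M - 2 * s)) : GP η g where
  nonneg M s := by
    rw [hg]
    exact log_nonneg (by linarith [z0 M s])
  le M s := by
    rw [hg, hη]
    exact log_le_log (by linarith [z0 M s]) (by linarith [z1 M s])
  small ε hε := by
    obtain ⟨κ, hκ⟩ := gp_kappa hK hε
    refine ⟨κ, fun M s h => ?_⟩
    rw [hg]
    have h1 := log_le_sub_one_of_pos (show (0 : ℝ) < 1 + z M s by linarith [z0 M s])
    have h2 := hκ (2 * s - M) (by linarith)
    linarith [hs M s]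
  large ε hε := by
    obtain ⟨κ, hκ⟩ := gp_kappa hL hε
    refine ⟨κ, fun M s h => ?_⟩
    rw [hg, hη]
    have h1 := gp_diff (z0 M s) (z1 M s)
    have h2 := hκ (M - 2 * s) (by linarith)
    linarith [hl M s]

theorem gp320 {c : ℝ} (hc : 0 < c) : GP (log (1 + c ^ 2)) (g320 c) := by
  have e2 : ∀ s : ℝ, exp s ^ 2 = exp (2 * s) := fun s => by rw [← exp_nat_mul]; norm_num
  refine gp_gen (c := c ^ 2) (fun M s => c ^ 2 * exp s ^ 2 / (exp s ^ 2 + c * exp M)) rfl ?_ ?_ ?_
    (K := c) (L := c ^ 3) hc (by positivity) ?_ ?_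
  · intro M s
    unfold g320 G320
    rw [one_div, log_inv, neg_neg]
  · intro M s
    positivity
  · intro M s
    rw [div_le_iff₀ (by positivity)]
    nlinarith [exp_pos M, exp_pos s, mul_pos hc (exp_pos M), sq_nonneg c, mul_nonneg (sq_nonneg c) (mul_pos hc (exp_pos M)).le]
  · intro M s
    rw [div_le_iff₀ (by positivity), exp_sub, e2]
    have h1 : c * (exp (2 * s) / exp M) * (exp (2 * s) + c * exp M) =
        c ^ 2 * exp (2 * s) + c * exp (2 * s) ^ 2 / exp M := by
      field_simp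
      ring
    rw [h1]
    have : 0 ≤ c * exp (2 * s) ^ 2 / exp M := by positivity
    linarith
  · intro M s
    have h1 : c ^ 2 - c ^ 2 * exp s ^ 2 / (exp s ^ 2 + c * exp M) = c ^ 3 * exp M / (exp s ^ 2 + c * exp M) := by
      have : exp s ^ 2 + c * exp M ≠ 0 := by positivity
      field_simp
      ring
    rw [h1, div_le_iff₀ (by positivity), exp_sub, e2]
    have h2 : c ^ 3 * (exp M / exp (2 * s)) * (exp (2 * s) + c * exp M) =
        c ^ 3 * exp M + c ^ 4 * exp M ^ 2 / exp (2 * s) := by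
      field_simp
    rw [h2]
    have : 0 ≤ c ^ 4 * exp M ^ 2 / exp (2 * s) := by positivity
    linarith

theorem gp518 {a c : ℝ} (ha : 0 < a) (hc : 0 < c) : GP (log ((1 + c ^ 2) / c ^ 2)) (g518 a c) := by
  have e2 : ∀ s : ℝ, exp (2 * s) = exp s ^ 2 := fun s => by rw [← exp_nat_mul]; norm_num
  obtain ⟨q, hq⟩ : ∃ q, q = q518 a c := ⟨_, rfl⟩
  have q0 : 0 < q := by rw [hq]; unfold q518; positivity
  have hF : ∀ M s, 0 < F518 a c (exp M) (exp s) := fun M s => by
    unfold F518
    rw [← hq]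
    positivity
  have hF' : ∀ M s, F518 a c (exp M) (exp s) * (exp s * (exp s + q)) = a * c * exp M * (exp s + 1) := fun M s => by
    unfold F518
    rw [← hq]
    have : exp s * (exp s + q) ≠ 0 := by positivity
    rw [div_mul_cancel₀ _ this]
  -- bounds for `F`
  have m1 : 1 ≤ max 1 q := le_max_left _ _
  have m2 : q ≤ max 1 q := le_max_right _ _
  have n1 : 1 ≤ max 1 q⁻¹ := le_max_left _ _
  have n2 : q⁻¹ ≤ max 1 q⁻¹ := le_max_right _ _
  have lo : ∀ M s, a * c * exp M ≤ F518 a c (exp M) (exp s) * (exp s * max 1 q) := fun M s => by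
    have h1 := hF' M s
    have h2 : exp s + q ≤ max 1 q * (exp s + 1) := by nlinarith [exp_pos s]
    have h3 : 0 < exp s + 1 := by positivity
    have h4 : a * c * exp M * (exp s + 1) ≤ F518 a c (exp M) (exp s) * (exp s * max 1 q) * (exp s + 1) := by
      rw [← h1]
      have h5 : 0 ≤ F518 a c (exp M) (exp s) * exp s := (mul_pos (hF M s) (exp_pos s)).le
      nlinarith [mul_le_mul_of_nonneg_left h2 h5]
    exact le_of_mul_le_mul_right h4 h3
  have hi : ∀ M s, F518 a c (exp M) (exp s) * exp s ≤ a * c * exp M * max 1 q⁻¹ := fun M s => by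
    have h1 := hF' M s
    have h2 : exp s + 1 ≤ max 1 q⁻¹ * (exp s + q) := by
      have h3 : 1 ≤ max 1 q⁻¹ * q := by
        have := mul_le_mul_of_nonneg_right n2 q0.le
        rwa [inv_mul_cancel₀ q0.ne'] at this
      nlinarith [exp_pos s]
    have h3 : 0 < exp s + q := by positivity
    have h4 : F518 a c (exp M) (exp s) * exp s * (exp s + q) ≤ a * c * exp M * max 1 q⁻¹ * (exp s + q) := by
      have h5 : 0 ≤ a * c * exp M := by positivity
      nlinarith [mul_le_mul_of_nonneg_left h2 h5]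
    exact le_of_mul_le_mul_right h4 h3
  refine gp_gen (c := 1 / c ^ 2) (fun M s => exp s / (c * F518 a c (exp M) (exp s) + c ^ 2 * exp s)) ?_ ?_ ?_ ?_
    (K := max 1 q / (a * c ^ 2)) (L := a * max 1 q⁻¹ / c ^ 2) (by positivity) (by positivity) ?_ ?_
  · congr 1
    field_simp
    ring
  · intro M s
    have h0 := hF M s
    unfold g518 G518
    rw [← log_inv, inv_div]
    congr 1
    field_simp
    ring
  · intro M s
    have h0 := hF M s
    positivity
  · intro M s
    have h0 := hF M s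
    rw [div_le_div_iff₀ (by positivity) (by positivity)]
    nlinarith [mul_pos hc h0]
  · intro M s
    have h0 := hF M s
    have h1 := lo M s
    rw [exp_sub, e2, div_le_iff₀ (by positivity)]
    have h2 : max 1 q / (a * c ^ 2) * (exp s ^ 2 / exp M) * (c * F518 a c (exp M) (exp s) + c ^ 2 * exp s) =
        exp s * (F518 a c (exp M) (exp s) * (exp s * max 1 q)) / (a * c * exp M) +
          max 1 q / a * (exp s ^ 3 / exp M) := by
      field_simp
    rw [h2]
    have h3 : exp s ≤ exp s * (F518 a c (exp M) (exp s) * (exp s * max 1 q)) / (a * c * exp M) := by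
      rw [le_div_iff₀ (by positivity)]
      exact mul_le_mul_of_nonneg_left h1 (exp_pos s).le
    have h4 : 0 ≤ max 1 q / a * (exp s ^ 3 / exp M) := by positivity
    linarith
  · intro M s
    have h0 := hF M s
    have h1 := hi M s
    have h2 : 1 / c ^ 2 - exp s / (c * F518 a c (exp M) (exp s) + c ^ 2 * exp s) =
        F518 a c (exp M) (exp s) / (c ^ 2 * (F518 a c (exp M) (exp s) + c * exp s)) := by
      have : c * F518 a c (exp M) (exp s) + c ^ 2 * exp s ≠ 0 := by positivity
      have : F518 a c (exp M) (exp s) + c * exp s ≠ 0 := by positivity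
      field_simp
      ring
    rw [h2, exp_sub, e2, div_le_iff₀ (by positivity)]
    have h3 : a * max 1 q⁻¹ / c ^ 2 * (exp M / exp s ^ 2) * (c ^ 2 * (F518 a c (exp M) (exp s) + c * exp s)) =
        a * c * exp M * max 1 q⁻¹ / exp s + a * max 1 q⁻¹ * exp M / exp s ^ 2 * F518 a c (exp M) (exp s) := by
      field_simp
      ring
    rw [h3]
    have h4 : F518 a c (exp M) (exp s) ≤ a * c * exp M * max 1 q⁻¹ / exp s := by
      rw [le_div_iff₀ (exp_pos s)]
      exact h1
    have h5 : 0 ≤ a * max 1 q⁻¹ * exp M / exp s ^ 2 * F518 a c (exp M) (exp s) := by positivity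
    linarith

end Pool.Agent.H78.K4
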