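import Pool.Agent.H78.K4.Relab320

/-!
# The transitions between states of (3,20) in the case `a = c`

Here `r = 1`, `p = 1/a`, `q = (1 + a ^ 2) / a`, `p < q`. Put `Λ = (S + p) / (S + q) < 1`,
`E = max 1 S (1/S) / X` (it satisfies the conditions of `In320` with `e = K E`), `C' = C (K + 1)`.
From `chain320`: `x_7 ≤ exp (C' E) X Λ G`, `x_6 ≤ exp (C' E) (X / S) Λ`, and
`x_7 / x_8 ≤ exp (C / x_7) x_6` with `1 / x_7 ≤ C E`.
* `|s| ≤ 3/4 M`, `k = 7`, new state `(log x_7, log x_8)`.
  `S ≤ 1`: `Λ ≤ (1 + p) / (1 + q)` and `E = 1 / (S X)` is small, so `x_7 ≤ X` and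
  `x_7 / x_8 ≤ X / S`. `S ≥ 1`, `E = S / X`: `x_7 ≤ X`: if `S ^ 2 ≤ X / K1` then
  `log Λ ≤ -(q - p) / (S + q) ≤ -C' S / X`; if `S ^ 2 ≥ X / K1` then
  `G ≤ 1 / (1 + a ^ 2 / (1 + a K1))` and `C' E` is small. `x_7 / x_8 ≤ X`: if `S ≥ 2` it is
  `≤ exp (small) X / 2`; if `S ≤ 2` then `Λ ≤ (2 + p) / (2 + q)` and the errors are small.
* `s ≥ 3/4 M`, `k = 1`, new state `(s, log x_2)`: `s ≤ M`, and `S / x_2 = S (X + c w) / (a + S) ≤ X`
  iff `S c w ≤ a X`, true as `c w S ≤ K ≤ a X`.
* `s ≤ -3/4 M`, `k = 6`, new state `(log x_6, log x_7)`: `x_6 ≤ X / S` as above and `x_7 ≥ 1`.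
The new states come from `t1_320` (any `ε`), `t2_320`, `t3_320`; the fields `hM`, `hs` identify
`M'`, `s'` with the logarithms of terms.
-/

namespace Pool.Agent.H78.K4

open Real

/-- `A` is at most `exp (b M)` for large `M` -/
private theorem big_exp {A b M : ℝ} (hb : 0 < b) (h : A / b ≤ M) : A ≤ exp (b * M) := by
  have h1 : A ≤ b * M := by
    rw [div_le_iff₀ hb] at h
    linarith
  have := add_one_le_exp (b * M)
  linarith

/-- an exponent which is smaller than `-log l` -/
private theorem exp_mul_le {t l : ℝ} (hl0 : 0 < l) (ht : t ≤ -log l) : exp t * l ≤ 1 := by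
  calc exp t * l ≤ exp (-log l) * l := mul_le_mul_of_nonneg_right (exp_le_exp.2 ht) hl0.le
    _ = 1 := by rw [exp_neg, exp_log hl0, inv_mul_cancel₀ hl0.ne']

/-- the window of a state with the exact error -/
private theorem st_in' {c K : ℝ} {x : ℕ → ℝ} {n : ℕ} {M s E : ℝ} (hx : ∀ n, 0 < x n) (hK : 0 ≤ K)
    (h : St320 c K x n M s) (hE1 : E ≤ 1) (hKE : K * E ≤ 1) (hX : 1 ≤ E * x (n + 2))
    (hS : x (n + 3) ≤ E * x (n + 2)) (hi : 1 ≤ E * (x (n + 3) * x (n + 2))) :
    In320 c x n (K * E) E := by
  have pX := hx (n + 2)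
  have pS := hx (n + 3)
  have pE : 0 < E := by
    by_contra hc
    push Not at hc
    have := mul_nonpos_of_nonpos_of_nonneg hc pX.le
    linarith
  refine ⟨mul_nonneg hK pE.le, hKE, hE1, ?_, ?_, hX, hS, hi⟩
  · have hw := h.w
    have h1 : c * x n * x (n + 3) ≤ (K * E * x (n + 2)) * x (n + 3) := by
      calc c * x n * x (n + 3) ≤ K := hw
        _ ≤ K * (E * (x (n + 3) * x (n + 2))) := by nlinarith
        _ = _ := by ring
    exact le_of_mul_le_mul_right h1 pS
  · refine h.v.mono ?_
    rw [div_le_iff₀ pX]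
    calc K ≤ K * (E * x (n + 2)) := by nlinarith
      _ = _ := by ring

private theorem q_eq {a : ℝ} (ha : 0 < a) : q320 a a = 1 / a + a := by
  unfold q320
  field_simp

/-- the quotient is at most its value at a larger argument -/
private theorem lam_mono {a S T : ℝ} (ha : 0 < a) (hS : 0 < S) (hST : S ≤ T) :
    (S + 1 / a) / (S + q320 a a) ≤ (T + 1 / a) / (T + q320 a a) := by
  have hp : 0 < 1 / a := by positivity
  rw [q_eq ha, div_le_div_iff₀ (by linarith) (by linarith)]
  nlinarith

private theorem lam_lt {a T : ℝ} (ha : 0 < a) (hT : 0 < T) :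
    0 < (T + 1 / a) / (T + q320 a a) ∧ (T + 1 / a) / (T + q320 a a) < 1 := by
  have hp : 0 < 1 / a := by positivity
  rw [q_eq ha]
  refine ⟨by positivity, ?_⟩
  rw [div_lt_one (by linarith)]
  linarith

private theorem lam_low {a T : ℝ} (ha : 0 < a) (hT : 0 < T) :
    (1 / a) / (1 / a + a) ≤ (T + 1 / a) / (T + q320 a a) := by
  have hp : 0 < 1 / a := by positivity
  rw [q_eq ha, div_le_div_iff₀ (by linarith) (by linarith)]
  nlinarith

private theorem G_bd {c X S : ℝ} (hc : 0 < c) (hX : 0 < X) (hS : 0 < S) :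
    0 < G320 c X S ∧ G320 c X S ≤ 1 ∧ 1 / (1 + c ^ 2) ≤ G320 c X S := by
  have h0 : 0 < S ^ 2 + c * X := by positivity
  have h1 : 0 ≤ c ^ 2 * S ^ 2 / (S ^ 2 + c * X) := by positivity
  have h2 : c ^ 2 * S ^ 2 / (S ^ 2 + c * X) ≤ c ^ 2 := by
    rw [div_le_iff₀ h0, mul_add]
    have := mul_pos (pow_pos hc 2) (mul_pos hc hX)
    linarith
  unfold G320
  refine ⟨by positivity, ?_, ?_⟩
  · rw [div_le_one (by linarith)]
    linarith
  · exact one_div_le_one_div_of_le (by linarith) (by linarith)

/-- In the case `r = 1` the number `max M (M - s)` does not increase. -/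
theorem one320 {a : ℝ} (ha : 0 < a) : ∃ K0 : ℝ, ∀ K ≥ K0, ∃ m : ℝ,
    ∀ (x : ℕ → ℝ) (n : ℕ) (M s : ℝ), Eq320 a a x → St320 a K x n M s → m ≤ M →
      ∃ k, 1 ≤ k ∧ k ≤ 7 ∧ ∃ M' s', St320 a K x (n + k) M' s' ∧
        max M' (M' - s') ≤ max M (M - s) := by
  obtain ⟨C, hC, hch⟩ := chain320 ha ha
  obtain ⟨K1, h1⟩ := t1_320 ha ha
  obtain ⟨K2, h2⟩ := t2_320 ha ha
  obtain ⟨K3, h3⟩ := t3_320 ha ha
  refine ⟨max 1 (max K1 (max K2 K3)), fun K hK => ?_⟩
  have hKK1 : 1 ≤ K := (le_max_left _ _).trans hK
  have hKa : K1 ≤ K := ((le_max_left _ _).trans (le_max_right _ _)).trans hK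
  have hKb : K2 ≤ K := (((le_max_left _ _).trans (le_max_right _ _)).trans (le_max_right _ _)).trans hK
  have hKc : K3 ≤ K := (((le_max_right _ _).trans (le_max_right _ _)).trans (le_max_right _ _)).trans hK
  obtain ⟨m1, h1⟩ := h1 K hKa 1 one_pos
  obtain ⟨C2, m2, h2⟩ := h2 K hKb
  obtain ⟨C3, m3, h3⟩ := h3 K hKc
  have hp : 0 < 1 / a := by positivity
  -- the constants
  obtain ⟨D, hD⟩ : ∃ D, D = C * (K + 1) := ⟨_, rfl⟩
  have hD0 : 0 < D := by rw [hD]; positivity
  obtain ⟨g, hg⟩ : ∃ g, g = (1 / a) / (1 / a + a) * (1 / (1 + a ^ 2)) := ⟨_, rfl⟩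
  have hg0 : 0 < g := by rw [hg]; positivity
  -- `x_7 ≥ g / e * X`
  obtain ⟨D2, hD2⟩ : ∃ D2, D2 = D + C * (3 / g) := ⟨_, rfl⟩
  have hD20 : 0 < D2 := by rw [hD2]; positivity
  obtain ⟨l, hl⟩ : ∃ l, l = (2 + 1 / a) / (2 + q320 a a) := ⟨_, rfl⟩
  obtain ⟨hl0, hl1⟩ := lam_lt ha (two_pos : (0 : ℝ) < 2)
  rw [← hl] at hl0 hl1
  have hll : 0 < -log l := by
    have := log_neg hl0 hl1
    linarith
  obtain ⟨q, hq⟩ : ∃ q, q = q320 a a := ⟨_, rfl⟩
  have hq0 : 0 < q := by rw [hq, q_eq ha]; positivity
  obtain ⟨L, hL⟩ : ∃ L, L = D * (1 + q) / a := ⟨_, rfl⟩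
  have hL0 : 0 < L := by rw [hL]; positivity
  obtain ⟨G0, hG0⟩ : ∃ G0, G0 = 1 / (1 + a ^ 2 / (1 + a * L)) := ⟨_, rfl⟩
  have hG00 : 0 < G0 := by rw [hG0]; positivity
  have hG01 : G0 < 1 := by
    rw [hG0, div_lt_one (by positivity)]
    have : 0 < a ^ 2 / (1 + a * L) := by positivity
    linarith
  have hGl : 0 < -log G0 := by
    have := log_neg hG00 hG01
    linarith
  -- the bound for the errors
  obtain ⟨ε, hε, e1, e2, e3, e4⟩ : ∃ ε : ℝ, 0 < ε ∧ ε ≤ 1 ∧ ε ≤ -log l ∧ ε ≤ -log G0 ∧ ε ≤ log 2 :=
    ⟨min 1 (min (-log l) (min (-log G0) (log 2))),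
      lt_min one_pos (lt_min hll (lt_min hGl (log_pos one_lt_two))), min_le_left _ _,
      (min_le_right _ _).trans (min_le_left _ _),
      ((min_le_right _ _).trans (min_le_right _ _)).trans (min_le_left _ _),
      ((min_le_right _ _).trans (min_le_right _ _)).trans (min_le_right _ _)⟩
  refine ⟨max 1 (max m1 (max m2 (max m3 (max (5 * (K + 2)) (max (5 * (D2 / ε)) (max (K / a) (3 / g))))))), ?_⟩
  intro x n M s hE hst hm
  have w1 : 1 ≤ M := (le_max_left _ _).trans hm
  have hm' := (le_max_right _ _).trans hm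
  have w2 : m1 ≤ M := (le_max_left _ _).trans hm'
  have hm' := (le_max_right _ _).trans hm'
  have w3 : m2 ≤ M := (le_max_left _ _).trans hm'
  have hm' := (le_max_right _ _).trans hm'
  have w4 : m3 ≤ M := (le_max_left _ _).trans hm'
  have hm' := (le_max_right _ _).trans hm'
  have w5 : 5 * (K + 2) ≤ M := (le_max_left _ _).trans hm'
  have hm' := (le_max_right _ _).trans hm'
  have w6 : 5 * (D2 / ε) ≤ M := (le_max_left _ _).trans hm'
  have hm' := (le_max_right _ _).trans hm'
  have w7 : K / a ≤ M := (le_max_left _ _).trans hm'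
  have w8 : 3 / g ≤ M := (le_max_right _ _).trans hm'
  have hx := hE.pos
  obtain ⟨X, hX⟩ : ∃ X, X = x (n + 2) := ⟨_, rfl⟩
  obtain ⟨S, hS⟩ : ∃ S, S = x (n + 3) := ⟨_, rfl⟩
  have pX : 0 < X := by rw [hX]; exact hx _
  have pS : 0 < S := by rw [hS]; exact hx _
  have eM : M = log X := by rw [hX]; exact hst.hM
  have es : s = log S := by rw [hS]; exact hst.hs
  have eX : X = exp M := by rw [eM, exp_log pX]
  have eS : S = exp s := by rw [es, exp_log pS]
  obtain ⟨d1, d2⟩ := abs_le.1 hst.dom
  have hXM : M ≤ X := by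
    have := add_one_le_exp M
    rw [eX]
    linarith
  have hX1 : 1 ≤ X := by linarith
  -- small errors
  have hsm : ∀ E : ℝ, E ≤ exp (-(1 / 5 * M)) → 0 ≤ E → K * E ≤ 1 ∧ E ≤ 1 ∧ D2 * E ≤ ε := by
    intro E hE1 hE0
    have hu : exp (-(1 / 5 * M)) * exp (1 / 5 * M) = 1 := by rw [← exp_add, neg_add_cancel, exp_zero]
    have hb : ∀ A B : ℝ, 0 < B → 0 ≤ A → 5 * (A / B) ≤ M → A * E ≤ B := by
      intro A B hB hA hAB
      have h5 : A / B ≤ exp (1 / 5 * M) := by
        have := add_one_le_exp (1 / 5 * M)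
        linarith
      rw [div_le_iff₀ hB] at h5
      calc A * E ≤ A * exp (-(1 / 5 * M)) := mul_le_mul_of_nonneg_left hE1 hA
        _ ≤ (exp (1 / 5 * M) * B) * exp (-(1 / 5 * M)) := mul_le_mul_of_nonneg_right h5 (exp_pos _).le
        _ = B * (exp (-(1 / 5 * M)) * exp (1 / 5 * M)) := by ring
        _ = B := by rw [hu, mul_one]
    refine ⟨hb K 1 one_pos (by linarith) (by rw [div_one]; linarith), ?_, hb D2 ε hε hD20.le w6⟩
    have := hb 1 1 one_pos zero_le_one (by rw [div_one]; linarith)
    linarith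
  -- consequences of the chain with the error `E`
  have key : ∀ E : ℝ, 0 < E → E ≤ exp (-(1 / 5 * M)) → 1 ≤ E * X → S ≤ E * X → 1 ≤ E * (S * X) →
      x (n + 9) ≤ exp (D * E) * (X * ((S + 1 / a) / (S + q320 a a)) * G320 a X S) ∧
      x (n + 8) ≤ exp (D * E) * (X / S * ((S + 1 / a) / (S + q320 a a))) ∧
      x (n + 9) / x (n + 10) ≤ exp (D2 * E) * (X / S * ((S + 1 / a) / (S + q320 a a))) ∧
      1 ≤ x (n + 9) ∧ D * E ≤ ε ∧ D2 * E ≤ ε := by
    intro E hE0 hEM hEX hES hEi
    obtain ⟨s1, s2, s3⟩ := hsm E hEM hE0.le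
    have hI := st_in' hx (by linarith) hst s2 s1 (by rw [← hX]; exact hEX) (by rw [← hX, ← hS]; exact hES)
      (by rw [← hX, ← hS]; exact hEi)
    have o := hch x n _ _ hE hI
    rw [← hX, ← hS] at o
    have hDE : C * (K * E + E) = D * E := by rw [hD]; ring
    rw [hDE] at o
    obtain ⟨lam1, lam2⟩ := lam_lt ha pS
    have lam3 := lam_low ha pS
    obtain ⟨g1, g2, g3⟩ := G_bd (c := a) ha pX pS
    have hDD : D * E ≤ D2 * E := by
      refine mul_le_mul_of_nonneg_right ?_ hE0.le
      rw [hD2]
      have : 0 < C * (3 / g) := by positivity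
      linarith
    have p9 := hx (n + 9)
    have p10 := hx (n + 10)
    have p8 := hx (n + 8)
    have b6 : x (n + 8) ≤ exp (D * E) * (X / S * ((S + 1 / a) / (S + q320 a a))) := by
      have h := o.x6.le
      rwa [div_self ha.ne', mul_one] at h
    -- lower bound for `x_7`
    have b7 : g / 3 * X ≤ x (n + 9) := by
      have h := o.x7.ge
      have h5 : g * X ≤ X * ((S + 1 / a) / (S + q320 a a)) * G320 a X S := by
        calc g * X = X * ((1 / a) / (1 / a + a)) * (1 / (1 + a ^ 2)) := by rw [hg]; ring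
          _ ≤ _ := mul_le_mul (mul_le_mul_of_nonneg_left lam3 pX.le) g3 (by positivity)
              (mul_pos pX lam1).le
      have h6 : exp (D * E) ≤ 3 := by
        have h7 : exp (D * E) ≤ exp 1 := exp_le_exp.2 (by linarith)
        have h8 := Real.exp_one_lt_d9
        linarith
      have h9 : g * X ≤ 3 * x (n + 9) :=
        h5.trans (h.trans (mul_le_mul_of_nonneg_right h6 p9.le))
      linarith
    have hi9 : C / x (n + 9) ≤ C * (3 / g) * E := by
      rw [div_le_iff₀ p9]
      have h5 : 1 ≤ (3 / g) * E * (g / 3 * X) := by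
        have : (3 / g) * E * (g / 3 * X) = E * X := by field_simp
        rw [this]
        exact hEX
      have h6 : (3 / g) * E * (g / 3 * X) ≤ (3 / g) * E * x (n + 9) :=
        mul_le_mul_of_nonneg_left b7 (by positivity)
      calc C = C * 1 := (mul_one C).symm
        _ ≤ C * ((3 / g) * E * x (n + 9)) := mul_le_mul_of_nonneg_left (h5.trans h6) hC.le
        _ = _ := by ring
    refine ⟨o.x7.le, b6, ?_, ?_, by linarith, s3⟩
    · have h := o.v.ge
      have h5 : x (n + 9) / x (n + 10) ≤ exp (C / x (n + 9)) * x (n + 8) := by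
        rw [div_le_iff₀ p10]
        linarith
      calc x (n + 9) / x (n + 10) ≤ exp (C / x (n + 9)) * x (n + 8) := h5
        _ ≤ exp (C * (3 / g) * E) * (exp (D * E) * (X / S * ((S + 1 / a) / (S + q320 a a)))) :=
            mul_le_mul (exp_le_exp.2 hi9) b6 p8.le (exp_pos _).le
        _ = exp (D2 * E) * (X / S * ((S + 1 / a) / (S + q320 a a))) := by
            rw [← mul_assoc, ← exp_add]
            congr 2
            rw [hD2]
            ring
    · have h5 : 3 / g ≤ X := w8.trans hXM
      rw [div_le_iff₀ hg0] at h5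
      linarith
  have p8 := hx (n + 8)
  have p9 := hx (n + 9)
  have p10 := hx (n + 10)
  -- the error for `S ≤ 1`
  have small : S ≤ 1 → 1 / (S * X) ≤ exp (-(1 / 5 * M)) ∧ 1 ≤ 1 / (S * X) * X ∧ S ≤ 1 / (S * X) * X ∧
      1 ≤ 1 / (S * X) * (S * X) := by
    intro hS1
    have pSX : 0 < S * X := mul_pos pS pX
    have h5 : 1 / (S * X) * X = 1 / S := by field_simp
    have h6 : 1 ≤ 1 / S := by
      rw [le_div_iff₀ pS]
      linarith
    refine ⟨?_, by rw [h5]; exact h6, by rw [h5]; exact hS1.trans h6, by rw [one_div, inv_mul_cancel₀ pSX.ne']⟩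
    rw [eX, eS, ← exp_add, one_div, ← exp_neg]
    exact exp_le_exp.2 (by linarith)
  have hlamS : S ≤ 2 → ∀ t ≤ ε, exp t * ((S + 1 / a) / (S + q320 a a)) ≤ 1 := by
    intro hS2 t ht
    obtain ⟨lam1, -⟩ := lam_lt ha pS
    calc exp t * ((S + 1 / a) / (S + q320 a a)) ≤ exp t * l :=
          mul_le_mul_of_nonneg_left (by rw [hl]; exact lam_mono ha pS hS2) (exp_pos _).le
      _ ≤ 1 := exp_mul_le hl0 (by linarith)
  obtain ⟨lam1, lam2⟩ := lam_lt ha pS
  obtain ⟨g1, g2, g3⟩ := G_bd (c := a) ha pX pS
  by_cases hc1 : 3 / 4 * M ≤ s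
  · -- one step
    obtain ⟨M', s', hst', -, -⟩ := h2 x n M s hE hst w3 hc1
    refine ⟨1, le_rfl, by norm_num, M', s', hst', ?_⟩
    have eM' : M' = s := by
      have h := hst'.hM
      rw [h, es, hS]
    have es' : s' = log (x (n + 4)) := hst'.hs
    have hs0 : 0 ≤ s := by linarith
    have heq := hE.eq n
    rw [← hX, ← hS] at heq
    have hw := hst.w
    rw [← hS] at hw
    have p4 := hx (n + 4)
    have p0 := hx n
    have h5 : S / x (n + 4) ≤ X := by
      rw [div_le_iff₀ p4]
      have h6 : K ≤ a * X := by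
        rw [div_le_iff₀ ha] at w7
        have := mul_le_mul_of_nonneg_right hXM ha.le
        linarith
      have h7 : S * (X + a * x n) ≤ X * (a + S) := by
        have i1 : S * (X + a * x n) = X * S + a * x n * S := by ring
        have i2 : X * (a + S) = X * S + a * X := by ring
        rw [i1, i2]
        linarith
      have h8 : S * (X + a * x n) ≤ (X * x (n + 4)) * (X + a * x n) := by
        calc S * (X + a * x n) ≤ X * (a + S) := h7
          _ = X * (x (n + 4) * (X + a * x n)) := by rw [heq]
          _ = _ := by ring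
      have h9 : 0 < X + a * x n := by positivity
      exact le_of_mul_le_mul_right h8 h9
    have h6 : s - s' ≤ M := by
      rw [es, es', eM, ← log_div pS.ne' p4.ne']
      exact log_le_log (div_pos pS p4) h5
    rw [eM']
    exact max_le (le_max_of_le_left (by linarith)) (le_max_of_le_left h6)
  · push Not at hc1
    by_cases hc2 : s ≤ -(3 / 4 * M)
    · -- six steps
      obtain ⟨M', s', hst', -, -⟩ := h3 x n M s hE hst w4 hc2
      refine ⟨6, by norm_num, by norm_num, M', s', hst', ?_⟩
      have eM' : M' = log (x (n + 8)) := hst'.hM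
      have es' : s' = log (x (n + 9)) := hst'.hs
      have hS1 : S ≤ 1 := by
        rw [eS]
        exact exp_le_one_iff.2 (by linarith)
      obtain ⟨v1, v2, v3, v4⟩ := small hS1
      obtain ⟨-, k2, -, k4, k5, -⟩ := key _ (by positivity) v1 v2 v3 v4
      have h5 : x (n + 8) ≤ X / S := by
        calc x (n + 8) ≤ exp (D * (1 / (S * X))) * (X / S * ((S + 1 / a) / (S + q320 a a))) := k2
          _ = X / S * (exp (D * (1 / (S * X))) * ((S + 1 / a) / (S + q320 a a))) := by ring
          _ ≤ X / S * 1 := mul_le_mul_of_nonneg_left (hlamS (by linarith) _ k5) (by positivity)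
          _ = X / S := mul_one _
      have h6 : log (x (n + 8)) ≤ M - s := by
        rw [eM, es, ← log_div pX.ne' pS.ne']
        exact log_le_log p8 h5
      have h7 : 0 ≤ log (x (n + 9)) := log_nonneg k4
      rw [eM', es']
      exact max_le (le_max_of_le_right h6) (le_max_of_le_right (by linarith))
    · push Not at hc2
      -- seven steps
      obtain ⟨M', s', hst', -, -⟩ := h1 x n M s hE hst w2 (abs_le.2 ⟨hc2.le, hc1.le⟩)
      refine ⟨7, by norm_num, le_rfl, M', s', hst', ?_⟩
      have eM' : M' = log (x (n + 9)) := hst'.hM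
      have es' : s' = log (x (n + 10)) := hst'.hs
      by_cases hS1 : S ≤ 1
      · obtain ⟨v1, v2, v3, v4⟩ := small hS1
        obtain ⟨k1, -, k3, -, k5, k6⟩ := key _ (by positivity) v1 v2 v3 v4
        have hs0 : s ≤ 0 := by
          rw [es]
          exact log_nonpos pS.le hS1
        have h5 : x (n + 9) ≤ X := by
          calc x (n + 9) ≤ exp (D * (1 / (S * X))) * (X * ((S + 1 / a) / (S + q320 a a)) * G320 a X S) := k1
            _ = X * (exp (D * (1 / (S * X))) * ((S + 1 / a) / (S + q320 a a))) * G320 a X S := by ring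
            _ ≤ X * 1 * 1 := mul_le_mul (mul_le_mul_of_nonneg_left (hlamS (by linarith) _ k5) pX.le) g2 g1.le
                (by positivity)
            _ = X := by ring
        have h6 : x (n + 9) / x (n + 10) ≤ X / S := by
          calc x (n + 9) / x (n + 10) ≤ exp (D2 * (1 / (S * X))) * (X / S * ((S + 1 / a) / (S + q320 a a))) := k3
            _ = X / S * (exp (D2 * (1 / (S * X))) * ((S + 1 / a) / (S + q320 a a))) := by ring
            _ ≤ X / S * 1 := mul_le_mul_of_nonneg_left (hlamS (by linarith) _ k6) (by positivity)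
            _ = X / S := mul_one _
        have h7 : log (x (n + 9)) ≤ M := by
          rw [eM]
          exact log_le_log p9 h5
        have h8 : log (x (n + 9)) - log (x (n + 10)) ≤ M - s := by
          rw [eM, es, ← log_div pX.ne' pS.ne', ← log_div p9.ne' p10.ne']
          exact log_le_log (div_pos p9 p10) h6
        rw [eM', es']
        exact max_le (le_max_of_le_left h7) (le_max_of_le_right h8)
      · push Not at hS1
        have hs0 : 0 ≤ s := by
          rw [es]
          exact log_nonneg hS1.le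
        have v1 : S / X ≤ exp (-(1 / 5 * M)) := by
          rw [eX, eS, ← exp_sub]
          exact exp_le_exp.2 (by linarith)
        have v3 : S / X * X = S := by field_simp
        have v4 : 1 ≤ S / X * (S * X) := by
          have : S / X * (S * X) = S * S := by field_simp
          rw [this]
          exact one_le_mul_of_one_le_of_one_le hS1.le hS1.le
        obtain ⟨k1, -, k3, -, k5, k6⟩ := key (S / X) (by positivity) v1 (by rw [v3]; exact hS1.le)
          (by rw [v3]) v4
        have h5 : x (n + 9) ≤ X := by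
          by_cases hT : S ^ 2 * L ≤ X
          · -- the quotient wins
            have h6 : exp (D * (S / X)) * ((S + 1 / a) / (S + q320 a a)) ≤ 1 := by
              refine exp_mul_le lam1 ?_
              have h7 : (a : ℝ) / (S + q) ≤ -log ((S + 1 / a) / (S + q320 a a)) := by
                have h8 := Real.log_le_sub_one_of_pos lam1
                have h9 : (S + 1 / a) / (S + q320 a a) - 1 = -(a / (S + q)) := by
                  rw [← hq]
                  have h10 : q = 1 / a + a := by rw [hq, q_eq ha]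
                  have h11 : 0 < S + q := by linarith
                  rw [div_sub_one h11.ne', ← neg_div]
                  congr 1
                  rw [h10]
                  ring
                linarith
              refine le_trans ?_ h7
              have hSq : 0 < S + q := by linarith
              rw [le_div_iff₀ hSq, mul_div_assoc', div_mul_eq_mul_div, div_le_iff₀ pX]
              have h8 : S * (S + q) ≤ S ^ 2 * (1 + q) := by
                have h12 : S * 1 ≤ S * S := mul_le_mul_of_nonneg_left hS1.le pS.le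
                have h13 : q * (S * 1) ≤ q * (S * S) := mul_le_mul_of_nonneg_left h12 hq0.le
                calc S * (S + q) = S ^ 2 + q * (S * 1) := by ring
                  _ ≤ S ^ 2 + q * (S * S) := by linarith
                  _ = _ := by ring
              have h9 : D * (S ^ 2 * (1 + q)) = a * (S ^ 2 * L) := by
                rw [hL]
                field_simp
              calc D * S * (S + q) = D * (S * (S + q)) := by ring
                _ ≤ D * (S ^ 2 * (1 + q)) := mul_le_mul_of_nonneg_left h8 hD0.le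
                _ = a * (S ^ 2 * L) := h9
                _ ≤ a * X := mul_le_mul_of_nonneg_left hT ha.le
            calc x (n + 9) ≤ exp (D * (S / X)) * (X * ((S + 1 / a) / (S + q320 a a)) * G320 a X S) := k1
              _ = X * (exp (D * (S / X)) * ((S + 1 / a) / (S + q320 a a))) * G320 a X S := by ring
              _ ≤ X * 1 * 1 := mul_le_mul (mul_le_mul_of_nonneg_left h6 pX.le) g2 g1.le (by positivity)
              _ = X := by ring
          · -- the factor `G` wins
            push Not at hT
            have h6 : G320 a X S ≤ G0 := by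
              unfold G320
              rw [hG0]
              refine one_div_le_one_div_of_le (by positivity) ?_
              have h7 : a ^ 2 / (1 + a * L) ≤ a ^ 2 * S ^ 2 / (S ^ 2 + a * X) := by
                rw [div_le_div_iff₀ (by positivity) (by positivity)]
                have h8 : a * X ≤ a * (S ^ 2 * L) := mul_le_mul_of_nonneg_left hT.le ha.le
                calc a ^ 2 * (S ^ 2 + a * X) ≤ a ^ 2 * (S ^ 2 + a * (S ^ 2 * L)) :=
                      mul_le_mul_of_nonneg_left (by linarith) (by positivity)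
                  _ = _ := by ring
              linarith
            have h7 : exp (D * (S / X)) * G320 a X S ≤ 1 :=
              (mul_le_mul_of_nonneg_left h6 (exp_pos _).le).trans (exp_mul_le hG00 (k5.trans e3))
            calc x (n + 9) ≤ exp (D * (S / X)) * (X * ((S + 1 / a) / (S + q320 a a)) * G320 a X S) := k1
              _ = X * ((S + 1 / a) / (S + q320 a a)) * (exp (D * (S / X)) * G320 a X S) := by ring
              _ ≤ X * 1 * 1 := mul_le_mul (mul_le_mul_of_nonneg_left lam2.le pX.le) h7
                  (mul_pos (exp_pos _) g1).le (by positivity)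
              _ = X := by ring
        have h6 : x (n + 9) / x (n + 10) ≤ X := by
          by_cases hS2 : S ≤ 2
          · calc x (n + 9) / x (n + 10) ≤ exp (D2 * (S / X)) * (X / S * ((S + 1 / a) / (S + q320 a a))) := k3
              _ = X / S * (exp (D2 * (S / X)) * ((S + 1 / a) / (S + q320 a a))) := by ring
              _ ≤ X / S * 1 := mul_le_mul_of_nonneg_left (hlamS hS2 _ k6) (by positivity)
              _ ≤ X := by
                rw [mul_one]
                exact div_le_self pX.le hS1.le
          · push Not at hS2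
            have h7 : exp (D2 * (S / X)) ≤ 2 := by
              calc exp (D2 * (S / X)) ≤ exp (log 2) := exp_le_exp.2 (k6.trans e4)
                _ = 2 := exp_log two_pos
            have h8 : X / S ≤ X / 2 := div_le_div_of_nonneg_left pX.le two_pos hS2.le
            calc x (n + 9) / x (n + 10) ≤ exp (D2 * (S / X)) * (X / S * ((S + 1 / a) / (S + q320 a a))) := k3
              _ ≤ 2 * (X / 2 * 1) := mul_le_mul h7 (mul_le_mul h8 lam2.le lam1.le (by positivity))
                  (by positivity) (by norm_num)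
              _ = X := by ring
        have h7 : log (x (n + 9)) ≤ M := by
          rw [eM]
          exact log_le_log p9 h5
        have h8 : log (x (n + 9)) - log (x (n + 10)) ≤ M := by
          rw [eM, ← log_div p9.ne' p10.ne']
          exact log_le_log (div_pos p9 p10) h6
        rw [eM', es']
        exact max_le (le_max_of_le_left h7) (le_max_of_le_left h8)

end Pool.Agent.H78.K4
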