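import Pool.Agent.H78.K4.PotV

/-!
# The potential for all transitions

Take `l`, `ε`, `δ`, `V` from `potT_gt` (`P = Pgt l`) or `potT_lt` (`P = Plt l`).
(1) Pure linear arithmetic: for `M ≥ m`: if `3/4 M ≤ s ≤ 4/5 M`, `|M' - s| ≤ C`,
`|s' - (s - M)| ≤ C`, then `|P M' s' - P M s| ≤ C'`; same for
`-(4/5) M ≤ s ≤ -(3/4) M`, `|M' - (M - s)| ≤ C`, `|s' - M| ≤ C`. Indeed `P s (s - M) = P M s =
(1 - l) M + l s` in the first case and `P (M - s) M = P M s = M - (1 - l) s` in the second case, and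
`P` is Lipschitz (constant `5` or so).
(2) `1/2 M ≤ P M s ≤ 3 M` for `|s| ≤ M`.
(3) Let `C5 = C' + 2 B` (so `V` changes by at most `C5` in the transitions of (1)), `C5 ≥ 0`,
`W M s = V M s + 12 C5 |s| / M`. In `t2`: `|s| / M ≥ 3/4` and `|s'| / M' ≤ 1/3 + small`, in `t3`:
`|s'| / M' ≤ 4/7 + small` and `12 (3/4 - 4/7) > 2`; so `W` decreases for `M` large. In `t1`:
`|M' - M|`, `|s' - s|` are bounded (`Af` is bounded by `|log (p / q)|`, `0 ≤ g ≤ η`), so
`| |s'| / M' - |s| / M | ≤ C6 / M` and `W` decreases as `V` decreases by `δ`.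
-/

namespace Pool.Agent.H78.K4

open Real

private theorem pw_u (s s' : ℝ) : |max 0 (-s') - max 0 (-s)| ≤ |s' - s| := by
  refine (abs_max_sub_max_le_max 0 (-s') 0 (-s)).trans ?_
  rw [sub_self, abs_zero, show -s' - -s = -(s' - s) by ring, abs_neg]
  exact max_le (abs_nonneg _) le_rfl

private theorem pw_lin {x y z a b c X Y Z : ℝ} (hx : |x| ≤ X) (hy : |y| ≤ Y) (hz : |z| ≤ Z)
    (ha : |a| ≤ 2) (hb : |b| ≤ 1) (hc : |c| ≤ 3) : |a * x + b * y + c * z| ≤ 2 * X + Y + 3 * Z := by
  have h1 : |a * x| ≤ 2 * X := by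
    rw [abs_mul]
    exact mul_le_mul ha hx (abs_nonneg _) (by norm_num)
  have h2 : |b * y| ≤ 1 * Y := by
    rw [abs_mul]
    exact mul_le_mul hb hy (abs_nonneg _) (by norm_num)
  have h3 : |c * z| ≤ 3 * Z := by
    rw [abs_mul]
    exact mul_le_mul hc hz (abs_nonneg _) (by norm_num)
  calc |a * x + b * y + c * z| ≤ |a * x| + |b * y| + |c * z| := abs_add_three _ _ _
    _ ≤ _ := by linarith

private theorem pw_lip_gt {l : ℝ} (h0 : -(1 / 4) ≤ l) (h1 : l ≤ 1 / 4) (M s M' s' : ℝ) :
    |Pgt l M' s' - Pgt l M s| ≤ 4 * (|M' - M| + |s' - s|) := by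
  unfold Pgt
  refine (abs_max_sub_max_le_max _ _ _ _).trans (max_le ?_ ?_)
  · have e : M' - l * s' + (1 - 2 * l) * max 0 (-s') - (M - l * s + (1 - 2 * l) * max 0 (-s)) =
        1 * (M' - M) + (-l) * (s' - s) + (1 - 2 * l) * (max 0 (-s') - max 0 (-s)) := by ring
    rw [e]
    have := pw_lin (le_refl |M' - M|) (le_refl |s' - s|) (pw_u s s') (a := 1) (b := -l)
      (c := 1 - 2 * l) (by norm_num) (by rw [abs_le]; constructor <;> linarith)
      (by rw [abs_le]; constructor <;> linarith)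
    have h2 := abs_nonneg (M' - M)
    linarith
  · have e : (1 - l) * M' + l * s' - ((1 - l) * M + l * s) =
        (1 - l) * (M' - M) + l * (s' - s) + 0 * (max 0 (-s') - max 0 (-s)) := by ring
    rw [e]
    have := pw_lin (le_refl |M' - M|) (le_refl |s' - s|) (pw_u s s') (a := 1 - l) (b := l)
      (c := 0) (by rw [abs_le]; constructor <;> linarith)
      (by rw [abs_le]; constructor <;> linarith) (by norm_num)
    have h2 := abs_nonneg (M' - M)
    linarith

private theorem pw_lip_lt {l : ℝ} (h0 : -(1 / 4) ≤ l) (h1 : l ≤ 1 / 4) (M s M' s' : ℝ) :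
    |Plt l M' s' - Plt l M s| ≤ 4 * (|M' - M| + |s' - s|) := by
  unfold Plt
  refine (abs_min_sub_min_le_max _ _ _ _).trans (max_le ?_ ?_)
  · have e : M' - l * s' + (1 - 2 * l) * max 0 (-s') - (M - l * s + (1 - 2 * l) * max 0 (-s)) =
        1 * (M' - M) + (-l) * (s' - s) + (1 - 2 * l) * (max 0 (-s') - max 0 (-s)) := by ring
    rw [e]
    have := pw_lin (le_refl |M' - M|) (le_refl |s' - s|) (pw_u s s') (a := 1) (b := -l)
      (c := 1 - 2 * l) (by norm_num) (by rw [abs_le]; constructor <;> linarith)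
      (by rw [abs_le]; constructor <;> linarith)
    have h2 := abs_nonneg (M' - M)
    linarith
  · have e : (1 - l) * M' + l * s' + 3 * max 0 (-s') - ((1 - l) * M + l * s + 3 * max 0 (-s)) =
        (1 - l) * (M' - M) + l * (s' - s) + 3 * (max 0 (-s') - max 0 (-s)) := by ring
    rw [e]
    have := pw_lin (le_refl |M' - M|) (le_refl |s' - s|) (pw_u s s') (a := 1 - l) (b := l)
      (c := 3) (by rw [abs_le]; constructor <;> linarith)
      (by rw [abs_le]; constructor <;> linarith) (by norm_num)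
    have h2 := abs_nonneg (M' - M)
    linarith

private theorem pw_Af {p q : ℝ} (hp : 0 < p) (hq : 0 < q) (s : ℝ) : |Af p q s| ≤ |log (p / q)| := by
  unfold Af
  have hs := exp_pos s
  have h1 : 0 < (exp s + p) / (exp s + q) := by positivity
  rcases le_total p q with h | h
  · have h2 : p / q ≤ (exp s + p) / (exp s + q) := by
      rw [div_le_div_iff₀ hq (by positivity)]
      nlinarith
    have h3 : (exp s + p) / (exp s + q) ≤ 1 := by
      rw [div_le_one (by positivity)]
      linarith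
    have h4 : log (p / q) ≤ log ((exp s + p) / (exp s + q)) := log_le_log (by positivity) h2
    have h5 : log ((exp s + p) / (exp s + q)) ≤ 0 := log_nonpos h1.le h3
    rw [abs_of_nonpos h5, abs_of_nonpos (h4.trans h5)]
    linarith
  · have h2 : (exp s + p) / (exp s + q) ≤ p / q := by
      rw [div_le_div_iff₀ (by positivity) hq]
      nlinarith
    have h3 : 1 ≤ (exp s + p) / (exp s + q) := by
      rw [le_div_iff₀ (by positivity)]
      linarith
    have h4 : log ((exp s + p) / (exp s + q)) ≤ log (p / q) := log_le_log h1 h2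
    have h5 : 0 ≤ log ((exp s + p) / (exp s + q)) := log_nonneg h3
    rw [abs_of_nonneg h5, abs_of_nonneg (h5.trans h4)]
    exact h4

private theorem pw_core {p q ℓ η ε δ m₀ B₀ A₀ : ℝ} {g P V : ℝ → ℝ → ℝ} (hη : 0 < η) (hg : GP η g)
    (hε : 0 < ε) (hδ : 0 < δ) (hA : ∀ s, |Af p q s| ≤ A₀) (hV : PotT p q ℓ g P ε δ m₀ B₀ V)
    (hlow : ∀ M s, |s| ≤ M → M / 2 ≤ P M s) (hup : ∀ M s, |s| ≤ M → P M s ≤ 3 * M)
    (hlip : ∀ M s M' s', |P M' s' - P M s| ≤ 4 * (|M' - M| + |s' - s|))
    (h2 : ∀ M s, 0 < M → 3 / 4 * M ≤ s → s ≤ 4 / 5 * M → P s (s - M) = P M s)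
    (h3 : ∀ M s, 0 < M → s ≤ -(3 / 4 * M) → -(4 / 5 * M) ≤ s → P (M - s) M = P M s) (C : ℝ) :
    ∃ (m B : ℝ) (W : ℝ → ℝ → ℝ), Pot p q ℓ g ε C m B W := by
  obtain ⟨C', hC'⟩ : ∃ C' : ℝ, C' = max C 0 := ⟨_, rfl⟩
  have hCC : C ≤ C' := by rw [hC']; exact le_max_left _ _
  have hC0 : 0 ≤ C' := by rw [hC']; exact le_max_right _ _
  obtain ⟨E, hE⟩ : ∃ E : ℝ, E = 8 * C' + 2 * |B₀| := ⟨_, rfl⟩
  have hE0 : 0 ≤ E := by rw [hE]; positivity
  obtain ⟨D, hD⟩ : ∃ D : ℝ, D = A₀ + η + ε + |ℓ| := ⟨_, rfl⟩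
  have hA0 : 0 ≤ A₀ := (abs_nonneg _).trans (hA 0)
  have hD0 : 0 < D := by
    rw [hD]
    have := abs_nonneg ℓ
    linarith
  obtain ⟨m, hm⟩ : ∃ m : ℝ, m = |m₀| + 10 * C' + 2 + 2 * D + 24 * D * E / δ := ⟨_, rfl⟩
  have hq0 : 0 ≤ 24 * D * E / δ := by positivity
  have hm0 : m₀ ≤ m := by
    rw [hm]
    have := le_abs_self m₀
    linarith
  have hm10 : 10 * C' + 2 ≤ m := by
    rw [hm]
    have := abs_nonneg m₀
    linarith
  have hmD : 2 * D + 24 * D * E / δ ≤ m := by
    rw [hm]
    have := abs_nonneg m₀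
    linarith
  -- change of `V` under the two changes of description
  have hchg : ∀ M s M' s' M₁ s₁, 1 ≤ M → 1 ≤ M' → P M₁ s₁ = P M s → |M' - M₁| ≤ C' →
      |s' - s₁| ≤ C' → V M' s' ≤ V M s + E := by
    intro M s M' s' M₁ s₁ hM hM' hP hMM hss
    have e1 := hV.near M s hM
    have e2 := hV.near M' s' hM'
    have e3 := hlip M₁ s₁ M' s'
    rw [hP] at e3
    have e4 := le_abs_self B₀
    rw [abs_le] at e1 e2 e3
    rw [hE]
    linarith [e1.1, e1.2, e2.1, e2.2, e3.1, e3.2]
  refine ⟨m, |B₀| + 12 * E, fun M s => V M s + 12 * E * (|s| / M), ?_, ?_, ?_, ?_, ?_⟩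
  · -- low
    intro M s hM hs
    have hM0 : 0 < M := by linarith
    have e1 := hV.near M s hM
    have e2 := hlow M s (by linarith)
    have e3 : 0 ≤ 12 * E * (|s| / M) := by positivity
    have e4 := le_abs_self B₀
    rw [abs_le] at e1
    linarith [e1.1]
  · -- up
    intro M s hM hs
    have hM0 : 0 < M := by linarith
    have e1 := hV.near M s hM
    have e2 := hup M s (by linarith)
    have e5 : |s| / M ≤ 1 := by
      rw [div_le_one hM0]
      linarith
    have e3 : 12 * E * (|s| / M) ≤ 12 * E := by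
      calc 12 * E * (|s| / M) ≤ 12 * E * 1 := mul_le_mul_of_nonneg_left e5 (by positivity)
        _ = 12 * E := mul_one _
    have e4 := le_abs_self B₀
    rw [abs_le] at e1
    linarith [e1.2]
  · -- t1
    intro M s M' s' hM hs hMM hss
    have hM0 : 0 < M := by linarith
    have e1 := hV.t1 M s M' s' (hm0.trans hM) (by linarith) hMM hss
    have e2 := hg.nonneg M s
    have e3 := hg.le M s
    have e4 := hA s
    have hMD : M - D ≤ M' := by
      rw [abs_le] at hMM e4
      have := abs_nonneg ℓ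
      rw [hD]
      linarith [hMM.1, e4.1]
    have hsD : |s'| ≤ |s| + D := by
      have f1 : s' = s + (s' - (s + ℓ - g M s)) + (ℓ - g M s) := by ring
      have f2 : |ℓ - g M s| ≤ |ℓ| + η := by
        calc |ℓ - g M s| ≤ |ℓ| + |g M s| := abs_sub _ _
          _ ≤ |ℓ| + η := by rw [abs_of_nonneg e2]; linarith
      calc |s'| = |s + (s' - (s + ℓ - g M s)) + (ℓ - g M s)| := by rw [← f1]
        _ ≤ |s| + |s' - (s + ℓ - g M s)| + |ℓ - g M s| := abs_add_three _ _ _
        _ ≤ |s| + D := by rw [hD]; linarith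
    have hMD0 : 0 < M - D := by linarith
    have hM'0 : 0 < M' := by linarith
    have hfrac : |s'| / M' - |s| / M ≤ 2 * D / (M - D) := by
      have f1 : |s'| / M' ≤ (|s| + D) / (M - D) := by
        rw [div_le_div_iff₀ hM'0 hMD0]
        exact mul_le_mul hsD hMD hMD0.le (by positivity)
      have f2 : (|s| + D) / (M - D) - |s| / M = D * (M + |s|) / (M * (M - D)) := by
        field_simp
        ring
      have f3 : D * (M + |s|) / (M * (M - D)) ≤ 2 * D / (M - D) := by
        rw [div_le_div_iff₀ (by positivity) hMD0]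
        have f4 : M + |s| ≤ 2 * M := by linarith
        calc D * (M + |s|) * (M - D) ≤ D * (2 * M) * (M - D) :=
              mul_le_mul_of_nonneg_right (mul_le_mul_of_nonneg_left f4 hD0.le) hMD0.le
          _ = 2 * D * (M * (M - D)) := by ring
      linarith
    have hfin : 12 * E * (2 * D / (M - D)) ≤ δ := by
      have f1 : 24 * D * E / δ ≤ M - D := by linarith
      rw [div_le_iff₀ hδ] at f1
      rw [show 12 * E * (2 * D / (M - D)) = (24 * D * E) / (M - D) by ring, div_le_iff₀ hMD0]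
      linarith
    have hmul : 12 * E * (|s'| / M' - |s| / M) ≤ δ :=
      (mul_le_mul_of_nonneg_left hfrac (by positivity)).trans hfin
    linarith
  · -- t2
    intro M s M' s' hM hs1 hs2 hMM hss
    have hM0 : 0 < M := by linarith
    have e0 : C' ≤ M / 10 := by linarith
    have hMM' := hMM.trans hCC
    have hss' := hss.trans hCC
    have hM' : s - C' ≤ M' := by
      rw [abs_le] at hMM'
      linarith [hMM'.1]
    have hM'1 : 1 ≤ M' := by linarith
    have e1 := hchg M s M' s' s (s - M) (by linarith) hM'1 (h2 M s hM0 hs1 hs2) hMM' hss'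
    have hs'b : |s'| ≤ M / 4 + C' := by
      have f1 : |s - M| ≤ M / 4 := by
        rw [abs_le]
        constructor <;> linarith
      calc |s'| = |(s' - (s - M)) + (s - M)| := by ring_nf
        _ ≤ |s' - (s - M)| + |s - M| := abs_add_le _ _
        _ ≤ M / 4 + C' := by linarith
    have f1 : |s'| / M' ≤ 2 / 3 := by
      rw [div_le_iff₀ (by linarith)]
      linarith
    have f2 : 3 / 4 ≤ |s| / M := by
      rw [le_div_iff₀ hM0]
      exact hs1.trans (le_abs_self s)
    have f3 : 12 * E * (|s'| / M') ≤ 12 * E * (2 / 3) := mul_le_mul_of_nonneg_left f1 (by positivity)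
    have f4 : 12 * E * (3 / 4) ≤ 12 * E * (|s| / M) := mul_le_mul_of_nonneg_left f2 (by positivity)
    linarith
  · -- t3
    intro M s M' s' hM hs1 hs2 hMM hss
    have hM0 : 0 < M := by linarith
    have e0 : C' ≤ M / 10 := by linarith
    have hMM' := hMM.trans hCC
    have hss' := hss.trans hCC
    have hM' : M - s - C' ≤ M' := by
      rw [abs_le] at hMM'
      linarith [hMM'.1]
    have hM'1 : 1 ≤ M' := by linarith
    have e1 := hchg M s M' s' (M - s) M (by linarith) hM'1 (h3 M s hM0 hs1 hs2) hMM' hss'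
    have hs'b : |s'| ≤ M + C' := by
      calc |s'| = |(s' - M) + M| := by ring_nf
        _ ≤ |s' - M| + |M| := abs_add_le _ _
        _ ≤ M + C' := by rw [abs_of_pos hM0]; linarith
    have f1 : |s'| / M' ≤ 2 / 3 := by
      rw [div_le_iff₀ (by linarith)]
      linarith
    have f2 : 3 / 4 ≤ |s| / M := by
      rw [le_div_iff₀ hM0, abs_of_neg (by linarith)]
      linarith
    have f3 : 12 * E * (|s'| / M') ≤ 12 * E * (2 / 3) := mul_le_mul_of_nonneg_left f1 (by positivity)
    have f4 : 12 * E * (3 / 4) ≤ 12 * E * (|s| / M) := mul_le_mul_of_nonneg_left f2 (by positivity)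
    linarith

theorem exists_pot {p q r η : ℝ} (hp : 0 < p) (hq : 0 < q) (hr0 : 0 < r) (hr : r ≠ 1) (hη : 0 < η)
    (hpq : p = q * r * exp (-η)) {g : ℝ → ℝ → ℝ} (hg : GP η g) :
    ∃ ε > 0, ∀ C : ℝ, ∃ (m B : ℝ) (W : ℝ → ℝ → ℝ), Pot p q (log r) g ε C m B W := by
  rcases lt_or_gt_of_ne hr with hr1 | hr1
  · obtain ⟨l, hl0, hl1, ε, hε, δ, hδ, m, B, V, hV⟩ := potT_lt hp hq hr0 hr1 hη hpq hg
    refine ⟨ε, hε, pw_core hη hg hε hδ (pw_Af hp hq) hV ?_ ?_
      (fun M s M' s' => pw_lip_lt hl1 (by linarith) M s M' s') ?_ ?_⟩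
    · intro M s hs
      rw [abs_le] at hs
      unfold Plt
      have h1 : 0 ≤ max 0 (-s) := le_max_left _ _
      refine le_min ?_ ?_
      · nlinarith [mul_nonneg (show (0 : ℝ) ≤ 1 - 2 * l by linarith) h1]
      · nlinarith
    · intro M s hs
      rw [abs_le] at hs
      unfold Plt
      have h1 : max 0 (-s) ≤ M := max_le (by linarith) (by linarith)
      refine (min_le_left _ _).trans ?_
      nlinarith [mul_le_mul_of_nonneg_left h1 (show (0 : ℝ) ≤ 1 - 2 * l by linarith)]
    · intro M s hM hs1 hs2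
      unfold Plt
      rw [max_eq_right (show (0 : ℝ) ≤ -(s - M) by linarith),
        max_eq_left (show -s ≤ (0 : ℝ) by linarith)]
      rw [min_eq_left (by nlinarith), min_eq_right (by nlinarith)]
      ring
    · intro M s hM hs1 hs2
      unfold Plt
      rw [max_eq_right (show (0 : ℝ) ≤ -s by linarith),
        max_eq_left (show -M ≤ (0 : ℝ) by linarith)]
      rw [min_eq_right (by nlinarith), min_eq_left (by nlinarith)]
      ring
  · obtain ⟨l, hl0, hl1, ε, hε, δ, hδ, m, B, V, hV⟩ := potT_gt hp hq hr1 hη hpq hg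
    refine ⟨ε, hε, pw_core hη hg hε hδ (pw_Af hp hq) hV ?_ ?_
      (fun M s M' s' => pw_lip_gt (by linarith) hl1 M s M' s') ?_ ?_⟩
    · intro M s hs
      rw [abs_le] at hs
      unfold Pgt
      refine le_trans ?_ (le_max_right _ _)
      nlinarith
    · intro M s hs
      rw [abs_le] at hs
      unfold Pgt
      have h1 : max 0 (-s) ≤ M := max_le (by linarith) (by linarith)
      refine max_le ?_ ?_
      · nlinarith [mul_le_mul_of_nonneg_left h1 (show (0 : ℝ) ≤ 1 - 2 * l by linarith)]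
      · nlinarith
    · intro M s hM hs1 hs2
      unfold Pgt
      rw [max_eq_right (show (0 : ℝ) ≤ -(s - M) by linarith),
        max_eq_left (show -s ≤ (0 : ℝ) by linarith)]
      rw [max_eq_left (by nlinarith), max_eq_right (by nlinarith)]
      ring
    · intro M s hM hs1 hs2
      unfold Pgt
      rw [max_eq_right (show (0 : ℝ) ≤ -s by linarith),
        max_eq_left (show -M ≤ (0 : ℝ) by linarith)]
      rw [max_eq_right (by nlinarith), max_eq_left (by nlinarith)]
      ring

end Pool.Agent.H78.K4
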