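import Pool.Agent.H78.K4.Step320

/-!
# The two changes of description of (3,20)

Write `X = x (n+2)`, `S = x (n+3)`. If `|s| ≤ 4/5 M` then `E = exp (-M/5)` satisfies the conditions
`hX`, `hS`, `hi` of `In320`; a state with constant `K` gives `In320` with `e = K E` if `K E ≤ 1`
(`c w ≤ K / S = K / (S X) * X`, `K / X ≤ K E`).
* `t2_320`: new window `(v, X, S, x_2)` with `x_2 (X + c w) = a + S`: `M' = s`; `c v x_2 ≤
  c exp (K/X) (X/S) (a + S) / X ≤ 3 c (1 + a)`; `X x_2 / S = (1 + a/S) / (1 + c w / X)`,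
  `c w / X ≤ K / (S X) ≤ 1 / S`; so `K0 = 3 c (1 + a) + a + 1` works.
* `t3_320`: new window `(x_4, x_5, x_6, x_7)`: `w3`, `v3` of `Out320`; `M' = log x_6`,
  `s' = log x_7`.
-/

namespace Pool.Agent.H78.K4

open Real

private theorem exp1_le {t : ℝ} (ht : t ≤ 1) : exp t ≤ 3 := by
  have h1 : exp t ≤ exp 1 := exp_le_exp.2 ht
  have h2 := Real.exp_one_lt_d9
  linarith

theorem t2_320 {a c : ℝ} (ha : 0 < a) (hc : 0 < c) : ∃ K0 : ℝ, ∀ K ≥ K0, ∃ C m : ℝ,
    ∀ (x : ℕ → ℝ) (n : ℕ) (M s : ℝ), Eq320 a c x → St320 c K x n M s → m ≤ M → 3 / 4 * M ≤ s →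
      ∃ M' s', St320 c K x (n + 1) M' s' ∧ |M' - s| ≤ C ∧ |s' - (s - M)| ≤ C := by
  refine ⟨3 * c * (1 + a) + a + 1, fun K hK => ⟨a + K, K + 3 * (a + K) + 2, ?_⟩⟩
  intro x n M s hE hS hm hs
  have hac : 0 < 3 * c * (1 + a) := by positivity
  have hK0 : 0 < K := by linarith
  have hM0 : 2 ≤ M := by linarith
  have hw := hE.pos n
  have hv := hE.pos (n + 1)
  have hX := hE.pos (n + 2)
  have hSp := hE.pos (n + 3)
  have h2 := hE.pos (n + 4)
  have heq := hE.eq n
  obtain ⟨w, hw'⟩ : ∃ w, w = x n := ⟨_, rfl⟩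
  obtain ⟨v, hv'⟩ : ∃ w, w = x (n + 1) := ⟨_, rfl⟩
  obtain ⟨X, hX'⟩ : ∃ w, w = x (n + 2) := ⟨_, rfl⟩
  obtain ⟨S, hS'⟩ : ∃ w, w = x (n + 3) := ⟨_, rfl⟩
  obtain ⟨y, hy'⟩ : ∃ w, w = x (n + 4) := ⟨_, rfl⟩
  rw [← hw'] at hw
  rw [← hv'] at hv
  rw [← hX'] at hX
  rw [← hS'] at hSp
  rw [← hy'] at h2
  rw [← hw', ← hX', ← hS', ← hy'] at heq
  have sw := hS.w
  have sv := hS.v
  have sM := hS.hM
  have ss := hS.hs
  have sd := hS.dom
  rw [← hw', ← hS'] at sw
  rw [← hv', ← hS', ← hX'] at sv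
  rw [← hX'] at sM
  rw [← hS'] at ss
  have eX : X = exp M := by rw [sM, exp_log hX]
  have eS : S = exp s := by rw [ss, exp_log hSp]
  have hXM : M ≤ X := by
    have := add_one_le_exp M
    rw [eX]
    linarith
  have hXK : K ≤ X := by linarith
  have hs0 : 0 ≤ s := by linarith
  have hS1 : 1 ≤ S := by
    rw [eS]
    exact one_le_exp hs0
  have hX1 : 1 ≤ X := by linarith
  have hcw : c * w ≤ K / S := by
    rw [le_div_iff₀ hSp]
    exact sw
  have hcw0 : 0 < c * w := mul_pos hc hw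
  have hD : 0 < X + c * w := by linarith
  have ey : y = (a + S) / (X + c * w) := by
    rw [eq_div_iff hD.ne']
    exact heq
  -- comparison of `y`
  have r1 : R (a / S) (a + S) S := by
    refine R.small' hSp ha.le ?_
    rw [div_mul_cancel₀ _ hSp.ne']
  have r2 : R (c * w / X) (X + c * w) X := by
    refine R.small hX hcw0.le ?_
    rw [div_mul_cancel₀ _ hX.ne']
  have hcwX : c * w / X ≤ 1 / S := by
    rw [div_le_div_iff₀ hX hSp]
    calc c * w * S ≤ K := sw
      _ ≤ 1 * X := by linarith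
  have r3 : R (a / S + 1 / S) y (S / X) := by
    rw [ey]
    exact (r1.div r2).mono (by linarith)
  have hlog : |log y - (s - M)| ≤ a / S + 1 / S := by
    have := r3.log_le
    rwa [log_div hSp.ne' hX.ne', ← ss, ← sM] at this
  have haS : a / S + 1 / S ≤ a + 1 := by
    have h3 : a / S ≤ a := div_le_self ha.le hS1
    have h4 : 1 / S ≤ 1 := div_le_self zero_le_one hS1
    linarith
  have hlog2 : |log y - (s - M)| ≤ a + K := by
    have h1K : 1 ≤ K := by linarith
    linarith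
  have hd1 := abs_le.1 sd
  have hl := abs_le.1 hlog2
  refine ⟨s, log y, ⟨?_, ?_, ?_, ?_, ?_, ?_⟩, ?_, hlog2⟩
  · rw [ss, hS']
  · rw [hy']
  · linarith
  · rw [abs_le]
    constructor
    · linarith [hl.1, hl.2, hd1.1, hd1.2]
    · linarith [hl.1, hl.2, hd1.1, hd1.2]
  · show c * x (n + 1) * x (n + 4) ≤ K
    rw [← hv', ← hy']
    have h3 : v * S ≤ 3 * X := by
      have h4 : K / X ≤ 1 := by
        rw [div_le_one hX]
        exact hXK
      calc v * S ≤ exp (K / X) * X := sv.le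
        _ ≤ 3 * X := mul_le_mul_of_nonneg_right (exp1_le h4) hX.le
    have h5 : y * X ≤ a + S := by
      rw [← heq]
      nlinarith
    have h6 : a + S ≤ (1 + a) * S := by nlinarith
    have h7 : c * v * y * (S * X) ≤ 3 * c * (1 + a) * (S * X) := by
      calc c * v * y * (S * X) = c * (v * S) * (y * X) := by ring
        _ ≤ c * (3 * X) * ((1 + a) * S) := by
            refine mul_le_mul (mul_le_mul_of_nonneg_left h3 hc.le) (h5.trans h6) (mul_pos h2 hX).le ?_
            positivity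
        _ = 3 * c * (1 + a) * (S * X) := by ring
    have h8 := le_of_mul_le_mul_right h7 (mul_pos hSp hX)
    linarith
  · show R (K / x (n + 3)) (x (n + 2) * x (n + 4)) (x (n + 3))
    rw [← hS', ← hX', ← hy']
    have h3 : R (a / S + 1 / S) (X * y) (X * (S / X)) := r3.const_mul hX
    have h4 : X * (S / X) = S := by field_simp
    rw [h4] at h3
    refine h3.mono ?_
    rw [← add_div]
    exact div_le_div_of_nonneg_right (by linarith) hSp.le
  · rw [sub_self, abs_zero]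
    linarith

private theorem q_pos {a c : ℝ} (ha : 0 < a) (hc : 0 < c) : 0 < q320 a c := by
  unfold q320
  positivity

/-- bounds for the logarithm of the quotient -/
private theorem quo_bd {a c S : ℝ} (ha : 0 < a) (hc : 0 < c) (hS0 : 0 < S) (hS1 : S ≤ 1) :
    |log ((S + 1 / c) / (S + q320 a c))| ≤
      |log ((1 / c) / (1 + q320 a c))| + |log ((1 + 1 / c) / q320 a c)| := by
  have hq := q_pos ha hc
  have hc' : 0 < 1 / c := by positivity
  have h1 : (1 / c) / (1 + q320 a c) ≤ (S + 1 / c) / (S + q320 a c) := by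
    rw [div_le_div_iff₀ (by positivity) (by positivity)]
    nlinarith [mul_pos hc' hS0, mul_pos hq hS0]
  have h2 : (S + 1 / c) / (S + q320 a c) ≤ (1 + 1 / c) / q320 a c := by
    rw [div_le_div_iff₀ (by positivity) hq]
    nlinarith [mul_pos hc' hS0, mul_pos hq hS0]
  have h3 := log_le_log (by positivity) h1
  have h4 := log_le_log (by positivity) h2
  rw [abs_le]
  constructor
  · linarith [neg_abs_le (log ((1 / c) / (1 + q320 a c))), abs_nonneg (log ((1 + 1 / c) / q320 a c))]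
  · linarith [le_abs_self (log ((1 + 1 / c) / q320 a c)), abs_nonneg (log ((1 / c) / (1 + q320 a c)))]

private theorem G_bd {c X S : ℝ} (hc : 0 < c) (hX : 0 < X) (hS : 0 < S) :
    0 < G320 c X S ∧ |log (G320 c X S)| ≤ log (1 + c ^ 2) := by
  have h1 : 0 < c ^ 2 * S ^ 2 / (S ^ 2 + c * X) := by positivity
  have h2 : c ^ 2 * S ^ 2 / (S ^ 2 + c * X) ≤ c ^ 2 := by
    rw [div_le_iff₀ (by positivity)]
    have h4 : 0 ≤ c ^ 2 * (c * X) := by positivity
    nlinarith
  have h3 : 0 < 1 + c ^ 2 * S ^ 2 / (S ^ 2 + c * X) := by linarith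
  unfold G320
  refine ⟨by positivity, ?_⟩
  rw [one_div, log_inv, abs_neg, abs_of_nonneg (log_nonneg (by linarith))]
  exact log_le_log h3 (by linarith)

theorem t3_320 {a c : ℝ} (ha : 0 < a) (hc : 0 < c) : ∃ K0 : ℝ, ∀ K ≥ K0, ∃ C m : ℝ,
    ∀ (x : ℕ → ℝ) (n : ℕ) (M s : ℝ), Eq320 a c x → St320 c K x n M s → m ≤ M → s ≤ -(3 / 4 * M) →
      ∃ M' s', St320 c K x (n + 6) M' s' ∧ |M' - (M - s)| ≤ C ∧ |s' - M| ≤ C := by
  obtain ⟨C0, hC0, hch⟩ := chain320 ha hc
  refine ⟨C0, fun K hK => ?_⟩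
  have hK0 : 0 < K := by linarith
  obtain ⟨Q, hQ⟩ : ∃ Q, Q = |log ((1 / c) / (1 + q320 a c))| + |log ((1 + 1 / c) / q320 a c)| := ⟨_, rfl⟩
  have hQ0 : 0 ≤ Q := by
    rw [hQ]
    positivity
  have hL : 0 ≤ log (1 + c ^ 2) := log_nonneg (by nlinarith)
  obtain ⟨C, hC⟩ : ∃ C, C = |log (a / c)| + Q + log (1 + c ^ 2) + C0 * (K + 1) := ⟨_, rfl⟩
  have hCp : 0 ≤ C := by
    rw [hC]
    positivity
  refine ⟨C, 5 * K + 5 * C + 1, ?_⟩
  intro x n M s hE hS hm hs
  have hM1 : 1 ≤ M := by linarith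
  have hX := hE.pos (n + 2)
  have hSp := hE.pos (n + 3)
  have sM := hS.hM
  have ss := hS.hs
  have sd := abs_le.1 hS.dom
  have sw := hS.w
  have sv := hS.v
  have eX : x (n + 2) = exp M := by rw [sM, exp_log hX]
  have eS : x (n + 3) = exp s := by rw [ss, exp_log hSp]
  obtain ⟨E, hEd⟩ : ∃ E, E = exp (-(M / 5)) := ⟨_, rfl⟩
  have hE0 : 0 < E := by
    rw [hEd]
    exact exp_pos _
  have hE1 : E ≤ 1 := by
    rw [hEd, exp_le_one_iff]
    linarith
  have hKE : K * E ≤ 1 := by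
    have h1 := add_one_le_exp (M / 5)
    have h2 : K ≤ exp (M / 5) := by linarith
    rw [hEd, exp_neg, ← div_eq_mul_inv, div_le_one (exp_pos _)]
    exact h2
  have hSX : 1 ≤ E * (x (n + 3) * x (n + 2)) := by
    rw [eX, eS, hEd, ← exp_add, ← exp_add]
    exact one_le_exp (by linarith [sd.1])
  have hin : In320 c x n (K * E) E := by
    refine ⟨by positivity, hKE, hE1, ?_, ?_, ?_, ?_, hSX⟩
    · have h1 : c * x n * x (n + 3) ≤ K * E * x (n + 2) * x (n + 3) := by
        calc c * x n * x (n + 3) ≤ K := sw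
          _ = K * 1 := (mul_one K).symm
          _ ≤ K * (E * (x (n + 3) * x (n + 2))) := mul_le_mul_of_nonneg_left hSX hK0.le
          _ = K * E * x (n + 2) * x (n + 3) := by ring
      exact le_of_mul_le_mul_right h1 hSp
    · refine sv.mono ?_
      rw [div_eq_mul_inv, eX, ← exp_neg, hEd]
      exact mul_le_mul_of_nonneg_left (exp_le_exp.2 (by linarith)) hK0.le
    · rw [eX, hEd, ← exp_add]
      exact one_le_exp (by linarith)
    · rw [eX, eS, hEd, ← exp_add]
      exact exp_le_exp.2 (by linarith [sd.2])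
  have ho := hch x n (K * E) E hE hin
  have hDle : C0 * (K * E + E) ≤ C0 * (K + 1) := by
    refine mul_le_mul_of_nonneg_left ?_ hC0.le
    nlinarith
  have hs1 : x (n + 3) ≤ 1 := by
    rw [eS, exp_le_one_iff]
    linarith
  have hq := q_pos ha hc
  have hc' : 0 < 1 / c := by positivity
  have hquo := quo_bd ha hc hSp hs1
  rw [← hQ] at hquo
  obtain ⟨hG0, hG⟩ := G_bd hc hX hSp
  have hquo0 : 0 < (x (n + 3) + 1 / c) / (x (n + 3) + q320 a c) := by positivity
  have h8 := hE.pos (n + 8)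
  have h9 := hE.pos (n + 9)
  have b6 : |log (x (n + 8)) - (M - s)| ≤ C := by
    have h1 := ho.x6.log_le
    rw [log_mul (by positivity) hquo0.ne', log_mul (by positivity) (by positivity), log_div hX.ne' hSp.ne',
      ← sM, ← ss] at h1
    have h2 := abs_le.1 (h1.trans hDle)
    have h3 := abs_le.1 hquo
    rw [abs_le, hC]
    constructor
    · linarith [h2.1, h2.2, h3.1, h3.2, neg_abs_le (log (a / c)), le_abs_self (log (a / c))]
    · linarith [h2.1, h2.2, h3.1, h3.2, neg_abs_le (log (a / c)), le_abs_self (log (a / c))]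
  have b7 : |log (x (n + 9)) - M| ≤ C := by
    have h1 := ho.x7.log_le
    rw [log_mul (by positivity) hG0.ne', log_mul hX.ne' hquo0.ne', ← sM] at h1
    have h2 := abs_le.1 (h1.trans hDle)
    have h3 := abs_le.1 hquo
    have h4 := abs_le.1 hG
    rw [abs_le, hC]
    constructor
    · linarith [h2.1, h2.2, h3.1, h3.2, h4.1, h4.2, abs_nonneg (log (a / c))]
    · linarith [h2.1, h2.2, h3.1, h3.2, h4.1, h4.2, abs_nonneg (log (a / c))]
  have c6 := abs_le.1 b6
  have c7 := abs_le.1 b7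
  refine ⟨log (x (n + 8)), log (x (n + 9)), ⟨rfl, rfl, ?_, ?_, ?_, ?_⟩, b6, b7⟩
  · linarith [c6.1]
  · rw [abs_le]
    constructor
    · linarith [c6.1, c7.1, c7.2]
    · linarith [c6.1, c7.1, c7.2]
  · exact ho.w3.trans hK
  · show R (K / x (n + 8)) (x (n + 7) * x (n + 9)) (x (n + 8))
    refine (ho.v3 hs1).mono ?_
    exact div_le_div_of_nonneg_right hK h8.le

end Pool.Agent.H78.K4
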