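import Pool.Agent.H78.K4.Relab518

/-!
# The transitions between states of (5,18) in the case `a * c ^ 2 = 1`

Here `r = 1`, `q = a (1 + c ^ 2) = a + 1 > 1`. Put `Λ = (S + 1) / (S + q) < 1`,
`E = exp (|s| - M)`, `C' = C ((c + 1) K + 1)`. From `chain518`: `x_7 ≤ exp (C' E) X Λ G`,
`x_5 ≤ exp (C' E) (X / (c S)) Λ` (`F518 = X / (c S) * Λ` as `a c = 1 / c`), and
`x_7 / (c x_9) ≤ exp (C E) x_5`.
* `|s| ≤ 3/4 M`, `k = 7`, new state `(log x_7, log x_9)`.
  `S ≤ 1`: `Λ ≤ 2 / (1 + q)`, the errors are small, so `x_7 ≤ X` and `x_7 / (c x_9) ≤ X / (c S)`.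
  `S ≥ 1`, `E = S / X`: `x_7 ≤ X`: if `S ^ 2 ≤ X / K1` then
  `log Λ ≤ -(q - 1) / (S + q) ≤ -C' S / X`; if `S ^ 2 ≥ X / K1` then `F / S ≤ C K1`, so
  `G ≤ const < 1` and `C' E` is small. `x_7 / (c x_9) ≤ max X (X / (c S))`: for `S ≤ S0` use
  `Λ ≤ (S0 + 1) / (S0 + q)`, for `S ≥ S0 = 2 / c + 1` it is `≤ exp (small) X / 2`.
* `s ≥ 3/4 M`, `k = 2`, new state `(s, log x_4)`: `s ≤ M`, and
  `S / (c x_4) = S (x_3 + c X) / (c (a + S)) ≤ X` iff `S x_3 ≤ a c X`; `S x_3 ≤ a + y`.
* `s ≤ -3/4 M`, `k = 5`, new state `(log x_5, log x_7)`: `x_5 ≤ X / (c S)` as above and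
  `c x_7 ≥ 1`.
The new states come from `t1_518` (any `ε`), `t2_518`, `t3_518`; the fields `hM`, `hs` identify
`M'`, `s'` with the logarithms of terms.
-/

namespace Pool.Agent.H78.K4

open Real

private theorem o5X {a c K : ℝ} {x : ℕ → ℝ} {n : ℕ} {M s : ℝ} (hE : Eq518 a c x)
    (h : St518 a K x n M s) : x (n + 1) = exp M := by
  rw [h.hM, exp_log (hE.pos _)]

private theorem o5S {a c K : ℝ} {x : ℕ → ℝ} {n : ℕ} {M s : ℝ} (hE : Eq518 a c x)
    (h : St518 a K x n M s) : x (n + 3) = exp s := by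
  rw [h.hs, exp_log (hE.pos _)]

/-- a positive number times `exp (-M/5)` is small for large `M` -/
private theorem o5small {B δ M : ℝ} (hB : 0 < B) (hδ : 0 < δ) (h : 5 * |log (B / δ)| ≤ M) :
    B * exp (-(M / 5)) ≤ δ := by
  have h1 : B = δ * exp (log (B / δ)) := by
    rw [exp_log (div_pos hB hδ)]
    field_simp
  have h2 := le_abs_self (log (B / δ))
  calc B * exp (-(M / 5)) = δ * exp (log (B / δ) + -(M / 5)) := by
        rw [exp_add, ← mul_assoc, ← h1]
    _ ≤ δ * exp 0 := mul_le_mul_of_nonneg_left (exp_le_exp.2 (by linarith)) hδ.le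
    _ = δ := by rw [exp_zero, mul_one]

private theorem o5E {a K : ℝ} {x : ℕ → ℝ} {n : ℕ} {M s : ℝ} (h : St518 a K x n M s) :
    exp (|s| - M) ≤ exp (-(M / 5)) := exp_le_exp.2 (by linarith [h.dom])

private theorem o5In {a c K : ℝ} {x : ℕ → ℝ} {n : ℕ} {M s : ℝ} (hK : 0 ≤ K)
    (hE : Eq518 a c x) (h : St518 a K x n M s) (h1 : (c + 1) * K * exp (|s| - M) ≤ 1) :
    In518 a c x n ((c + 1) * K * exp (|s| - M)) (exp (|s| - M)) := by
  have hc := hE.c0
  have hX := o5X hE h
  have hS := o5S hE h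
  have hM1 := h.one
  have hd := h.dom
  have hs0 := abs_nonneg s
  have hEpos := exp_pos (|s| - M)
  have hEX : exp (|s| - M) * exp M = exp |s| := by rw [← exp_add]; congr 1; ring
  have hEM : exp (-M) ≤ exp (|s| - M) := exp_le_exp.2 (by linarith)
  refine ⟨by positivity, h1, ?_, ?_, ?_, ?_, ?_, ?_⟩
  · rw [exp_le_one_iff]
    linarith
  · have hu := h.u
    rw [hX, hS] at hu
    rw [hS]
    have h2 : x n ≤ K * exp s * exp (-M) := by
      have h3 : exp M * exp (-M) = 1 := by rw [← exp_add]; simp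
      calc x n = x n * exp M * exp (-M) := by rw [mul_assoc, h3, mul_one]
        _ ≤ K * exp s * exp (-M) := mul_le_mul_of_nonneg_right hu (exp_pos _).le
    have hs := exp_pos s
    calc c * x n ≤ c * (K * exp s * exp (-M)) := mul_le_mul_of_nonneg_left h2 hc.le
      _ = (c * K * exp s) * exp (-M) := by ring
      _ ≤ (c * K * exp s) * exp (|s| - M) := mul_le_mul_of_nonneg_left hEM (by positivity)
      _ ≤ (c + 1) * K * exp (|s| - M) * exp s := by
          have : 0 ≤ K * exp (|s| - M) * exp s := by positivity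
          linarith
  · refine h.y.mono ?_
    have : 0 ≤ c * (K * exp (|s| - M)) := by positivity
    linarith
  · rw [hX, hEX]
    exact one_le_exp hs0
  · rw [hX, hS, hEX]
    exact exp_le_exp.2 (le_abs_self s)
  · rw [hX, hS]
    have : exp (|s| - M) * (exp s * exp M) = exp (|s| + s) := by
      rw [← exp_add, ← exp_add]; congr 1; ring
    rw [this]
    exact one_le_exp (by linarith [neg_abs_le s])

/-- `exp δ * l ≤ 1` for `δ ≤ -log l` -/
private theorem o5el {δ l : ℝ} (hl : 0 < l) (h : δ ≤ -log l) : exp δ * l ≤ 1 := by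
  calc exp δ * l ≤ exp (-log l) * l := mul_le_mul_of_nonneg_right (exp_le_exp.2 h) hl.le
    _ = 1 := by rw [exp_neg, exp_log hl, inv_mul_cancel₀ hl.ne']

/-- `Λ` is increasing in `S` -/
private theorem o5L {q S T : ℝ} (hq : 1 < q) (hS : 0 < S) (h : S ≤ T) :
    (S + 1) / (S + q) ≤ (T + 1) / (T + q) := by
  rw [div_le_div_iff₀ (by linarith) (by linarith)]
  nlinarith

/-- the numbers of one cycle in the case `r = 1`: `X`, `S`, `F = x 6`, `H = x 8`, `J = x 10` -/
private theorem o5main {c q X S F Fv H J G Λ E CC C1 D g δ K1 l1 l2 S0 : ℝ}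
    (hc : 0 < c) (hq : 1 < q) (hX : 0 < X) (hS : 0 < S) (hF : 0 < F) (hJ : 0 < J)
    (hΛ : Λ = (S + 1) / (S + q)) (hFv : Fv * (c * S) = X * Λ)
    (hG : G = (c * Fv + c ^ 2 * S) / (c * Fv + (1 + c ^ 2) * S))
    (o6 : F ≤ exp D * Fv) (o8 : H ≤ exp D * (X * Λ * G)) (o79 : H ≤ exp (C1 * E) * (c * F * J))
    (hC1 : 0 < C1) (hE : 0 < E) (hD0 : 0 ≤ D) (hCC : D + C1 * E = CC * E) (hCC0 : 0 < CC)
    (hδ : CC * E ≤ δ) (hl1 : exp δ * l1 ≤ 1) (hl2 : exp δ * l2 ≤ 1) (hg : exp δ * g ≤ 1)
    (hδ2 : exp δ ≤ 2) (hl1d : l1 = 2 / (1 + q)) (hS0 : S0 = 2 / c + 1)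
    (hl2d : l2 = (S0 + 1) / (S0 + q)) (hK1 : K1 = CC * (1 + q) / (q - 1))
    (hgd : g = 1 - 1 / (K1 + 1 + c ^ 2)) (hEX : 1 ≤ S → E * X = S) :
    H ≤ X ∧ (H * S ≤ X * J ∨ H ≤ X * (c * J)) := by
  have hΛ0 : 0 < Λ := by rw [hΛ]; positivity
  have hΛ1 : Λ ≤ 1 := by
    rw [hΛ, div_le_one (by linarith)]
    linarith
  have hFv0 : 0 < Fv := by
    have h1 : 0 < Fv * (c * S) := by rw [hFv]; positivity
    exact pos_of_mul_pos_left h1 (by positivity)
  have hG0 : 0 < G := by rw [hG]; positivity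
  have hG1 : G ≤ 1 := by
    rw [hG, div_le_one (by positivity)]
    linarith
  have eD : exp D ≤ exp δ := exp_le_exp.2 (by nlinarith [mul_pos hC1 hE])
  have eDC : exp (C1 * E) * exp D ≤ exp δ := by
    rw [← exp_add]
    exact exp_le_exp.2 (by linarith)
  have hq0 : 0 < q := by linarith
  have hS00 : 0 < S0 := by rw [hS0]; positivity
  -- the first inequality
  have A : H ≤ X := by
    rcases le_or_gt S 1 with h1 | h1
    · have h2 : Λ ≤ l1 := by
        rw [hΛ, hl1d]
        have := o5L hq hS h1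
        norm_num at this
        exact this
      have hl10 : 0 < l1 := by
        rw [hl1d]
        positivity
      have hXl : 0 ≤ X * l1 := by positivity
      calc H ≤ exp D * (X * Λ * G) := o8
        _ ≤ exp δ * (X * l1 * 1) := by gcongr
        _ = X * (exp δ * l1) := by ring
        _ ≤ X * 1 := mul_le_mul_of_nonneg_left hl1 hX.le
        _ = X := mul_one X
    · have hEX' := hEX h1.le
      rcases le_or_gt (K1 * S ^ 2) X with h2 | h2
      · -- `log Λ` beats the error
        have h3 : Λ ≤ exp (-(CC * E)) := by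
          have h4 : CC * E * (S + q) ≤ q - 1 := by
            have h5 : CC * (1 + q) * S ^ 2 ≤ (q - 1) * X := by
              rw [hK1] at h2
              have h6 : CC * (1 + q) / (q - 1) * S ^ 2 * (q - 1) = CC * (1 + q) * S ^ 2 := by
                have : q - 1 ≠ 0 := by linarith
                field_simp
              have h7 := mul_le_mul_of_nonneg_right h2 (show (0 : ℝ) ≤ q - 1 by linarith)
              rw [h6] at h7
              linarith
            have h8 : CC * E * (S + q) * X ≤ (q - 1) * X := by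
              calc CC * E * (S + q) * X = CC * (E * X) * (S + q) := by ring
                _ = CC * S * (S + q) := by rw [hEX']
                _ ≤ CC * S * ((1 + q) * S) := by
                    refine mul_le_mul_of_nonneg_left ?_ (by positivity)
                    nlinarith
                _ = CC * (1 + q) * S ^ 2 := by ring
                _ ≤ _ := h5
            exact le_of_mul_le_mul_right h8 hX
          have h9 : Λ = 1 - (q - 1) / (S + q) := by
            rw [hΛ]
            field_simp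
            ring
          have h10 : CC * E ≤ (q - 1) / (S + q) := by
            rw [le_div_iff₀ (by linarith)]
            exact h4
          have h11 := add_one_le_exp (-(CC * E))
          linarith
        calc H ≤ exp D * (X * Λ * G) := o8
          _ ≤ exp (CC * E) * (X * exp (-(CC * E)) * 1) := by
              gcongr
              nlinarith [mul_pos hC1 hE]
          _ = X * (exp (CC * E) * exp (-(CC * E))) := by ring
          _ = X := by rw [← exp_add, add_neg_cancel, exp_zero, mul_one]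
      · -- `G` is at most `g`
        have h3 : G ≤ g := by
          have h4 : c * Fv ≤ K1 * S := by
            have h5 : c * Fv * S ≤ K1 * S * S := by
              calc c * Fv * S = Fv * (c * S) := by ring
                _ = X * Λ := hFv
                _ ≤ X * 1 := mul_le_mul_of_nonneg_left hΛ1 hX.le
                _ ≤ K1 * S * S := by linarith [h2, show K1 * S ^ 2 = K1 * S * S by ring]
            exact le_of_mul_le_mul_right h5 hS
          have hK10 : 0 < K1 := by
            rw [hK1]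
            have : 0 < q - 1 := by linarith
            positivity
          have h6 : G = 1 - S / (c * Fv + (1 + c ^ 2) * S) := by
            rw [hG]
            field_simp
            ring
          have h7 : 1 / (K1 + 1 + c ^ 2) ≤ S / (c * Fv + (1 + c ^ 2) * S) := by
            rw [div_le_div_iff₀ (by positivity) (by positivity)]
            linarith
          linarith
        have hg0 : 0 < g := lt_of_lt_of_le hG0 h3
        calc H ≤ exp D * (X * Λ * G) := o8
          _ ≤ exp δ * (X * 1 * g) := by gcongr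
          _ = X * (exp δ * g) := by ring
          _ ≤ X * 1 := mul_le_mul_of_nonneg_left hg hX.le
          _ = X := mul_one X
  refine ⟨A, ?_⟩
  have hFS : F * (c * S) ≤ exp D * (X * Λ) := by
    calc F * (c * S) ≤ exp D * Fv * (c * S) := mul_le_mul_of_nonneg_right o6 (by positivity)
      _ = exp D * (X * Λ) := by rw [mul_assoc, hFv]
  have hHS : H * S ≤ exp δ * Λ * (X * J) := by
    calc H * S ≤ exp (C1 * E) * (c * F * J) * S := mul_le_mul_of_nonneg_right o79 hS.le
      _ = exp (C1 * E) * (F * (c * S)) * J := by ring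
      _ ≤ exp (C1 * E) * (exp D * (X * Λ)) * J := by gcongr
      _ = exp (C1 * E) * exp D * (Λ * X * J) := by ring
      _ ≤ exp δ * (Λ * X * J) := mul_le_mul_of_nonneg_right eDC (by positivity)
      _ = _ := by ring
  rcases le_or_gt S S0 with h1 | h1
  · left
    have h2 : Λ ≤ l2 := by
      rw [hΛ, hl2d]
      exact o5L hq hS h1
    calc H * S ≤ exp δ * Λ * (X * J) := hHS
      _ ≤ exp δ * l2 * (X * J) := by gcongr
      _ ≤ 1 * (X * J) := mul_le_mul_of_nonneg_right hl2 (by positivity)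
      _ = X * J := one_mul _
  · right
    have h2 : 2 ≤ c * S := by
      have h3 : c * S0 = 2 + c := by rw [hS0]; field_simp
      have h4 := mul_lt_mul_of_pos_left h1 hc
      linarith
    have h3 : H * S ≤ X * (c * J) * S := by
      calc H * S ≤ exp δ * Λ * (X * J) := hHS
        _ ≤ 2 * 1 * (X * J) := by gcongr
        _ ≤ c * S * (X * J) := by
            refine mul_le_mul_of_nonneg_right (by linarith) (by positivity)
        _ = X * (c * J) * S := by ring
    exact le_of_mul_le_mul_right h3 hS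

/-- In the case `r = 1` the number `max M (M - s - log c)` does not increase. -/
theorem one518 {a c : ℝ} (ha : 0 < a) (hc : 0 < c) (h1 : a * c ^ 2 = 1) : ∃ K0 : ℝ, ∀ K ≥ K0,
    ∃ m : ℝ, ∀ (x : ℕ → ℝ) (n : ℕ) (M s : ℝ), Eq518 a c x → St518 a K x n M s → m ≤ M →
      ∃ k, 1 ≤ k ∧ k ≤ 7 ∧ ∃ M' s', St518 a K x (n + k) M' s' ∧
        max M' (M' - s' - log c) ≤ max M (M - s - log c) := by
  obtain ⟨C1, hC1, hch⟩ := chain518 ha hc
  obtain ⟨k1, ht1⟩ := t1_518 ha hc
  obtain ⟨k2, ht2⟩ := t2_518 ha hc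
  obtain ⟨k3, ht3⟩ := t3_518 ha hc
  obtain ⟨q, hqd⟩ : ∃ q, q = q518 a c := ⟨_, rfl⟩
  have hqa : q = a + 1 := by
    rw [hqd, q518]
    linarith
  have hq : 1 < q := by linarith
  refine ⟨max (max k1 k2) (max k3 1), fun K hK => ?_⟩
  have hK1 : k1 ≤ K := (le_max_left _ _).trans ((le_max_left _ _).trans hK)
  have hK2 : k2 ≤ K := (le_max_right _ _).trans ((le_max_left _ _).trans hK)
  have hK3 : k3 ≤ K := (le_max_left _ _).trans ((le_max_right _ _).trans hK)
  have hK4 : 1 ≤ K := (le_max_right _ _).trans ((le_max_right _ _).trans hK)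
  have hKp : 0 < K := by linarith
  obtain ⟨m1, H1⟩ := ht1 K hK1 1 one_pos
  obtain ⟨C2, m2, H2⟩ := ht2 K hK2
  obtain ⟨C3, m3, H3⟩ := ht3 K hK3
  obtain ⟨CC, hCC⟩ : ∃ CC, CC = C1 * ((c + 1) * K + 1) + C1 := ⟨_, rfl⟩
  have hCC0 : 0 < CC := by rw [hCC]; positivity
  obtain ⟨S0, hS0⟩ : ∃ S0, S0 = 2 / c + 1 := ⟨_, rfl⟩
  have hS00 : 0 < S0 := by rw [hS0]; positivity
  obtain ⟨l1, hl1⟩ : ∃ l1, l1 = 2 / (1 + q) := ⟨_, rfl⟩
  obtain ⟨l2, hl2⟩ : ∃ l2, l2 = (S0 + 1) / (S0 + q) := ⟨_, rfl⟩
  obtain ⟨K1, hK1d⟩ : ∃ K1, K1 = CC * (1 + q) / (q - 1) := ⟨_, rfl⟩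
  obtain ⟨g, hg⟩ : ∃ g, g = 1 - 1 / (K1 + 1 + c ^ 2) := ⟨_, rfl⟩
  have hK10 : 0 < K1 := by
    rw [hK1d]
    have : 0 < q - 1 := by linarith
    positivity
  have hl10 : 0 < l1 := by rw [hl1]; positivity
  have hl11 : l1 < 1 := by
    rw [hl1, div_lt_one (by linarith)]
    linarith
  have hl20 : 0 < l2 := by rw [hl2]; positivity
  have hl21 : l2 < 1 := by
    rw [hl2, div_lt_one (by linarith)]
    linarith
  have hg0 : 0 < g := by
    have h2 : 1 / (K1 + 1 + c ^ 2) < 1 := by
      rw [div_lt_one (by positivity)]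
      have : 0 < c ^ 2 := by positivity
      linarith
    linarith
  have hg1 : g < 1 := by
    have h2 : 0 < 1 / (K1 + 1 + c ^ 2) := by positivity
    linarith
  obtain ⟨δ, hδ⟩ : ∃ δ, δ = min (min (-log l1) (-log l2)) (min (-log g) (log 2)) := ⟨_, rfl⟩
  have hδ0 : 0 < δ := by
    rw [hδ]
    refine lt_min (lt_min ?_ ?_) (lt_min ?_ (log_pos (by norm_num)))
    · linarith [log_neg hl10 hl11]
    · linarith [log_neg hl20 hl21]
    · linarith [log_neg hg0 hg1]
  have d1 : δ ≤ -log l1 := by rw [hδ]; exact (min_le_left _ _).trans (min_le_left _ _)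
  have d2 : δ ≤ -log l2 := by rw [hδ]; exact (min_le_left _ _).trans (min_le_right _ _)
  have d3 : δ ≤ -log g := by rw [hδ]; exact (min_le_right _ _).trans (min_le_left _ _)
  have d4 : δ ≤ log 2 := by rw [hδ]; exact (min_le_right _ _).trans (min_le_right _ _)
  have e1 := o5el hl10 d1
  have e2 := o5el hl20 d2
  have e3 := o5el hg0 d3
  have e4 : exp δ ≤ 2 := by
    calc exp δ ≤ exp (log 2) := exp_le_exp.2 d4
      _ = 2 := exp_log (by norm_num)
  have w1 := abs_nonneg m1
  have w2 := abs_nonneg m2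
  have w3 := abs_nonneg m3
  have w4 := abs_nonneg (log (CC / δ))
  have w5 := abs_nonneg (log ((c + 1) * K / 1))
  have w6 := abs_nonneg (log (4 / c))
  have w7 := abs_nonneg C3
  have w8 := abs_nonneg (log c)
  refine ⟨|m1| + |m2| + |m3| + 5 * |log (CC / δ)| + 5 * |log ((c + 1) * K / 1)| + |log (4 / c)|
    + |C3| + |log c| + 1, ?_⟩
  intro x n M s hE h hm
  have hX := o5X hE h
  have hS := o5S hE h
  have hd := h.dom
  have hM1 := h.one
  have hcK : 0 < (c + 1) * K := by positivity
  have hin1 : (c + 1) * K * exp (|s| - M) ≤ 1 := by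
    calc (c + 1) * K * exp (|s| - M) ≤ (c + 1) * K * exp (-(M / 5)) :=
          mul_le_mul_of_nonneg_left (o5E h) hcK.le
      _ ≤ 1 := o5small hcK one_pos (by linarith)
  have hin := o5In hKp.le hE h hin1
  have hout := hch x n _ _ hE hin
  obtain ⟨E, hEd⟩ : ∃ E, E = exp (|s| - M) := ⟨_, rfl⟩
  have hE0 : 0 < E := by rw [hEd]; exact exp_pos _
  obtain ⟨D, hD⟩ : ∃ D, D = C1 * ((c + 1) * K * exp (|s| - M) + exp (|s| - M)) := ⟨_, rfl⟩
  rw [← hD, ← hEd] at hout
  have hDE : D + C1 * E = CC * E := by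
    rw [hD, hCC, hEd]
    ring
  have hD0 : 0 ≤ D := by
    rw [hD]
    positivity
  have hCE : CC * E ≤ δ := by
    rw [hEd]
    calc CC * exp (|s| - M) ≤ CC * exp (-(M / 5)) :=
          mul_le_mul_of_nonneg_left (o5E h) hCC0.le
      _ ≤ δ := o5small hCC0 hδ0 (by linarith)
  have hX0 : 0 < x (n + 1) := hE.pos _
  have hSp : 0 < x (n + 3) := hE.pos _
  have p6 := hE.pos (n + 6)
  have p8 := hE.pos (n + 8)
  have p10 := hE.pos (n + 10)
  obtain ⟨X, hXX⟩ : ∃ X, X = x (n + 1) := ⟨_, rfl⟩
  obtain ⟨S, hSS⟩ : ∃ S, S = x (n + 3) := ⟨_, rfl⟩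
  rw [← hXX] at hX0 hX
  rw [← hSS] at hSp hS
  have hMX : M = log X := by rw [hXX]; exact h.hM
  have hsS : s = log S := by rw [hSS]; exact h.hs
  obtain ⟨Λ, hΛ⟩ : ∃ Λ, Λ = (S + 1) / (S + q) := ⟨_, rfl⟩
  obtain ⟨Fv, hFd⟩ : ∃ Fv, Fv = F518 a c X S := ⟨_, rfl⟩
  have hFv : Fv * (c * S) = X * Λ := by
    rw [hFd, hΛ, F518, ← hqd]
    have h2 : a * c * X * (S + 1) / (S * (S + q)) * (c * S) =
        (a * c ^ 2) * (X * ((S + 1) / (S + q))) := by
      field_simp
    rw [h2, h1, one_mul]
  obtain ⟨G, hGd⟩ : ∃ G, G = G518 a c X S := ⟨_, rfl⟩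
  have hG : G = (c * Fv + c ^ 2 * S) / (c * Fv + (1 + c ^ 2) * S) := by
    rw [hGd, hFd]
    rfl
  have o6 := hout.x5.le
  have o8 := hout.x7.le
  have o79 := hout.x79
  rw [← hXX, ← hSS] at o6 o8
  rw [← hFd] at o6
  rw [← hGd, ← hqd, ← hΛ] at o8
  have hEX : 1 ≤ S → E * X = S := by
    intro h2
    have h3 : 0 ≤ s := by
      rw [hsS]
      exact log_nonneg h2
    rw [hEd, hX, hS, abs_of_nonneg h3, ← exp_add]
    congr 1
    ring
  obtain ⟨A1, A2⟩ := o5main hc hq hX0 hSp p6 p10 hΛ hFv hG o6 o8 o79 hC1 hE0 hD0 hDE hCC0 hCE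
    e1 e2 e3 e4 hl1 hS0 hl2 hK1d hg hEX
  have hΛ0 : 0 < Λ := by rw [hΛ]; positivity
  rcases le_or_gt |s| (3 / 4 * M) with hs | hs
  · -- one cycle
    obtain ⟨M', s', hst, -, -⟩ := H1 x n M s hE h (by linarith [le_abs_self m1]) hs
    refine ⟨7, by norm_num, le_refl _, M', s', hst, ?_⟩
    have hM' : M' = log (x (n + 8)) := hst.hM
    have hs' : s' = log (x (n + 10)) := hst.hs
    have g1 : M' ≤ M := by
      rw [hM', hMX]
      exact log_le_log p8 A1
    refine max_le (g1.trans (le_max_left _ _)) ?_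
    rcases A2 with A2 | A2
    · refine le_trans ?_ (le_max_right _ _)
      have h2 := log_le_log (mul_pos p8 hSp) A2
      rw [log_mul p8.ne' hSp.ne', log_mul hX0.ne' p10.ne', ← hM', ← hs', ← hMX, ← hsS] at h2
      linarith
    · refine le_trans ?_ (le_max_left _ _)
      have h2 := log_le_log p8 A2
      rw [log_mul hX0.ne' (mul_pos hc p10).ne', log_mul hc.ne' p10.ne', ← hM', ← hs', ← hMX] at h2
      linarith
  · rcases le_or_gt 0 s with hs0 | hs0
    · -- `S` is large
      rw [abs_of_nonneg hs0] at hs hd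
      obtain ⟨M', s', hst, -, -⟩ := H2 x n M s hE h (by linarith [le_abs_self m2]) hs.le
      refine ⟨2, by norm_num, by norm_num, M', s', hst, ?_⟩
      have hM' : M' = log (x (n + 3)) := hst.hM
      have hs' : s' = log (x (n + 5)) := hst.hs
      have p4 := hE.pos (n + 4)
      have p5 := hE.pos (n + 5)
      have p2 := hE.pos (n + 2)
      have p0 := hE.pos n
      rw [← hSS, ← hsS] at hM'
      have eq0 : x (n + 4) * (x (n + 3) + c * x n) = a + x (n + 2) := hE.eq n
      have eq1 : x (n + 5) * (x (n + 4) + c * x (n + 1)) = a + x (n + 3) := hE.eq (n + 1)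
      rw [← hSS] at eq0 eq1
      rw [← hXX] at eq1
      have hX1 : 1 ≤ X := by rw [hX]; exact one_le_exp (by linarith)
      have hy : x (n + 2) ≤ 3 * a := by
        have h2 := hin.hy.le
        rw [← hXX] at h2
        have h3 : exp ((c + 1) * K * exp (|s| - M)) ≤ 3 := by
          have := exp_le_exp.2 hin1
          have := exp_one_lt_d9
          linarith
        have h4 : x (n + 2) ≤ x (n + 2) * X := le_mul_of_one_le_right p2.le hX1
        nlinarith [mul_le_mul_of_nonneg_right h3 ha.le]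
      have h4X : 4 ≤ c * X := by
        have h2 : 4 / c ≤ X := by
          rw [hX, ← exp_log (show (0 : ℝ) < 4 / c by positivity)]
          exact exp_le_exp.2 (by linarith [le_abs_self (log (4 / c))])
        rwa [div_le_iff₀ hc, mul_comm] at h2
      have hSx4 : S * x (n + 4) ≤ a * (c * X) := by
        have h2 : 0 < x (n + 4) * (c * x n) := by positivity
        have h3 := mul_le_mul_of_nonneg_left h4X ha.le
        have h4 := mul_add (x (n + 4)) S (c * x n)
        linarith
      have hfin : S ≤ X * (c * x (n + 5)) := by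
        have h2 : S * (x (n + 4) + c * X) ≤ X * (c * x (n + 5)) * (x (n + 4) + c * X) := by
          have h3 : X * (c * x (n + 5)) * (x (n + 4) + c * X) = X * c * (a + S) := by
            rw [← eq1]
            ring
          rw [h3]
          linarith [mul_add S (x (n + 4)) (c * X)]
        exact le_of_mul_le_mul_right h2 (by positivity)
      have h2 := log_le_log hSp hfin
      rw [log_mul hX0.ne' (mul_pos hc p5).ne', log_mul hc.ne' p5.ne', ← hs', ← hMX, ← hsS] at h2
      refine max_le ?_ ?_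
      · refine le_trans ?_ (le_max_left _ _)
        linarith
      · refine le_trans ?_ (le_max_left _ _)
        linarith
    · -- `S` is small
      rw [abs_of_neg hs0] at hs hd
      obtain ⟨M', s', hst, -, b⟩ := H3 x n M s hE h (by linarith [le_abs_self m3]) (by linarith)
      refine ⟨5, by norm_num, by norm_num, M', s', hst, ?_⟩
      have hM' : M' = log (x (n + 6)) := hst.hM
      have hb := (abs_le.1 b).1
      have hS1 : S ≤ 1 := by rw [hS, exp_le_one_iff]; exact hs0.le
      have h2 : Λ ≤ l1 := by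
        rw [hΛ, hl1]
        have := o5L hq hSp hS1
        norm_num at this
        exact this
      have h3 : x (n + 6) * (c * S) ≤ X := by
        calc x (n + 6) * (c * S) ≤ exp D * Fv * (c * S) :=
              mul_le_mul_of_nonneg_right o6 (by positivity)
          _ = exp D * (X * Λ) := by rw [mul_assoc, hFv]
          _ ≤ exp δ * (X * l1) := by
              gcongr
              nlinarith [mul_pos hC1 hE0]
          _ = X * (exp δ * l1) := by ring
          _ ≤ X * 1 := mul_le_mul_of_nonneg_left e1 hX0.le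
          _ = X := mul_one X
      have h4 := log_le_log (mul_pos p6 (mul_pos hc hSp)) h3
      rw [log_mul p6.ne' (mul_pos hc hSp).ne', log_mul hc.ne' hSp.ne', ← hM', ← hMX, ← hsS] at h4
      refine max_le ?_ ?_
      · refine le_trans ?_ (le_max_right _ _)
        linarith
      · refine le_trans ?_ (le_max_right _ _)
        linarith [le_abs_self C3, neg_abs_le (log c)]

end Pool.Agent.H78.K4
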