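import Pool.Agent.H78.K4.Step518

/-!
# The two changes of description of (5,18)

Write `X = x (n+1)`, `S = x (n+3)`. `E = exp (|s| - M) = max S (1/S) / X` satisfies the conditions
`hX`, `hS`, `hi` of `In518`, and `E ≤ exp (-M/5)` in a state; a state with constant `K` gives
`In518` with `e = (c + 1) K E` if `(c + 1) K E ≤ 1`.
* `t2_518`: new window `(y, S, x_3, x_4)`, `M' = s`, `x_3 (S + c u) = a + y`,
  `x_4 (x_3 + c X) = a + S`: `y S ≤ C S / X ≤ C x_4`; `x_3 S / a = (1 + y/a) / (1 + c u / S)` with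
  `y / a ≤ 2 / X`, `c u / S ≤ c K / X`, while `exp (|s'| - M')` is about `X / S ^ 2 ≥ X^(-3/5)`.
* `t3_518`: new window `(x_4, x_5, x_6, x_7)`: `x_4 x_5 ≤ C / S ≤ x_7`;
  `x_6 x_5 / a = (1 + x_4 / a) / (1 + c S / x_5)`, `x_4 / a ≤ C / X`, `c S / x_5 ≤ C / X`, while
  `exp (|s'| - M')` is about `S ≥ X^(-4/5)`.
-/

namespace Pool.Agent.H78.K4

open Real

private theorem expX {a c K : ℝ} {x : ℕ → ℝ} {n : ℕ} {M s : ℝ} (hE : Eq518 a c x)
    (h : St518 a K x n M s) : x (n + 1) = exp M := by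
  rw [h.hM, exp_log (hE.pos _)]

private theorem expS {a c K : ℝ} {x : ℕ → ℝ} {n : ℕ} {M s : ℝ} (hE : Eq518 a c x)
    (h : St518 a K x n M s) : x (n + 3) = exp s := by
  rw [h.hs, exp_log (hE.pos _)]

/-- a positive number times `exp (-M/5)` is small for large `M` -/
private theorem mul_exp_small {B M : ℝ} (hB : 0 < B) (h : 5 * |log B| ≤ M) :
    B * exp (-(M / 5)) ≤ 1 := by
  have h1 : B = exp (log B) := (exp_log hB).symm
  have h2 := le_abs_self (log B)
  calc B * exp (-(M / 5)) = exp (log B + -(M / 5)) := by rw [exp_add, ← h1]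
    _ ≤ exp 0 := exp_le_exp.2 (by linarith)
    _ = 1 := exp_zero

private theorem E_small {a K : ℝ} {x : ℕ → ℝ} {n : ℕ} {M s : ℝ} (h : St518 a K x n M s) :
    exp (|s| - M) ≤ exp (-(M / 5)) := exp_le_exp.2 (by linarith [h.dom])

private theorem toIn {a c K : ℝ} {x : ℕ → ℝ} {n : ℕ} {M s : ℝ} (hK : 0 ≤ K)
    (hE : Eq518 a c x) (h : St518 a K x n M s) (h1 : (c + 1) * K * exp (|s| - M) ≤ 1) :
    In518 a c x n ((c + 1) * K * exp (|s| - M)) (exp (|s| - M)) := by
  have hc := hE.c0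
  have hX := expX hE h
  have hS := expS hE h
  have hM1 := h.one
  have hd := h.dom
  have hs0 := abs_nonneg s
  have hEpos := exp_pos (|s| - M)
  have hEX : exp (|s| - M) * exp M = exp |s| := by rw [← exp_add]; congr 1; ring
  have hEM : exp (-M) ≤ exp (|s| - M) := exp_le_exp.2 (by linarith)
  refine ⟨by positivity, h1, ?_, ?_, ?_, ?_, ?_, ?_⟩
  · rw [exp_le_one_iff]
    linarith
  · have hu := h.u
    rw [hX, hS] at hu
    rw [hS]
    have h2 : x n ≤ K * exp s * exp (-M) := by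
      have h3 : exp M * exp (-M) = 1 := by rw [← exp_add]; simp
      calc x n = x n * exp M * exp (-M) := by rw [mul_assoc, h3, mul_one]
        _ ≤ K * exp s * exp (-M) := mul_le_mul_of_nonneg_right hu (exp_pos _).le
    have hs := exp_pos s
    calc c * x n ≤ c * (K * exp s * exp (-M)) := mul_le_mul_of_nonneg_left h2 hc.le
      _ = (c * K * exp s) * exp (-M) := by ring
      _ ≤ (c * K * exp s) * exp (|s| - M) := mul_le_mul_of_nonneg_left hEM (by positivity)
      _ ≤ (c + 1) * K * exp (|s| - M) * exp s := by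
          have : 0 ≤ K * exp (|s| - M) * exp s := by positivity
          linarith
  · refine h.y.mono ?_
    have : 0 ≤ c * (K * exp (|s| - M)) := by positivity
    linarith
  · rw [hX, hEX]
    exact one_le_exp hs0
  · rw [hX, hS, hEX]
    exact exp_le_exp.2 (le_abs_self s)
  · rw [hX, hS]
    have : exp (|s| - M) * (exp s * exp M) = exp (|s| + s) := by
      rw [← exp_add, ← exp_add]; congr 1; ring
    rw [this]
    exact one_le_exp (by linarith [neg_abs_le s])

theorem t2_518 {a c : ℝ} (ha : 0 < a) (hc : 0 < c) : ∃ K0 : ℝ, ∀ K ≥ K0, ∃ C m : ℝ,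
    ∀ (x : ℕ → ℝ) (n : ℕ) (M s : ℝ), Eq518 a c x → St518 a K x n M s → m ≤ M → 3 / 4 * M ≤ s →
      ∃ M' s', St518 a K x (n + 2) M' s' ∧ |M' - s| ≤ C ∧ |s' - (s - M)| ≤ C := by
  refine ⟨3 * a * (4 * a + c) + 1, fun K hK => ?_⟩
  have hK1 : 1 ≤ K := by
    have : 0 < 3 * a * (4 * a + c) := by positivity
    linarith
  have hK2 : 3 * a * (4 * a + c) ≤ K := by linarith
  obtain ⟨C, hCdef⟩ : ∃ C, C = |log (4 * a + c)| + |log ((a + 1) / c)| := ⟨_, rfl⟩
  have hC0 : 0 ≤ C := by rw [hCdef]; positivity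
  have hCa : |log (4 * a + c)| ≤ C := by rw [hCdef]; linarith [abs_nonneg (log ((a + 1) / c))]
  have hCb : |log ((a + 1) / c)| ≤ C := by rw [hCdef]; linarith [abs_nonneg (log (4 * a + c))]
  refine ⟨C, 5 * |log K| + 2 + 6 * C + 3 * |log (3 + c)|, ?_⟩
  intro x n M s hE h hm hs
  have hl1 := abs_nonneg (log K)
  have hl2 := abs_nonneg (log (3 + c))
  have hX := expX hE h
  have hS := expS hE h
  have hd := h.dom
  have hM2 : 2 ≤ M := by linarith
  have hs0 : 0 < s := by linarith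
  have habs : |s| = s := abs_of_pos hs0
  rw [habs] at hd
  have hx3 := hE.pos (n + 4)
  have hx4 := hE.pos (n + 5)
  have hy0 := hE.pos (n + 2)
  have hu0 := hE.pos n
  have eq0 : x (n + 4) * (x (n + 3) + c * x n) = a + x (n + 2) := hE.eq n
  have eq1 : x (n + 5) * (x (n + 4) + c * x (n + 1)) = a + x (n + 3) := hE.eq (n + 1)
  have hX1 : 1 ≤ x (n + 1) := by rw [hX]; exact one_le_exp (by linarith)
  have hS1 : 1 ≤ x (n + 3) := by rw [hS]; exact one_le_exp (by linarith)
  have hX0 : 0 < x (n + 1) := by linarith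
  have hS0 : 0 < x (n + 3) := by linarith
  -- the bound for y
  have hKE : K * exp (|s| - M) ≤ 1 := by
    calc K * exp (|s| - M) ≤ K * exp (-(M / 5)) :=
          mul_le_mul_of_nonneg_left (E_small h) (by linarith)
      _ ≤ 1 := mul_exp_small (by linarith) (by linarith)
  have hy : x (n + 2) * x (n + 1) ≤ 3 * a := by
    have h1 := h.y.le
    have h2 : exp (K * exp (|s| - M)) ≤ 3 := by
      have := exp_le_exp.2 hKE
      have h3 := exp_one_lt_d9
      linarith
    exact h1.trans (mul_le_mul_of_nonneg_right h2 ha.le)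
  have hy3 : x (n + 2) ≤ 3 * a := (le_mul_of_one_le_right hy0.le hX1).trans hy
  have h3S : x (n + 4) * x (n + 3) ≤ a + x (n + 2) := by
    have : 0 ≤ x (n + 4) * (c * x n) := by positivity
    linarith
  have h34 : x (n + 4) ≤ 4 * a := by
    have := le_mul_of_one_le_right hx3.le hS1
    linarith
  have h4X : x (n + 4) + c * x (n + 1) ≤ (4 * a + c) * x (n + 1) := by
    have := mul_le_mul_of_nonneg_left hX1 (show (0 : ℝ) ≤ 4 * a by positivity)
    linarith
  have hlow : x (n + 3) ≤ (4 * a + c) * (x (n + 5) * x (n + 1)) := by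
    have := mul_le_mul_of_nonneg_left h4X hx4.le
    linarith
  have hupp : c * (x (n + 5) * x (n + 1)) ≤ (a + 1) * x (n + 3) := by
    have : 0 ≤ x (n + 5) * x (n + 4) := by positivity
    have h1 := mul_le_mul_of_nonneg_left hS1 ha.le
    linarith
  obtain ⟨s', hs'⟩ : ∃ s', s' = log (x (n + 5)) := ⟨_, rfl⟩
  have hx4e : x (n + 5) = exp s' := by rw [hs', exp_log hx4]
  -- the logarithms
  have hlog1 : s ≤ log (4 * a + c) + (s' + M) := by
    have h1 := Real.log_le_log hS0 hlow
    rw [log_mul (by positivity) (by positivity), log_mul hx4.ne' hX0.ne', ← hs', ← h.hM,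
      ← h.hs] at h1
    exact h1
  have hlog2 : s' + M ≤ log ((a + 1) / c) + s := by
    have h1 : x (n + 5) * x (n + 1) ≤ (a + 1) / c * x (n + 3) := by
      rw [div_mul_eq_mul_div, le_div_iff₀ hc]
      linarith
    have h2 := Real.log_le_log (mul_pos hx4 hX0) h1
    rw [log_mul hx4.ne' hX0.ne', log_mul (by positivity) hS0.ne', ← hs', ← h.hM,
      ← h.hs] at h2
    exact h2
  have hb1 : s - M - C ≤ s' := by linarith [le_abs_self (log (4 * a + c))]
  have hb2 : s' ≤ s - M + C := by linarith [le_abs_self (log ((a + 1) / c))]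
  -- the error
  have hdel : (3 + c * K) * exp (-M) ≤ K * exp (|s'| - s) := by
    have h1 : 3 + c * K ≤ K * (3 + c) := by linarith
    have h2 : (3 + c) ≤ exp (2 / 5 * M - C) := by
      have h3 : 3 + c = exp (log (3 + c)) := (exp_log (by positivity)).symm
      rw [h3]
      exact exp_le_exp.2 (by linarith [le_abs_self (log (3 + c))])
    calc (3 + c * K) * exp (-M) ≤ (K * exp (2 / 5 * M - C)) * exp (-M) := by
          refine mul_le_mul_of_nonneg_right (h1.trans ?_) (exp_pos _).le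
          exact mul_le_mul_of_nonneg_left h2 (by linarith)
      _ = K * exp (2 / 5 * M - C + -M) := by rw [mul_assoc, ← exp_add]
      _ ≤ K * exp (|s'| - s) := by
          refine mul_le_mul_of_nonneg_left (exp_le_exp.2 ?_) (by linarith)
          have := neg_abs_le s'
          linarith
  have hexpM : exp (-M) * x (n + 1) = 1 := by rw [hX, ← exp_add]; simp
  have hexpM0 := exp_pos (-M)
  have hd1 : 3 * exp (-M) ≤ K * exp (|s'| - s) := by
    have : 0 ≤ c * K * exp (-M) := by positivity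
    linarith
  have hd2 : c * K * exp (-M) ≤ K * exp (|s'| - s) := by linarith
  have hyy : x (n + 2) ≤ a * (3 * exp (-M)) := by
    calc x (n + 2) = x (n + 2) * x (n + 1) * exp (-M) := by
          rw [mul_assoc, mul_comm (x (n + 1)), hexpM, mul_one]
      _ ≤ 3 * a * exp (-M) := mul_le_mul_of_nonneg_right hy hexpM0.le
      _ = a * (3 * exp (-M)) := by ring
  have huu : x n ≤ K * x (n + 3) * exp (-M) := by
    calc x n = x n * x (n + 1) * exp (-M) := by
          rw [mul_assoc, mul_comm (x (n + 1)), hexpM, mul_one]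
      _ ≤ K * x (n + 3) * exp (-M) := mul_le_mul_of_nonneg_right h.u hexpM0.le
  refine ⟨s, s', ⟨?_, ?_, ?_, ?_, ?_, ?_⟩, ?_, ?_⟩
  · exact h.hs
  · exact hs'
  · linarith
  · rw [abs_le]
    constructor <;> linarith
  · -- u
    show x (n + 2) * x (n + 3) ≤ K * x (n + 5)
    have h1 : x (n + 2) * x (n + 3) * x (n + 1) ≤ K * x (n + 5) * x (n + 1) := by
      calc x (n + 2) * x (n + 3) * x (n + 1) = (x (n + 2) * x (n + 1)) * x (n + 3) := by ring
        _ ≤ 3 * a * x (n + 3) := mul_le_mul_of_nonneg_right hy hS0.le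
        _ ≤ 3 * a * ((4 * a + c) * (x (n + 5) * x (n + 1))) :=
            mul_le_mul_of_nonneg_left hlow (by positivity)
        _ = 3 * a * (4 * a + c) * (x (n + 5) * x (n + 1)) := by ring
        _ ≤ K * (x (n + 5) * x (n + 1)) := mul_le_mul_of_nonneg_right hK2 (by positivity)
        _ = K * x (n + 5) * x (n + 1) := by ring
    exact le_of_mul_le_mul_right h1 hX0
  · -- y
    show R (K * exp (|s'| - s)) (x (n + 4) * x (n + 3)) a
    refine ⟨by positivity, ha, ?_, ?_⟩
    · have h1 := add_one_le_exp (K * exp (|s'| - s))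
      calc x (n + 4) * x (n + 3) ≤ a + x (n + 2) := h3S
        _ ≤ a + a * (3 * exp (-M)) := by linarith
        _ ≤ (K * exp (|s'| - s) + 1) * a := by
            have := mul_le_mul_of_nonneg_left hd1 ha.le
            linarith
        _ ≤ exp (K * exp (|s'| - s)) * a := mul_le_mul_of_nonneg_right h1 ha.le
    · have h1 := add_one_le_exp (K * exp (|s'| - s))
      have h2 : 0 < x (n + 4) * x (n + 3) := by positivity
      calc a ≤ a + x (n + 2) := by linarith
        _ = x (n + 4) * x (n + 3) + c * x (n + 4) * x n := by rw [← eq0]; ring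
        _ ≤ x (n + 4) * x (n + 3) + c * x (n + 4) * (K * x (n + 3) * exp (-M)) := by
            have : 0 ≤ c * x (n + 4) := by positivity
            have := mul_le_mul_of_nonneg_left huu this
            linarith
        _ = (c * K * exp (-M) + 1) * (x (n + 4) * x (n + 3)) := by ring
        _ ≤ (K * exp (|s'| - s) + 1) * (x (n + 4) * x (n + 3)) :=
            mul_le_mul_of_nonneg_right (by linarith) h2.le
        _ ≤ exp (K * exp (|s'| - s)) * (x (n + 4) * x (n + 3)) :=
            mul_le_mul_of_nonneg_right h1 h2.le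
  · simpa using hC0
  · rw [abs_le]
    constructor <;> linarith

theorem t3_518 {a c : ℝ} (ha : 0 < a) (hc : 0 < c) : ∃ K0 : ℝ, ∀ K ≥ K0, ∃ C m : ℝ,
    ∀ (x : ℕ → ℝ) (n : ℕ) (M s : ℝ), Eq518 a c x → St518 a K x n M s → m ≤ M → s ≤ -(3 / 4 * M) →
      ∃ M' s', St518 a K x (n + 5) M' s' ∧ |M' - (M - s)| ≤ C ∧ |s' - M| ≤ C := by
  obtain ⟨C1, hC1, hch⟩ := chain518 ha hc
  obtain ⟨q, hq⟩ : ∃ q, q = q518 a c := ⟨_, rfl⟩
  have hq0 : 0 < q := by rw [hq]; unfold q518; positivity
  obtain ⟨κ, hκ⟩ : ∃ κ, κ = c ^ 2 / (3 * (1 + q) * (1 + c ^ 2)) := ⟨_, rfl⟩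
  have hκ0 : 0 < κ := by rw [hκ]; positivity
  obtain ⟨f1, hf1⟩ : ∃ f1, f1 = a * c / (3 * (1 + q)) := ⟨_, rfl⟩
  have hf10 : 0 < f1 := by rw [hf1]; positivity
  obtain ⟨f2, hf2⟩ : ∃ f2, f2 = 6 * a * c / q := ⟨_, rfl⟩
  have hf20 : 0 < f2 := by rw [hf2]; positivity
  obtain ⟨k1, hk1⟩ : ∃ k1, k1 = 3 * (a + 1) / c := ⟨_, rfl⟩
  have hk10 : 0 < k1 := by rw [hk1]; positivity
  obtain ⟨C, hCdef⟩ : ∃ C, C = |log κ| + |log (6 / q)| + |log f1| + |log f2| := ⟨_, rfl⟩
  have hz1 := abs_nonneg (log κ)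
  have hz2 := abs_nonneg (log (6 / q))
  have hz3 := abs_nonneg (log f1)
  have hz4 := abs_nonneg (log f2)
  have hC0 : 0 ≤ C := by rw [hCdef]; positivity
  refine ⟨k1 * f2 / κ + 1, fun K hK => ?_⟩
  have hK1 : 1 ≤ K := by
    have : 0 < k1 * f2 / κ := by positivity
    linarith
  have hK2 : k1 * f2 / κ ≤ K := by linarith
  have hK3 : k1 * f2 ≤ K * κ := by rwa [div_le_iff₀ hκ0] at hK2
  obtain ⟨L, hL⟩ : ∃ L, L = |log (C1 * ((c + 1) * K + 1))| + |log ((c + 1) * K)|
      + |log (k1 / a + c / f1)| := ⟨_, rfl⟩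
  have hw1 := abs_nonneg (log (C1 * ((c + 1) * K + 1)))
  have hw2 := abs_nonneg (log ((c + 1) * K))
  have hw3 := abs_nonneg (log (k1 / a + c / f1))
  refine ⟨C, 5 * L + 10 * C + 5, ?_⟩
  intro x n M s hE h hm hs
  have hX := expX hE h
  have hS := expS hE h
  have hd := h.dom
  have hM5 : 5 ≤ M := by linarith
  have hs0 : s < 0 := by linarith
  have habs : |s| = -s := abs_of_neg hs0
  have hKp : 0 < K := by linarith
  have hcK : 0 < (c + 1) * K := by positivity
  have hE1 : (c + 1) * K * exp (|s| - M) ≤ 1 := by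
    calc (c + 1) * K * exp (|s| - M) ≤ (c + 1) * K * exp (-(M / 5)) :=
          mul_le_mul_of_nonneg_left (E_small h) hcK.le
      _ ≤ 1 := mul_exp_small hcK (by linarith)
  have hin := toIn hKp.le hE h hE1
  have hout := hch x n _ _ hE hin
  obtain ⟨D, hD⟩ : ∃ D, D = C1 * ((c + 1) * K * exp (|s| - M) + exp (|s| - M)) := ⟨_, rfl⟩
  rw [← hD] at hout
  have hD1 : D ≤ 1 := by
    have : D = C1 * ((c + 1) * K + 1) * exp (|s| - M) := by rw [hD]; ring
    rw [this]
    calc C1 * ((c + 1) * K + 1) * exp (|s| - M) ≤ C1 * ((c + 1) * K + 1) * exp (-(M / 5)) :=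
          mul_le_mul_of_nonneg_left (E_small h) (by positivity)
      _ ≤ 1 := mul_exp_small (by positivity) (by linarith)
  have hexpD : exp D ≤ 3 := by
    have := exp_le_exp.2 hD1
    have h3 := exp_one_lt_d9
    linarith
  rw [habs] at hd
  have hX0 : 0 < x (n + 1) := hE.pos _
  have hS0 : 0 < x (n + 3) := hE.pos _
  have hS1 : x (n + 3) ≤ 1 := by rw [hS, exp_le_one_iff]; linarith
  have hX1 : 1 ≤ x (n + 1) := by rw [hX]; exact one_le_exp (by linarith)
  have hx5 := hE.pos (n + 5)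
  have hx6 := hE.pos (n + 6)
  have hx7 := hE.pos (n + 7)
  have hx8 := hE.pos (n + 8)
  -- bounds for the quotient
  obtain ⟨X, hXX⟩ : ∃ X, X = x (n + 1) := ⟨_, rfl⟩
  obtain ⟨S, hSS⟩ : ∃ S, S = x (n + 3) := ⟨_, rfl⟩
  rw [← hXX] at hX0 hX1 hX
  rw [← hSS] at hS0 hS1 hS
  obtain ⟨Λ, hΛ⟩ : ∃ Λ, Λ = (S + 1) / (S + q) := ⟨_, rfl⟩
  have hΛ1 : 1 / (1 + q) ≤ Λ := by
    rw [hΛ, div_le_div_iff₀ (by positivity) (by positivity)]
    have := mul_pos hS0 hq0
    linarith
  have hΛ2 : Λ ≤ 2 / q := by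
    rw [hΛ, div_le_div_iff₀ (by positivity) (by positivity)]
    have := mul_le_mul_of_nonneg_right hS1 hq0.le
    linarith
  have hΛ0 : 0 < Λ := by rw [hΛ]; positivity
  obtain ⟨F, hF⟩ : ∃ F, F = F518 a c X S := ⟨_, rfl⟩
  have hFe : F * S = a * c * X * Λ := by
    rw [hF, hΛ, F518, ← hq]
    field_simp
  have hF0 : 0 < F := by
    rw [hF, F518, ← hq]
    positivity
  obtain ⟨G, hG⟩ : ∃ G, G = G518 a c X S := ⟨_, rfl⟩
  have hG1 : c ^ 2 / (1 + c ^ 2) ≤ G := by
    rw [hG, G518, ← hF, div_le_div_iff₀ (by positivity) (by positivity)]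
    have : 0 ≤ c * F := by positivity
    linarith
  have hG2 : G ≤ 1 := by
    rw [hG, G518, ← hF, div_le_one (by positivity)]
    linarith
  have hG0 : 0 < G := lt_of_lt_of_le (by positivity) hG1
  have o5 := hout.x4
  have o6 := hout.x5
  have o8 := hout.x7
  rw [← hXX, ← hSS] at o5 o6 o8
  rw [← hF] at o6
  rw [← hG, ← hq, ← hΛ] at o8
  -- x5
  have b5 : x (n + 5) * X ≤ k1 := by
    have h1 : x (n + 5) ≤ 3 * ((a + S) / (c * X)) :=
      o5.le.trans (mul_le_mul_of_nonneg_right hexpD o5.py.le)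
    have h3 : (a + S) / (c * X) * X = (a + S) / c := by field_simp
    calc x (n + 5) * X ≤ 3 * ((a + S) / (c * X)) * X := mul_le_mul_of_nonneg_right h1 hX0.le
      _ = 3 * ((a + S) / c) := by rw [mul_assoc, h3]
      _ ≤ 3 * ((a + 1) / c) := by
          have : (a + S) / c ≤ (a + 1) / c := by
            apply div_le_div_of_nonneg_right _ hc.le
            linarith
          linarith
      _ = k1 := by rw [hk1]; ring
  have b6u : x (n + 6) * S ≤ f2 * X := by
    have h1 : x (n + 6) ≤ 3 * F :=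
      o6.le.trans (mul_le_mul_of_nonneg_right hexpD o6.py.le)
    calc x (n + 6) * S ≤ 3 * F * S := mul_le_mul_of_nonneg_right h1 hS0.le
      _ = 3 * (a * c * X) * Λ := by rw [mul_assoc, hFe]; ring
      _ ≤ 3 * (a * c * X) * (2 / q) := mul_le_mul_of_nonneg_left hΛ2 (by positivity)
      _ = f2 * X := by rw [hf2]; ring
  have b6l : f1 * X ≤ x (n + 6) * S := by
    have h1 : F ≤ 3 * x (n + 6) :=
      o6.ge.trans (mul_le_mul_of_nonneg_right hexpD o6.px.le)
    have h2 : F * S ≤ 3 * x (n + 6) * S := mul_le_mul_of_nonneg_right h1 hS0.le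
    have h3 : (a * c * X) * (1 / (1 + q)) ≤ a * c * X * Λ :=
      mul_le_mul_of_nonneg_left hΛ1 (by positivity)
    have h4 : f1 * X = (a * c * X) * (1 / (1 + q)) / 3 := by rw [hf1]; field_simp
    rw [h4]
    linarith
  have b8u : x (n + 8) ≤ 6 / q * X := by
    calc x (n + 8) ≤ 3 * (X * Λ * G) :=
          o8.le.trans (mul_le_mul_of_nonneg_right hexpD o8.py.le)
      _ ≤ 3 * (X * Λ * 1) := by
          have := mul_le_mul_of_nonneg_left hG2 (mul_pos hX0 hΛ0).le
          linarith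
      _ ≤ 3 * (X * (2 / q)) := by
          have := mul_le_mul_of_nonneg_left hΛ2 hX0.le
          linarith
      _ = 6 / q * X := by ring
  have b8l : κ * X ≤ x (n + 8) := by
    have h2 : X * Λ * G ≤ 3 * x (n + 8) :=
      o8.ge.trans (mul_le_mul_of_nonneg_right hexpD o8.px.le)
    have h3 : X * (1 / (1 + q)) * (c ^ 2 / (1 + c ^ 2)) ≤ X * Λ * G :=
      mul_le_mul (mul_le_mul_of_nonneg_left hΛ1 hX0.le) hG1 (by positivity) (by positivity)
    have h4 : κ * X = X * (1 / (1 + q)) * (c ^ 2 / (1 + c ^ 2)) / 3 := by rw [hκ]; field_simp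
    rw [h4]
    linarith
  obtain ⟨M', hM'⟩ : ∃ M', M' = log (x (n + 6)) := ⟨_, rfl⟩
  obtain ⟨s', hs'⟩ : ∃ s', s' = log (x (n + 8)) := ⟨_, rfl⟩
  have hMX : M = log X := by rw [hXX]; exact h.hM
  have hsS : s = log S := by rw [hSS]; exact h.hs
  -- the logarithms
  have l6u : M' + s ≤ log f2 + M := by
    have h1 := Real.log_le_log (mul_pos hx6 hS0) b6u
    rwa [log_mul hx6.ne' hS0.ne', log_mul hf20.ne' hX0.ne', ← hM', ← hsS, ← hMX] at h1
  have l6l : log f1 + M ≤ M' + s := by
    have h1 := Real.log_le_log (mul_pos hf10 hX0) b6l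
    rwa [log_mul hx6.ne' hS0.ne', log_mul hf10.ne' hX0.ne', ← hM', ← hsS, ← hMX] at h1
  have l8u : s' ≤ log (6 / q) + M := by
    have h1 := Real.log_le_log hx8 b8u
    rwa [log_mul (by positivity) hX0.ne', ← hs', ← hMX] at h1
  have l8l : log κ + M ≤ s' := by
    have h1 := Real.log_le_log (mul_pos hκ0 hX0) b8l
    rwa [log_mul hκ0.ne' hX0.ne', ← hs', ← hMX] at h1
  have c1 : M' ≤ M - s + C := by linarith [le_abs_self (log f2)]
  have c2 : M - s - C ≤ M' := by linarith [neg_abs_le (log f1)]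
  have c3 : s' ≤ M + C := by linarith [le_abs_self (log (6 / q))]
  have c4 : M - C ≤ s' := by linarith [neg_abs_le (log κ)]
  have hs'0 : 0 ≤ s' := by linarith
  have hs'abs : |s'| = s' := abs_of_nonneg hs'0
  -- the error
  have hexpM : exp (-M) * X = 1 := by rw [hX, ← exp_add]; simp
  have hexpM0 := exp_pos (-M)
  have hdel : (k1 / a + c / f1) * exp (-M) ≤ K * exp (|s'| - M') := by
    have hB0 : 0 < k1 / a + c / f1 := by positivity
    have h2 : (k1 / a + c / f1) ≤ exp (M / 5 - 2 * C) := by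
      have h3 : k1 / a + c / f1 = exp (log (k1 / a + c / f1)) := (exp_log hB0).symm
      rw [h3]
      exact exp_le_exp.2 (by linarith [le_abs_self (log (k1 / a + c / f1))])
    calc (k1 / a + c / f1) * exp (-M) ≤ exp (M / 5 - 2 * C) * exp (-M) :=
          mul_le_mul_of_nonneg_right h2 hexpM0.le
      _ = exp (M / 5 - 2 * C + -M) := by rw [← exp_add]
      _ ≤ exp (|s'| - M') := exp_le_exp.2 (by rw [hs'abs]; linarith)
      _ ≤ K * exp (|s'| - M') := le_mul_of_one_le_left (exp_pos _).le hK1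
  have hd1 : k1 / a * exp (-M) ≤ K * exp (|s'| - M') := by
    have : 0 ≤ c / f1 * exp (-M) := by positivity
    linarith
  have hd2 : c / f1 * exp (-M) ≤ K * exp (|s'| - M') := by
    have : 0 ≤ k1 / a * exp (-M) := by positivity
    linarith
  have hx5e : x (n + 5) ≤ a * (k1 / a * exp (-M)) := by
    calc x (n + 5) = x (n + 5) * X * exp (-M) := by
          rw [mul_assoc, mul_comm X, hexpM, mul_one]
      _ ≤ k1 * exp (-M) := mul_le_mul_of_nonneg_right b5 hexpM0.le
      _ = a * (k1 / a * exp (-M)) := by field_simp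
  have hSe : c * S ≤ c / f1 * exp (-M) * x (n + 6) := by
    have h1 : f1 ≤ x (n + 6) * S * exp (-M) := by
      calc f1 = f1 * X * exp (-M) := by rw [mul_assoc, mul_comm X, hexpM, mul_one]
        _ ≤ x (n + 6) * S * exp (-M) := mul_le_mul_of_nonneg_right b6l hexpM0.le
    have h2 : x (n + 6) * S * exp (-M) ≤ x (n + 6) * exp (-M) := by
      have : 0 ≤ x (n + 6) * exp (-M) := by positivity
      have := mul_le_mul_of_nonneg_left hS1 this
      linarith
    have h3 : c / f1 * exp (-M) * x (n + 6) = c / f1 * (x (n + 6) * exp (-M)) := by ring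
    rw [h3]
    calc c * S ≤ c * 1 := mul_le_mul_of_nonneg_left hS1 hc.le
      _ = c / f1 * f1 := by field_simp
      _ ≤ c / f1 * (x (n + 6) * exp (-M)) :=
          mul_le_mul_of_nonneg_left (h1.trans h2) (by positivity)
  have eq3 : x (n + 7) * (x (n + 6) + c * S) = a + x (n + 5) := by
    rw [hSS]
    exact hE.eq (n + 3)
  refine ⟨M', s', ⟨?_, ?_, ?_, ?_, ?_, ?_⟩, ?_, ?_⟩
  · exact hM'
  · exact hs'
  · linarith
  · rw [hs'abs]
    linarith
  · -- u
    show x (n + 5) * x (n + 6) ≤ K * x (n + 8)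
    have hSX : 1 ≤ S * X := by
      rw [hS, hX, ← exp_add]
      exact one_le_exp (by linarith)
    have h1 : (x (n + 5) * X) * (x (n + 6) * S) ≤ k1 * (f2 * X) :=
      mul_le_mul b5 b6u (by positivity) hk10.le
    calc x (n + 5) * x (n + 6) = x (n + 5) * x (n + 6) * 1 := by ring
      _ ≤ x (n + 5) * x (n + 6) * (S * X) := mul_le_mul_of_nonneg_left hSX (by positivity)
      _ = (x (n + 5) * X) * (x (n + 6) * S) := by ring
      _ ≤ k1 * (f2 * X) := h1
      _ = k1 * f2 * X := by ring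
      _ ≤ K * κ * X := mul_le_mul_of_nonneg_right hK3 hX0.le
      _ = K * (κ * X) := by ring
      _ ≤ K * x (n + 8) := mul_le_mul_of_nonneg_left b8l hKp.le
  · -- y
    show R (K * exp (|s'| - M')) (x (n + 7) * x (n + 6)) a
    have h1 := add_one_le_exp (K * exp (|s'| - M'))
    have h2 : 0 < x (n + 7) * x (n + 6) := by positivity
    refine ⟨h2, ha, ?_, ?_⟩
    · have h3 : 0 ≤ x (n + 7) * (c * S) := by positivity
      calc x (n + 7) * x (n + 6) ≤ a + x (n + 5) := by rw [← eq3]; linarith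
        _ ≤ a + a * (k1 / a * exp (-M)) := by linarith
        _ ≤ (K * exp (|s'| - M') + 1) * a := by
            have := mul_le_mul_of_nonneg_left hd1 ha.le
            linarith
        _ ≤ exp (K * exp (|s'| - M')) * a := mul_le_mul_of_nonneg_right h1 ha.le
    · calc a ≤ a + x (n + 5) := by linarith
        _ = x (n + 7) * x (n + 6) + x (n + 7) * (c * S) := by rw [← eq3]; ring
        _ ≤ x (n + 7) * x (n + 6) + x (n + 7) * (c / f1 * exp (-M) * x (n + 6)) := by
            have := mul_le_mul_of_nonneg_left hSe hx7.le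
            linarith
        _ = (c / f1 * exp (-M) + 1) * (x (n + 7) * x (n + 6)) := by ring
        _ ≤ (K * exp (|s'| - M') + 1) * (x (n + 7) * x (n + 6)) :=
            mul_le_mul_of_nonneg_right (by linarith) h2.le
        _ ≤ exp (K * exp (|s'| - M')) * (x (n + 7) * x (n + 6)) :=
            mul_le_mul_of_nonneg_right h1 h2.le
  · rw [abs_le]
    constructor <;> linarith
  · rw [abs_le]
    constructor <;> linarith

end Pool.Agent.H78.K4
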