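import Pool.Agent.H78.K4.Rec518
import Pool.Agent.H78.K4.One518
import Pool.Agent.H78.K4.Relab518
import Pool.Agent.H78.K4.Gp
import Pool.Agent.H78.K4.PotW
import Pool.Agent.H78.K4.Sweep
import Pool.Agent.H50.Rdb.Misc

/-!
# The case (5,18)

`bdd518`: if `a c ^ 2 = 1` use `sweep` with `W M s = max M (M - s - log c)` and `one518`; otherwise
with the `W` of `exists_pot` for `p = 1`, `q = q518 a c`, `r = 1 / (a c ^ 2)`,
`η = log ((1 + c ^ 2) / c ^ 2)`, and `t1_518` (`|s| ≤ 3/4 M`), `t2_518`, `t3_518`; `L = 12`,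
`St = St518 a K x`, `K` and `m` the maxima.
`esb_5_18`: `esb_of_nonneg`; the terms are positive from the index `4` on (positive constant in the
numerator), and `y n = x (n + 4) / λ`, `λ = a2 / b1`, satisfies `Eq518 (a0 b1 / a2 ^ 2) (b4 / b1)`.
-/

namespace Pool.Agent.H78.K4

open Real
open Pool.Agent.H81.RDE (ESB caseOf)

/-- the assembly: a potential of the states which does not increase -/
private theorem bdd518_of_step {a c K m B : ℝ} {x : ℕ → ℝ} (hx : Eq518 a c x)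
    {K1 : ℝ} (hrec : ∀ K ≥ K1, ∃ T0 : ℝ, ∀ T ≥ T0,
      ∃ P : ℝ, ∀ (x : ℕ → ℝ) (n : ℕ), Eq518 a c x → 12 ≤ n → T < x n →
        (∀ j, 1 ≤ j → j ≤ 12 → x (n - j) ≤ T) →
        ∃ i ≤ 10, ∃ M s, St518 a K x (n + i) M s ∧ M ≤ P ∧ ∀ j ≤ 20, x (n + j) ≤ P)
    (hK : K1 ≤ K) (W : ℝ → ℝ → ℝ)
    (hlow : ∀ M s, 1 ≤ M → |s| ≤ 4 / 5 * M → M ≤ 2 * (W M s + B))
    (hup : ∀ M s, 1 ≤ M → |s| ≤ 4 / 5 * M → W M s ≤ 3 * M + B)
    (hstep : ∀ (n : ℕ) (M s : ℝ), St518 a K x n M s → m ≤ M → ∃ k, 1 ≤ k ∧ k ≤ 7 ∧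
      ∃ M' s', St518 a K x (n + k) M' s' ∧ W M' s' ≤ W M s) : ∃ Q : ℝ, ∀ n, x n ≤ Q := by
  have ha := hx.a0
  have hc := hx.c0
  obtain ⟨Bt, mt, hterm⟩ := term518 ha hc K
  obtain ⟨T0, hT0⟩ := hrec K hK
  obtain ⟨T1, hT1⟩ := end518 ha hc K (max m mt) (12 + 20)
  refine sweep (St := St518 a K x) (W := W) (m := max m mt) (B := max B Bt) (T1 := T1) (T0 := T0)
    (L := 12) ?_ ?_ ?_ ?_ ?_
  · intro n M s h
    have h1 := hlow M s h.one h.dom
    have h2 := le_max_left B Bt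
    linarith
  · intro n M s h hM i hi
    refine (hterm x n M s hx h ((le_max_right _ _).trans hM) i hi).trans ?_
    apply exp_le_exp.2
    have h2 := le_max_right B Bt
    linarith
  · intro n M s h hM
    exact hstep n M s h ((le_max_left _ _).trans hM)
  · intro n M s h hM i hi
    exact hT1 x n M s hx h hM i hi
  · intro T hT
    obtain ⟨P, hP⟩ := hT0 T hT
    refine ⟨max (3 * P + B) P, fun n hn hxn hj => ?_⟩
    obtain ⟨i, hi, M, s, h1, h2, h3⟩ := hP x n hx hn hxn hj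
    refine ⟨i, hi, M, s, h1, ?_, fun j hj => (h3 j hj).trans (le_max_right _ _)⟩
    refine le_trans ?_ (le_max_left _ _)
    have h4 := hup M s h1.one h1.dom
    linarith

private theorem bdd518_eq {a c : ℝ} {x : ℕ → ℝ} (hx : Eq518 a c x) (h1 : a * c ^ 2 = 1) :
    ∃ Q : ℝ, ∀ n, x n ≤ Q := by
  have ha := hx.a0
  have hc := hx.c0
  obtain ⟨K1, hrec⟩ := rec518 ha hc
  obtain ⟨K2, hone⟩ := one518 ha hc h1
  obtain ⟨m, hm⟩ := hone (max K1 K2) (le_max_right _ _)
  refine bdd518_of_step (B := |log c|) (m := m) hx hrec (le_max_left K1 K2)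
    (fun M s => max M (M - s - log c)) ?_ ?_ ?_
  · intro M s h1 _
    have h2 := le_max_left M (M - s - log c)
    have h3 := abs_nonneg (log c)
    show M ≤ 2 * (max M (M - s - log c) + |log c|)
    linarith
  · intro M s h1 h2
    show max M (M - s - log c) ≤ 3 * M + |log c|
    have h3 := abs_nonneg (log c)
    have h4 := neg_abs_le (log c)
    rw [abs_le] at h2
    apply max_le
    · linarith
    · linarith [h2.1]
  · intro n M s h hM
    exact hm x n M s hx h hM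

private theorem bdd518_ne {a c : ℝ} {x : ℕ → ℝ} (hx : Eq518 a c x) (hne : a * c ^ 2 ≠ 1) :
    ∃ Q : ℝ, ∀ n, x n ≤ Q := by
  have ha := hx.a0
  have hc := hx.c0
  have hq : 0 < q518 a c := by
    unfold q518
    positivity
  have hac : 0 < a * c ^ 2 := by positivity
  have hr0 : 0 < 1 / (a * c ^ 2) := by positivity
  have hr : 1 / (a * c ^ 2) ≠ 1 := by
    intro h
    rw [div_eq_one_iff_eq hac.ne'] at h
    exact hne h.symm
  have h1c : 0 < (1 + c ^ 2) / c ^ 2 := by positivity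
  have hη : 0 < log ((1 + c ^ 2) / c ^ 2) := by
    apply log_pos
    have h2 : 0 < c ^ 2 := by positivity
    rw [one_lt_div h2]
    linarith
  have hpq : (1 : ℝ) = q518 a c * (1 / (a * c ^ 2)) * exp (-log ((1 + c ^ 2) / c ^ 2)) := by
    rw [exp_neg, exp_log h1c]
    unfold q518
    field_simp
  obtain ⟨ε, hε, hpot⟩ := exists_pot one_pos hq hr0 hr hη hpq (gp518 ha hc)
  obtain ⟨K1, hrec⟩ := rec518 ha hc
  obtain ⟨K2, ht1⟩ := t1_518 ha hc
  obtain ⟨K3, ht2⟩ := t2_518 ha hc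
  obtain ⟨K4, ht3⟩ := t3_518 ha hc
  obtain ⟨K, hK⟩ : ∃ K, K = max (max K1 K2) (max K3 K4) := ⟨_, rfl⟩
  have hK1 : K1 ≤ K := by
    rw [hK]
    exact (le_max_left _ _).trans (le_max_left _ _)
  have hK2 : K2 ≤ K := by
    rw [hK]
    exact (le_max_right _ _).trans (le_max_left _ _)
  have hK3 : K3 ≤ K := by
    rw [hK]
    exact (le_max_left _ _).trans (le_max_right _ _)
  have hK4 : K4 ≤ K := by
    rw [hK]
    exact (le_max_right _ _).trans (le_max_right _ _)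
  obtain ⟨m1, hm1⟩ := ht1 K hK2 ε hε
  obtain ⟨C2, m2, hm2⟩ := ht2 K hK3
  obtain ⟨C3, m3, hm3⟩ := ht3 K hK4
  obtain ⟨m0, B, W, hW⟩ := hpot (max C2 C3)
  obtain ⟨m, hm⟩ : ∃ m, m = max (max m0 m1) (max m2 m3) := ⟨_, rfl⟩
  have hmm0 : m0 ≤ m := by
    rw [hm]
    exact (le_max_left _ _).trans (le_max_left _ _)
  have hmm1 : m1 ≤ m := by
    rw [hm]
    exact (le_max_right _ _).trans (le_max_left _ _)
  have hmm2 : m2 ≤ m := by
    rw [hm]
    exact (le_max_left _ _).trans (le_max_right _ _)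
  have hmm3 : m3 ≤ m := by
    rw [hm]
    exact (le_max_right _ _).trans (le_max_right _ _)
  refine bdd518_of_step (B := B) (m := m) hx hrec hK1 W hW.low hW.up ?_
  intro n M s h hM
  have hdom := h.dom
  rw [abs_le] at hdom
  rcases le_or_gt |s| (3 / 4 * M) with hs | hs
  · obtain ⟨M', s', h1, h2, h3⟩ := hm1 x n M s hx h (hmm1.trans hM) hs
    exact ⟨7, by norm_num, le_rfl, M', s', h1, hW.t1 M s M' s' (hmm0.trans hM) hs h2 h3⟩
  · rcases le_total 0 s with h0 | h0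
    · rw [abs_of_nonneg h0] at hs
      obtain ⟨M', s', h1, h2, h3⟩ := hm2 x n M s hx h (hmm2.trans hM) hs.le
      exact ⟨2, by norm_num, by norm_num, M', s', h1, hW.t2 M s M' s' (hmm0.trans hM) hs.le hdom.2
        (h2.trans (le_max_left _ _)) (h3.trans (le_max_left _ _))⟩
    · rw [abs_of_nonpos h0] at hs
      obtain ⟨M', s', h1, h2, h3⟩ := hm3 x n M s hx h (hmm3.trans hM) (by linarith)
      exact ⟨5, by norm_num, by norm_num, M', s', h1, hW.t3 M s M' s' (hmm0.trans hM) (by linarith)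
        hdom.1 (h2.trans (le_max_right _ _)) (h3.trans (le_max_right _ _))⟩

theorem bdd518 {a c : ℝ} {x : ℕ → ℝ} (hx : Eq518 a c x) : ∃ Q : ℝ, ∀ n, x n ≤ Q := by
  by_cases h : a * c ^ 2 = 1
  · exact bdd518_eq hx h
  · exact bdd518_ne hx h

theorem esb_5_18 : ESB (caseOf 4 5 18) := by
  refine Pool.Agent.H50.Rdb.esb_of_nonneg fun a b x ha hb hx => ?_
  have a0 : 0 < a 0 := ha.pos (by norm_num) (by decide)
  have a1 : a 1 = 0 := ha.zero (by norm_num) (by decide)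
  have a2 : 0 < a 2 := ha.pos (by norm_num) (by decide)
  have a3 : a 3 = 0 := ha.zero (by norm_num) (by decide)
  have a4 : a 4 = 0 := ha.zero (by norm_num) (by decide)
  have b0 : b 0 = 0 := hb.zero (by norm_num) (by decide)
  have b1 : 0 < b 1 := hb.pos (by norm_num) (by decide)
  have b2 : b 2 = 0 := hb.zero (by norm_num) (by decide)
  have b3 : b 3 = 0 := hb.zero (by norm_num) (by decide)
  have b4 : 0 < b 4 := hb.pos (by norm_num) (by decide)
  have hx2 := hx.2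
  unfold Pool.Agent.H50.Rdb.lin at hx2
  simp only [a1, a3, a4, b0, b2, b3, zero_mul, add_zero, zero_add] at hx2
  have hpos : ∀ n, 0 < x (n + 4) := by
    intro n
    rw [(hx2 n).2]
    refine div_pos ?_ (hx2 n).1
    have := mul_nonneg a2.le (hx.1 (n + 2))
    linarith
  have heq : ∀ n, x (n + 4) * (b 1 * x (n + 3) + b 4 * x n) = a 0 + a 2 * x (n + 2) := by
    intro n
    have h1 := (hx2 n).2
    rw [eq_div_iff (hx2 n).1.ne'] at h1
    exact h1
  have hy : Eq518 (a 0 * b 1 / a 2 ^ 2) (b 4 / b 1) (fun n => x (n + 4) / (a 2 / b 1)) := by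
    refine ⟨by positivity, by positivity, fun n => div_pos (hpos n) (by positivity), fun n => ?_⟩
    have h1 := heq (n + 4)
    have e2 : n + 4 + 2 = n + 2 + 4 := by ring
    have e3 : n + 4 + 3 = n + 3 + 4 := by ring
    rw [e2, e3] at h1
    show x (n + 4 + 4) / (a 2 / b 1) * (x (n + 3 + 4) / (a 2 / b 1) + b 4 / b 1 * (x (n + 4) / (a 2 / b 1))) =
      a 0 * b 1 / a 2 ^ 2 + x (n + 2 + 4) / (a 2 / b 1)
    have h2 : x (n + 4 + 4) / (a 2 / b 1) *
        (x (n + 3 + 4) / (a 2 / b 1) + b 4 / b 1 * (x (n + 4) / (a 2 / b 1))) =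
        b 1 / a 2 ^ 2 * (x (n + 4 + 4) * (b 1 * x (n + 3 + 4) + b 4 * x (n + 4))) := by
      field_simp
    rw [h2, h1]
    field_simp
  obtain ⟨Q, hQ⟩ := bdd518 hy
  refine Pool.Agent.H50.Rdb.bdd_of_tail hx.1 (k := 4) (M := Q * (a 2 / b 1)) fun n hn => ?_
  obtain ⟨m, rfl⟩ := Nat.exists_eq_add_of_le' hn
  have h1 := hQ m
  rwa [div_le_iff₀ (by positivity)] at h1

end Pool.Agent.H78.K4
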