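import Pool.Agent.H78.K4.Def524

/-!
# The potential of the cycles of length nine

`W M s = M + log (1 + exp (-s)) + Cw * θ`, `θ = min 1 (max 0 (20/3 * (|s| / M - 3/5)))`,
`Cw = 2 * |C| + 1` (`log 2 ≤ 1`).
* `low`: `W ≥ M` for `M ≥ 1` (`B ≥ 0`). `up`: `log (1 + exp (-s)) ≤ |s| + 1`, `B = Cw + 1`.
* `t1`: `θ` changes by at most `20/3 * ||s'|/M' - |s|/M| ≤ 20/3 * (C / M' + 3/4 * C / M')`
  (`|s|/M ≤ 3/4`), which is `≤ η / (2 Cw)` for `M ≥ m` (`M' ≥ M / 2`).
* `t2`: `θ (M, s) = 1`; `|s'| / M' ≤ (M - s + C) / (s - C) ≤ (1/3 s + C) / (s - C) ≤ 3/5` for `M ≥ m`, so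
  `θ' = 0`; `log (1 + exp (-s')) ≤ |s'| + 1 ≤ M - s + C + 1`, `M' ≤ s + C`: `W' ≤ M + 2 C + 1 ≤ W M s`.
* `t3`: `θ (M, s) = 1`; `M' ≥ M - s - C ≥ 7/4 M - C`, `0 < s' ≤ M + C`, so `s' / M' ≤ 3/5`, `θ' = 0`;
  `log (1 + exp (-s')) ≤ 1`; `W' ≤ M - s + C + 1` and `log (1 + exp (-s)) ≥ -s`.
-/

namespace Pool.Agent.H78.K4

open Real

private noncomputable def th (M s : ℝ) : ℝ := min 1 (max 0 (20 / 3 * (|s| / M - 3 / 5)))

private theorem th_nonneg (M s : ℝ) : 0 ≤ th M s := by
  unfold th
  exact le_min zero_le_one (le_max_left _ _)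

private theorem th_le (M s : ℝ) : th M s ≤ 1 := by
  unfold th
  exact min_le_left _ _

private theorem th_one {M s : ℝ} (hM : 0 < M) (h : 3 / 4 * M ≤ |s|) : th M s = 1 := by
  unfold th
  have h1 : 3 / 4 ≤ |s| / M := by
    rw [le_div_iff₀ hM]
    exact h
  apply min_eq_left
  refine le_trans ?_ (le_max_right _ _)
  linarith

private theorem th_zero {M s : ℝ} (hM : 0 < M) (h : |s| ≤ 3 / 5 * M) : th M s = 0 := by
  unfold th
  have h1 : |s| / M ≤ 3 / 5 := by
    rw [div_le_iff₀ hM]
    exact h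
  have h2 : max 0 (20 / 3 * (|s| / M - 3 / 5)) = 0 := by
    apply max_eq_left
    linarith
  rw [h2]
  exact min_eq_right zero_le_one

private theorem th_diff {M s M' s' d : ℝ} (hd : 0 ≤ d) (h : |s'| / M' ≤ |s| / M + d) :
    th M' s' ≤ th M s + 20 / 3 * d := by
  unfold th
  have h0 : 0 ≤ 20 / 3 * d := by positivity
  rcases le_total 1 (max 0 (20 / 3 * (|s| / M - 3 / 5))) with h1 | h1
  · rw [min_eq_left h1]
    have := min_le_left 1 (max 0 (20 / 3 * (|s'| / M' - 3 / 5)))
    linarith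
  · rw [min_eq_right h1]
    have h2 : min 1 (max 0 (20 / 3 * (|s'| / M' - 3 / 5)))
        ≤ max 0 (20 / 3 * (|s'| / M' - 3 / 5)) := min_le_right _ _
    refine le_trans h2 ?_
    have h3 : 0 ≤ max 0 (20 / 3 * (|s| / M - 3 / 5)) := le_max_left _ _
    have h4 : 20 / 3 * (|s| / M - 3 / 5) ≤ max 0 (20 / 3 * (|s| / M - 3 / 5)) := le_max_right _ _
    refine max_le (by linarith) ?_
    linarith

private theorem lg_nonneg (s : ℝ) : 0 ≤ log (1 + exp (-s)) := by
  apply log_nonneg
  have := exp_pos (-s)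
  linarith

private theorem lg_ge (s : ℝ) : -s ≤ log (1 + exp (-s)) := by
  rw [le_log_iff_exp_le (by have := exp_pos (-s); linarith)]
  linarith

private theorem log_two_le : log 2 ≤ 1 := by
  have := log_two_lt_d9
  linarith

private theorem lg_le_one {s : ℝ} (hs : 0 ≤ s) : log (1 + exp (-s)) ≤ 1 := by
  have h1 : exp (-s) ≤ 1 := exp_le_one_iff.mpr (by linarith)
  have h2 : log (1 + exp (-s)) ≤ log 2 := by
    apply log_le_log
    · have := exp_pos (-s)
      linarith
    · linarith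
  exact le_trans h2 log_two_le

private theorem lg_le (s : ℝ) : log (1 + exp (-s)) ≤ |s| + 1 := by
  have h1 : 1 + exp (-s) ≤ 2 * exp |s| := by
    have ha : exp (-s) ≤ exp |s| := exp_le_exp.mpr (neg_le_abs s)
    have hb : 1 ≤ exp |s| := one_le_exp (abs_nonneg s)
    linarith
  have h2 : log (1 + exp (-s)) ≤ log (2 * exp |s|) := by
    apply log_le_log
    · have := exp_pos (-s)
      linarith
    · exact h1
  rw [log_mul (by norm_num) (exp_pos _).ne', log_exp] at h2
  have := log_two_le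
  linarith

theorem exists_pot9 {η : ℝ} (hη : 0 < η) (C : ℝ) : ∃ m B : ℝ, ∃ W : ℝ → ℝ → ℝ, Pot9 η C m B W := by
  have hc0 : 0 ≤ |C| := abs_nonneg C
  have hCc : C ≤ |C| := le_abs_self C
  refine ⟨100 * (|C| + 1) + 50 * (2 * |C| + 1) * |C| / η, (2 * |C| + 1) + 1,
    fun M s => M + log (1 + exp (-s)) + (2 * |C| + 1) * th M s, ?_⟩
  have hm : ∀ M : ℝ, 100 * (|C| + 1) + 50 * (2 * |C| + 1) * |C| / η ≤ M → 100 * (|C| + 1) ≤ M := by
    intro M hM
    have : 0 ≤ 50 * (2 * |C| + 1) * |C| / η := by positivity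
    linarith
  refine ⟨?_, ?_, ?_, ?_, ?_⟩
  · intro M s hM hs
    have h1 := lg_nonneg s
    have h2 : 0 ≤ (2 * |C| + 1) * th M s := mul_nonneg (by linarith) (th_nonneg M s)
    show M ≤ 2 * (M + log (1 + exp (-s)) + (2 * |C| + 1) * th M s + ((2 * |C| + 1) + 1))
    linarith
  · intro M s hM hs
    have h1 := lg_le s
    have h2 : (2 * |C| + 1) * th M s ≤ (2 * |C| + 1) * 1 :=
      mul_le_mul_of_nonneg_left (th_le M s) (by linarith)
    show M + log (1 + exp (-s)) + (2 * |C| + 1) * th M s ≤ 3 * M + ((2 * |C| + 1) + 1)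
    linarith
  · intro M s M' s' hM hs hM' hs' h
    have hM1 := hm M hM
    have hC : 0 ≤ C := le_trans (abs_nonneg _) hM'
    have hCe : |C| = C := abs_of_nonneg hC
    have hM0 : 0 < M := by linarith
    have hM2 : M / 2 ≤ M' := by
      have := (abs_le.mp hM').1
      linarith
    have hM'0 : 0 < M' := by linarith
    have hd0 : 0 ≤ 7 / 4 * C / M' := by positivity
    have hdiff : |s'| / M' ≤ |s| / M + 7 / 4 * C / M' := by
      have e1 : |s'| ≤ |s| + C := by
        have := abs_sub_abs_le_abs_sub s' s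
        linarith
      have e2 : |s| ≤ |s| / M * M' + 3 / 4 * C := by
        have e3 : |s| = |s| / M * M := by field_simp
        have e4 : |s| / M ≤ 3 / 4 := by
          rw [div_le_iff₀ hM0]
          exact hs
        have e5 : M ≤ M' + C := by
          have := (abs_le.mp hM').1
          linarith
        have e6 : 0 ≤ |s| / M := by positivity
        calc |s| = |s| / M * M := e3
          _ ≤ |s| / M * (M' + C) := mul_le_mul_of_nonneg_left e5 e6
          _ = |s| / M * M' + |s| / M * C := by ring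
          _ ≤ |s| / M * M' + 3 / 4 * C := by
              have := mul_le_mul_of_nonneg_right e4 hC
              linarith
      rw [div_le_iff₀ hM'0, add_mul, div_mul_cancel₀ _ hM'0.ne']
      linarith
    have hth := th_diff hd0 hdiff
    have hcw : 0 < 2 * |C| + 1 := by linarith
    have key : (2 * |C| + 1) * (20 / 3 * (7 / 4 * C / M')) ≤ η / 2 := by
      have k1 : 50 * (2 * |C| + 1) * |C| / η ≤ M := by
        have : 0 ≤ 100 * (|C| + 1) := by linarith
        linarith
      rw [div_le_iff₀ hη] at k1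
      have k2 : (2 * |C| + 1) * (20 / 3 * (7 / 4 * C / M')) = (2 * |C| + 1) * (35 / 3 * C) / M' := by
        field_simp
        ring
      rw [k2, div_le_iff₀ hM'0]
      have k3 : η / 2 * (M / 2) ≤ η / 2 * M' := mul_le_mul_of_nonneg_left hM2 (by linarith)
      have k4 : 0 ≤ (2 * |C| + 1) * |C| := by positivity
      rw [hCe] at *
      nlinarith
    have h3 : (2 * |C| + 1) * th M' s' ≤ (2 * |C| + 1) * (th M s + 20 / 3 * (7 / 4 * C / M')) :=
      mul_le_mul_of_nonneg_left hth hcw.le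
    rw [mul_add] at h3
    show M' + log (1 + exp (-s')) + (2 * |C| + 1) * th M' s'
      ≤ M + log (1 + exp (-s)) + (2 * |C| + 1) * th M s
    linarith
  · intro M s M' s' hM hs1 hs2 hM' hs'
    have hM1 := hm M hM
    have hC : 0 ≤ C := le_trans (abs_nonneg _) hM'
    have hCe : |C| = C := abs_of_nonneg hC
    have hM0 : 0 < M := by linarith
    have a1 := abs_le.mp hM'
    have a2 := abs_le.mp hs'
    have hs0 : 0 ≤ s := by linarith
    have t : th M s = 1 := th_one hM0 (by rw [abs_of_nonneg hs0]; exact hs1)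
    have hM'0 : 0 < M' := by linarith
    have hs'1 : |s'| ≤ M - s + C := by
      rw [abs_le]
      constructor <;> linarith
    have t' : th M' s' = 0 := by
      apply th_zero hM'0
      linarith
    have l1 := lg_le s'
    have l2 := lg_nonneg s
    show M' + log (1 + exp (-s')) + (2 * |C| + 1) * th M' s'
      ≤ M + log (1 + exp (-s)) + (2 * |C| + 1) * th M s
    rw [t, t', hCe]
    linarith
  · intro M s M' s' hM hs1 hs2 hM' hs'
    have hM1 := hm M hM
    have hC : 0 ≤ C := le_trans (abs_nonneg _) hM'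
    have hCe : |C| = C := abs_of_nonneg hC
    have hM0 : 0 < M := by linarith
    have a1 := abs_le.mp hM'
    have a2 := abs_le.mp hs'
    have hs0 : s ≤ 0 := by linarith
    have t : th M s = 1 := th_one hM0 (by rw [abs_of_nonpos hs0]; linarith)
    have hM'0 : 0 < M' := by linarith
    have hs'0 : 0 ≤ s' := by linarith
    have t' : th M' s' = 0 := by
      apply th_zero hM'0
      rw [abs_of_nonneg hs'0]
      linarith
    have l1 := lg_le_one hs'0
    have l2 := lg_ge s
    show M' + log (1 + exp (-s')) + (2 * |C| + 1) * th M' s'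
      ≤ M + log (1 + exp (-s)) + (2 * |C| + 1) * th M s
    rw [t, t', hCe]
    linarith

end Pool.Agent.H78.K4
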