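import Pool.Agent.H78.K4.Step524

/-!
# (5,24), change of the chart at `s ≥ 3/4 M`

The window `(x (n+2), x (n+3), x (n+4), x (n+5))` with the large term `X₁ = x (n+3) = S` and
`S₁ = x (n+5) = (a + S) / (y + c X)`, `y = x (n+2) ≤ K ≤ c X`: `S / (2 c X) ≤ S₁ ≤ (a + 1) S / (c X)`
(`S ≥ 1`), so `|log S₁ - (s - M)| ≤ C`, `|log S₁| ≤ 1/3 s + C ≤ 39/50 s` for `M ≥ m`.
`In524 Ki x (n+2)`, `Ki = (a + K) (1 + 2 c) + K`: `x (n+2) ≤ K`; `x (n+4) ≤ (a + K) / X ≤ a + K`;
`x (n+4) * S ≤ (a + K) S / X ≤ 2 c (a + K) S₁`. Then `rough524` at `n + 2`.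
-/

namespace Pool.Agent.H78.K4

open Real

theorem t2_524 {a c : ℝ} (ha : 0 < a) (hc : 0 < c) : ∃ K0 : ℝ, ∀ K ≥ K0, ∃ C m : ℝ,
    ∀ (x : ℕ → ℝ) (n : ℕ) (M s : ℝ), Eq524 a c x → St524 K x n M s → m ≤ M → 3 / 4 * M ≤ s →
      ∃ M' s', St524 K x (n + 11) M' s' ∧ |M' - s| ≤ C ∧ |s' - (s - M)| ≤ C := by
  obtain ⟨K0, hK0⟩ := rough524 ha hc
  refine ⟨K0, fun K hK => ?_⟩
  obtain ⟨C2, m2, hr⟩ := hK0 K hK ((a + K) * (1 + 2 * c) + K)
  obtain ⟨C1, hC1⟩ : ∃ C1, C1 = |log (2 * c)| + |log ((a + 1) / c)| := ⟨_, rfl⟩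
  have hz1 := abs_nonneg (log (2 * c))
  have hz2 := abs_nonneg (log ((a + 1) / c))
  have hz3 := abs_nonneg m2
  have hz4 : 0 ≤ |K| / c := by positivity
  refine ⟨C2 + C1, 2 * |m2| + 4 * C1 + |K| / c, ?_⟩
  intro x n M s hE h hm hs
  have hx0 := hE.pos n
  have hy0 := hE.pos (n + 2)
  have hX0 := hE.pos (n + 1)
  have hS0 := hE.pos (n + 3)
  have hx4 := hE.pos (n + 4)
  have hx5 := hE.pos (n + 5)
  have hKp : 0 < K := hy0.trans_le h.w.y
  have hM1 := h.one
  have hX : x (n + 1) = exp M := by rw [h.hM, exp_log hX0]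
  have hS : x (n + 3) = exp s := by rw [h.hs, exp_log hS0]
  have hs0 : 0 < s := by linarith
  have hX1 : 1 ≤ x (n + 1) := by rw [hX]; exact one_le_exp (by linarith)
  have hS1 : 1 ≤ x (n + 3) := by rw [hS]; exact one_le_exp hs0.le
  have hcX : K ≤ c * x (n + 1) := by
    have h1 := add_one_le_exp M
    have h2 : |K| / c ≤ exp M := by linarith
    rw [div_le_iff₀ hc, abs_of_pos hKp] at h2
    rw [hX]
    linarith
  have eq0 : x (n + 4) * (x (n + 1) + c * x n) = a + x (n + 2) := hE.eq n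
  have eq1 : x (n + 5) * (x (n + 2) + c * x (n + 1)) = a + x (n + 3) := hE.eq (n + 1)
  have hyK := h.w.y
  have b4 : x (n + 4) * x (n + 1) ≤ a + K := by
    have : 0 ≤ x (n + 4) * (c * x n) := by positivity
    linarith
  have b4' : x (n + 4) ≤ a + K := (le_mul_of_one_le_right hx4.le hX1).trans b4
  have hlow : x (n + 3) ≤ 2 * c * (x (n + 5) * x (n + 1)) := by
    have h1 : x (n + 5) * (x (n + 2) + c * x (n + 1)) ≤ x (n + 5) * (2 * (c * x (n + 1))) :=
      mul_le_mul_of_nonneg_left (by linarith) hx5.le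
    linarith
  have hupp : c * (x (n + 5) * x (n + 1)) ≤ (a + 1) * x (n + 3) := by
    have h0 : 0 ≤ x (n + 5) * x (n + 2) := by positivity
    have h1 := mul_le_mul_of_nonneg_left hS1 ha.le
    linarith
  have hlogS : log (x (n + 3)) = s := h.hs.symm
  have hlogX : log (x (n + 1)) = M := h.hM.symm
  have hlog1 : s ≤ log (2 * c) + (log (x (n + 5)) + M) := by
    have h1 := Real.log_le_log hS0 hlow
    rwa [log_mul (by positivity) (by positivity), log_mul hx5.ne' hX0.ne', hlogX, hlogS] at h1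
  have hlog2 : log (x (n + 5)) + M ≤ log ((a + 1) / c) + s := by
    have h1 : x (n + 5) * x (n + 1) ≤ (a + 1) / c * x (n + 3) := by
      rw [div_mul_eq_mul_div, le_div_iff₀ hc]
      linarith
    have h2 := Real.log_le_log (mul_pos hx5 hX0) h1
    rwa [log_mul hx5.ne' hX0.ne', log_mul (by positivity) hS0.ne', hlogX, hlogS] at h2
  have hb1 : s - M - C1 ≤ log (x (n + 5)) := by linarith [le_abs_self (log (2 * c))]
  have hb2 : log (x (n + 5)) ≤ s - M + C1 := by linarith [le_abs_self (log ((a + 1) / c))]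
  have hd := h.dom
  rw [abs_of_pos hs0] at hd
  have hin : In524 ((a + K) * (1 + 2 * c) + K) x (n + 2) := by
    refine ⟨?_, ?_, ?_⟩
    · show x (n + 2) ≤ ((a + K) * (1 + 2 * c) + K) * (1 + x (n + 5))
      have h1 : 0 ≤ (a + K) * (1 + 2 * c) := by positivity
      have h2 : 0 ≤ ((a + K) * (1 + 2 * c) + K) * x (n + 5) := by positivity
      linarith
    · show x (n + 4) ≤ (a + K) * (1 + 2 * c) + K
      have h1 : 0 ≤ (a + K) * (2 * c) := by positivity
      linarith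
    · show x (n + 4) * x (n + 3) ≤ ((a + K) * (1 + 2 * c) + K) * (x (n + 5) * (1 + x (n + 5)))
      have h1 : x (n + 4) * x (n + 3) ≤ x (n + 4) * (2 * c * (x (n + 5) * x (n + 1))) :=
        mul_le_mul_of_nonneg_left hlow hx4.le
      have h2 : x (n + 4) * (2 * c * (x (n + 5) * x (n + 1))) =
          2 * c * x (n + 5) * (x (n + 4) * x (n + 1)) := by ring
      have h3 : 2 * c * x (n + 5) * (x (n + 4) * x (n + 1)) ≤ 2 * c * x (n + 5) * (a + K) :=
        mul_le_mul_of_nonneg_left b4 (by positivity)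
      have h4 : 0 ≤ (a + K) * x (n + 5) := by positivity
      have h5 : 0 ≤ K * x (n + 5) := by positivity
      have h6 : 0 ≤ ((a + K) * (1 + 2 * c) + K) * (x (n + 5) * x (n + 5)) := by positivity
      linarith
  have hl : m2 ≤ log (x (n + 2 + 1)) := by
    show m2 ≤ log (x (n + 3))
    rw [hlogS]
    linarith [le_abs_self m2]
  have hl2 : |log (x (n + 2 + 3))| ≤ 39 / 50 * log (x (n + 2 + 1)) := by
    show |log (x (n + 5))| ≤ 39 / 50 * log (x (n + 3))
    rw [hlogS, abs_le]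
    constructor <;> linarith
  obtain ⟨M', s', h1, h2, h3⟩ := hr x (n + 2) hE hin hl hl2
  have h2' : |M' - s| ≤ C2 := by
    rw [← hlogS]
    exact h2
  have h3' : |s' - log (x (n + 5))| ≤ C2 := h3
  refine ⟨M', s', h1, ?_, ?_⟩
  · linarith
  · rw [abs_le] at h3' ⊢
    constructor <;> linarith

end Pool.Agent.H78.K4
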