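import Pool.Agent.H78.K4.Step524

/-!
# (5,24), change of the chart at `s ≤ -3/4 M`

`mid524`, `out524` at `n` (`E = exp (|s| - M) ≤ exp (-M/5)`, `m` such that all errors are at most one).
The new state is at `n + 7`: `M' = log (x (n+8))`, `x (n+8)` has the value
`a c X (1 + S) / (S (S + q))`, `S ≤ 1`, so `|M' - (M - s)| ≤ C`; `s' = log (x (n+10))`,
`|s' - M| ≤ C`; the window is `w7` (with `H ≤ K`, `In524` is monotone in the constant).
`|s'| ≤ M + C ≤ 4/5 (7/4 M - C) ≤ 4/5 M'` for `M ≥ m`.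
-/

namespace Pool.Agent.H78.K4

open Real

private theorem b_R {q S : ℝ} (hq : 0 < q) (hS : 0 < S) :
    R |log q| ((1 + S) / (S + q)) 1 := by
  have h1 : R |log q| (S + 1) (S + q) :=
    (R.refl hS (abs_nonneg _)).add (R.of_log one_pos hq (by simp))
  have h3 : 0 < S + q := by linarith
  have h2 := h1.div (R.refl h3 (le_refl (0 : ℝ)))
  rw [add_zero, div_self h3.ne', add_comm S 1] at h2
  exact h2

private theorem b_five {M s : ℝ} (h : |s| ≤ 4 / 5 * M) : exp (|s| - M) * M ≤ 5 := by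
  have h2 : exp (|s| - M) ≤ exp (-(M / 5)) := exp_le_exp.2 (by linarith)
  have h3 := add_one_le_exp (M / 5)
  have h4 : exp (M / 5) * exp (-(M / 5)) = 1 := by rw [← exp_add, add_neg_cancel, exp_zero]
  have h5 := exp_pos (-(M / 5))
  have h0 : 0 ≤ M := by
    have := abs_nonneg s
    linarith
  calc exp (|s| - M) * M ≤ exp (-(M / 5)) * M := mul_le_mul_of_nonneg_right h2 h0
    _ ≤ exp (-(M / 5)) * (5 * exp (M / 5)) := mul_le_mul_of_nonneg_left (by linarith) h5.le
    _ = 5 * (exp (M / 5) * exp (-(M / 5))) := by ring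
    _ = 5 := by rw [h4, mul_one]

private theorem b_mono {K K' : ℝ} (h : K ≤ K') {x : ℕ → ℝ} (hx : ∀ n, 0 < x n) {n : ℕ}
    (hi : In524 K x n) : In524 K' x n := by
  have h3 := hx (n + 3)
  refine ⟨hi.t.trans ?_, hi.y.trans h, hi.z.trans ?_⟩
  · exact mul_le_mul_of_nonneg_right h (by linarith)
  · exact mul_le_mul_of_nonneg_right h (by positivity)

/-- the small error `C * E` -/
private theorem b_small {C E M : ℝ} (hC : 0 < C) (hE : E * M ≤ 5) (hm : 5 * C ≤ M) :
    C * E ≤ 1 := by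
  have hM : 0 < M := by linarith
  by_contra hcon
  push Not at hcon
  have h1 : M < C * E * M := by
    have := mul_lt_mul_of_pos_right hcon hM
    linarith
  have h2 : C * E * M ≤ C * 5 := by
    rw [mul_assoc]
    exact mul_le_mul_of_nonneg_left hE hC.le
  linarith

theorem t3_524 {a c : ℝ} (ha : 0 < a) (hc : 0 < c) : ∃ K0 : ℝ, ∀ K ≥ K0, ∃ C m : ℝ,
    ∀ (x : ℕ → ℝ) (n : ℕ) (M s : ℝ), Eq524 a c x → St524 K x n M s → m ≤ M → s ≤ -(3 / 4 * M) →
      ∃ M' s', St524 K x (n + 7) M' s' ∧ |M' - (M - s)| ≤ C ∧ |s' - M| ≤ C := by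
  obtain ⟨H, hH, HO⟩ := out524 ha hc
  have hq : 0 < q524 a c := by unfold q524; positivity
  have hk : 0 < c ^ 2 / (1 + c ^ 2) := by positivity
  have hac : 0 < a * c := mul_pos ha hc
  refine ⟨H, fun K hK => ?_⟩
  obtain ⟨C1, hC1, HM⟩ := mid524 ha hc K
  obtain ⟨C2, hC2, HO'⟩ := HO C1 hC1
  obtain ⟨C, hC⟩ : ∃ C, C = 1 + |log (q524 a c)| + |log (c ^ 2 / (1 + c ^ 2))| + |log (a * c)| :=
    ⟨_, rfl⟩
  have z1 := abs_nonneg (log (q524 a c))
  have z2 := abs_nonneg (log (c ^ 2 / (1 + c ^ 2)))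
  have z3 := abs_nonneg (log (a * c))
  refine ⟨C, 5 * C + 5 * C1 + 5 * C2, fun x n M s hx h hm hs => ?_⟩
  have hX := hx.pos (n + 1)
  have hS := hx.pos (n + 3)
  have h8 := hx.pos (n + 8)
  have h10 := hx.pos (n + 10)
  have eX : exp M = x (n + 1) := by rw [h.hM, exp_log hX]
  have eS : exp s = x (n + 3) := by rw [h.hs, exp_log hS]
  have hM1 := h.one
  have hd := h.dom
  have hs0 : s ≤ 0 := by linarith
  have h5 := b_five hd
  have hsz : Sz524 x n (exp (|s| - M)) := by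
    refine ⟨?_, ?_, ?_, ?_⟩
    · rw [exp_le_one_iff]; linarith
    · rw [← eX, ← exp_add]
      exact one_le_exp (by linarith [abs_nonneg s])
    · rw [← eX, ← eS, ← exp_add]
      exact exp_le_exp.2 (by linarith [le_abs_self s])
    · rw [← eX, ← eS, ← exp_add, ← exp_add]
      exact one_le_exp (by linarith [neg_abs_le s])
  have hD1 : C1 * exp (|s| - M) ≤ 1 := b_small hC1 h5 (by linarith)
  have hD2 : C2 * exp (|s| - M) ≤ 1 := b_small hC2 h5 (by linarith)
  have hmid := HM x n _ hx hsz h.w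
  have hout := HO' x n _ hx hsz hD1 hmid
  have hS1 : x (n + 3) ≤ 1 := by
    rw [← eS, exp_le_one_iff]
    exact hs0
  have hlS : log (x (n + 3)) = s := h.hs.symm
  have hlX : log (x (n + 1)) = M := h.hM.symm
  have hQ := b_R hq hS
  have h2 := abs_le.1 hQ.log_le
  rw [log_one, sub_zero] at h2
  -- `x (n + 8)`
  have e8 : a * c * x (n + 1) * (1 + x (n + 3)) / (x (n + 3) * (x (n + 3) + q524 a c)) =
      a * c * x (n + 1) * ((1 + x (n + 3)) / (x (n + 3) + q524 a c)) / x (n + 3) := by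
    have : 0 < x (n + 3) + q524 a c := by linarith
    field_simp
  have r8 := hmid.x8
  rw [e8] at r8
  have h1 := r8.log_le
  rw [log_div (mul_pos (mul_pos hac hX) hQ.px).ne' hS.ne',
    log_mul (mul_pos hac hX).ne' hQ.px.ne', log_mul hac.ne' hX.ne', hlS, hlX] at h1
  have h3 := abs_le.1 h1
  have h6 := le_abs_self (log (a * c))
  have h7 := neg_abs_le (log (a * c))
  have hA : |log (x (n + 8)) - (M - s)| ≤ C := by
    rw [abs_le]
    constructor <;> linarith [h3.1, h3.2, h2.1, h2.2]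
  -- `x (n + 10)`
  have h4 := hout.x10.log_le
  rw [log_mul (mul_pos hX hk).ne' hQ.px.ne', log_mul hX.ne' hk.ne', hlX] at h4
  have h4' := abs_le.1 h4
  have h6' := le_abs_self (log (c ^ 2 / (1 + c ^ 2)))
  have h7' := neg_abs_le (log (c ^ 2 / (1 + c ^ 2)))
  have hB : |log (x (n + 10)) - M| ≤ C := by
    rw [abs_le]
    constructor <;> linarith [h4'.1, h4'.2, h2.1, h2.2]
  have hA' := abs_le.1 hA
  have hB' := abs_le.1 hB
  refine ⟨log (x (n + 8)), log (x (n + 10)), ⟨rfl, rfl, ?_, ?_, ?_⟩, hA, hB⟩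
  · linarith [hA'.1]
  · rw [abs_le]
    constructor <;> linarith [hA'.1, hB'.1, hB'.2]
  · exact b_mono hK hx.pos (hout.w7 hS1)

end Pool.Agent.H78.K4
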