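import Mathlib

/-!
# Excursions: an abstract boundedness theorem

Proof. (1) From a state `St t M s` with `W M s ≤ P`: either there is a later state `St t' M' s'`
(`t ≤ t'`) with `M' < m`, and all terms with index in `[t, t' + 10]` are at most
`exp (B + 4 * (P + B))` or `T1`, or all terms with index `≥ t` are at most
`exp (B + 4 * (P + B))` (iterate `hstep`; `k ≤ 11 ≤ 12`, so the blocks `[t, t + 12]` cover
everything; by induction on the number of steps: `∀ N, (∃ t' …, M' < m) ∨ (∃ t' ≥ t + N, …)`).
(2) Let `T` be the maximum of `T0`, `T1` and of `x 0, …, x L`, let `P` be the constant of `hrec`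
for `T`, and `Q = max T (max P (exp (B + 4 * (P + B))))`. Call `c ≥ L` calm if `x (c - j) ≤ T` for
`j ≤ L`. Claim: for all `N` and all calm `c`, `x n ≤ Q` for `c ≤ n ≤ N`; by induction on `N - c`:
let `n` be the first index `≥ c` with `x n > T` (if there is none with `n ≤ N` we are done). The
`L` terms before `n` are at most `T`; by `hrec` there is a state at `n + i`; by (1) either all
later terms are at most `Q`, or there is a state at `t'` with `M' < m`, and then `t' + L + 10` is
calm by `hend`, and everything up to `t' + L + 10` is at most `Q`.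
(3) `L` is calm by the choice of `T`.
-/

namespace Pool.Agent.H78.K4

open Real

/-- A positive sequence is bounded if from every record after a calm period one reaches a state, and
a potential of the states does not increase. -/
theorem sweep12 {x : ℕ → ℝ} {St : ℕ → ℝ → ℝ → Prop} {W : ℝ → ℝ → ℝ} {m B T1 T0 : ℝ} {L : ℕ}
    (hlow : ∀ n M s, St n M s → M ≤ 2 * (W M s + B))
    (hterm : ∀ n M s, St n M s → m ≤ M → ∀ i ≤ 12, x (n + i) ≤ exp (B + 2 * M))
    (hstep : ∀ n M s, St n M s → m ≤ M → ∃ k, 1 ≤ k ∧ k ≤ 11 ∧ ∃ M' s', St (n + k) M' s' ∧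
      W M' s' ≤ W M s)
    (hend : ∀ n M s, St n M s → M < m → ∀ i ≤ L + 20, x (n + i) ≤ T1)
    (hrec : ∀ T ≥ T0, ∃ P : ℝ, ∀ n, L ≤ n → T < x n → (∀ j, 1 ≤ j → j ≤ L → x (n - j) ≤ T) →
      ∃ i ≤ 10, ∃ M s, St (n + i) M s ∧ W M s ≤ P ∧ ∀ j ≤ 20, x (n + j) ≤ P) :
    ∃ Q : ℝ, ∀ n, x n ≤ Q := by
  obtain ⟨T, hTT0, hTT1, hTx⟩ : ∃ T : ℝ, T0 ≤ T ∧ T1 ≤ T ∧ ∀ i ≤ L, x i ≤ T := by
    refine ⟨max T0 (max T1 (∑ i ∈ Finset.range (L + 1), |x i|)), le_max_left _ _,
      (le_max_left _ _).trans (le_max_right _ _), fun i hi => ?_⟩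
    have h1 : |x i| ≤ ∑ j ∈ Finset.range (L + 1), |x j| :=
      Finset.single_le_sum (f := fun j => |x j|) (fun j _ => abs_nonneg (x j))
        (Finset.mem_range.2 (by omega))
    exact (le_abs_self _).trans (h1.trans ((le_max_right _ _).trans (le_max_right _ _)))
  obtain ⟨P, hP⟩ := hrec T hTT0
  obtain ⟨Q1, hQ1⟩ : ∃ Q1 : ℝ, Q1 = max (exp (B + 4 * (P + B))) T1 := ⟨_, rfl⟩
  have hEQ : exp (B + 4 * (P + B)) ≤ Q1 := by
    rw [hQ1]
    exact le_max_left _ _
  have hTQ : T1 ≤ Q1 := by
    rw [hQ1]
    exact le_max_right _ _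
  have step1 : ∀ N t : ℕ, ∀ M s : ℝ, St t M s → W M s ≤ P →
      (∃ t' : ℕ, ∃ M' s' : ℝ, t ≤ t' ∧ St t' M' s' ∧ M' < m ∧
        ∀ i, t ≤ i → i ≤ t' + L + 20 → x i ≤ Q1) ∨ ∀ i, t ≤ i → i ≤ t + N → x i ≤ Q1 := by
    intro N
    induction N with
    | zero =>
      intro t M s hSt hW
      rcases lt_or_ge M m with hM | hM
      · refine Or.inl ⟨t, M, s, le_rfl, hSt, hM, fun i hi1 hi2 => ?_⟩
        have h1 := hend t M s hSt hM (i - t) (by omega)
        rw [Nat.add_sub_cancel' hi1] at h1
        exact h1.trans hTQ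
      · refine Or.inr fun i hi1 hi2 => ?_
        have h1 := hterm t M s hSt hM (i - t) (by omega)
        rw [Nat.add_sub_cancel' hi1] at h1
        refine h1.trans (le_trans (exp_le_exp.2 ?_) hEQ)
        have h2 := hlow t M s hSt
        linarith
    | succ N ih =>
      intro t M s hSt hW
      rcases lt_or_ge M m with hM | hM
      · refine Or.inl ⟨t, M, s, le_rfl, hSt, hM, fun i hi1 hi2 => ?_⟩
        have h1 := hend t M s hSt hM (i - t) (by omega)
        rw [Nat.add_sub_cancel' hi1] at h1
        exact h1.trans hTQ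
      · have hblock : ∀ i, t ≤ i → i ≤ t + 12 → x i ≤ Q1 := by
          intro i hi1 hi2
          have h1 := hterm t M s hSt hM (i - t) (by omega)
          rw [Nat.add_sub_cancel' hi1] at h1
          refine h1.trans (le_trans (exp_le_exp.2 ?_) hEQ)
          have h2 := hlow t M s hSt
          linarith
        obtain ⟨k, hk1, hk11, M', s', hSt', hW'⟩ := hstep t M s hSt hM
        rcases ih (t + k) M' s' hSt' (hW'.trans hW) with ⟨t', M'', s'', ht', hSt'', hM'', hx⟩ | hx
        · refine Or.inl ⟨t', M'', s'', by omega, hSt'', hM'', fun i hi1 hi2 => ?_⟩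
          rcases le_total i (t + k) with h | h
          · exact hblock i hi1 (by omega)
          · exact hx i h hi2
        · refine Or.inr fun i hi1 hi2 => ?_
          rcases le_total i (t + k) with h | h
          · exact hblock i hi1 (by omega)
          · exact hx i h (by omega)
  obtain ⟨Q, hQ⟩ : ∃ Q : ℝ, Q = max T (max P Q1) := ⟨_, rfl⟩
  have hQT : T ≤ Q := by
    rw [hQ]
    exact le_max_left _ _
  have hQP : P ≤ Q := by
    rw [hQ]
    exact (le_max_left _ _).trans (le_max_right _ _)
  have hQQ : Q1 ≤ Q := by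
    rw [hQ]
    exact (le_max_right _ _).trans (le_max_right _ _)
  have claim : ∀ d c : ℕ, L ≤ c → (∀ j ≤ L, x (c - j) ≤ T) →
      ∀ n, c ≤ n → n ≤ c + d → x n ≤ Q := by
    intro d
    induction d using Nat.strong_induction_on with
    | _ d ih =>
      intro c hLc hcalm n hcn hnd
      by_cases hex : ∃ n0, c ≤ n0 ∧ n0 ≤ n ∧ T < x n0
      · classical
        have hex' : ∃ n0, c ≤ n0 ∧ T < x n0 := by
          obtain ⟨n0, h1, _, h3⟩ := hex
          exact ⟨n0, h1, h3⟩
        obtain ⟨n0, hn0⟩ : ∃ n0, n0 = Nat.find hex' := ⟨_, rfl⟩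
        have hspec : c ≤ n0 ∧ T < x n0 := by
          rw [hn0]
          exact Nat.find_spec hex'
        have hmin : ∀ k, k < n0 → ¬ (c ≤ k ∧ T < x k) := by
          intro k hk
          rw [hn0] at hk
          exact Nat.find_min hex' hk
        have hn0n : n0 ≤ n := by
          obtain ⟨n1, h1, h2, h3⟩ := hex
          have h4 : n0 ≤ n1 := by
            rw [hn0]
            exact Nat.find_min' hex' ⟨h1, h3⟩
          omega
        have hc0 : x c ≤ T := by
          have h1 := hcalm 0 (Nat.zero_le _)
          rwa [Nat.sub_zero] at h1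
        have hcn0 : c < n0 := by
          rcases hspec.1.lt_or_eq with h | h
          · exact h
          · exfalso
            rw [← h] at hspec
            linarith [hspec.2]
        have hbef : ∀ j, 1 ≤ j → j ≤ L → x (n0 - j) ≤ T := by
          intro j hj1 hjL
          rcases le_or_gt c (n0 - j) with h | h
          · by_contra hlt
            exact hmin (n0 - j) (by omega) ⟨h, not_le.1 hlt⟩
          · have h1 := hcalm (c - (n0 - j)) (by omega)
            have h2 : c - (c - (n0 - j)) = n0 - j := by omega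
            rwa [h2] at h1
        obtain ⟨i, hi, M, s, hSt, hW, hxP⟩ := hP n0 (by omega) hspec.2 hbef
        have hP20 : ∀ a, n0 ≤ a → a ≤ n0 + 20 → x a ≤ P := by
          intro a ha1 ha2
          have h1 := hxP (a - n0) (by omega)
          rwa [Nat.add_sub_cancel' ha1] at h1
        rcases le_or_gt n (n0 + 20) with hn20 | hn20
        · exact (hP20 n hn0n hn20).trans hQP
        · rcases step1 n (n0 + i) M s hSt hW with ⟨t', M', s', ht', hSt', hM', hx⟩ | hx
          · rcases le_or_gt n (t' + L + 20) with hnt | hnt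
            · exact (hx n (by omega) hnt).trans hQQ
            · refine ih (c + d - (t' + L)) (by omega) (t' + L) (by omega) ?_ n (by omega) (by omega)
              intro j hj
              have h1 := hend t' M' s' hSt' hM' (L - j) (by omega)
              have h2 : t' + L - j = t' + (L - j) := by omega
              rw [h2]
              exact h1.trans hTT1
          · exact (hx n (by omega) (by omega)).trans hQQ
      · push Not at hex
        exact (hex n hcn le_rfl).trans hQT
  refine ⟨Q, fun n => ?_⟩
  rcases le_or_gt n L with h | h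
  · exact (hTx n h).trans hQT
  · refine claim n L le_rfl (fun j _ => hTx (L - j) (by omega)) n h.le (by omega)

end Pool.Agent.H78.K4
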