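import Pool.Agent.H78.K4.Def524

/-!
# (5,24), the second half of a cycle

Notation as in `Mid524.lean`; `D = C * E ≤ 1`, so `exp D ≤ 3`; `H` = constants depending on `a, c`
only, `q = a (1 + c²)`.
* `x_8 ≥ X (1 + S) a c / (3 S (S + q)) ≥ X / (H S)` and `x_8 ≤ H X (1 + S) / (S (S + q)) ≤ H X (1 + S) / S`.
* `x_9 (x_6 + c x_5) = a + x_7`: `x_9 ≤ (a + x_7) / x_6 ≤ 3 (a + 3 a / (c S)) S / a ≤ H (1 + S)` and
  `x_9 ≤ (a + x_7) / (c x_5) ≤ H (1 + 1 / S) X / (a + S)`. No lower bound is needed.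
* `x_10 (x_7 + c x_6) = a + x_8`: `a ≤ H E x_8` (`S (S + q) / (1 + S) ≤ (1 + q) S ≤ (1 + q) E X`), value
  `x_8`-value divided by `a / (c S) + c a / S = q / (c S)`, which is
  `a c X (1 + S) / (S (S + q)) * (c S / q) = X (c² / (1 + c²)) (1 + S) / (S + q)`.
* `x_11 (x_8 + c x_7) = a + x_9`: `x_11 ≤ (a + x_9) / x_8`. With the two bounds of `x_9`:
  `x_11 ≤ H` and `x_11 ≤ H (1 + S) S (S + q) / (X (1 + S)) ≤ H S (1 + S) / X`.
* `x_12 (x_9 + c x_8) = a + x_10`: `a ≤ H E x_10` (`x_10 ≥ X / H`); put `h = x_9 / (c x_8)`: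
  `x_9 + c x_8 = c x_8 (1 + h)`, and `x_10 / (c x_8)` has the value `S / q`. `h ≤ x_11-type bounds`:
  `h ≤ H`, `h ≤ H S (1 + S) / X`, so `q h ≤ H E (S + q)` (as `S (1 + S) / X ≤ 2 E S`).
* `w`: `x_9 ≤ H (1 + S)`, `S ≤ H x_12`; `x_11 x_10 ≤ H S (1 + S) ≤ H x_12 (1 + x_12)` as `x_10 ≤ H X`.
* `w7` (`S ≤ 1`): `x_7 ≤ 3 a / (c S) ≤ H X ≤ H x_10` (as `1 / S ≤ X`), `x_9 ≤ 2 H`,
  `x_9 x_8 ≤ H X / S ≤ H X² ≤ H x_10²`.
-/

namespace Pool.Agent.H78.K4

open Real

private theorem exp_le_three {D : ℝ} (h : D ≤ 1) : exp D ≤ 3 := by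
  have h1 := Real.exp_one_lt_d9
  have h2 : exp D ≤ exp 1 := Real.exp_le_exp.2 h
  linarith

private theorem R3 {D u v : ℝ} (h : R D u v) (hD : D ≤ 1) : u ≤ 3 * v ∧ v ≤ 3 * u := by
  have h3 := exp_le_three hD
  have h1 := h.px
  have h2 := h.py
  exact ⟨h.le.trans (mul_le_mul_of_nonneg_right h3 h2.le), h.ge.trans (mul_le_mul_of_nonneg_right h3 h1.le)⟩

/-- first bound of `x9` -/
private theorem b9 {a c S x5 x6 x7 x9 : ℝ} (ha : 0 < a) (hc : 0 < c) (hS : 0 < S) (h5 : 0 < x5) (h6 : 0 < x6)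
    (h9 : 0 < x9) (k6 : a ≤ 3 * S * x6) (k7 : c * S * x7 ≤ 3 * a)
    (e : x9 * (x6 + c * x5) = a + x7) : x9 ≤ (3 + 9 / c) * (1 + S) := by
  have h1 : x9 * x6 ≤ a + x7 := by
    rw [← e]
    have : 0 < x9 * (c * x5) := by positivity
    nlinarith
  have h2 : x9 * a ≤ 3 * S * (a + x7) := by
    calc x9 * a ≤ x9 * (3 * S * x6) := mul_le_mul_of_nonneg_left k6 h9.le
      _ = 3 * S * (x9 * x6) := by ring
      _ ≤ 3 * S * (a + x7) := mul_le_mul_of_nonneg_left h1 (by positivity)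
  have h3 : S * x7 ≤ 3 * a / c := by
    rw [le_div_iff₀ hc]
    linarith
  have h4 : x9 * a ≤ (3 * S + 9 / c) * a := by
    calc x9 * a ≤ 3 * S * (a + x7) := h2
      _ = 3 * S * a + 3 * (S * x7) := by ring
      _ ≤ 3 * S * a + 3 * (3 * a / c) := by linarith
      _ = (3 * S + 9 / c) * a := by ring
  have h5 := le_of_mul_le_mul_right h4 ha
  have h6 : 0 < 9 / c := by positivity
  have h7 : 0 < 9 / c * S := by positivity
  nlinarith

/-- second bound of `x9` -/
private theorem b9' {a c S X x5 x6 x7 x9 : ℝ} (ha : 0 < a) (hc : 0 < c) (hS : 0 < S) (hX : 0 < X) (h5 : 0 < x5)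
    (h6 : 0 < x6) (h9 : 0 < x9) (k5 : a + S ≤ 3 * c * X * x5) (k7 : c * S * x7 ≤ 3 * a)
    (e : x9 * (x6 + c * x5) = a + x7) : x9 * (a + S) * S ≤ 3 * a * (1 + 3 / c) * (1 + S) * X := by
  have h1 : x9 * (c * x5) ≤ a + x7 := by
    rw [← e]
    have : 0 < x9 * x6 := by positivity
    nlinarith
  have h2 : x9 * (a + S) ≤ 3 * X * (a + x7) := by
    calc x9 * (a + S) ≤ x9 * (3 * c * X * x5) := mul_le_mul_of_nonneg_left k5 h9.le
      _ = 3 * X * (x9 * (c * x5)) := by ring
      _ ≤ 3 * X * (a + x7) := mul_le_mul_of_nonneg_left h1 (by positivity)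
  have h3 : S * x7 ≤ 3 * a / c := by
    rw [le_div_iff₀ hc]
    linarith
  calc x9 * (a + S) * S ≤ 3 * X * (a + x7) * S := mul_le_mul_of_nonneg_right h2 hS.le
    _ = 3 * X * (a * S + S * x7) := by ring
    _ ≤ 3 * X * (a * S + 3 * a / c) := mul_le_mul_of_nonneg_left (by linarith) (by positivity)
    _ ≤ 3 * X * (a * S + 3 * a / c + (a + 3 * a / c * S)) := by
        have : 0 < a + 3 * a / c * S := by positivity
        have h4 : 0 < 3 * X * (a + 3 * a / c * S) := by positivity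
        nlinarith
    _ = 3 * a * (1 + 3 / c) * (1 + S) * X := by ring

theorem out524 {a c : ℝ} (ha : 0 < a) (hc : 0 < c) : ∃ H : ℝ, 0 < H ∧ ∀ C : ℝ, 0 < C → ∃ C' : ℝ, 0 < C' ∧
    ∀ (x : ℕ → ℝ) (n : ℕ) (E : ℝ), Eq524 a c x → Sz524 x n E → C * E ≤ 1 →
      Mid524 a c (C * E) x n (x (n + 1)) (x (n + 3)) →
      Out524 a c H (C' * E) x n (x (n + 1)) (x (n + 3)) := by
  obtain ⟨q, hqd⟩ : ∃ q, q = q524 a c := ⟨_, rfl⟩
  have hq' : q = a * (1 + c ^ 2) := hqd
  have hq : 0 < q := by rw [hq']; positivity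
  have haq : a ≤ q := by
    rw [hq']
    nlinarith [mul_pos ha (pow_pos hc 2)]
  -- constants
  obtain ⟨H1, hH1⟩ : ∃ H1, H1 = 3 + 9 / c := ⟨_, rfl⟩
  obtain ⟨d1, hd1⟩ : ∃ d1, d1 = 3 * (1 + q) / c := ⟨_, rfl⟩
  -- `x9 / x8 ≤ G`
  obtain ⟨G, hG⟩ : ∃ G, G = 9 * (1 + 3 / c) * (1 + c ^ 2) / c := ⟨_, rfl⟩
  -- `x9 / x8 ≤ F E (S + q)`
  obtain ⟨F, hF⟩ : ∃ F, F = 3 * H1 / (a * c) := ⟨_, rfl⟩
  obtain ⟨H3, hH3⟩ : ∃ H3, H3 = d1 + G := ⟨_, rfl⟩
  obtain ⟨H4, hH4⟩ : ∃ H4, H4 = 3 * (a + H1) * (1 + q) / (a * c) := ⟨_, rfl⟩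
  obtain ⟨H5, hH5⟩ : ∃ H5, H5 = 9 * (1 + q) * (1 + c ^ 2) / c ^ 2 := ⟨_, rfl⟩
  obtain ⟨H6, hH6⟩ : ∃ H6, H6 = G / c := ⟨_, rfl⟩
  obtain ⟨H7, hH7⟩ : ∃ H7, H7 = 27 * q * (1 + H6) := ⟨_, rfl⟩
  obtain ⟨H8, hH8⟩ : ∃ H8, H8 = 9 * (1 + d1) * (1 + 1 / q) := ⟨_, rfl⟩
  obtain ⟨H9, hH9⟩ : ∃ H9, H9 = 6 * a * c / q := ⟨_, rfl⟩
  have pH1 : 0 < H1 := by rw [hH1]; positivity
  have pd1 : 0 < d1 := by rw [hd1]; positivity
  have pG : 0 < G := by rw [hG]; positivity
  have pF : 0 < F := by rw [hF]; positivity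
  have pH3 : 0 < H3 := by rw [hH3]; positivity
  have pH4 : 0 < H4 := by rw [hH4]; positivity
  have pH5 : 0 < H5 := by rw [hH5]; positivity
  have pH6 : 0 < H6 := by rw [hH6]; positivity
  have pH7 : 0 < H7 := by rw [hH7]; positivity
  have pH8 : 0 < H8 := by rw [hH8]; positivity
  have pH9 : 0 < H9 := by rw [hH9]; positivity
  obtain ⟨H, hH⟩ : ∃ H, H = 2 * H1 + H6 + H1 * (1 + H7) + H3 + H4 * H8 * H7 * (1 + H7) + 3 * a / c * H5 +
      2 * H1 * H9 * H5 ^ 2 := ⟨_, rfl⟩
  have p1 : 0 < H1 * (1 + H7) := by positivity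
  have p2 : 0 < H4 * H8 * H7 * (1 + H7) := by positivity
  have p3 : 0 < 3 * a / c * H5 := by positivity
  have p4 : 0 < 2 * H1 * H9 * H5 ^ 2 := by positivity
  refine ⟨H, by rw [hH]; positivity, ?_⟩
  intro C hC
  obtain ⟨C', hC'⟩ : ∃ C', C' = a * H5 + d1 + 3 * C + q * F / c := ⟨_, rfl⟩
  refine ⟨C', by rw [hC']; positivity, ?_⟩
  intro x n E hx hs hCE hm
  obtain ⟨X, hX⟩ : ∃ X, X = x (n + 1) := ⟨_, rfl⟩
  obtain ⟨S, hS⟩ : ∃ S, S = x (n + 3) := ⟨_, rfl⟩
  have e9 : x (n + 9) * (x (n + 6) + c * x (n + 5)) = a + x (n + 7) := hx.eq (n + 5)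
  have e10 : x (n + 10) * (x (n + 7) + c * x (n + 6)) = a + x (n + 8) := hx.eq (n + 6)
  have e11 : x (n + 11) * (x (n + 8) + c * x (n + 7)) = a + x (n + 9) := hx.eq (n + 7)
  have e12 : x (n + 12) * (x (n + 9) + c * x (n + 8)) = a + x (n + 10) := hx.eq (n + 8)
  have pX : 0 < X := by rw [hX]; exact hx.pos _
  have pS : 0 < S := by rw [hS]; exact hx.pos _
  have hE1 := hs.E1
  have hEX := hs.hX
  have hES := hs.hS
  have hEi := hs.hi
  rw [← hX, ← hS] at hm ⊢
  rw [← hX] at hEX hES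
  rw [← hS] at hES
  rw [← hX, ← hS] at hEi
  have pE : 0 < E := by
    by_contra h
    push Not at h
    have h1 := mul_nonpos_of_nonpos_of_nonneg h pX.le
    linarith only [h1, hEX]
  have p5 := hx.pos (n + 5)
  have p6 := hx.pos (n + 6)
  have p7 := hx.pos (n + 7)
  have p8 := hx.pos (n + 8)
  have p9 := hx.pos (n + 9)
  have p10 := hx.pos (n + 10)
  have p11 := hx.pos (n + 11)
  have p12 := hx.pos (n + 12)
  have m5 := hm.x5
  have m6 := hm.x6
  have m7 := hm.x7
  have m8 := hm.x8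
  rw [← hqd] at m8
  generalize x (n + 5) = x5 at *
  generalize x (n + 6) = x6 at *
  generalize h7x : x (n + 7) = x7 at *
  generalize h8x : x (n + 8) = x8 at *
  generalize h9x : x (n + 9) = x9 at *
  generalize h10x : x (n + 10) = x10 at *
  generalize h11x : x (n + 11) = x11 at *
  generalize h12x : x (n + 12) = x12 at *
  have hcS : 0 < c * S := by positivity
  have hcX : 0 < c * X := by positivity
  have pSq : 0 < S + q := by positivity
  have k6 : a ≤ 3 * S * x6 := by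
    have := (R3 m6 hCE).2
    rw [div_le_iff₀ pS] at this
    linarith only [this]
  have k7 : c * S * x7 ≤ 3 * a := by
    have := (R3 m7 hCE).1
    rw [← mul_div_assoc, le_div_iff₀ hcS] at this
    linarith only [this]
  have k5 : a + S ≤ 3 * c * X * x5 := by
    have := (R3 m5 hCE).2
    rw [div_le_iff₀ hcX] at this
    linarith only [this]
  obtain ⟨V8, hV8⟩ : ∃ V8, V8 = a * c * X * (1 + S) / (S * (S + q)) := ⟨_, rfl⟩
  rw [← hV8] at m8
  have pV8 : 0 < V8 := by rw [hV8]; positivity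
  have k8l := (R3 m8 hCE).2
  have k8u := (R3 m8 hCE).1
  have v8 : V8 * (S * (S + q)) = a * c * X * (1 + S) := by
    rw [hV8]
    field_simp
  have hSq1 : S + q ≤ (1 + q) * (1 + S) := by
    have := mul_pos pS hq
    linarith only [this]
  -- bounds of x9
  have A1 : x9 ≤ H1 * (1 + S) := by
    rw [hH1]
    exact b9 ha hc pS p5 p6 p9 k6 k7 e9
  have A2 := b9' ha hc pS pX p5 p6 p9 k5 k7 e9
  have A3 : x9 ≤ G * x8 := by
    have h1 : x9 ≤ G * (V8 / 3) := by
      rw [hG, hV8]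
      rw [show 9 * (1 + 3 / c) * (1 + c ^ 2) / c * (a * c * X * (1 + S) / (S * (S + q)) / 3) =
        3 * a * (1 + 3 / c) * (1 + S) * X * ((1 + c ^ 2) / (S * (S + q))) by field_simp; ring]
      have h2 : (1 : ℝ) / ((a + S) * S) ≤ (1 + c ^ 2) / (S * (S + q)) := by
        rw [div_le_div_iff₀ (by positivity) (by positivity)]
        have h3 : S + q ≤ (1 + c ^ 2) * (a + S) := by
          have h4 := mul_pos pS (pow_pos hc 2)
          rw [hq']
          linarith only [h4]
        have h4 := mul_le_mul_of_nonneg_left h3 pS.le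
        linarith only [h4]
      have h3 : 0 < 3 * a * (1 + 3 / c) * (1 + S) * X := by positivity
      calc x9 = x9 * (a + S) * S * (1 / ((a + S) * S)) := by field_simp
        _ ≤ 3 * a * (1 + 3 / c) * (1 + S) * X * (1 / ((a + S) * S)) :=
            mul_le_mul_of_nonneg_right A2 (by positivity)
        _ ≤ _ := mul_le_mul_of_nonneg_left h2 h3.le
    have h2 : G * (V8 / 3) ≤ G * x8 := mul_le_mul_of_nonneg_left (by linarith only [k8l]) pG.le
    exact h1.trans h2
  have A4 : x9 ≤ F * E * (S + q) * x8 := by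
    have h1 : H1 * (1 + S) ≤ F * E * (S + q) * (V8 / 3) := by
      rw [hF, hV8]
      rw [show 3 * H1 / (a * c) * E * (S + q) * (a * c * X * (1 + S) / (S * (S + q)) / 3) =
        H1 * (1 + S) * (E * X / S) by field_simp]
      have h2 : 1 ≤ E * X / S := by
        rw [le_div_iff₀ pS]
        linarith only [hES]
      have h3 : 0 < H1 * (1 + S) := by positivity
      have h4 := mul_le_mul_of_nonneg_left h2 h3.le
      linarith only [h4]
    have h2 : F * E * (S + q) * (V8 / 3) ≤ F * E * (S + q) * x8 :=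
      mul_le_mul_of_nonneg_left (by linarith only [k8l]) (by positivity)
    exact A1.trans (h1.trans h2)
  have B1 : a ≤ d1 * E * x8 := by
    have h1 : a ≤ d1 * E * (V8 / 3) := by
      rw [hd1, hV8]
      rw [show 3 * (1 + q) / c * E * (a * c * X * (1 + S) / (S * (S + q)) / 3) =
        a * ((E * X / S) * ((1 + q) * (1 + S) / (S + q))) by field_simp]
      have h2 : 1 ≤ E * X / S := by
        rw [le_div_iff₀ pS]
        linarith only [hES]
      have h3 : 1 ≤ (1 + q) * (1 + S) / (S + q) := by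
        rw [le_div_iff₀ pSq]
        linarith only [hSq1]
      have h4 : 1 ≤ E * X / S * ((1 + q) * (1 + S) / (S + q)) := one_le_mul_of_one_le_of_one_le h2 h3
      have h5 := mul_le_mul_of_nonneg_left h4 ha.le
      linarith only [h5]
    have h2 : d1 * E * (V8 / 3) ≤ d1 * E * x8 := mul_le_mul_of_nonneg_left (by linarith only [k8l]) (by positivity)
    exact h1.trans h2
  have B1' : a ≤ d1 * x8 := by
    have : d1 * E * x8 ≤ d1 * 1 * x8 := by
      have h1 : d1 * E ≤ d1 * 1 := mul_le_mul_of_nonneg_left hE1 pd1.le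
      exact mul_le_mul_of_nonneg_right h1 p8.le
    linarith only [this, B1]
  -- x11
  have C1 : x11 * x8 ≤ a + x9 := by
    rw [← e11]
    have : 0 < x11 * (c * x7) := by positivity
    linarith only [this]
  have C2 : x11 ≤ H3 := by
    have h1 : x11 * x8 ≤ H3 * x8 := by
      rw [hH3]
      linarith only [C1, B1', A3]
    exact le_of_mul_le_mul_right h1 p8
  have C3 : x11 * X ≤ H4 * (S * (1 + S)) := by
    have h1 : x11 * (V8 / 3) ≤ (a + H1) * (1 + S) := by
      have h2 : x11 * (V8 / 3) ≤ x11 * x8 := mul_le_mul_of_nonneg_left (by linarith only [k8l]) p11.le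
      have h3 := mul_pos ha pS
      linarith only [h2, h3, C1, A1]
    have h4 : x11 * X = x11 * (V8 / 3) * (3 * (S * (S + q)) / (a * c * (1 + S))) := by
      rw [hV8]
      field_simp
    rw [h4]
    calc x11 * (V8 / 3) * (3 * (S * (S + q)) / (a * c * (1 + S))) ≤
        (a + H1) * (1 + S) * (3 * (S * (S + q)) / (a * c * (1 + S))) :=
          mul_le_mul_of_nonneg_right h1 (by positivity)
      _ = 3 * (a + H1) / (a * c) * S * (S + q) := by field_simp
      _ ≤ 3 * (a + H1) / (a * c) * S * ((1 + q) * (1 + S)) :=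
          mul_le_mul_of_nonneg_left hSq1 (by positivity)
      _ = H4 * (S * (1 + S)) := by rw [hH4]; ring
  -- x10
  obtain ⟨V10, hV10⟩ : ∃ V10, V10 = X * (c ^ 2 / (1 + c ^ 2)) * ((1 + S) / (S + q)) := ⟨_, rfl⟩
  have pV10 : 0 < V10 := by rw [hV10]; positivity
  have hN : R (C * E) (x7 + c * x6) (q / (c * S)) := by
    have h1 := m7.add (m6.const_mul hc)
    have h2 : a / (c * S) + c * (a / S) = q / (c * S) := by
      rw [hq']
      field_simp
    rwa [h2] at h1
  have pN : 0 < x7 + c * x6 := hN.px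
  have v10 : V8 / (q / (c * S)) = V10 := by
    rw [hV8, hV10, hq']
    field_simp
  have v10' : V10 = S / q * (c * V8) := by
    rw [← v10]
    field_simp
  have hx10 : x10 = (a + x8) / (x7 + c * x6) := by
    rw [eq_div_iff pN.ne']
    exact e10
  have D1 : R (d1 * E + C * E + C * E) x10 V10 := by
    rw [hx10, ← v10]
    exact ((R.small' p8 ha.le B1).trans m8).div hN
  have D2 : V10 ≤ 9 * x10 := by
    have h1 := (R3 hN hCE).1
    have h2 : V8 / 3 ≤ x10 * (3 * (q / (c * S))) := by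
      calc V8 / 3 ≤ x8 := by linarith only [k8l]
        _ ≤ a + x8 := by linarith only [ha]
        _ = x10 * (x7 + c * x6) := e10.symm
        _ ≤ x10 * (3 * (q / (c * S))) := mul_le_mul_of_nonneg_left h1 p10.le
    rw [← v10, div_le_iff₀ (by positivity)]
    linarith only [h2]
  have D3 : X ≤ H5 * x10 := by
    have h1 : X ≤ (1 + q) * (1 + c ^ 2) / c ^ 2 * V10 := by
      rw [hV10]
      rw [show (1 + q) * (1 + c ^ 2) / c ^ 2 * (X * (c ^ 2 / (1 + c ^ 2)) * ((1 + S) / (S + q))) =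
        X * ((1 + q) * (1 + S) / (S + q)) by field_simp]
      have h3 : 1 ≤ (1 + q) * (1 + S) / (S + q) := by
        rw [le_div_iff₀ pSq]
        linarith only [hSq1]
      have h4 := mul_le_mul_of_nonneg_left h3 pX.le
      linarith only [h4]
    have h2 : (1 + q) * (1 + c ^ 2) / c ^ 2 * V10 ≤ (1 + q) * (1 + c ^ 2) / c ^ 2 * (9 * x10) :=
      mul_le_mul_of_nonneg_left D2 (by positivity)
    have h3 : (1 + q) * (1 + c ^ 2) / c ^ 2 * (9 * x10) = H5 * x10 := by
      rw [hH5]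
      ring
    linarith only [h1, h2, h3]
  have D4 : x10 ≤ H8 * X := by
    have h1 := (R3 hN hCE).2
    have h2 : x10 * (q / (c * S)) ≤ 9 * (1 + d1) * V8 := by
      calc x10 * (q / (c * S)) ≤ x10 * (3 * (x7 + c * x6)) := mul_le_mul_of_nonneg_left h1 p10.le
        _ = 3 * (x10 * (x7 + c * x6)) := by ring
        _ = 3 * (a + x8) := by rw [e10]
        _ ≤ 3 * ((1 + d1) * x8) := by linarith only [B1']
        _ ≤ 3 * ((1 + d1) * (3 * V8)) := by
            have : (1 + d1) * x8 ≤ (1 + d1) * (3 * V8) := mul_le_mul_of_nonneg_left k8u (by positivity)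
            linarith only [this]
        _ = 9 * (1 + d1) * V8 := by ring
    have h3 : x10 ≤ 9 * (1 + d1) * V10 := by
      rw [← v10, ← mul_div_assoc, le_div_iff₀ (by positivity)]
      exact h2
    have h4 : V10 ≤ X * (1 + 1 / q) := by
      rw [hV10]
      have h5 : c ^ 2 / (1 + c ^ 2) ≤ 1 := by
        rw [div_le_one (by positivity)]
        linarith only
      have h6 : (1 + S) / (S + q) ≤ 1 + 1 / q := by
        rw [div_le_iff₀ pSq]
        have h7 : (1 + 1 / q) * (S + q) = S + q + S / q + 1 := by field_simp; ring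
        have h8 : 0 < S / q := by positivity
        rw [h7]
        linarith only [h8, hq]
      calc X * (c ^ 2 / (1 + c ^ 2)) * ((1 + S) / (S + q)) ≤ X * 1 * (1 + 1 / q) := by
            apply mul_le_mul _ h6 (by positivity) (by positivity)
            exact mul_le_mul_of_nonneg_left h5 pX.le
        _ = X * (1 + 1 / q) := by ring
    calc x10 ≤ 9 * (1 + d1) * V10 := h3
      _ ≤ 9 * (1 + d1) * (X * (1 + 1 / q)) := mul_le_mul_of_nonneg_left h4 (by positivity)
      _ = H8 * X := by rw [hH8]; ring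
  -- x12
  have E1 : a ≤ a * H5 * E * x10 := by
    have h1 : E * X ≤ E * (H5 * x10) := mul_le_mul_of_nonneg_left D3 pE.le
    have h2 : (1 : ℝ) ≤ E * (H5 * x10) := by linarith only [h1, hEX]
    have h3 := mul_le_mul_of_nonneg_left h2 ha.le
    linarith only [h3]
  obtain ⟨h, hh⟩ : ∃ h, h = x9 / (c * x8) := ⟨_, rfl⟩
  have pcx8 : 0 < c * x8 := by positivity
  have ph : 0 < h := by rw [hh]; positivity
  have hden : x9 + c * x8 = c * x8 * (1 + h) := by
    rw [hh]
    field_simp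
    ring
  have hh6 : h ≤ H6 := by
    rw [hh, hH6, div_le_div_iff₀ pcx8 hc]
    have h1 := mul_le_mul_of_nonneg_right A3 hc.le
    linarith only [h1]
  have hqh : q * h ≤ q * F / c * E * (S + q) := by
    have h1 : h ≤ F * E * (S + q) / c := by
      rw [hh, div_le_div_iff₀ pcx8 hc]
      have h1 := mul_le_mul_of_nonneg_right A4 hc.le
      linarith only [h1]
    calc q * h ≤ q * (F * E * (S + q) / c) := mul_le_mul_of_nonneg_left h1 hq.le
      _ = q * F / c * E * (S + q) := by ring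
  have hx12 : x12 = (a + x10) / (c * x8 * (1 + h)) := by
    rw [eq_div_iff (by positivity), ← hden]
    exact e12
  have F1 : R (a * H5 * E + (d1 * E + C * E + C * E) + (C * E + 0)) x12 (S / (q * (1 + h))) := by
    have h1 : V10 / (c * V8 * (1 + h)) = S / (q * (1 + h)) := by
      rw [v10']
      field_simp
    rw [hx12, ← h1]
    exact ((R.small' p10 ha.le E1).trans D1).div ((m8.const_mul hc).mul (R.refl (by positivity) le_rfl))
  have F2 : S ≤ H7 * x12 := by
    have h1 : V10 / 9 ≤ x12 * (3 * c * (1 + H6) * V8) := by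
      calc V10 / 9 ≤ x10 := by linarith only [D2]
        _ ≤ a + x10 := by linarith only [ha]
        _ = x12 * (x9 + c * x8) := e12.symm
        _ ≤ x12 * (c * (1 + H6) * x8) := by
            refine mul_le_mul_of_nonneg_left ?_ p12.le
            rw [hden]
            have h1 := mul_le_mul_of_nonneg_left hh6 pcx8.le
            linarith only [h1]
        _ ≤ x12 * (c * (1 + H6) * (3 * V8)) := by
            refine mul_le_mul_of_nonneg_left ?_ p12.le
            exact mul_le_mul_of_nonneg_left k8u (by positivity)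
        _ = x12 * (3 * c * (1 + H6) * V8) := by ring
    rw [v10'] at h1
    have h2 : S / q * (c * V8) / 9 = (S / (9 * q)) * (c * V8) := by ring
    have h3 : x12 * (3 * c * (1 + H6) * V8) = (x12 * (3 * (1 + H6))) * (c * V8) := by ring
    rw [h2, h3] at h1
    have h4 := le_of_mul_le_mul_right h1 (by positivity)
    rw [div_le_iff₀ (by positivity)] at h4
    rw [hH7]
    linarith only [h4]
  have hX1 : 1 / S ≤ X := by
    rw [div_le_iff₀ pS]
    have h1 : E * (S * X) ≤ 1 * (S * X) := mul_le_mul_of_nonneg_right hE1 (mul_pos pS pX).le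
    linarith only [h1, hEi]
  have G1 : x9 ≤ H1 * (1 + H7) * (1 + x12) := by
    have h1 : H1 * (1 + S) ≤ H1 * (1 + H7 * x12) := mul_le_mul_of_nonneg_left (by linarith only [F2]) pH1.le
    have h2 : 1 + H7 * x12 ≤ (1 + H7) * (1 + x12) := by linarith only [pH7, p12]
    have h3 : H1 * (1 + H7 * x12) ≤ H1 * ((1 + H7) * (1 + x12)) := mul_le_mul_of_nonneg_left h2 pH1.le
    linarith only [h1, h3, A1]
  have G2 : x11 * x10 ≤ H4 * H8 * H7 * (1 + H7) * (x12 * (1 + x12)) := by
    have h1 : x11 * x10 ≤ H8 * (x11 * X) := by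
      have := mul_le_mul_of_nonneg_left D4 p11.le
      linarith only [this]
    have h2 : H8 * (x11 * X) ≤ H8 * (H4 * (S * (1 + S))) := mul_le_mul_of_nonneg_left C3 pH8.le
    have h3 : S * (1 + S) ≤ (H7 * x12) * ((1 + H7) * (1 + x12)) := by
      apply mul_le_mul F2 _ (by positivity) (by positivity)
      linarith only [F2, pH7, p12]
    have h4 : H8 * (H4 * (S * (1 + S))) ≤ H8 * (H4 * ((H7 * x12) * ((1 + H7) * (1 + x12)))) := by
      refine mul_le_mul_of_nonneg_left ?_ pH8.le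
      exact mul_le_mul_of_nonneg_left h3 pH4.le
    calc x11 * x10 ≤ H8 * (H4 * ((H7 * x12) * ((1 + H7) * (1 + x12)))) := by linarith only [h1, h2, h4]
      _ = _ := by ring
  have hb1 : 2 * H1 ≤ H := by rw [hH]; linarith only [pH6, p1, pH3, p2, p3, p4]
  have hb2 : H6 ≤ H := by rw [hH]; linarith only [pH1, p1, pH3, p2, p3, p4]
  have hb3 : H1 * (1 + H7) ≤ H := by rw [hH]; linarith only [pH1, pH6, pH3, p2, p3, p4]
  have hb4 : H3 ≤ H := by rw [hH]; linarith only [pH1, pH6, p1, p2, p3, p4]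
  have hb5 : H4 * H8 * H7 * (1 + H7) ≤ H := by rw [hH]; linarith only [pH1, pH6, p1, pH3, p3, p4]
  have hb6 : 3 * a / c * H5 ≤ H := by rw [hH]; linarith only [pH1, pH6, p1, pH3, p2, p4]
  have hb7 : 2 * H1 * H9 * H5 ^ 2 ≤ H := by rw [hH]; linarith only [pH1, pH6, p1, pH3, p2, p3]
  have q10 : 0 < 1 + x10 := by positivity
  have q12 : 0 < 1 + x12 := by positivity
  have q12' : 0 < x12 * (1 + x12) := by positivity
  have q10' : 0 < x10 * (1 + x10) := by positivity
  refine ⟨?_, ?_, ⟨h, ph.le, ?_, ?_, ?_⟩, ⟨?_, ?_, ?_⟩, ?_⟩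
  · have h1 : H1 * (1 + S) ≤ H * (1 + S) :=
      mul_le_mul_of_nonneg_right (by linarith only [hb1, pH1]) (by positivity)
    rw [h9x]
    exact A1.trans h1
  · rw [h10x, ← hqd, ← hV10]
    refine D1.mono ?_
    rw [hC']
    have : 0 < a * H5 * E + C * E + q * F / c * E := by positivity
    linarith only [this]
  · exact hh6.trans hb2
  · rw [← hqd]
    have h1 : q * F / c * E * (S + q) ≤ C' * E * (S + q) := by
      refine mul_le_mul_of_nonneg_right ?_ pSq.le
      refine mul_le_mul_of_nonneg_right ?_ pE.le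
      rw [hC']
      have : 0 < a * H5 + d1 + 3 * C := by positivity
      linarith only [this]
    exact hqh.trans h1
  · rw [h12x, ← hqd]
    refine F1.mono ?_
    rw [hC']
    have : 0 < q * F / c * E := by positivity
    linarith only [this]
  · rw [show n + 9 + 3 = n + 12 by ring, h9x, h12x]
    have h1 : H1 * (1 + H7) * (1 + x12) ≤ H * (1 + x12) :=
      mul_le_mul_of_nonneg_right hb3 q12.le
    exact G1.trans h1
  · rw [show n + 9 + 2 = n + 11 by ring, h11x]
    exact C2.trans hb4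
  · rw [show n + 9 + 2 = n + 11 by ring, show n + 9 + 1 = n + 10 by ring, show n + 9 + 3 = n + 12 by ring, h11x,
      h10x, h12x]
    have h1 : H4 * H8 * H7 * (1 + H7) * (x12 * (1 + x12)) ≤ H * (x12 * (1 + x12)) :=
      mul_le_mul_of_nonneg_right hb5 q12'.le
    exact G2.trans h1
  · intro hS1
    refine ⟨?_, ?_, ?_⟩
    · rw [show n + 7 + 3 = n + 10 by ring, h7x, h10x]
      have h1 : x7 ≤ 3 * a / c * (1 / S) := by
        rw [show 3 * a / c * (1 / S) = 3 * a / (c * S) by field_simp, le_div_iff₀ hcS]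
        linarith only [k7]
      have h2 : 3 * a / c * (1 / S) ≤ 3 * a / c * (H5 * x10) :=
        mul_le_mul_of_nonneg_left (hX1.trans D3) (by positivity)
      have h3 : 3 * a / c * H5 * (1 + x10) ≤ H * (1 + x10) :=
        mul_le_mul_of_nonneg_right hb6 q10.le
      linarith only [h1, h2, h3, p3]
    · rw [show n + 7 + 2 = n + 9 by ring, h9x]
      have h1 : H1 * (1 + S) ≤ H1 * 2 := mul_le_mul_of_nonneg_left (by linarith only [hS1]) pH1.le
      linarith only [h1, A1, hb1]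
    · rw [show n + 7 + 2 = n + 9 by ring, show n + 7 + 1 = n + 8 by ring, show n + 7 + 3 = n + 10 by ring, h9x,
        h8x, h10x]
      have h1 : x9 ≤ 2 * H1 := by
        have : H1 * (1 + S) ≤ H1 * 2 := mul_le_mul_of_nonneg_left (by linarith only [hS1]) pH1.le
        linarith only [this, A1]
      have h2 : x8 ≤ H9 * (X * X) := by
        have h3 : V8 ≤ a * c * X * 2 * (1 / S) * (1 / q) := by
          rw [hV8, show a * c * X * 2 * (1 / S) * (1 / q) = a * c * X * 2 / (S * q) by field_simp]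
          apply div_le_div₀ (by positivity) _ (by positivity) _
          · exact mul_le_mul_of_nonneg_left (by linarith only [hS1]) (by positivity)
          · exact mul_le_mul_of_nonneg_left (by linarith only [pS]) pS.le
        have h4 : a * c * X * 2 * (1 / S) * (1 / q) ≤ a * c * X * 2 * X * (1 / q) := by
          refine mul_le_mul_of_nonneg_right ?_ (by positivity)
          exact mul_le_mul_of_nonneg_left hX1 (by positivity)
        calc x8 ≤ 3 * V8 := k8u
          _ ≤ 3 * (a * c * X * 2 * X * (1 / q)) := by linarith only [h3, h4]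
          _ = H9 * (X * X) := by rw [hH9]; ring
      have h3 : X * X ≤ (H5 * x10) * (H5 * x10) := mul_le_mul D3 D3 pX.le (by positivity)
      have h4 : H9 * (X * X) ≤ H9 * ((H5 * x10) * (H5 * x10)) := mul_le_mul_of_nonneg_left h3 pH9.le
      have h5 : x9 * x8 ≤ (2 * H1) * (H9 * ((H5 * x10) * (H5 * x10))) :=
        mul_le_mul h1 (h2.trans h4) p8.le (by positivity)
      have h6 : (2 * H1) * (H9 * ((H5 * x10) * (H5 * x10))) = 2 * H1 * H9 * H5 ^ 2 * (x10 * x10) := by ring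
      have h7 : 2 * H1 * H9 * H5 ^ 2 * (x10 * x10) ≤ 2 * H1 * H9 * H5 ^ 2 * (x10 * (1 + x10)) := by
        refine mul_le_mul_of_nonneg_left ?_ p4.le
        linarith only [p10]
      have h8 : 2 * H1 * H9 * H5 ^ 2 * (x10 * (1 + x10)) ≤ H * (x10 * (1 + x10)) :=
        mul_le_mul_of_nonneg_right hb7 q10'.le
      linarith only [h5, h6, h7, h8]

end Pool.Agent.H78.K4
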