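import Pool.Agent.H78.K4.Mid524
import Pool.Agent.H78.K4.Out524

/-!
# (5,24), the terms of a cycle

From the state: `x n ≤ K (1 + S)`, `X = exp M`, `x (n+2) ≤ K`, `S ≤ exp M`; `x (n+4) ≤ (a + K) / X`,
`x (n+5) ≤ (a + S) / (c X)`, and with `mid524`, `out524` (`E = exp (|s| - M) ≤ exp (-M/5)`, `m` such that
all errors are at most one): `x (n+6)`, `x (n+7)` at most `C / S ≤ C exp M`, `x (n+8) ≤ C X (1 + 1 / S)`
(`≤ C exp (9/5 M)`), `x (n+9) ≤ C (1 + S)`, `x (n+10) ≤ C X`, `x (n+11) ≤ C`, `x (n+12) ≤ C S`.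
-/

namespace Pool.Agent.H78.K4

open Real

private theorem t5_le5 {M s : ℝ} (h1 : 1 ≤ M) (h : |s| ≤ 4 / 5 * M) :
    M * exp (|s| - M) ≤ 5 := by
  have h2 : exp (|s| - M) ≤ exp (-(M / 5)) := exp_le_exp.2 (by linarith)
  have h3 := add_one_le_exp (M / 5)
  have h4 : exp (M / 5) * exp (-(M / 5)) = 1 := by rw [← exp_add, add_neg_cancel, exp_zero]
  have h5 := exp_pos (-(M / 5))
  nlinarith

private theorem t5_quot {q S : ℝ} (hq : 0 < q) (hS : 0 < S) :
    (1 + S) / (S + q) ≤ 1 + 1 / q := by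
  rw [div_le_iff₀ (by linarith)]
  have h1 : (1 + 1 / q) * (S + q) = S + q + S / q + 1 := by
    field_simp
    ring
  have h2 : 0 < S / q := div_pos hS hq
  linarith

theorem term524 {a c : ℝ} (ha : 0 < a) (hc : 0 < c) (K : ℝ) : ∃ B m : ℝ,
    ∀ (x : ℕ → ℝ) (n : ℕ) (M s : ℝ), Eq524 a c x → St524 K x n M s → m ≤ M →
      ∀ i ≤ 12, x (n + i) ≤ exp (B + 2 * M) := by
  obtain ⟨C, hC, H1⟩ := mid524 ha hc K
  obtain ⟨H, hH, H2⟩ := out524 ha hc
  obtain ⟨C', hC', H3⟩ := H2 C hC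
  have hq : 0 < q524 a c := by unfold q524; positivity
  obtain ⟨b0, hb0⟩ : ∃ b, b = 2 * |K| := ⟨_, rfl⟩
  obtain ⟨b4, hb4⟩ : ∃ b, b = a + |K| := ⟨_, rfl⟩
  obtain ⟨b5, hb5⟩ : ∃ b, b = exp 1 * ((a + 1) / c) := ⟨_, rfl⟩
  obtain ⟨b6, hb6⟩ : ∃ b, b = exp 1 * a := ⟨_, rfl⟩
  obtain ⟨b7, hb7⟩ : ∃ b, b = exp 1 * (a / c) := ⟨_, rfl⟩
  obtain ⟨b8, hb8⟩ : ∃ b, b = exp 1 * (a * c * (1 + 1 / q524 a c)) := ⟨_, rfl⟩
  obtain ⟨b9, hb9⟩ : ∃ b, b = 2 * H := ⟨_, rfl⟩
  obtain ⟨b10, hb10⟩ : ∃ b, b = exp C' * (1 + 1 / q524 a c) := ⟨_, rfl⟩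
  obtain ⟨b12, hb12⟩ : ∃ b, b = exp C' * (1 / q524 a c) := ⟨_, rfl⟩
  have n0 : 0 ≤ b0 := by rw [hb0]; positivity
  have n4 : 0 ≤ b4 := by rw [hb4]; positivity
  have n5 : 0 ≤ b5 := by rw [hb5]; positivity
  have n6 : 0 ≤ b6 := by rw [hb6]; positivity
  have n7 : 0 ≤ b7 := by rw [hb7]; positivity
  have n8 : 0 ≤ b8 := by rw [hb8]; positivity
  have n9 : 0 ≤ b9 := by rw [hb9]; positivity
  have n10 : 0 ≤ b10 := by rw [hb10]; positivity
  have n12 : 0 ≤ b12 := by rw [hb12]; positivity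
  obtain ⟨B, hB⟩ : ∃ B, B = 1 + b0 + b4 + b5 + b6 + b7 + b8 + b9 + b10 + b12 := ⟨_, rfl⟩
  refine ⟨B, 5 * C, ?_⟩
  intro x n M s hx h0 hm
  have hM1 := h0.one
  have hX := hx.pos (n + 1)
  have hS := hx.pos (n + 3)
  have eX : x (n + 1) = exp M := by rw [h0.hM, exp_log hX]
  have eS : x (n + 3) = exp s := by rw [h0.hs, exp_log hS]
  obtain ⟨sl, su⟩ := abs_le.1 h0.dom
  have hE := exp_pos (|s| - M)
  have m0 : 1 ≤ exp M := one_le_exp (by linarith)
  have sM : exp s ≤ exp M := exp_le_exp.2 (by linarith)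
  have iM : exp (-s) ≤ exp M := exp_le_exp.2 (by linarith)
  have e2M : exp (2 * M) = exp M * exp M := by rw [← exp_add]; ring_nf
  have hM2 : exp M ≤ exp (2 * M) := exp_le_exp.2 (by linarith)
  have h12 : 1 ≤ exp (2 * M) := m0.trans hM2
  have p2M := exp_pos (2 * M)
  have pM := exp_pos M
  have ps := exp_pos s
  have sz : Sz524 x n (exp (|s| - M)) := by
    refine ⟨?_, ?_, ?_, ?_⟩
    · rw [exp_le_one_iff]
      linarith [h0.dom]
    · rw [eX, ← exp_add]
      exact one_le_exp (by linarith [abs_nonneg s])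
    · rw [eX, eS, ← exp_add]
      exact exp_le_exp.2 (by linarith [le_abs_self s])
    · rw [eX, eS, ← exp_add, ← exp_add]
      exact one_le_exp (by linarith [neg_abs_le s])
  have hCE : C * exp (|s| - M) ≤ 1 := by
    have h1 := t5_le5 hM1 h0.dom
    by_contra hcon
    push Not at hcon
    have h2 : 0 < C * exp (|s| - M) := by positivity
    nlinarith
  have hCE' : C' * exp (|s| - M) ≤ C' := by
    have := sz.E1
    nlinarith
  have mi := H1 x n _ hx sz h0.w
  have ou := H3 x n _ hx sz hCE mi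
  rw [eX, eS] at mi ou
  have eC : exp (C * exp (|s| - M)) ≤ exp 1 := exp_le_exp.2 hCE
  have eC' : exp (C' * exp (|s| - M)) ≤ exp C' := exp_le_exp.2 hCE'
  have dS : ∀ t : ℝ, t / exp s = t * exp (-s) := fun t => by rw [exp_neg]; rfl
  have qt := t5_quot hq ps
  have fin : ∀ y b : ℝ, b ≤ B → y ≤ b * exp (2 * M) → y ≤ exp (B + 2 * M) := by
    intro y b hb hy
    rw [exp_add]
    refine hy.trans (mul_le_mul_of_nonneg_right ?_ p2M.le)
    have h1 := add_one_le_exp b
    exact (by linarith : b ≤ exp b).trans (exp_le_exp.2 hb)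
  have fin1 : ∀ y b : ℝ, 0 ≤ b → b ≤ B → y ≤ b * exp M → y ≤ exp (B + 2 * M) := by
    intro y b h0 hb hy
    exact fin y b hb (hy.trans (mul_le_mul_of_nonneg_left hM2 h0))
  have fin0 : ∀ y b : ℝ, 0 ≤ b → b ≤ B → y ≤ b → y ≤ exp (B + 2 * M) := by
    intro y b h0 hb hy
    exact fin y b hb (hy.trans (le_mul_of_one_le_right h0 h12))
  have kK : K ≤ |K| := le_abs_self K
  have c0 : x n ≤ b0 * exp M := by
    have h1 := h0.w.t
    rw [eS] at h1
    have h2 : K * (1 + exp s) ≤ |K| * (1 + exp s) :=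
      mul_le_mul_of_nonneg_right kK (by linarith)
    have h3 : |K| * (1 + exp s) ≤ |K| * (2 * exp M) :=
      mul_le_mul_of_nonneg_left (by linarith) (abs_nonneg K)
    rw [hb0]
    linarith
  have c2 : x (n + 2) ≤ b0 := by
    have h1 := h0.w.y
    rw [hb0]
    linarith [abs_nonneg K]
  have c4 : x (n + 4) ≤ b4 := by
    have h1 := hx.eq n
    have h2 := h0.w.y
    have h3 := hx.pos (n + 4)
    have h4 := hx.pos n
    have h5 : x (n + 4) * 1 ≤ x (n + 4) * (x (n + 1) + c * x n) := by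
      refine mul_le_mul_of_nonneg_left ?_ h3.le
      have : 0 < c * x n := by positivity
      rw [eX]
      linarith
    rw [hb4]
    linarith
  have c5 : x (n + 5) ≤ b5 := by
    have h1 := mi.x5.le
    have h2 : (a + exp s) / (c * exp M) ≤ (a + 1) / c := by
      rw [div_le_div_iff₀ (by positivity) hc]
      nlinarith [mul_le_mul_of_nonneg_left m0 ha.le]
    rw [hb5]
    calc x (n + 5) ≤ _ := h1
      _ ≤ exp 1 * ((a + exp s) / (c * exp M)) :=
          mul_le_mul_of_nonneg_right eC (by positivity)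
      _ ≤ exp 1 * ((a + 1) / c) := mul_le_mul_of_nonneg_left h2 (exp_pos _).le
  have c6 : x (n + 6) ≤ b6 * exp M := by
    have h1 := mi.x6.le
    rw [dS] at h1
    rw [hb6]
    calc x (n + 6) ≤ _ := h1
      _ ≤ exp 1 * (a * exp (-s)) := mul_le_mul_of_nonneg_right eC (by positivity)
      _ = exp 1 * a * exp (-s) := by ring
      _ ≤ exp 1 * a * exp M := mul_le_mul_of_nonneg_left iM (by positivity)
  have c7 : x (n + 7) ≤ b7 * exp M := by
    have h1 := mi.x7.le
    rw [← div_div, dS] at h1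
    rw [hb7]
    calc x (n + 7) ≤ _ := h1
      _ ≤ exp 1 * (a / c * exp (-s)) := mul_le_mul_of_nonneg_right eC (by positivity)
      _ = exp 1 * (a / c) * exp (-s) := by ring
      _ ≤ exp 1 * (a / c) * exp M := mul_le_mul_of_nonneg_left iM (by positivity)
  have c8 : x (n + 8) ≤ b8 * exp (2 * M) := by
    have h1 := mi.x8.le
    have h2 : a * c * exp M * (1 + exp s) / (exp s * (exp s + q524 a c)) =
        a * c * ((1 + exp s) / (exp s + q524 a c)) * (exp M * exp (-s)) := by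
      rw [exp_neg]
      field_simp
    have h3 : a * c * exp M * (1 + exp s) / (exp s * (exp s + q524 a c)) ≤
        a * c * (1 + 1 / q524 a c) * exp (2 * M) := by
      rw [h2, e2M]
      exact mul_le_mul (mul_le_mul_of_nonneg_left qt (by positivity))
        (mul_le_mul_of_nonneg_left iM pM.le) (by positivity) (by positivity)
    rw [hb8]
    calc x (n + 8) ≤ _ := h1
      _ ≤ exp 1 * (a * c * exp M * (1 + exp s) / (exp s * (exp s + q524 a c))) :=
          mul_le_mul_of_nonneg_right eC (by positivity)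
      _ ≤ exp 1 * (a * c * (1 + 1 / q524 a c) * exp (2 * M)) :=
          mul_le_mul_of_nonneg_left h3 (exp_pos _).le
      _ = _ := by ring
  have c9 : x (n + 9) ≤ b9 * exp M := by
    have h1 := ou.x9
    have h2 : H * (1 + exp s) ≤ H * (2 * exp M) :=
      mul_le_mul_of_nonneg_left (by linarith) hH.le
    rw [hb9]
    linarith
  have c10 : x (n + 10) ≤ b10 * exp M := by
    have h1 := ou.x10.le
    have h2 : c ^ 2 / (1 + c ^ 2) ≤ 1 := by
      rw [div_le_one (by positivity)]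
      linarith
    have h3 : exp M * (c ^ 2 / (1 + c ^ 2)) * ((1 + exp s) / (exp s + q524 a c)) ≤
        exp M * 1 * (1 + 1 / q524 a c) :=
      mul_le_mul (mul_le_mul_of_nonneg_left h2 pM.le) qt (by positivity) (by positivity)
    rw [hb10]
    calc x (n + 10) ≤ _ := h1
      _ ≤ exp C' * (exp M * (c ^ 2 / (1 + c ^ 2)) * ((1 + exp s) / (exp s + q524 a c))) :=
          mul_le_mul_of_nonneg_right eC' (by positivity)
      _ ≤ exp C' * (exp M * 1 * (1 + 1 / q524 a c)) :=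
          mul_le_mul_of_nonneg_left h3 (exp_pos _).le
      _ = _ := by ring
  have c11 : x (n + 11) ≤ b9 := by
    have h1 : x (n + 9 + 2) ≤ H := ou.w.y
    have h2 : n + 9 + 2 = n + 11 := rfl
    rw [h2] at h1
    rw [hb9]
    linarith
  have c12 : x (n + 12) ≤ b12 * exp M := by
    obtain ⟨h, p0, -, -, r⟩ := ou.x12
    have h1 := r.le
    have h2 : exp s / (q524 a c * (1 + h)) ≤ 1 / q524 a c * exp M := by
      rw [div_le_iff₀ (by positivity)]
      have h3 : 1 / q524 a c * exp M * (q524 a c * (1 + h)) = exp M * (1 + h) := by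
        field_simp
      rw [h3]
      nlinarith
    rw [hb12]
    calc x (n + 12) ≤ _ := h1
      _ ≤ exp C' * (exp s / (q524 a c * (1 + h))) :=
          mul_le_mul_of_nonneg_right eC' (by positivity)
      _ ≤ exp C' * (1 / q524 a c * exp M) := mul_le_mul_of_nonneg_left h2 (exp_pos _).le
      _ = _ := by ring
  intro i hi
  interval_cases i
  · exact fin1 _ _ n0 (by linarith) c0
  · exact fin1 _ 1 zero_le_one (by linarith) (by rw [eX, one_mul])
  · exact fin0 _ _ n0 (by linarith) c2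
  · exact fin1 _ 1 zero_le_one (by linarith) (by rw [eS, one_mul]; exact sM)
  · exact fin0 _ _ n4 (by linarith) c4
  · exact fin0 _ _ n5 (by linarith) c5
  · exact fin1 _ _ n6 (by linarith) c6
  · exact fin1 _ _ n7 (by linarith) c7
  · exact fin _ _ (by linarith) c8
  · exact fin1 _ _ n9 (by linarith) c9
  · exact fin1 _ _ n10 (by linarith) c10
  · exact fin0 _ _ n9 (by linarith) c11
  · exact fin1 _ _ n12 (by linarith) c12

end Pool.Agent.H78.K4
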