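import Pool.Agent.H78.K4.Rec524
import Pool.Agent.H78.K4.Term524
import Pool.Agent.H78.K4.RelA524
import Pool.Agent.H78.K4.RelB524
import Pool.Agent.H78.K4.Pot9
import Pool.Agent.H78.K4.Sweep12
import Pool.Agent.H50.Rdb.Misc

/-!
# The case (5,24)

`bdd524`: `sweep12` with the `W` of `exists_pot9` (`η = eta524 c > 0`, `C` the maximum of the constants of
`t1_524`, `t2_524`, `t3_524`), `L = 12`, `St = St524 K x`, `K` and `m` the maxima (as in `Fin518.lean`).
`esb_5_24`: `esb_of_nonneg`; the terms are positive from the index `4` on (positive constant in the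
numerator), and `y n = x (n + 4) / λ`, `λ = a2 / b3`, satisfies `Eq524 (a0 b3 / a2 ^ 2) (b4 / b3)`.
-/

namespace Pool.Agent.H78.K4

open Real
open Pool.Agent.H81.RDE (ESB caseOf)

theorem bdd524 {a c : ℝ} {x : ℕ → ℝ} (hx : Eq524 a c x) : ∃ Q : ℝ, ∀ n, x n ≤ Q := by
  have ha := hx.a0
  have hc := hx.c0
  have h1c : 0 < (1 + c ^ 2) / c ^ 2 := by positivity
  have hη : 0 < eta524 c := by
    unfold eta524
    apply log_pos
    have h2 : 0 < c ^ 2 := by positivity
    rw [one_lt_div h2]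
    linarith
  obtain ⟨K1, hrec⟩ := rec524 ha hc
  obtain ⟨K2, ht1⟩ := t1_524 ha hc
  obtain ⟨K3, ht2⟩ := t2_524 ha hc
  obtain ⟨K4, ht3⟩ := t3_524 ha hc
  obtain ⟨K, hK⟩ : ∃ K, K = max (max K1 K2) (max K3 K4) := ⟨_, rfl⟩
  have hK1 : K1 ≤ K := by
    rw [hK]
    exact (le_max_left _ _).trans (le_max_left _ _)
  have hK2 : K2 ≤ K := by
    rw [hK]
    exact (le_max_right _ _).trans (le_max_left _ _)
  have hK3 : K3 ≤ K := by
    rw [hK]
    exact (le_max_left _ _).trans (le_max_right _ _)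
  have hK4 : K4 ≤ K := by
    rw [hK]
    exact (le_max_right _ _).trans (le_max_right _ _)
  obtain ⟨C1, m1, hm1⟩ := ht1 K hK2
  obtain ⟨C2, m2, hm2⟩ := ht2 K hK3
  obtain ⟨C3, m3, hm3⟩ := ht3 K hK4
  obtain ⟨C, hC⟩ : ∃ C, C = max C1 (max C2 C3) := ⟨_, rfl⟩
  have hCC1 : C1 ≤ C := by
    rw [hC]
    exact le_max_left _ _
  have hCC2 : C2 ≤ C := by
    rw [hC]
    exact (le_max_left _ _).trans (le_max_right _ _)
  have hCC3 : C3 ≤ C := by
    rw [hC]
    exact (le_max_right _ _).trans (le_max_right _ _)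
  obtain ⟨m0, B, W, hW⟩ := exists_pot9 hη C
  obtain ⟨Bt, mt, hterm⟩ := term524 ha hc K
  obtain ⟨m, hm⟩ : ∃ m, m = max mt (max (max m0 m1) (max m2 m3)) := ⟨_, rfl⟩
  have hmmt : mt ≤ m := by
    rw [hm]
    exact le_max_left _ _
  have hmm0 : m0 ≤ m := by
    rw [hm]
    exact ((le_max_left _ _).trans (le_max_left _ _)).trans (le_max_right _ _)
  have hmm1 : m1 ≤ m := by
    rw [hm]
    exact ((le_max_right _ _).trans (le_max_left _ _)).trans (le_max_right _ _)
  have hmm2 : m2 ≤ m := by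
    rw [hm]
    exact ((le_max_left _ _).trans (le_max_right _ _)).trans (le_max_right _ _)
  have hmm3 : m3 ≤ m := by
    rw [hm]
    exact ((le_max_right _ _).trans (le_max_right _ _)).trans (le_max_right _ _)
  obtain ⟨T0, hT0⟩ := hrec K hK1
  obtain ⟨T1, hT1⟩ := end524 ha hc K m (12 + 20)
  refine sweep12 (St := St524 K x) (W := W) (m := m) (B := max B Bt) (T1 := T1) (T0 := T0)
    (L := 12) ?_ ?_ ?_ ?_ ?_
  · intro n M s h
    have h1 := hW.low M s h.one h.dom
    have h2 := le_max_left B Bt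
    linarith
  · intro n M s h hM i hi
    refine (hterm x n M s hx h (hmmt.trans hM) i hi).trans ?_
    apply exp_le_exp.2
    have h2 := le_max_right B Bt
    linarith
  · intro n M s h hM
    have hdom := h.dom
    rw [abs_le] at hdom
    rcases le_or_gt |s| (3 / 4 * M) with hs | hs
    · obtain ⟨M', s', h1, h2, h3, h4⟩ := hm1 x n M s hx h (hmm1.trans hM) hs
      exact ⟨9, by norm_num, by norm_num, M', s', h1, hW.t1 M s M' s' (hmm0.trans hM) hs (h2.trans hCC1)
        (h3.trans hCC1) h4⟩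
    · rcases le_total 0 s with h0 | h0
      · rw [abs_of_nonneg h0] at hs
        obtain ⟨M', s', h1, h2, h3⟩ := hm2 x n M s hx h (hmm2.trans hM) hs.le
        exact ⟨11, by norm_num, le_rfl, M', s', h1, hW.t2 M s M' s' (hmm0.trans hM) hs.le hdom.2
          (h2.trans hCC2) (h3.trans hCC2)⟩
      · rw [abs_of_nonpos h0] at hs
        obtain ⟨M', s', h1, h2, h3⟩ := hm3 x n M s hx h (hmm3.trans hM) (by linarith)
        exact ⟨7, by norm_num, by norm_num, M', s', h1, hW.t3 M s M' s' (hmm0.trans hM) (by linarith)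
          hdom.1 (h2.trans hCC3) (h3.trans hCC3)⟩
  · intro n M s h hM i hi
    exact hT1 x n M s hx h hM i hi
  · intro T hT
    obtain ⟨P, hP⟩ := hT0 T hT
    refine ⟨max (3 * P + B) P, fun n hn hxn hj => ?_⟩
    obtain ⟨i, hi, M, s, h1, h2, h3⟩ := hP x n hx hn hxn hj
    refine ⟨i, hi, M, s, h1, ?_, fun j hj => (h3 j hj).trans (le_max_right _ _)⟩
    refine le_trans ?_ (le_max_left _ _)
    have h4 := hW.up M s h1.one h1.dom
    linarith

theorem esb_5_24 : ESB (caseOf 4 5 24) := by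
  refine Pool.Agent.H50.Rdb.esb_of_nonneg fun a b x ha hb hx => ?_
  have a0 : 0 < a 0 := ha.pos (by norm_num) (by decide)
  have a1 : a 1 = 0 := ha.zero (by norm_num) (by decide)
  have a2 : 0 < a 2 := ha.pos (by norm_num) (by decide)
  have a3 : a 3 = 0 := ha.zero (by norm_num) (by decide)
  have a4 : a 4 = 0 := ha.zero (by norm_num) (by decide)
  have b0 : b 0 = 0 := hb.zero (by norm_num) (by decide)
  have b1 : b 1 = 0 := hb.zero (by norm_num) (by decide)
  have b2 : b 2 = 0 := hb.zero (by norm_num) (by decide)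
  have b3 : 0 < b 3 := hb.pos (by norm_num) (by decide)
  have b4 : 0 < b 4 := hb.pos (by norm_num) (by decide)
  have hx2 := hx.2
  unfold Pool.Agent.H50.Rdb.lin at hx2
  simp only [a1, a3, a4, b0, b1, b2, zero_mul, add_zero, zero_add] at hx2
  have hpos : ∀ n, 0 < x (n + 4) := by
    intro n
    rw [(hx2 n).2]
    refine div_pos ?_ (hx2 n).1
    have := mul_nonneg a2.le (hx.1 (n + 2))
    linarith
  have heq : ∀ n, x (n + 4) * (b 3 * x (n + 1) + b 4 * x n) = a 0 + a 2 * x (n + 2) := by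
    intro n
    have h1 := (hx2 n).2
    rw [eq_div_iff (hx2 n).1.ne'] at h1
    exact h1
  have hy : Eq524 (a 0 * b 3 / a 2 ^ 2) (b 4 / b 3) (fun n => x (n + 4) / (a 2 / b 3)) := by
    refine ⟨by positivity, by positivity, fun n => div_pos (hpos n) (by positivity), fun n => ?_⟩
    have h1 := heq (n + 4)
    have e1 : n + 4 + 1 = n + 1 + 4 := by ring
    have e2 : n + 4 + 2 = n + 2 + 4 := by ring
    rw [e1, e2] at h1
    show x (n + 4 + 4) / (a 2 / b 3) * (x (n + 1 + 4) / (a 2 / b 3) + b 4 / b 3 * (x (n + 4) / (a 2 / b 3))) =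
      a 0 * b 3 / a 2 ^ 2 + x (n + 2 + 4) / (a 2 / b 3)
    have h2 : x (n + 4 + 4) / (a 2 / b 3) *
        (x (n + 1 + 4) / (a 2 / b 3) + b 4 / b 3 * (x (n + 4) / (a 2 / b 3))) =
        b 3 / a 2 ^ 2 * (x (n + 4 + 4) * (b 3 * x (n + 1 + 4) + b 4 * x (n + 4))) := by
      field_simp
    rw [h2, h1]
    field_simp
  obtain ⟨Q, hQ⟩ := bdd524 hy
  refine Pool.Agent.H50.Rdb.bdd_of_tail hx.1 (k := 4) (M := Q * (a 2 / b 3)) fun n hn => ?_
  obtain ⟨m, rfl⟩ := Nat.exists_eq_add_of_le' hn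
  have h1 := hQ m
  rwa [div_le_iff₀ (by positivity)] at h1

end Pool.Agent.H78.K4
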