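import Pool.Agent.H4.RD4.Mine
import Pool.Agent.H23.K4.Fib
import Pool.Agent.H50.K4.FibB
import Pool.Agent.H50.Rdb.Count3
import Pool.Agent.H78.K4.Fin320
import Pool.Agent.H78.K4.Fin518
import Pool.Agent.H78.K4.Fin524

/-! # The exact count for the order four -/

set_option maxRecDepth 20000

namespace Pool.Agent.H78.K4

open Pool.Agent.H81.RDE

/-- the three cases with logarithmic arguments -/
def log4 : List (ℕ × ℕ) := [(3, 20), (5, 18), (5, 24)]

theorem esb_log4 : ∀ p ∈ log4, ESB (caseOf 4 p.1 p.2) := by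
  intro p hp
  simp only [log4, List.mem_cons, List.not_mem_nil, or_false] at hp
  rcases hp with rfl | rfl | rfl
  · exact esb_3_20
  · exact esb_5_18
  · exact esb_5_24

/-- the eight cases with a Fibonacci branch -/
def fib4 : List (ℕ × ℕ) := [(20, 18), (20, 26), (28, 18), (28, 26), (4, 18), (4, 24), (4, 26), (12, 26)]

theorem esb_fib4 : ∀ p ∈ fib4, ESB (caseOf 4 p.1 p.2) := by
  intro p hp
  simp only [fib4, List.mem_cons, List.not_mem_nil, or_false] at hp
  rcases hp with rfl | rfl | rfl | rfl | rfl | rfl | rfl | rfl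
  · exact Pool.Agent.H23.K4.esb_20_18
  · exact Pool.Agent.H23.K4.esb_20_26
  · exact Pool.Agent.H23.K4.esb_28_18
  · exact Pool.Agent.H23.K4.esb_28_26
  · exact Pool.Agent.H50.K4.esb_4_18
  · exact Pool.Agent.H50.K4.esb_4_24
  · exact Pool.Agent.H50.K4.esb_4_26
  · exact Pool.Agent.H50.K4.esb_12_26

/-- all bounded special cases of order four (masks of the numerator and of the denominator) -/
def bounded4 : List (ℕ × ℕ) := Pool.Agent.H50.Rdb.bounded3 ++ (Pool.Agent.H4.RD4.mineL ++ (log4 ++ fib4))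

/-- the number of a pair -/
def code (p : ℕ × ℕ) : ℕ := 32 * p.1 + p.2

/-- the codes of the pairs are different and none of them is a bit of `m`; all entries are between 1 and 31 -/
def nd : List (ℕ × ℕ) → ℕ → Bool
  | [], _ => true
  | p :: l, m => (!(m.testBit (code p)) && Nat.ble 1 p.1 && Nat.ble p.1 31 && Nat.ble 1 p.2 && Nat.ble p.2 31) &&
      nd l (m ||| (1 <<< code p))

theorem nd_spec : ∀ (l : List (ℕ × ℕ)) (m : ℕ), nd l m = true →
    l.Nodup ∧ (∀ p ∈ l, m.testBit (code p) = false) ∧ ∀ p ∈ l, 1 ≤ p.1 ∧ p.1 < 32 ∧ 1 ≤ p.2 ∧ p.2 < 32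
  | [], _, _ => ⟨List.nodup_nil, fun _ h => absurd h List.not_mem_nil, fun _ h => absurd h List.not_mem_nil⟩
  | p :: l, m, h => by
    simp only [nd, Bool.and_eq_true, Bool.not_eq_true', Nat.ble_eq] at h
    obtain ⟨⟨⟨⟨⟨h1, h2⟩, h3⟩, h4⟩, h5⟩, h6⟩ := h
    obtain ⟨g1, g2, g3⟩ := nd_spec l _ h6
    have g4 : ∀ q ∈ l, m.testBit (code q) = false ∧ code p ≠ code q := by
      intro q hq
      have h7 := g2 q hq
      rw [Nat.testBit_or, Bool.or_eq_false_iff] at h7
      refine ⟨h7.1, fun h8 => ?_⟩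
      have h9 := h7.2
      rw [← h8, Nat.testBit_shiftLeft] at h9
      simp at h9
    refine ⟨List.nodup_cons.2 ⟨fun hp => (g4 p hp).2 rfl, g1⟩, ?_, ?_⟩
    · intro q hq
      rcases List.mem_cons.1 hq with rfl | hq
      · exact h1
      · exact (g4 q hq).1
    · intro q hq
      rcases List.mem_cons.1 hq with rfl | hq
      · exact ⟨h2, by omega, h4, by omega⟩
      · exact g3 q hq

theorem bounded4_length : bounded4.length = 544 := by decide +kernel

theorem bounded4_nd : nd bounded4 0 = true := by decide +kernel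

theorem bounded4_nodup : bounded4.Nodup := (nd_spec _ _ bounded4_nd).1

theorem bounded4_lt : ∀ p ∈ bounded4, 1 ≤ p.1 ∧ p.1 < 32 ∧ 1 ≤ p.2 ∧ p.2 < 32 := (nd_spec _ _ bounded4_nd).2.2

theorem bounded3_esb4 : ∀ p ∈ Pool.Agent.H50.Rdb.bounded3, ESB (caseOf 4 p.1 p.2) := by
  intro p hp
  rcases List.mem_append.1 hp with hp | hp
  · obtain ⟨c, hc, rfl⟩ := List.mem_map.1 hp
    exact Pool.Agent.H50.Rdb.esb_of_ok (Pool.Agent.H50.Rdb.data3_ok c hc)
  · exact Pool.Agent.H50.Rdb.special3_esb p hp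

theorem bounded4_esb : ∀ p ∈ bounded4, ESB (caseOf 4 p.1 p.2) := by
  intro p hp
  rcases List.mem_append.1 hp with hp | hp
  · exact bounded3_esb4 p hp
  rcases List.mem_append.1 hp with hp | hp
  · exact Pool.Agent.H4.RD4.esb_mine p.1 p.2 hp
  rcases List.mem_append.1 hp with hp | hp
  · exact esb_log4 p hp
  · exact esb_fib4 p hp

/-- the two lists contain all pairs, as they are disjoint and `544 + 417 = 31 * 31` -/
theorem cover4 {N D : ℕ} (hN : 1 ≤ N) (hN' : N < 32) (hD : 1 ≤ D) (hD' : D < 32) :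
    (N, D) ∈ bounded4 ∨ (N, D) ∈ unbounded4 := by
  have h1 : bounded4.toFinset.card = 544 := by
    rw [List.toFinset_card_of_nodup bounded4_nodup, bounded4_length]
  have h2 : unbounded4.toFinset.card = 417 := by
    rw [List.toFinset_card_of_nodup nodup4, length4]
  have h3 : Disjoint bounded4.toFinset unbounded4.toFinset := by
    rw [Finset.disjoint_left]
    intro p h4 h5
    exact not_esb4 p (List.mem_toFinset.1 h5) (bounded4_esb p (List.mem_toFinset.1 h4))
  have h4 : bounded4.toFinset ∪ unbounded4.toFinset ⊆ Finset.Icc 1 31 ×ˢ Finset.Icc 1 31 := by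
    intro p hp
    rw [Finset.mem_product, Finset.mem_Icc, Finset.mem_Icc]
    rcases Finset.mem_union.1 hp with hp | hp
    · have := bounded4_lt p (List.mem_toFinset.1 hp)
      omega
    · have := lt4 p (List.mem_toFinset.1 hp)
      omega
  have h5 : bounded4.toFinset ∪ unbounded4.toFinset = Finset.Icc 1 31 ×ˢ Finset.Icc 1 31 := by
    refine Finset.eq_of_subset_of_card_le h4 ?_
    rw [Finset.card_union_of_disjoint h3, h1, h2, Finset.card_product, Nat.card_Icc]
  have h6 : (N, D) ∈ Finset.Icc 1 31 ×ˢ Finset.Icc 1 31 := by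
    rw [Finset.mem_product, Finset.mem_Icc, Finset.mem_Icc]
    show (1 ≤ N ∧ N ≤ 31) ∧ 1 ≤ D ∧ D ≤ 31
    omega
  rw [← h5, Finset.mem_union, List.mem_toFinset, List.mem_toFinset] at h6
  exact h6

/-- the special cases with unbounded solutions are exactly those of the list `unbounded4` -/
theorem not_esb_iff {N D : ℕ} (hN : 1 ≤ N) (hN' : N < 32) (hD : 1 ≤ D) (hD' : D < 32) :
    ¬ ESB (caseOf 4 N D) ↔ (N, D) ∈ unbounded4 := by
  refine ⟨fun h => ?_, fun h => not_esb4 (N, D) h⟩
  rcases cover4 hN hN' hD hD' with h1 | h1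
  · exact absurd (bounded4_esb (N, D) h1) h
  · exact h1

/-- **The exact count for the order four.** -/
theorem count4 : Nat.card {S : SpecialCase 4 // Admissible S ∧ ESB S} = 544 ∧
    Nat.card {S : SpecialCase 4 // Admissible S ∧ ¬ ESB S} = 417 := by
  have h1 := Pool.Agent.H50.Rdb.card_ge_esb (k := 4) bounded4_nodup (fun p hp => bounded4_lt p hp) bounded4_esb
  rw [bounded4_length] at h1
  have h2 := counts.1
  have s4 := card_split 4
  norm_num at s4
  omega

end Pool.Agent.H78.K4
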