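import Pool.Agent.H78.K4.Rel

/-!
# MP_5c7d49_an, the cases (3,20) and (5,18): definitions

The normal forms (after scaling) are
(3,20): `x (n+4) * (x (n+2) + c * x n) = a + x (n+3)`,
(5,18): `x (n+4) * (x (n+3) + c * x n) = a + x (n+2)`.

A large solution runs through cycles of length seven. At the beginning of a cycle there are a large
term `X` and a term `S` with `X ^ (-4/5) ≤ S ≤ X ^ (4/5)`; one cycle changes `(X, S)` into
`X' = X * (S + p) / (S + q) * G`, `S' = r * S * G`, up to factors close to one, where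
`p / q = r * exp (-η)` and `exp (-η) ≤ G ≤ 1`.
-/

namespace Pool.Agent.H78.K4

open Real

/-! ### The case (3,20) -/

/-- the normal form of the equation (3,20) -/
structure Eq320 (a c : ℝ) (x : ℕ → ℝ) : Prop where
  a0 : 0 < a
  c0 : 0 < c
  pos : ∀ n, 0 < x n
  eq : ∀ n, x (n + 4) * (x (n + 2) + c * x n) = a + x (n + 3)

noncomputable def q320 (a c : ℝ) : ℝ := a * (1 + c ^ 2) / c ^ 2

/-- the factor `G` -/
noncomputable def G320 (c X S : ℝ) : ℝ := 1 / (1 + c ^ 2 * S ^ 2 / (S ^ 2 + c * X))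

/-- `-log G` as a function of the logarithms -/
noncomputable def g320 (c M s : ℝ) : ℝ := -log (G320 c (exp M) (exp s))

/-- Input of one cycle: `w = x n` small, `v = x (n+1)` close to `X / S`, `X = x (n+2)`,
`S = x (n+3)`; `e` is the error of the window and `E` bounds `max 1 S (1/S) / X`. -/
structure In320 (c : ℝ) (x : ℕ → ℝ) (n : ℕ) (e E : ℝ) : Prop where
  e0 : 0 ≤ e
  e1 : e ≤ 1
  E1 : E ≤ 1
  hw : c * x n ≤ e * x (n + 2)
  hv : R e (x (n + 1) * x (n + 3)) (x (n + 2))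
  hX : 1 ≤ E * x (n + 2)
  hS : x (n + 3) ≤ E * x (n + 2)
  hi : 1 ≤ E * (x (n + 3) * x (n + 2))

/-- Output of one cycle: `D` is the error, `X = x (n+2)`, `S = x (n+3)`. -/
structure Out320 (a c C : ℝ) (x : ℕ → ℝ) (n : ℕ) (D X S : ℝ) : Prop where
  x2 : R D (x (n + 4)) ((a + S) / X)
  x3 : R D (x (n + 5)) (a * S / (S ^ 2 + c * X))
  x4 : R D (x (n + 6)) (a / (c * X))
  x5 : R D (x (n + 7)) (a / (c * S))
  x6 : R D (x (n + 8)) (X / S * (a / c) * ((S + 1 / c) / (S + q320 a c)))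
  x7 : R D (x (n + 9)) (X * ((S + 1 / c) / (S + q320 a c)) * G320 c X S)
  x8 : R D (x (n + 10)) (c / a * S * G320 c X S)
  /-- the window of the state `(x (n+9), x (n+10))` -/
  w : c * x (n + 7) * x (n + 10) ≤ C
  v : R (C / x (n + 9)) (x (n + 8) * x (n + 10)) (x (n + 9))
  /-- the window of the state `(x (n+8), x (n+9))` -/
  w3 : c * x (n + 6) * x (n + 9) ≤ C
  v3 : S ≤ 1 → R (C / x (n + 8)) (x (n + 7) * x (n + 9)) (x (n + 8))

/-- A state: `M = log X`, `s = log S`, window with the constant `K`. -/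
structure St320 (c K : ℝ) (x : ℕ → ℝ) (n : ℕ) (M s : ℝ) : Prop where
  hM : M = log (x (n + 2))
  hs : s = log (x (n + 3))
  one : 1 ≤ M
  dom : |s| ≤ 4 / 5 * M
  w : c * x n * x (n + 3) ≤ K
  v : R (K / x (n + 2)) (x (n + 1) * x (n + 3)) (x (n + 2))

/-! ### The case (5,18) -/

/-- the normal form of the equation (5,18) -/
structure Eq518 (a c : ℝ) (x : ℕ → ℝ) : Prop where
  a0 : 0 < a
  c0 : 0 < c
  pos : ∀ n, 0 < x n
  eq : ∀ n, x (n + 4) * (x (n + 3) + c * x n) = a + x (n + 2)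

noncomputable def q518 (a c : ℝ) : ℝ := a * (1 + c ^ 2)

/-- the value of the term number five of the cycle -/
noncomputable def F518 (a c X S : ℝ) : ℝ := a * c * X * (S + 1) / (S * (S + q518 a c))

/-- the factor `G` -/
noncomputable def G518 (a c X S : ℝ) : ℝ :=
  (c * F518 a c X S + c ^ 2 * S) / (c * F518 a c X S + (1 + c ^ 2) * S)

/-- `-log G` as a function of the logarithms -/
noncomputable def g518 (a c M s : ℝ) : ℝ := -log (G518 a c (exp M) (exp s))

/-- Input of one cycle: `u = x n` small, `X = x (n+1)`, `y = x (n+2)` close to `a / X`,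
`S = x (n+3)`; `e` is the error of the window and `E` bounds `max 1 S (1/S) / X`. -/
structure In518 (a c : ℝ) (x : ℕ → ℝ) (n : ℕ) (e E : ℝ) : Prop where
  e0 : 0 ≤ e
  e1 : e ≤ 1
  E1 : E ≤ 1
  hu : c * x n ≤ e * x (n + 3)
  hy : R e (x (n + 2) * x (n + 1)) a
  hX : 1 ≤ E * x (n + 1)
  hS : x (n + 3) ≤ E * x (n + 1)
  hi : 1 ≤ E * (x (n + 3) * x (n + 1))

/-- Output of one cycle: `D` is the error, `X = x (n+1)`, `S = x (n+3)`. -/
structure Out518 (a c C : ℝ) (x : ℕ → ℝ) (n : ℕ) (E D X S : ℝ) : Prop where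
  x3 : R D (x (n + 4)) (a / S)
  x4 : R D (x (n + 5)) ((a + S) / (c * X))
  x5 : R D (x (n + 6)) (F518 a c X S)
  x6 : R D (x (n + 7)) (a / (F518 a c X S + c * S))
  x7 : R D (x (n + 8)) (X * ((S + 1) / (S + q518 a c)) * G518 a c X S)
  x8 : R (C * E) (x (n + 9) * x (n + 8)) a
  x9 : R D (x (n + 10)) (S / (a * c ^ 2) * G518 a c X S)
  /-- `x (n+8) / (c * x (n+10))` is at most `x (n+6)` up to a factor near one -/
  x79 : x (n + 8) ≤ exp (C * E) * (c * x (n + 6) * x (n + 10))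
  /-- the window of the state `(x (n+8), x (n+10))` -/
  u : x (n + 7) * x (n + 8) ≤ C * x (n + 10)

/-- A state: `M = log X`, `s = log S`, window with the constant `K`. -/
structure St518 (a K : ℝ) (x : ℕ → ℝ) (n : ℕ) (M s : ℝ) : Prop where
  hM : M = log (x (n + 1))
  hs : s = log (x (n + 3))
  one : 1 ≤ M
  dom : |s| ≤ 4 / 5 * M
  u : x n * x (n + 1) ≤ K * x (n + 3)
  y : R (K * exp (|s| - M)) (x (n + 2) * x (n + 1)) a

end Pool.Agent.H78.K4
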