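import Pool.Agent.H78.K4.Rel

/-!
# MP_5c7d49_an, the case (5,24): definitions

Normal form: `x (n+4) * (x (n+1) + c * x n) = a + x (n+2)`.

A large solution runs through cycles of length nine. At the beginning of a cycle there are a large
term `X = x (n+1)` and a term `S = x (n+3)` with `X ^ (-4/5) ≤ S ≤ X ^ (4/5)`; one cycle changes
`(X, S)` into `X' = X * (c²/(1+c²)) * (1 + S) / (S + q)`, `S' = S / (q * (1 + h))`, `q = a (1 + c²)`,
up to factors close to one, with `0 ≤ h`, `h` small unless `S` is large. Hence `X * (1 + 1 / S)` loses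
the factor `c²/(1+c²)` in every cycle.
-/

namespace Pool.Agent.H78.K4

open Real

/-- the normal form of the equation (5,24) -/
structure Eq524 (a c : ℝ) (x : ℕ → ℝ) : Prop where
  a0 : 0 < a
  c0 : 0 < c
  pos : ∀ n, 0 < x n
  eq : ∀ n, x (n + 4) * (x (n + 1) + c * x n) = a + x (n + 2)

noncomputable def q524 (a c : ℝ) : ℝ := a * (1 + c ^ 2)

/-- the loss per cycle -/
noncomputable def eta524 (c : ℝ) : ℝ := log ((1 + c ^ 2) / c ^ 2)

/-- sizes: `E` bounds `max 1 S (1/S) / X` for `X = x (n+1)`, `S = x (n+3)` -/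
structure Sz524 (x : ℕ → ℝ) (n : ℕ) (E : ℝ) : Prop where
  E1 : E ≤ 1
  hX : 1 ≤ E * x (n + 1)
  hS : x (n + 3) ≤ E * x (n + 1)
  hi : 1 ≤ E * (x (n + 3) * x (n + 1))

/-- the window `(x n, X, x (n+2), S)` at the beginning of a cycle -/
structure In524 (K : ℝ) (x : ℕ → ℝ) (n : ℕ) : Prop where
  t : x n ≤ K * (1 + x (n + 3))
  y : x (n + 2) ≤ K
  z : x (n + 2) * x (n + 1) ≤ K * (x (n + 3) * (1 + x (n + 3)))

/-- the first half of a cycle (`X = x (n+1)`, `S = x (n+3)`) -/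
structure Mid524 (a c D : ℝ) (x : ℕ → ℝ) (n : ℕ) (X S : ℝ) : Prop where
  x5 : R D (x (n + 5)) ((a + S) / (c * X))
  x6 : R D (x (n + 6)) (a / S)
  x7 : R D (x (n + 7)) (a / (c * S))
  x8 : R D (x (n + 8)) (a * c * X * (1 + S) / (S * (S + q524 a c)))

/-- the second half of a cycle -/
structure Out524 (a c H D : ℝ) (x : ℕ → ℝ) (n : ℕ) (X S : ℝ) : Prop where
  x9 : x (n + 9) ≤ H * (1 + S)
  x10 : R D (x (n + 10)) (X * (c ^ 2 / (1 + c ^ 2)) * ((1 + S) / (S + q524 a c)))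
  x12 : ∃ h : ℝ, 0 ≤ h ∧ h ≤ H ∧ q524 a c * h ≤ D * (S + q524 a c) ∧
    R D (x (n + 12)) (S / (q524 a c * (1 + h)))
  /-- the window of the state `(x (n+10), x (n+12))` -/
  w : In524 H x (n + 9)
  /-- the window of the state `(x (n+8), x (n+10))` -/
  w7 : S ≤ 1 → In524 H x (n + 7)

/-- A state: `M = log X`, `s = log S`, window with the constant `K`. -/
structure St524 (K : ℝ) (x : ℕ → ℝ) (n : ℕ) (M s : ℝ) : Prop where
  hM : M = log (x (n + 1))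
  hs : s = log (x (n + 3))
  one : 1 ≤ M
  dom : |s| ≤ 4 / 5 * M
  w : In524 K x n

/-- The potential of the cycles of length nine -/
structure Pot9 (η C m B : ℝ) (W : ℝ → ℝ → ℝ) : Prop where
  low : ∀ M s, 1 ≤ M → |s| ≤ 4 / 5 * M → M ≤ 2 * (W M s + B)
  up : ∀ M s, 1 ≤ M → |s| ≤ 4 / 5 * M → W M s ≤ 3 * M + B
  t1 : ∀ M s M' s', m ≤ M → |s| ≤ 3 / 4 * M → |M' - M| ≤ C → |s' - s| ≤ C →
    M' + log (1 + exp (-s')) ≤ M + log (1 + exp (-s)) - η / 2 → W M' s' ≤ W M s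
  t2 : ∀ M s M' s', m ≤ M → 3 / 4 * M ≤ s → s ≤ 4 / 5 * M → |M' - s| ≤ C → |s' - (s - M)| ≤ C →
    W M' s' ≤ W M s
  t3 : ∀ M s M' s', m ≤ M → s ≤ -(3 / 4 * M) → -(4 / 5 * M) ≤ s → |M' - (M - s)| ≤ C →
    |s' - M| ≤ C → W M' s' ≤ W M s

end Pool.Agent.H78.K4
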