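import Pool.Agent.H78.K4.Def

/-!
# Calm windows of (3,20)

* `iter320`: by induction on `J`: `x (n+4) = (a + x (n+3)) / (x (n+2) + c x n)` is at most
  `(a + Q) * Q` and at least `a / ((1 + c) Q)`; the window at `n + 1` satisfies the same with a
  larger `Q`.
* `end320`: in a state with `1 ≤ M < m`: `X`, `S`, `1 / S` are bounded, `w ≤ K / (c S)`,
  `v ≤ exp (K / X) X / S`; use `iter320`.
-/

namespace Pool.Agent.H78.K4

open Real

theorem iter320 {a c : ℝ} (ha : 0 < a) (hc : 0 < c) (J : ℕ) (Q : ℝ) : ∃ Q' : ℝ,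
    ∀ (x : ℕ → ℝ) (n : ℕ), Eq320 a c x → (∀ i < 4, x (n + i) ≤ Q) → 1 ≤ Q * x (n + 2) →
      1 ≤ Q * x (n + 3) → ∀ i ≤ J, x (n + i) ≤ Q' := by
  induction J generalizing Q with
  | zero =>
    refine ⟨Q, fun x n _ h4 _ _ i hi => h4 i (by omega)⟩
  | succ J ih =>
    obtain ⟨Q', hQ'⟩ := ih (max Q (max ((a + Q) * Q) ((1 + c) * Q / a)))
    refine ⟨max Q Q', fun x n he h4 h2 h3 i hi => ?_⟩
    rcases Nat.eq_zero_or_pos i with h0 | h0
    · subst h0
      exact le_trans (h4 0 (by norm_num)) (le_max_left _ _)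
    · obtain ⟨j, rfl⟩ : ∃ j, i = j + 1 := ⟨i - 1, by omega⟩
      have hstep : x (n + 1 + j) ≤ Q' := by
        have p0 := he.pos n
        have p2 := he.pos (n + 2)
        have p3 := he.pos (n + 3)
        have p4 := he.pos (n + 4)
        have hQ : 0 < Q := by
          by_contra hc
          push Not at hc
          nlinarith
        have b0 : x n ≤ Q := h4 0 (by norm_num)
        have b2 : x (n + 2) ≤ Q := h4 2 (by norm_num)
        have b3 : x (n + 3) ≤ Q := h4 3 (by norm_num)
        have heq := he.eq n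
        have hcx : 0 < c * x n := mul_pos hc p0
        have hup : x (n + 4) ≤ (a + Q) * Q := by
          have e1 : x (n + 4) * x (n + 2) ≤ a + Q := by nlinarith
          calc x (n + 4) = x (n + 4) * 1 := (mul_one _).symm
            _ ≤ x (n + 4) * (Q * x (n + 2)) := mul_le_mul_of_nonneg_left h2 p4.le
            _ = (x (n + 4) * x (n + 2)) * Q := by ring
            _ ≤ (a + Q) * Q := mul_le_mul_of_nonneg_right e1 hQ.le
        have hlo : 1 ≤ (1 + c) * Q / a * x (n + 4) := by
          have e1 : x (n + 2) + c * x n ≤ (1 + c) * Q := by nlinarith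
          have e2 : a ≤ x (n + 4) * ((1 + c) * Q) := by
            calc a ≤ a + x (n + 3) := by linarith
              _ = x (n + 4) * (x (n + 2) + c * x n) := heq.symm
              _ ≤ _ := mul_le_mul_of_nonneg_left e1 p4.le
          rw [div_mul_eq_mul_div, le_div_iff₀ ha]
          linarith
        have m1 : Q ≤ max Q (max ((a + Q) * Q) ((1 + c) * Q / a)) := le_max_left _ _
        have m2 : (a + Q) * Q ≤ max Q (max ((a + Q) * Q) ((1 + c) * Q / a)) :=
          le_trans (le_max_left _ _) (le_max_right _ _)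
        have m3 : (1 + c) * Q / a ≤ max Q (max ((a + Q) * Q) ((1 + c) * Q / a)) :=
          le_trans (le_max_right _ _) (le_max_right _ _)
        refine hQ' x (n + 1) he ?_ ?_ ?_ j (by omega)
        · intro k hk
          have hk' : k = 0 ∨ k = 1 ∨ k = 2 ∨ k = 3 := by omega
          rcases hk' with rfl | rfl | rfl | rfl
          · exact le_trans (h4 1 (by norm_num)) m1
          · exact le_trans b2 m1
          · exact le_trans b3 m1
          · exact le_trans hup m2
        · exact le_trans h3 (mul_le_mul_of_nonneg_right m1 p3.le)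
        · exact le_trans hlo (mul_le_mul_of_nonneg_right m3 p4.le)
      have hix : n + (j + 1) = n + 1 + j := by omega
      rw [hix]
      exact le_trans hstep (le_max_right _ _)

theorem end320 {a c : ℝ} (ha : 0 < a) (hc : 0 < c) (K m : ℝ) (J : ℕ) : ∃ T : ℝ,
    ∀ (x : ℕ → ℝ) (n : ℕ) (M s : ℝ), Eq320 a c x → St320 c K x n M s → M < m →
      ∀ i ≤ J, x (n + i) ≤ T := by
  obtain ⟨T, hT⟩ := iter320 ha hc J
    (max (exp m) (max (|K| / c * exp m) (exp |K| * (exp m * exp m))))
  refine ⟨T, fun x n M s he hs hm => ?_⟩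
  have hc0 := he.c0
  have p0 := he.pos n
  have p1 := he.pos (n + 1)
  have pX := he.pos (n + 2)
  have pS := he.pos (n + 3)
  have hM1 : 1 ≤ M := hs.one
  have hX : x (n + 2) = exp M := by rw [hs.hM, exp_log pX]
  have hS : x (n + 3) = exp s := by rw [hs.hs, exp_log pS]
  have hab := abs_le.1 hs.dom
  have hXm : x (n + 2) ≤ exp m := by rw [hX]; exact exp_le_exp.2 hm.le
  have hX1 : 1 ≤ x (n + 2) := by rw [hX]; exact one_le_exp (by linarith)
  have hSm : x (n + 3) ≤ exp m := by rw [hS]; exact exp_le_exp.2 (by linarith)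
  have hSi : 1 ≤ exp m * x (n + 3) := by
    rw [hS, ← exp_add]; exact one_le_exp (by linarith)
  have hK : 0 < K := lt_of_lt_of_le (mul_pos (mul_pos hc0 p0) pS) hs.w
  have hKa : |K| = K := abs_of_pos hK
  have h0 : x n ≤ |K| / c * exp m := by
    rw [hKa]
    have e1 : c * x n ≤ K * exp m := by
      calc c * x n = (c * x n) * 1 := (mul_one _).symm
        _ ≤ (c * x n) * (exp m * x (n + 3)) :=
          mul_le_mul_of_nonneg_left hSi (mul_pos hc0 p0).le
        _ = (c * x n * x (n + 3)) * exp m := by ring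
        _ ≤ K * exp m := mul_le_mul_of_nonneg_right hs.w (exp_pos _).le
    rw [div_mul_eq_mul_div, le_div_iff₀ hc]
    linarith
  have h1 : x (n + 1) ≤ exp |K| * (exp m * exp m) := by
    rw [hKa]
    have e0 : exp (K / x (n + 2)) ≤ exp K := exp_le_exp.2 (div_le_self hK.le hX1)
    have e1 : x (n + 1) * x (n + 3) ≤ exp K * exp m :=
      hs.v.le.trans (mul_le_mul e0 hXm pX.le (exp_pos _).le)
    calc x (n + 1) = x (n + 1) * 1 := (mul_one _).symm
      _ ≤ x (n + 1) * (exp m * x (n + 3)) := mul_le_mul_of_nonneg_left hSi p1.le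
      _ = (x (n + 1) * x (n + 3)) * exp m := by ring
      _ ≤ (exp K * exp m) * exp m := mul_le_mul_of_nonneg_right e1 (exp_pos _).le
      _ = _ := by ring
  have m1 : exp m ≤ max (exp m) (max (|K| / c * exp m) (exp |K| * (exp m * exp m))) :=
    le_max_left _ _
  have m2 : |K| / c * exp m ≤ max (exp m) (max (|K| / c * exp m) (exp |K| * (exp m * exp m))) :=
    le_trans (le_max_left _ _) (le_max_right _ _)
  have m3 : exp |K| * (exp m * exp m) ≤
      max (exp m) (max (|K| / c * exp m) (exp |K| * (exp m * exp m))) :=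
    le_trans (le_max_right _ _) (le_max_right _ _)
  have hem : 1 ≤ exp m := one_le_exp (by linarith)
  refine hT x n he ?_ ?_ ?_
  · intro k hk
    have hk' : k = 0 ∨ k = 1 ∨ k = 2 ∨ k = 3 := by omega
    rcases hk' with rfl | rfl | rfl | rfl
    · exact le_trans h0 m2
    · exact le_trans h1 m3
    · exact le_trans hXm m1
    · exact le_trans hSm m1
  · calc (1 : ℝ) ≤ exp m * x (n + 2) := one_le_mul_of_one_le_of_one_le hem hX1
      _ ≤ _ := mul_le_mul_of_nonneg_right m1 pX.le
  · exact le_trans hSi (mul_le_mul_of_nonneg_right m1 pS.le)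

end Pool.Agent.H78.K4
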