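import Pool.Agent.H78.K4.Def

/-!
# Calm windows of (5,18)

* `iter518`: by induction on `J`: `x (n+4) = (a + x (n+2)) / (x (n+3) + c x n)` is at most
  `(a + Q) * Q` and at least `a / ((1 + c) Q)`.
* `end518`: in a state with `1 ≤ M < m`: `X`, `S`, `1 / S`, `1 / X` are bounded, `u ≤ K S / X`,
  `y ≤ exp (K exp (|s| - M)) a / X`; use `iter518`.
-/

namespace Pool.Agent.H78.K4

open Real

theorem iter518 {a c : ℝ} (ha : 0 < a) (hc : 0 < c) (J : ℕ) (Q : ℝ) : ∃ Q' : ℝ,
    ∀ (x : ℕ → ℝ) (n : ℕ), Eq518 a c x → (∀ i < 4, x (n + i) ≤ Q) → 1 ≤ Q * x (n + 3) →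
      ∀ i ≤ J, x (n + i) ≤ Q' := by
  induction J generalizing Q with
  | zero =>
    refine ⟨Q, fun x n _ h _ i hi => ?_⟩
    have hi0 : i = 0 := by omega
    subst hi0
    exact h 0 (by norm_num)
  | succ J ih =>
    obtain ⟨T, hT⟩ := ih (max Q (max ((a + Q) * Q) ((1 + c) * Q / a)))
    refine ⟨max Q T, fun x n hE h h3 i hi => ?_⟩
    have p0 := hE.pos n
    have p2 := hE.pos (n + 2)
    have p3 := hE.pos (n + 3)
    have p4 := hE.pos (n + 4)
    have q0 : x n ≤ Q := h 0 (by norm_num)
    have q2 : x (n + 2) ≤ Q := h 2 (by norm_num)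
    have q3 : x (n + 3) ≤ Q := h 3 (by norm_num)
    have hQ : 0 < Q := p0.trans_le q0
    have e4 := hE.eq n
    have up : x (n + 4) ≤ (a + Q) * Q := by
      have h1 : x (n + 4) * x (n + 3) ≤ a + Q := by
        have : 0 ≤ x (n + 4) * (c * x n) := by positivity
        nlinarith
      calc x (n + 4) = x (n + 4) * 1 := (mul_one _).symm
        _ ≤ x (n + 4) * (Q * x (n + 3)) := mul_le_mul_of_nonneg_left h3 p4.le
        _ = x (n + 4) * x (n + 3) * Q := by ring
        _ ≤ (a + Q) * Q := mul_le_mul_of_nonneg_right h1 hQ.le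
    have lo : 1 ≤ (1 + c) * Q / a * x (n + 4) := by
      have h1 : a ≤ x (n + 4) * ((1 + c) * Q) := by
        have h2 : x (n + 3) + c * x n ≤ (1 + c) * Q := by
          have := mul_le_mul_of_nonneg_left q0 hc.le
          linarith
        have h3 := mul_le_mul_of_nonneg_left h2 p4.le
        linarith
      have h2 : (1 + c) * Q / a * x (n + 4) = x (n + 4) * ((1 + c) * Q) / a := by ring
      rw [h2, le_div_iff₀ ha, one_mul]
      exact h1
    rcases Nat.eq_zero_or_pos i with rfl | hpos
    · exact (h 0 (by norm_num)).trans (le_max_left _ _)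
    · obtain ⟨j, rfl⟩ : ∃ j, i = j + 1 := ⟨i - 1, by omega⟩
      have hw : ∀ k < 4, x (n + 1 + k) ≤ max Q (max ((a + Q) * Q) ((1 + c) * Q / a)) := by
        intro k hk
        rcases Nat.lt_or_ge k 3 with hk3 | hk3
        · have h1 : x (n + (k + 1)) ≤ Q := h (k + 1) (by omega)
          rw [show n + 1 + k = n + (k + 1) by ring]
          exact h1.trans (le_max_left _ _)
        · have hk' : k = 3 := by omega
          subst hk'
          rw [show n + 1 + 3 = n + 4 by ring]
          exact up.trans ((le_max_left _ _).trans (le_max_right _ _))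
      have hl : 1 ≤ max Q (max ((a + Q) * Q) ((1 + c) * Q / a)) * x (n + 1 + 3) := by
        rw [show n + 1 + 3 = n + 4 by ring]
        refine lo.trans (mul_le_mul_of_nonneg_right ?_ p4.le)
        exact (le_max_right _ _).trans (le_max_right _ _)
      have h1 := hT x (n + 1) hE hw hl j (by omega)
      rw [show n + (j + 1) = n + 1 + j by ring]
      exact h1.trans (le_max_right _ _)

theorem end518 {a c : ℝ} (ha : 0 < a) (hc : 0 < c) (K m : ℝ) (J : ℕ) : ∃ T : ℝ,
    ∀ (x : ℕ → ℝ) (n : ℕ) (M s : ℝ), Eq518 a c x → St518 a K x n M s → M < m →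
      ∀ i ≤ J, x (n + i) ≤ T := by
  obtain ⟨T, hT⟩ := iter518 ha hc J (exp m + |K| * exp m + exp |K| * a)
  refine ⟨T, fun x n M s hE hS hM => hT x n hE ?_ ?_⟩
  · have p0 := hE.pos n
    have p1 := hE.pos (n + 1)
    have p2 := hE.pos (n + 2)
    have p3 := hE.pos (n + 3)
    have hM1 := hS.one
    have hX : x (n + 1) = exp M := by rw [hS.hM, exp_log p1]
    have hSs : x (n + 3) = exp s := by rw [hS.hs, exp_log p3]
    have hX1 : 1 ≤ x (n + 1) := by
      rw [hX]
      exact one_le_exp (by linarith)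
    have hdom := abs_le.mp hS.dom
    have hXm : x (n + 1) ≤ exp m := by
      rw [hX]
      exact exp_le_exp.2 hM.le
    have hSm : x (n + 3) ≤ exp m := by
      rw [hSs]
      exact exp_le_exp.2 (by linarith [hdom.2])
    have hK0 : 0 ≤ |K| * exp m := by positivity
    have hK1 : 0 ≤ exp |K| * a := by positivity
    have hem : 0 < exp m := exp_pos m
    have hx0 : x n ≤ |K| * exp m := by
      calc x n = x n * 1 := (mul_one _).symm
        _ ≤ x n * x (n + 1) := mul_le_mul_of_nonneg_left hX1 p0.le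
        _ ≤ K * x (n + 3) := hS.u
        _ ≤ |K| * x (n + 3) := mul_le_mul_of_nonneg_right (le_abs_self K) p3.le
        _ ≤ |K| * exp m := mul_le_mul_of_nonneg_left hSm (abs_nonneg K)
    have hx2 : x (n + 2) ≤ exp |K| * a := by
      have h1 : K * exp (|s| - M) ≤ |K| := by
        have h2 : exp (|s| - M) ≤ 1 := exp_le_one_iff.2 (by linarith [hS.dom])
        calc K * exp (|s| - M) ≤ |K| * exp (|s| - M) :=
              mul_le_mul_of_nonneg_right (le_abs_self K) (exp_pos _).le
          _ ≤ |K| * 1 := mul_le_mul_of_nonneg_left h2 (abs_nonneg K)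
          _ = |K| := mul_one _
      calc x (n + 2) = x (n + 2) * 1 := (mul_one _).symm
        _ ≤ x (n + 2) * x (n + 1) := mul_le_mul_of_nonneg_left hX1 p2.le
        _ ≤ exp (K * exp (|s| - M)) * a := hS.y.le
        _ ≤ exp |K| * a := mul_le_mul_of_nonneg_right (exp_le_exp.2 h1) ha.le
    intro i hi
    interval_cases i
    · rw [add_zero]
      linarith
    · linarith
    · linarith
    · linarith
  · have p3 := hE.pos (n + 3)
    have hM1 := hS.one
    have hSs : x (n + 3) = exp s := by rw [hS.hs, exp_log p3]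
    have hdom := abs_le.mp hS.dom
    have h1 : 1 ≤ exp m * x (n + 3) := by
      rw [hSs, ← exp_add]
      exact one_le_exp (by linarith [hdom.1])
    refine h1.trans (mul_le_mul_of_nonneg_right ?_ p3.le)
    have hK0 : 0 ≤ |K| * exp m := by positivity
    have hK1 : 0 ≤ exp |K| * a := by positivity
    linarith

end Pool.Agent.H78.K4
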