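import Pool.Agent.H78.K4.Def524

/-!
# Calm windows of (5,24)

* `iter524`: by induction on `J`: `x (n+4) = (a + x (n+2)) / (x (n+1) + c * x n)` is at most
  `(a + Q) * Q` and at least `a / ((1 + c) Q)`.
* `end524`: in a state with `1 ≤ M < m`: `x n`, `X`, `x (n+2)`, `S` are bounded, and so are
  `x (n+4) ≤ (a + K) / X`, `x (n+5) ≤ (a + S) / (c X)`, `x (n+6) ≤ (a + x (n+4)) / S`; `S ≥ exp (-m)`,
  and `x (n+4), x (n+5), x (n+6)` are bounded below; use `iter524` at `n + 3`.
-/

namespace Pool.Agent.H78.K4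

open Real

theorem iter524 {a c : ℝ} (ha : 0 < a) (hc : 0 < c) (J : ℕ) (Q : ℝ) : ∃ Q' : ℝ,
    ∀ (x : ℕ → ℝ) (n : ℕ), Eq524 a c x → (∀ i < 4, x (n + i) ≤ Q) → (∀ i < 4, 1 ≤ Q * x (n + i)) →
      ∀ i ≤ J, x (n + i) ≤ Q' := by
  induction J generalizing Q with
  | zero =>
    refine ⟨Q, fun x n _ h _ i hi => ?_⟩
    have hi0 : i = 0 := by omega
    subst hi0
    exact h 0 (by norm_num)
  | succ J ih =>
    obtain ⟨T, hT⟩ := ih (max Q (max ((a + Q) * Q) ((1 + c) * Q / a)))
    refine ⟨max Q T, fun x n hE h hl i hi => ?_⟩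
    have p0 := hE.pos n
    have p1 := hE.pos (n + 1)
    have p4 := hE.pos (n + 4)
    have q0 : x n ≤ Q := h 0 (by norm_num)
    have q1 : x (n + 1) ≤ Q := h 1 (by norm_num)
    have q2 : x (n + 2) ≤ Q := h 2 (by norm_num)
    have l1 : 1 ≤ Q * x (n + 1) := hl 1 (by norm_num)
    have hQ : 0 < Q := p0.trans_le q0
    have p2 := hE.pos (n + 2)
    have e4 := hE.eq n
    have up : x (n + 4) ≤ (a + Q) * Q := by
      have h1 : x (n + 4) * x (n + 1) ≤ a + Q := by
        have : 0 ≤ x (n + 4) * (c * x n) := by positivity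
        nlinarith
      calc x (n + 4) = x (n + 4) * 1 := (mul_one _).symm
        _ ≤ x (n + 4) * (Q * x (n + 1)) := mul_le_mul_of_nonneg_left l1 p4.le
        _ = x (n + 4) * x (n + 1) * Q := by ring
        _ ≤ (a + Q) * Q := mul_le_mul_of_nonneg_right h1 hQ.le
    have lo : 1 ≤ (1 + c) * Q / a * x (n + 4) := by
      have h1 : a ≤ x (n + 4) * ((1 + c) * Q) := by
        have h2 : x (n + 1) + c * x n ≤ (1 + c) * Q := by
          have := mul_le_mul_of_nonneg_left q0 hc.le
          linarith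
        have h3 := mul_le_mul_of_nonneg_left h2 p4.le
        linarith
      have h2 : (1 + c) * Q / a * x (n + 4) = x (n + 4) * ((1 + c) * Q) / a := by ring
      rw [h2, le_div_iff₀ ha, one_mul]
      exact h1
    rcases Nat.eq_zero_or_pos i with rfl | hpos
    · exact (h 0 (by norm_num)).trans (le_max_left _ _)
    · obtain ⟨j, rfl⟩ : ∃ j, i = j + 1 := ⟨i - 1, by omega⟩
      have hw : ∀ k < 4, x (n + 1 + k) ≤ max Q (max ((a + Q) * Q) ((1 + c) * Q / a)) := by
        intro k hk
        rcases Nat.lt_or_ge k 3 with hk3 | hk3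
        · have h1 : x (n + (k + 1)) ≤ Q := h (k + 1) (by omega)
          rw [show n + 1 + k = n + (k + 1) by ring]
          exact h1.trans (le_max_left _ _)
        · have hk' : k = 3 := by omega
          subst hk'
          rw [show n + 1 + 3 = n + 4 by ring]
          exact up.trans ((le_max_left _ _).trans (le_max_right _ _))
      have hl' : ∀ k < 4, 1 ≤ max Q (max ((a + Q) * Q) ((1 + c) * Q / a)) * x (n + 1 + k) := by
        intro k hk
        rcases Nat.lt_or_ge k 3 with hk3 | hk3
        · have h1 : 1 ≤ Q * x (n + (k + 1)) := hl (k + 1) (by omega)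
          rw [show n + 1 + k = n + (k + 1) by ring]
          exact h1.trans (mul_le_mul_of_nonneg_right (le_max_left _ _) (hE.pos _).le)
        · have hk' : k = 3 := by omega
          subst hk'
          rw [show n + 1 + 3 = n + 4 by ring]
          exact lo.trans (mul_le_mul_of_nonneg_right ((le_max_right _ _).trans (le_max_right _ _)) p4.le)
      have h1 := hT x (n + 1) hE hw hl' j (by omega)
      rw [show n + (j + 1) = n + 1 + j by ring]
      exact h1.trans (le_max_right _ _)

theorem end524 {a c : ℝ} (ha : 0 < a) (hc : 0 < c) (K m : ℝ) (J : ℕ) : ∃ T : ℝ,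
    ∀ (x : ℕ → ℝ) (n : ℕ) (M s : ℝ), Eq524 a c x → St524 K x n M s → M < m →
      ∀ i ≤ J, x (n + i) ≤ T := by
  -- upper bounds
  set A1 : ℝ := a + |K| with hA1
  set A2 : ℝ := (a + exp m) / c with hA2
  set A3 : ℝ := (a + A1) * exp m with hA3
  -- bounds of the inverses
  set B1 : ℝ := (exp m + c * (|K| * (1 + exp m))) / a with hB1
  set B2 : ℝ := (|K| + c * exp m) / a with hB2
  set B3 : ℝ := (exp m + c * |K|) / a with hB3
  have hem : 0 < exp m := exp_pos m
  have hK := abs_nonneg K
  have pA1 : 0 ≤ A1 := by positivity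
  have pA2 : 0 ≤ A2 := by positivity
  have pA3 : 0 ≤ A3 := by positivity
  have pB1 : 0 ≤ B1 := by positivity
  have pB2 : 0 ≤ B2 := by positivity
  have pB3 : 0 ≤ B3 := by positivity
  obtain ⟨T, hT⟩ := iter524 ha hc J (exp m + A1 + A2 + A3 + B1 + B2 + B3)
  refine ⟨max T (exp m + |K| * (1 + exp m) + |K|), fun x n M s hE hS hM i hi => ?_⟩
  have p0 := hE.pos n
  have p1 := hE.pos (n + 1)
  have p2 := hE.pos (n + 2)
  have p3 := hE.pos (n + 3)
  have p4 := hE.pos (n + 4)
  have p5 := hE.pos (n + 5)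
  have p6 := hE.pos (n + 6)
  have hM1 := hS.one
  have hX : x (n + 1) = exp M := by rw [hS.hM, exp_log p1]
  have hSs : x (n + 3) = exp s := by rw [hS.hs, exp_log p3]
  have hX1 : 1 ≤ x (n + 1) := by
    rw [hX]
    exact one_le_exp (by linarith)
  have hdom := abs_le.mp hS.dom
  have hXm : x (n + 1) ≤ exp m := by
    rw [hX]
    exact exp_le_exp.2 hM.le
  have hSm : x (n + 3) ≤ exp m := by
    rw [hSs]
    exact exp_le_exp.2 (by linarith [hdom.2])
  have hSi : 1 ≤ exp m * x (n + 3) := by
    rw [hSs, ← exp_add]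
    exact one_le_exp (by linarith [hdom.1])
  have hx0 : x n ≤ |K| * (1 + exp m) := by
    calc x n ≤ K * (1 + x (n + 3)) := hS.w.t
      _ ≤ |K| * (1 + x (n + 3)) := mul_le_mul_of_nonneg_right (le_abs_self K) (by linarith)
      _ ≤ |K| * (1 + exp m) := mul_le_mul_of_nonneg_left (by linarith) hK
  have hx2 : x (n + 2) ≤ |K| := hS.w.y.trans (le_abs_self K)
  have e4 := hE.eq n
  have e5 := hE.eq (n + 1)
  have e6 := hE.eq (n + 2)
  simp only [add_assoc] at e5 e6
  norm_num at e5 e6
  have u4 : x (n + 4) ≤ A1 := by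
    have h1 : x (n + 4) * 1 ≤ x (n + 4) * (x (n + 1) + c * x n) := by
      refine mul_le_mul_of_nonneg_left ?_ p4.le
      have := mul_pos hc p0
      linarith
    linarith
  have u5 : x (n + 5) ≤ A2 := by
    rw [hA2, le_div_iff₀ hc]
    have h1 : x (n + 5) * (c * 1) ≤ x (n + 5) * (x (n + 2) + c * x (n + 1)) := by
      refine mul_le_mul_of_nonneg_left ?_ p5.le
      have := mul_le_mul_of_nonneg_left hX1 hc.le
      linarith
    linarith
  have u6 : x (n + 6) ≤ A3 := by
    have h1 : x (n + 6) * x (n + 3) ≤ a + A1 := by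
      have : 0 ≤ x (n + 6) * (c * x (n + 2)) := by positivity
      nlinarith
    calc x (n + 6) = x (n + 6) * 1 := (mul_one _).symm
      _ ≤ x (n + 6) * (exp m * x (n + 3)) := mul_le_mul_of_nonneg_left hSi p6.le
      _ = x (n + 6) * x (n + 3) * exp m := by ring
      _ ≤ (a + A1) * exp m := mul_le_mul_of_nonneg_right h1 hem.le
  have l4 : 1 ≤ B1 * x (n + 4) := by
    have h1 : a ≤ x (n + 4) * (exp m + c * (|K| * (1 + exp m))) := by
      have h2 := mul_le_mul_of_nonneg_left hx0 hc.le
      have h3 := mul_le_mul_of_nonneg_left (show x (n + 1) + c * x n ≤ exp m + c * (|K| * (1 + exp m)) by linarith)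
        p4.le
      linarith
    have h2 : B1 * x (n + 4) = x (n + 4) * (exp m + c * (|K| * (1 + exp m))) / a := by
      rw [hB1]
      ring
    rw [h2, le_div_iff₀ ha, one_mul]
    exact h1
  have l5 : 1 ≤ B2 * x (n + 5) := by
    have h1 : a ≤ x (n + 5) * (|K| + c * exp m) := by
      have h2 := mul_le_mul_of_nonneg_left hXm hc.le
      have h3 := mul_le_mul_of_nonneg_left (show x (n + 2) + c * x (n + 1) ≤ |K| + c * exp m by linarith) p5.le
      linarith
    have h2 : B2 * x (n + 5) = x (n + 5) * (|K| + c * exp m) / a := by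
      rw [hB2]
      ring
    rw [h2, le_div_iff₀ ha, one_mul]
    exact h1
  have l6 : 1 ≤ B3 * x (n + 6) := by
    have h1 : a ≤ x (n + 6) * (exp m + c * |K|) := by
      have h2 := mul_le_mul_of_nonneg_left hx2 hc.le
      have h3 := mul_le_mul_of_nonneg_left (show x (n + 3) + c * x (n + 2) ≤ exp m + c * |K| by linarith) p6.le
      linarith
    have h2 : B3 * x (n + 6) = x (n + 6) * (exp m + c * |K|) / a := by
      rw [hB3]
      ring
    rw [h2, le_div_iff₀ ha, one_mul]
    exact h1
  have hKe : 0 ≤ |K| * (1 + exp m) := by positivity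
  rcases Nat.lt_or_ge i 3 with h3 | h3
  · refine le_trans ?_ (le_max_right _ _)
    interval_cases i
    · rw [add_zero]
      linarith
    · linarith
    · linarith
  · obtain ⟨j, rfl⟩ : ∃ j, i = 3 + j := ⟨i - 3, by omega⟩
    refine le_trans ?_ (le_max_left _ _)
    have key := hT x (n + 3) hE (fun k hk => ?_) (fun k hk => ?_) j (by omega)
    · rw [← add_assoc]
      exact key
    · rw [show n + 3 + k = n + (3 + k) by ring]
      interval_cases k <;> norm_num <;> linarith
    · rw [show n + 3 + k = n + (3 + k) by ring]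
      have up : ∀ (y B : ℝ), 0 < y → 1 ≤ B * y → B ≤ exp m + A1 + A2 + A3 + B1 + B2 + B3 →
          1 ≤ (exp m + A1 + A2 + A3 + B1 + B2 + B3) * y := fun y B hy h1 h2 =>
        h1.trans (mul_le_mul_of_nonneg_right h2 hy.le)
      interval_cases k
      · exact up _ _ p3 hSi (by linarith)
      · exact up _ _ p4 l4 (by linarith)
      · exact up _ _ p5 l5 (by linarith)
      · exact up _ _ p6 l6 (by linarith)

end Pool.Agent.H78.K4
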