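import Pool.Agent.H78.K4.Def524

/-!
# (5,24), the first half of a cycle

Write `T = x n`, `X = x (n+1)`, `y = x (n+2)`, `S = x (n+3)`, `x_k = x (n+k)`; `E` satisfies
`1 / X ≤ E`, `S / X ≤ E`, `1 / (S * X) ≤ E`, `E ≤ 1`; `C` = constants depending on `a, c, K`.
* `T ≤ K (1 + S) ≤ 2 K E X`; `y ≤ K`, `y X ≤ K S (1 + S)`, so `y ≤ 2 K E S` (as `(1 + S) / X ≤ 2 E`)
  and `y ≤ K ≤ K E X`.
* `x_4 (X + c T) = a + y`: `R (2 c K E) x_4 ((a + y) / X)`, `x_4 ≤ (a + K) / X ≤ (a + K) E`, also
  `x_4 ≤ (a + K) E S` (as `1 / X ≤ E S`).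
* `x_5 (y + c X) = a + S`: `R (K / c * E) x_5 ((a + S) / (c X))`; `x_5 ≤ (a + S) / (c X) ≤ (a + 1) E / c`.
* `x_6 (S + c y) = a + x_4`: `R.small` twice, value `a / S`.
* `x_7 (x_4 + c S) = a + x_5`: `R.small'`, value `a / (c S)`.
* `x_8 (x_5 + c x_4) = a + x_6`: numerator `a + a / S = a (1 + S) / S`; denominator:
  `(a + S) / (c X) + c (a + y) / X = (S + q + c² y) / (c X)`, `c² y ≤ C E (S + q)`. Value
  `(a (1 + S) / S) / ((S + q) / (c X))`.
-/

namespace Pool.Agent.H78.K4

open Real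

private theorem mid_aux {a c k T X y S x4 x5 x6 x7 x8 E : ℝ} (ha : 0 < a) (hc : 0 < c) (hk : 0 < k)
    (T0 : 0 < T) (X0 : 0 < X) (y0 : 0 < y) (S0 : 0 < S) (h4 : 0 < x4) (h5 : 0 < x5)
    (e4 : x4 * (X + c * T) = a + y) (e5 : x5 * (y + c * X) = a + S) (e6 : x6 * (S + c * y) = a + x4)
    (e7 : x7 * (x4 + c * S) = a + x5) (e8 : x8 * (x5 + c * x4) = a + x6)
    (E0 : 0 < E) (hX : 1 ≤ E * X) (hS : S ≤ E * X) (hi : 1 ≤ E * (S * X))
    (hT : T ≤ k * (1 + S)) (hy : y ≤ k) (hyX : y * X ≤ k * (S * (1 + S))) :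
    R (k / c * E) x5 ((a + S) / (c * X)) ∧
    R (((a + k) / a + 2 * c * k) * E) x6 (a / S) ∧
    R (((a + 1) / (a * c) + (a + k) / c) * E) x7 (a / (c * S)) ∧
    R (((a + k) / a + 2 * c * k + (k / c + 2 * c * k + 2 * k * c ^ 2)) * E) x8
      (a * c * X * (1 + S) / (S * (S + a * (1 + c ^ 2)))) := by
  have hcT : 0 < c * T := mul_pos hc T0
  have hcX : 0 < c * X := mul_pos hc X0
  have hcS : 0 < c * S := mul_pos hc S0
  have hcy : 0 < c * y := mul_pos hc y0
  have hc2 : 0 < c ^ 2 := pow_pos hc 2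
  have hq : 0 < a * (1 + c ^ 2) := by positivity
  have h1S : 1 + S ≤ 2 * (E * X) := by linarith
  -- x4
  have k4 : x4 * X ≤ a + k := by
    have h1 : 0 < x4 * (c * T) := mul_pos h4 hcT
    have h2 : x4 * (X + c * T) = x4 * X + x4 * (c * T) := by ring
    linarith
  have k4E : x4 ≤ (a + k) * E := by
    calc x4 = x4 * 1 := (mul_one _).symm
      _ ≤ x4 * (E * X) := mul_le_mul_of_nonneg_left hX h4.le
      _ = x4 * X * E := by ring
      _ ≤ (a + k) * E := mul_le_mul_of_nonneg_right k4 E0.le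
  have k4S : x4 ≤ (a + k) * E * S := by
    calc x4 = x4 * 1 := (mul_one _).symm
      _ ≤ x4 * (E * (S * X)) := mul_le_mul_of_nonneg_left hi h4.le
      _ = x4 * X * (E * S) := by ring
      _ ≤ (a + k) * (E * S) := mul_le_mul_of_nonneg_right k4 (by positivity)
      _ = (a + k) * E * S := by ring
  have cT : c * T ≤ 2 * c * k * E * X := by
    calc c * T ≤ c * (k * (1 + S)) := mul_le_mul_of_nonneg_left hT hc.le
      _ ≤ c * (k * (2 * (E * X))) := by gcongr
      _ = 2 * c * k * E * X := by ring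
  have R4 : R (2 * c * k * E) x4 ((a + y) / X) := by
    have h1 : x4 = (a + y) / (X + c * T) := by
      rw [eq_div_iff (by positivity)]
      exact e4
    have h2 := (R.refl (add_pos ha y0) (le_refl (0 : ℝ))).div (R.small X0 hcT.le cT)
    rw [zero_add, ← h1] at h2
    exact h2
  -- x5
  have yE : y ≤ k * E * X := by
    calc y ≤ k * 1 := by linarith
      _ ≤ k * (E * X) := mul_le_mul_of_nonneg_left hX hk.le
      _ = k * E * X := by ring
  have R5 : R (k / c * E) x5 ((a + S) / (c * X)) := by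
    have h1 : x5 = (a + S) / (y + c * X) := by
      rw [eq_div_iff (by positivity)]
      exact e5
    have h0 : y ≤ k / c * E * (c * X) := by
      have : k / c * E * (c * X) = k * E * X := by field_simp
      rw [this]
      exact yE
    have h2 := (R.refl (add_pos ha S0) (le_refl (0 : ℝ))).div (R.small' hcX y0.le h0)
    rw [zero_add, ← h1] at h2
    exact h2
  have k5 : x5 ≤ (a + 1) / (a * c) * E * a := by
    have h1 : x5 * (c * X) ≤ a + S := by
      have h2 : 0 < x5 * y := mul_pos h5 y0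
      have h3 : x5 * (y + c * X) = x5 * y + x5 * (c * X) := by ring
      linarith
    have h2 : a + S ≤ (a + 1) * (E * X) := by
      have := mul_le_mul_of_nonneg_left hX ha.le
      linarith
    have h3 : x5 * c * X ≤ (a + 1) * E * X := by linarith
    have h4 : x5 * c ≤ (a + 1) * E := le_of_mul_le_mul_right h3 X0
    have h5 : (a + 1) / (a * c) * E * a = (a + 1) * E / c := by field_simp
    rw [h5, le_div_iff₀ hc]
    exact h4
  -- y
  have yS : y ≤ 2 * k * E * S := by
    have h1 : y * X ≤ 2 * k * E * S * X := by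
      calc y * X ≤ k * (S * (1 + S)) := hyX
        _ ≤ k * (S * (2 * (E * X))) := by gcongr
        _ = 2 * k * E * S * X := by ring
    exact le_of_mul_le_mul_right h1 X0
  -- x6
  have R6 : R (((a + k) / a + 2 * c * k) * E) x6 (a / S) := by
    have h1 : x6 = (a + x4) / (S + c * y) := by
      rw [eq_div_iff (by positivity)]
      exact e6
    have h2 : x4 ≤ (a + k) / a * E * a := by
      have : (a + k) / a * E * a = (a + k) * E := by field_simp
      rw [this]
      exact k4E
    have h3 : c * y ≤ 2 * c * k * E * S := by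
      calc c * y ≤ c * (2 * k * E * S) := mul_le_mul_of_nonneg_left yS hc.le
        _ = 2 * c * k * E * S := by ring
    have h4 := (R.small ha h4.le h2).div (R.small S0 hcy.le h3)
    rw [← h1] at h4
    refine h4.mono (le_of_eq ?_)
    ring
  -- x7
  have R7 : R (((a + 1) / (a * c) + (a + k) / c) * E) x7 (a / (c * S)) := by
    have h1 : x7 = (a + x5) / (x4 + c * S) := by
      rw [eq_div_iff (by positivity)]
      exact e7
    have h3 : x4 ≤ (a + k) / c * E * (c * S) := by
      have : (a + k) / c * E * (c * S) = (a + k) * E * S := by field_simp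
      rw [this]
      exact k4S
    have h4 := (R.small ha h5.le k5).div (R.small' hcS h4.le h3)
    rw [← h1] at h4
    refine h4.mono (le_of_eq ?_)
    ring
  -- x8
  refine ⟨R5, R6, R7, ?_⟩
  have h1 : x8 = (a + x6) / (x5 + c * x4) := by
    rw [eq_div_iff (by positivity)]
    exact e8
  have hn : R (((a + k) / a + 2 * c * k) * E) (a + x6) (a + a / S) := (R.refl ha (by positivity)).add R6
  have hd1 : R ((k / c + 2 * c * k) * E) (x5 + c * x4) ((a + S) / (c * X) + c * ((a + y) / X)) := by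
    refine (R5.mono ?_).add ((R4.const_mul hc).mono ?_)
    · have : 0 < 2 * c * k * E := by positivity
      linarith
    · have : 0 < k / c * E := by positivity
      linarith
  have hd2 : R (2 * k * c ^ 2 * E) (S + a * (1 + c ^ 2) + c ^ 2 * y) (S + a * (1 + c ^ 2)) := by
    refine R.small (by positivity) (by positivity) ?_
    calc c ^ 2 * y ≤ c ^ 2 * (2 * k * E * S) := mul_le_mul_of_nonneg_left yS hc2.le
      _ = 2 * k * c ^ 2 * E * S := by ring
      _ ≤ 2 * k * c ^ 2 * E * (S + a * (1 + c ^ 2)) := by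
          refine mul_le_mul_of_nonneg_left ?_ (by positivity)
          linarith
  have hd3 : R (2 * k * c ^ 2 * E) ((a + S) / (c * X) + c * ((a + y) / X))
      ((S + a * (1 + c ^ 2)) / (c * X)) := by
    have h2 := hd2.div (R.refl hcX (le_refl (0 : ℝ)))
    rw [add_zero] at h2
    have h3 : (S + a * (1 + c ^ 2) + c ^ 2 * y) / (c * X) = (a + S) / (c * X) + c * ((a + y) / X) := by
      field_simp
      ring
    rw [h3] at h2
    exact h2
  have hv : (a + a / S) / ((S + a * (1 + c ^ 2)) / (c * X)) =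
      a * c * X * (1 + S) / (S * (S + a * (1 + c ^ 2))) := by
    field_simp
    ring
  rw [h1, ← hv]
  refine (hn.div (hd1.trans hd3)).mono (le_of_eq ?_)
  ring

theorem mid524 {a c : ℝ} (ha : 0 < a) (hc : 0 < c) (K : ℝ) : ∃ C : ℝ, 0 < C ∧
    ∀ (x : ℕ → ℝ) (n : ℕ) (E : ℝ), Eq524 a c x → Sz524 x n E → In524 K x n →
      Mid524 a c (C * E) x n (x (n + 1)) (x (n + 3)) := by
  obtain ⟨k, hkd⟩ : ∃ k : ℝ, k = |K| + 1 := ⟨_, rfl⟩
  have hk : 0 < k := by rw [hkd]; positivity
  have hKk : K ≤ k := by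
    rw [hkd]
    linarith [le_abs_self K]
  have p1 : 0 < k / c := by positivity
  have p2 : 0 < (a + k) / a + 2 * c * k := by positivity
  have p3 : 0 < (a + 1) / (a * c) + (a + k) / c := by positivity
  have p4 : 0 < (a + k) / a + 2 * c * k + (k / c + 2 * c * k + 2 * k * c ^ 2) := by positivity
  refine ⟨k / c + ((a + k) / a + 2 * c * k) + ((a + 1) / (a * c) + (a + k) / c) +
    ((a + k) / a + 2 * c * k + (k / c + 2 * c * k + 2 * k * c ^ 2)), by positivity, ?_⟩
  intro x n E hx hs hin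
  have X0 := hx.pos (n + 1)
  have S0 := hx.pos (n + 3)
  have E0 : 0 < E := by
    by_contra h
    push Not at h
    have h1 := mul_nonpos_of_nonpos_of_nonneg h X0.le
    linarith [hs.hX]
  have hT : x n ≤ k * (1 + x (n + 3)) :=
    hin.t.trans (mul_le_mul_of_nonneg_right hKk (by positivity))
  have hy : x (n + 2) ≤ k := hin.y.trans hKk
  have hyX : x (n + 2) * x (n + 1) ≤ k * (x (n + 3) * (1 + x (n + 3))) :=
    hin.z.trans (mul_le_mul_of_nonneg_right hKk (by positivity))
  have e4 : x (n + 4) * (x (n + 1) + c * x n) = a + x (n + 2) := hx.eq n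
  have e5 : x (n + 5) * (x (n + 2) + c * x (n + 1)) = a + x (n + 3) := hx.eq (n + 1)
  have e6 : x (n + 6) * (x (n + 3) + c * x (n + 2)) = a + x (n + 4) := hx.eq (n + 2)
  have e7 : x (n + 7) * (x (n + 4) + c * x (n + 3)) = a + x (n + 5) := hx.eq (n + 3)
  have e8 : x (n + 8) * (x (n + 5) + c * x (n + 4)) = a + x (n + 6) := hx.eq (n + 4)
  obtain ⟨r5, r6, r7, r8⟩ := mid_aux ha hc hk (hx.pos n) X0 (hx.pos (n + 2)) S0 (hx.pos (n + 4))
    (hx.pos (n + 5)) e4 e5 e6 e7 e8 E0 hs.hX hs.hS hs.hi hT hy hyX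
  refine ⟨r5.mono ?_, r6.mono ?_, r7.mono ?_, r8.mono ?_⟩
  · exact mul_le_mul_of_nonneg_right (by linarith) E0.le
  · exact mul_le_mul_of_nonneg_right (by linarith) E0.le
  · exact mul_le_mul_of_nonneg_right (by linarith) E0.le
  · exact mul_le_mul_of_nonneg_right (by linarith) E0.le

end Pool.Agent.H78.K4
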