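import Pool.Agent.H78.K4.Pot

/-!
# The inequality behind the potential

Put `S = exp s`, `ℓ = log r`; `Af p q s = log ((S + p) / (S + q))` lies between `0` and
`log (p / q) = ℓ - η`, tends to `ℓ - η` for `S → 0` and to `0` for `S → ∞`; and
`hf K (s + ℓ) - hf K s = log ((S + K / r) / (S + K)) = -ℓ + log ((r S + K) / (S + K))`.
* `f_gt` (`ℓ > 0`, `0 < l ≤ 1/4`): choose `S0` with `Af ≤ l ℓ / 2` for `S ≥ S0`; there the second
  bracket is `≤ 0`, so the sum is `≤ -l ℓ / 2`. For `S ≤ S0` the bracket is at most
  `-ℓ + (r - 1) S0 / K`, small error for `K` large; if `p ≥ q` then `Af ≤ ℓ - η` and the sum is at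
  most `ℓ - η - l ℓ - (1 - 2 l) ℓ + small = l ℓ - η + small ≤ -η / 2 + small`; if `p < q` then
  `Af ≤ 0` and the sum is at most `-(1 - l) ℓ + small`.
* `f_lt` (`ℓ < 0`, `-1/4 ≤ l < 0`, `l ℓ > 0`, `p < q`): choose `S1` with `Af ≤ ℓ - η + η / 4` for
  `S ≤ S1`; the bracket is at most `-ℓ`; the sum is at most
  `ℓ - 3 η / 4 - l ℓ - (1 - 2 l) ℓ = l ℓ - 3 η / 4 ≤ -η / 4`. For `S ≥ S1`: `Af ≤ 0` and the bracket
  is at most `K (1 / r - 1) / S1`, at most `l ℓ / (2 (1 - 2 l))` for `K` small; the sum is at most
  `-l ℓ / 2`.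
-/

namespace Pool.Agent.H78.K4

open Real

private theorem af_pq_x {p q r η : ℝ} (hq : 0 < q) (hr : 0 < r) (hpq : p = q * r * exp (-η)) :
    log (p / q) = log r - η := by
  have e : p / q = r * exp (-η) := by
    rw [hpq]
    field_simp
  rw [e, log_mul hr.ne' (exp_pos _).ne', log_exp]
  ring

private theorem af_nonpos_x {p q : ℝ} (hp : 0 < p) (hq : 0 < q) (h : p ≤ q) (s : ℝ) : Af p q s ≤ 0 := by
  have hS := exp_pos s
  unfold Af
  refine log_nonpos (by positivity) ?_
  rw [div_le_one (by positivity)]
  linarith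

private theorem hf_shift_x {K r : ℝ} (hr : 0 < r) (s : ℝ) :
    hf K (s + log r) = log (1 + K * (exp (-s) / r)) := by
  unfold hf
  rw [neg_add, exp_add, exp_neg (log r), exp_log hr, div_eq_mul_inv]

theorem f_gt {p q r η l : ℝ} (hp : 0 < p) (hq : 0 < q) (hr : 1 < r) (hη : 0 < η)
    (hpq : p = q * r * exp (-η)) (h0 : 0 < l) (h1 : l ≤ 1 / 4) (h2 : l * log r ≤ η / 2) :
    ∃ K > 0, ∃ δ > 0, ∀ s : ℝ,
      Af p q s - l * log r + (1 - 2 * l) * (hf K (s + log r) - hf K s) ≤ -δ := by
  have hl : 0 < log r := log_pos hr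
  have hr0 : 0 < r := by linarith
  have hlog := af_pq_x hq hr0 hpq
  have hll : 0 < l * log r := mul_pos h0 hl
  obtain ⟨S0, hS0, hS0'⟩ : ∃ S0 : ℝ, 0 < S0 ∧ |p - q| ≤ l * log r / 2 * S0 := by
    refine ⟨2 * |p - q| / (l * log r) + 1, by positivity, ?_⟩
    have e : l * log r / 2 * (2 * |p - q| / (l * log r) + 1) = |p - q| + l * log r / 2 := by
      field_simp
    rw [e]
    linarith
  obtain ⟨ε, hε, hε1, hε2⟩ : ∃ ε : ℝ, 0 < ε ∧ ε ≤ η / 4 ∧ ε ≤ log r / 2 :=
    ⟨min (η / 4) (log r / 2), lt_min (by positivity) (by positivity), min_le_left _ _, min_le_right _ _⟩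
  obtain ⟨K, hK, hK'⟩ : ∃ K : ℝ, 0 < K ∧ (r - 1) * S0 = K * ε := by
    have h3 : 0 < r - 1 := by linarith
    refine ⟨(r - 1) * S0 / ε, by positivity, ?_⟩
    field_simp
  refine ⟨K, hK, min (l * log r / 2) (min (η / 4) (log r / 4)),
    lt_min (by positivity) (lt_min (by positivity) (by positivity)), fun s => ?_⟩
  have hS : 0 < exp s := exp_pos s
  have hE : 0 < exp (-s) := exp_pos (-s)
  have hSE : exp s * exp (-s) = 1 := by rw [← exp_add, add_neg_cancel, exp_zero]
  rw [hf_shift_x hr0]
  have m1 := min_le_left (l * log r / 2) (min (η / 4) (log r / 4))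
  have m2 := (min_le_right (l * log r / 2) (min (η / 4) (log r / 4))).trans (min_le_left _ _)
  have m3 := (min_le_right (l * log r / 2) (min (η / 4) (log r / 4))).trans (min_le_right _ _)
  rcases le_total S0 (exp s) with hc | hc
  · -- large `S`
    have a1 : Af p q s ≤ l * log r / 2 := by
      unfold Af
      have h3 : log ((exp s + p) / (exp s + q)) ≤ (exp s + p) / (exp s + q) - 1 :=
        log_le_sub_one_of_pos (by positivity)
      have h4 : (exp s + p) / (exp s + q) - 1 ≤ l * log r / 2 := by
        rw [sub_le_iff_le_add, div_le_iff₀ (by positivity)]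
        have h5 : p - q ≤ |p - q| := le_abs_self _
        have h6 : l * log r / 2 * S0 ≤ l * log r / 2 * exp s :=
          mul_le_mul_of_nonneg_left hc (by positivity)
        have h7 : 0 ≤ l * log r / 2 * q := by positivity
        linarith
      linarith
    have a2 : log (1 + K * (exp (-s) / r)) - hf K s ≤ 0 := by
      unfold hf
      have h3 : exp (-s) / r ≤ exp (-s) := div_le_self hE.le hr.le
      have h4 : log (1 + K * (exp (-s) / r)) ≤ log (1 + K * exp (-s)) :=
        log_le_log (by positivity) (by nlinarith)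
      linarith
    have a3 : (1 - 2 * l) * (log (1 + K * (exp (-s) / r)) - hf K s) ≤ 0 :=
      mul_nonpos_of_nonneg_of_nonpos (by linarith) a2
    linarith
  · -- small `S`
    have a2 : log (1 + K * (exp (-s) / r)) - hf K s ≤ -log r + ε := by
      unfold hf
      have e1 : log (1 + K * (exp (-s) / r)) + log r - log (1 + K * exp (-s)) =
          log ((r + K * exp (-s)) / (1 + K * exp (-s))) := by
        rw [log_div (by positivity) (by positivity), ← log_mul (by positivity) hr0.ne']
        congr 2
        field_simp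
      have e2 : log ((r + K * exp (-s)) / (1 + K * exp (-s))) ≤
          (r + K * exp (-s)) / (1 + K * exp (-s)) - 1 := log_le_sub_one_of_pos (by positivity)
      have e3 : (r + K * exp (-s)) / (1 + K * exp (-s)) - 1 ≤ ε := by
        rw [sub_le_iff_le_add, div_le_iff₀ (by positivity)]
        have h3 : (r - 1) * exp s ≤ K * ε := by
          rw [← hK']
          exact mul_le_mul_of_nonneg_left hc (by linarith)
        have h4 : (r - 1) * exp s * exp (-s) ≤ K * ε * exp (-s) :=
          mul_le_mul_of_nonneg_right h3 hE.le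
        rw [mul_assoc, hSE, mul_one] at h4
        nlinarith
      linarith
    have a3 : (1 - 2 * l) * (log (1 + K * (exp (-s) / r)) - hf K s) ≤
        -(log r) + 2 * (l * log r) + ε := by
      have h3 : (1 - 2 * l) * (log (1 + K * (exp (-s) / r)) - hf K s) ≤ (1 - 2 * l) * (-log r + ε) :=
        mul_le_mul_of_nonneg_left a2 (by linarith)
      have h4 : 0 ≤ l * ε := by positivity
      nlinarith
    rcases le_total q p with hqp | hqp
    · have a1 : Af p q s ≤ log r - η := by
        rw [← hlog]
        unfold Af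
        refine log_le_log (by positivity) ?_
        rw [div_le_div_iff₀ (by positivity) hq]
        nlinarith
      linarith
    · have a1 := af_nonpos_x hp hq hqp s
      have h3 : l * log r ≤ 1 / 4 * log r := mul_le_mul_of_nonneg_right h1 hl.le
      linarith

theorem f_lt {p q r η l : ℝ} (hp : 0 < p) (hq : 0 < q) (hr0 : 0 < r) (hr : r < 1) (hη : 0 < η)
    (hpq : p = q * r * exp (-η)) (h0 : l < 0) (h1 : -(1 / 4) ≤ l) (h2 : l * log r ≤ η / 2) :
    ∃ K > 0, ∃ δ > 0, ∀ s : ℝ,
      Af p q s - l * log r + (1 - 2 * l) * (hf K (s + log r) - hf K s) ≤ -δ := by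
  have hl : log r < 0 := log_neg hr0 hr
  have hlog := af_pq_x hq hr0 hpq
  have hll : 0 < l * log r := mul_pos_of_neg_of_neg h0 hl
  have hltq : p < q := by
    have h3 : r * exp (-η) < 1 := by
      have h4 : exp (-η) < 1 := by
        rw [exp_lt_one_iff]
        linarith
      have h5 := exp_pos (-η)
      nlinarith
    have h6 : q * (r * exp (-η)) < q * 1 := mul_lt_mul_of_pos_left h3 hq
    rw [hpq]
    linarith
  have hd : 0 < q - p := by linarith
  obtain ⟨S1, hS1, hS1'⟩ : ∃ S1 : ℝ, 0 < S1 ∧ S1 * (q - p) = η / 4 * (p * q) := by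
    refine ⟨η / 4 * (p * q) / (q - p), by positivity, ?_⟩
    field_simp
  obtain ⟨K, hK, hK'⟩ : ∃ K : ℝ, 0 < K ∧ (1 - 2 * l) * K = l * log r / 2 * (r * S1) := by
    have h3 : 0 < 1 - 2 * l := by linarith
    refine ⟨l * log r / 2 * (r * S1) / (1 - 2 * l), by positivity, ?_⟩
    field_simp
  refine ⟨K, hK, min (l * log r / 2) (η / 4), lt_min (by positivity) (by positivity), fun s => ?_⟩
  have hS : 0 < exp s := exp_pos s
  have hE : 0 < exp (-s) := exp_pos (-s)
  have hSE : exp s * exp (-s) = 1 := by rw [← exp_add, add_neg_cancel, exp_zero]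
  rw [hf_shift_x hr0]
  have m1 := min_le_left (l * log r / 2) (η / 4)
  have m2 := min_le_right (l * log r / 2) (η / 4)
  have h12 : 0 < 1 - 2 * l := by linarith
  rcases le_total (exp s) S1 with hc | hc
  · -- small `S`
    have a1 : Af p q s ≤ log r - η + η / 4 := by
      unfold Af
      have e1 : log ((exp s + p) / (exp s + q)) =
          log (p / q) + log ((exp s + p) * q / ((exp s + q) * p)) := by
        rw [← log_mul (by positivity) (by positivity)]
        congr 1
        field_simp
      have e2 : log ((exp s + p) * q / ((exp s + q) * p)) ≤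
          (exp s + p) * q / ((exp s + q) * p) - 1 := log_le_sub_one_of_pos (by positivity)
      have e3 : (exp s + p) * q / ((exp s + q) * p) - 1 ≤ η / 4 := by
        rw [sub_le_iff_le_add, div_le_iff₀ (by positivity)]
        have h3 : exp s * (q - p) ≤ η / 4 * (p * q) := by
          rw [← hS1']
          exact mul_le_mul_of_nonneg_right hc hd.le
        have h4 : 0 ≤ η / 4 * (exp s * p) := by positivity
        nlinarith
      rw [e1, hlog]
      linarith
    have a2 : log (1 + K * (exp (-s) / r)) - hf K s ≤ -log r := by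
      unfold hf
      have e1 : log (1 + K * (exp (-s) / r)) ≤ log ((1 + K * exp (-s)) / r) := by
        refine log_le_log (by positivity) ?_
        rw [le_div_iff₀ hr0]
        have : (1 + K * (exp (-s) / r)) * r = r + K * exp (-s) := by field_simp
        rw [this]
        linarith
      rw [log_div (by positivity) hr0.ne'] at e1
      linarith
    have a3 : (1 - 2 * l) * (log (1 + K * (exp (-s) / r)) - hf K s) ≤ (1 - 2 * l) * (-log r) :=
      mul_le_mul_of_nonneg_left a2 h12.le
    nlinarith
  · -- large `S`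
    have a1 := af_nonpos_x hp hq hltq.le s
    have a2 : log (1 + K * (exp (-s) / r)) - hf K s ≤ K * (exp (-s) / r) := by
      unfold hf
      have e1 : log (1 + K * (exp (-s) / r)) ≤ 1 + K * (exp (-s) / r) - 1 :=
        log_le_sub_one_of_pos (by positivity)
      have e2 : 0 ≤ log (1 + K * exp (-s)) := log_nonneg (by
        have : 0 < K * exp (-s) := by positivity
        linarith)
      linarith
    have a3 : (1 - 2 * l) * (log (1 + K * (exp (-s) / r)) - hf K s) ≤
        (1 - 2 * l) * (K * (exp (-s) / r)) := mul_le_mul_of_nonneg_left a2 h12.le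
    have a4 : (1 - 2 * l) * (K * (exp (-s) / r)) ≤ l * log r / 2 := by
      rw [← mul_assoc, hK', ← mul_div_assoc, div_le_iff₀ hr0]
      have h3 : S1 * exp (-s) ≤ 1 := by
        rw [← hSE]
        exact mul_le_mul_of_nonneg_right hc hE.le
      have h4 : l * log r / 2 * r * (S1 * exp (-s)) ≤ l * log r / 2 * r * 1 :=
        mul_le_mul_of_nonneg_left h3 (by positivity)
      linarith
    linarith

end Pool.Agent.H78.K4
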