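import Pool.Agent.H78.K4.PotF

/-!
# The potential for the cycles, `r < 1`

Put `ℓ = log r`, `l = sign ℓ * min (η / (2 |ℓ|)) (1/4)`, so `0 < l * ℓ ≤ η / 2`; `θ = 1 - 2 l`;
take `K`, `δ` from `f_gt` / `f_lt` (the `δ` there is called `4 δ` here);
`V1 M s = M - l s + θ * hf K s`, `V2 M s = (1 - l) M + l s`.
* `near`: `hf K s = max 0 (-s) + O(1)` (`log (1 + K e^{-s}) ≤ max 0 (-s) + log (1 + K)`, and
  `≥ max 0 (-s) - |log K|`).
* Let `κ` be a constant with `g ≤ ε` for `s ≤ M/2 - κ` and `g ≥ η - ε` for `s ≥ M/2 + κ` (`GP`).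
* `V1 M' s' ≤ V1 M s - 2 δ`: region (I) `s ≤ M/2 - κ`: `g ≤ ε`, `hf K` is 1-Lipschitz, so the
  difference is at most `Af - l ℓ + θ (hf K (s + ℓ) - hf K s) + O(ε) ≤ -4 δ + O(ε)`.
  Region (II) `s ≥ M/2 - κ`: `s` is large, `Af ≤ ε`, `hf K s' ≤ ε` (`s' ≥ s - |ℓ| - η - ε`),
  `hf K s ≥ 0`; the difference is at most `Af - g - l (ℓ - g) + O(ε) = Af - (1 - l) g - l ℓ + O(ε)
  ≤ -l ℓ + O(ε)`.
* `V2 M' s' - V2 M s = (1 - l) Af - g + l ℓ + O(ε)` is at most a constant `C8` for all `M`, `s`, and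
  at most `-η/2 + O(ε)` for `s ≥ M/2 + κ` (there `Af ≤ ε`).
* `r > 1`: `V = max V1 (V2 - C0)` with `C0 ≥ 2 l κ + C8 + δ`: if `s ≥ M/2 + κ` both parts decrease;
  otherwise `V2 M s ≤ V1 M s + 2 l κ` and so `V2 M' s' - C0 ≤ V1 M s - δ`.
* `r < 1` (`l < 0`): `V = min V1 (V2 + 3 max 0 (-s) + C0)` with
  `C0 ≥ 2 |l| κ + θ log (1 + K) + …`: if the minimum is `V1` nothing is to be shown besides
  `V1 M' s' ≤ V1 M s - δ`; if the second part is smaller than `V1`, then `s ≥ 0` and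
  `s ≥ M/2 + κ` (compare the two expressions), `s' ≥ 0`, and the second part decreases.
-/

namespace Pool.Agent.H78.K4

open Real

private theorem hf_nonneg {K : ℝ} (hK : 0 < K) (s : ℝ) : 0 ≤ hf K s := by
  unfold hf
  apply log_nonneg
  have : 0 < K * exp (-s) := mul_pos hK (exp_pos _)
  linarith

private theorem hf_le {K : ℝ} (hK : 0 < K) (s : ℝ) : hf K s ≤ K * exp (-s) := by
  unfold hf
  have h1 : 0 < K * exp (-s) := mul_pos hK (exp_pos _)
  have h2 := log_le_sub_one_of_pos (show 0 < 1 + K * exp (-s) by linarith)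
  linarith

private theorem hf_anti {K : ℝ} (hK : 0 < K) {s t : ℝ} (h : s ≤ t) : hf K t ≤ hf K s := by
  unfold hf
  have h1 : 0 < K * exp (-t) := mul_pos hK (exp_pos _)
  apply log_le_log (by linarith)
  have h2 : exp (-t) ≤ exp (-s) := exp_le_exp.2 (by linarith)
  have h3 := mul_le_mul_of_nonneg_left h2 hK.le
  linarith

private theorem hf_lip {K : ℝ} (hK : 0 < K) (s : ℝ) {t : ℝ} (ht : 0 ≤ t) :
    hf K (s - t) ≤ hf K s + t := by
  unfold hf
  have h1 : 0 < K * exp (-s) := mul_pos hK (exp_pos _)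
  have h2 : 0 < K * exp (-(s - t)) := mul_pos hK (exp_pos _)
  have h3 : exp (-(s - t)) = exp (-s) * exp t := by
    rw [← exp_add]
    congr 1
    ring
  have h4 : 1 ≤ exp t := one_le_exp ht
  have h5 : 1 + K * exp (-(s - t)) ≤ (1 + K * exp (-s)) * exp t := by
    rw [h3]
    nlinarith
  calc log (1 + K * exp (-(s - t))) ≤ log ((1 + K * exp (-s)) * exp t) :=
        log_le_log (by linarith) h5
    _ = log (1 + K * exp (-s)) + t := by
        rw [log_mul (by positivity) (exp_pos _).ne', log_exp]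

private theorem hf_near {K : ℝ} (hK : 0 < K) (s : ℝ) :
    |hf K s - max 0 (-s)| ≤ log (1 + K) + |log K| := by
  have hL : 0 ≤ log (1 + K) := log_nonneg (by linarith)
  have ha := abs_nonneg (log K)
  rcases le_total 0 s with hs | hs
  · rw [max_eq_left (by linarith), sub_zero, abs_of_nonneg (hf_nonneg hK s)]
    have h1 := hf_anti hK hs
    have h2 : hf K 0 = log (1 + K) := by
      unfold hf
      rw [neg_zero, exp_zero, mul_one]
    linarith
  · rw [max_eq_right (by linarith)]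
    have h1 := hf_lip hK 0 (t := -s) (by linarith)
    have h2 : hf K 0 = log (1 + K) := by
      unfold hf
      rw [neg_zero, exp_zero, mul_one]
    rw [zero_sub, neg_neg, h2] at h1
    have h3 : log K - s ≤ hf K s := by
      unfold hf
      have h4 : log K - s = log (K * exp (-s)) := by
        rw [log_mul hK.ne' (exp_pos _).ne', log_exp]
        ring
      rw [h4]
      exact log_le_log (mul_pos hK (exp_pos _)) (by linarith)
    have h5 := neg_abs_le (log K)
    rw [abs_le]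
    constructor <;> linarith

private theorem Af_nonpos {p q : ℝ} (hp : 0 < p) (hpq : p ≤ q) (s : ℝ) : Af p q s ≤ 0 := by
  unfold Af
  have h1 : 0 < exp s := exp_pos s
  apply log_nonpos
  · apply div_nonneg <;> linarith
  · rw [div_le_one (by linarith)]
    linarith

theorem potT_lt {p q r η : ℝ} (hp : 0 < p) (hq : 0 < q) (hr0 : 0 < r) (hr : r < 1) (hη : 0 < η)
    (hpq : p = q * r * exp (-η)) {g : ℝ → ℝ → ℝ} (hg : GP η g) :
    ∃ l, l < 0 ∧ -(1 / 4) ≤ l ∧ ∃ ε > 0, ∃ δ > 0, ∃ (m B : ℝ) (V : ℝ → ℝ → ℝ),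
      PotT p q (log r) g (Plt l) ε δ m B V := by
  obtain ⟨ℓ, hℓ⟩ : ∃ ℓ, ℓ = log r := ⟨_, rfl⟩
  have hℓ0 : ℓ < 0 := by rw [hℓ]; exact log_neg hr0 hr
  have hpq' : p ≤ q := by
    have h1 : exp (-η) ≤ 1 := by rw [← exp_zero]; exact exp_le_exp.2 (by linarith)
    have h2 : 0 < exp (-η) := exp_pos _
    have h3 : r * exp (-η) ≤ 1 := by nlinarith
    rw [hpq]
    nlinarith
  obtain ⟨l, hl0, hl1, hl2⟩ : ∃ l : ℝ, l < 0 ∧ -(1 / 4) ≤ l ∧ l * ℓ ≤ η / 2 := by
    have h1 : 0 < η / (2 * (-ℓ)) := div_pos hη (by linarith)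
    refine ⟨-min (η / (2 * (-ℓ))) (1 / 4), ?_, ?_, ?_⟩
    · have := lt_min h1 (show (0 : ℝ) < 1 / 4 by norm_num)
      linarith
    · have := min_le_right (η / (2 * (-ℓ))) (1 / 4)
      linarith
    · have hℓne : ℓ ≠ 0 := hℓ0.ne
      have h2 := min_le_left (η / (2 * (-ℓ))) (1 / 4)
      have h3 := mul_le_mul_of_nonneg_right h2 (show 0 ≤ -ℓ by linarith)
      have h4 : η / (2 * (-ℓ)) * (-ℓ) = η / 2 := by
        field_simp
      linarith
  have hlℓ : 0 < l * ℓ := mul_pos_of_neg_of_neg hl0 hℓ0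
  obtain ⟨K, hK, δ₀, hδ₀, hf0⟩ := f_lt hp hq hr0 hr hη hpq hl0 hl1 (by rw [← hℓ]; exact hl2)
  rw [← hℓ] at hf0
  obtain ⟨a, ha0, ha1, ha2, ha3⟩ : ∃ a : ℝ, 0 < a ∧ a ≤ δ₀ ∧ a ≤ l * ℓ ∧ a ≤ η :=
    ⟨min δ₀ (min (l * ℓ) η), lt_min hδ₀ (lt_min hlℓ hη), min_le_left _ _,
      (min_le_right _ _).trans (min_le_left _ _), (min_le_right _ _).trans (min_le_right _ _)⟩
  obtain ⟨ε, hε⟩ : ∃ ε, ε = a / 16 := ⟨_, rfl⟩
  have hε0 : 0 < ε := by rw [hε]; linarith
  obtain ⟨κs, hκs⟩ := hg.small ε hε0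
  obtain ⟨κl, hκl⟩ := hg.large ε hε0
  obtain ⟨Bh, hBh⟩ : ∃ Bh, Bh = log (1 + K) + |log K| := ⟨_, rfl⟩
  have hnear : ∀ s, |hf K s - max 0 (-s)| ≤ Bh := by
    intro s
    rw [hBh]
    exact hf_near hK s
  have hBh0 : 0 ≤ Bh := (abs_nonneg _).trans (hnear 0)
  obtain ⟨C0, hC0⟩ : ∃ C0, C0 = (1 - 2 * l) * Bh + 2 * (-l) * |κl| := ⟨_, rfl⟩
  obtain ⟨s0, hs0⟩ : ∃ s0, s0 = log (K / ε) := ⟨_, rfl⟩
  have hs0' : K * exp (-s0) = ε := by
    rw [hs0, exp_neg, exp_log (div_pos hK hε0)]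
    field_simp
  obtain ⟨m, hm⟩ : ∃ m, m = max 0 (max (2 * (s0 + κs - ℓ + η + ε)) (2 * (-κl - ℓ + η + ε))) :=
    ⟨_, rfl⟩
  have hm0 : 0 ≤ m := by rw [hm]; exact le_max_left _ _
  have hm1 : 2 * (s0 + κs - ℓ + η + ε) ≤ m := by
    rw [hm]; exact (le_max_left _ _).trans (le_max_right _ _)
  have hm2 : 2 * (-κl - ℓ + η + ε) ≤ m := by
    rw [hm]; exact (le_max_right _ _).trans (le_max_right _ _)
  refine ⟨l, hl0, hl1, ε, hε0, a / 4, by linarith, m, max ((1 - 2 * l) * Bh) |C0|,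
    fun M s => min (M - l * s + (1 - 2 * l) * hf K s)
      ((1 - l) * M + l * s + 3 * max 0 (-s) + C0), ⟨?_, ?_⟩⟩
  · intro M s hM
    unfold Plt
    refine (abs_min_sub_min_le_max _ _ _ _).trans (max_le_max ?_ ?_)
    · have h1 : M - l * s + (1 - 2 * l) * hf K s - (M - l * s + (1 - 2 * l) * max 0 (-s)) =
          (1 - 2 * l) * (hf K s - max 0 (-s)) := by ring
      rw [h1, abs_mul, abs_of_pos (show 0 < 1 - 2 * l by linarith)]
      exact mul_le_mul_of_nonneg_left (hnear s) (by linarith)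
    · have h1 : (1 - l) * M + l * s + 3 * max 0 (-s) + C0 -
          ((1 - l) * M + l * s + 3 * max 0 (-s)) = C0 := by ring
      rw [h1]
  · intro M s M' s' hM hs h1 h2
    rw [← hℓ] at h2
    have hD := Af_nonpos hp hpq' s
    have hG0 := hg.nonneg M s
    have hG1 := hg.le M s
    have h3 := hf0 s
    obtain ⟨D, hDD⟩ : ∃ D, D = Af p q s := ⟨_, rfl⟩
    obtain ⟨G, hGG⟩ : ∃ G, G = g M s := ⟨_, rfl⟩
    rw [← hDD] at hD h1 h3
    rw [← hGG] at hG0 hG1 h1 h2
    have h1' := (abs_le.1 h1).2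
    have h2a := (abs_le.1 h2).1
    have h2b := (abs_le.1 h2).2
    have hV1 : M' - l * s' + (1 - 2 * l) * hf K s' ≤
        M - l * s + (1 - 2 * l) * hf K s - a / 4 := by
      have h4 : -l * (s' - s) ≤ -l * (ℓ - G + ε) :=
        mul_le_mul_of_nonneg_left (by linarith) (by linarith)
      rcases le_total s (M / 2 - κs) with hI | hII
      · have h5 : G ≤ ε := by rw [hGG]; exact hκs M s hI
        have h6 : hf K s' ≤ hf K (s + ℓ) + (G + ε) :=
          (hf_anti hK (show s + ℓ - (G + ε) ≤ s' by linarith)).trans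
            (hf_lip hK (s + ℓ) (by linarith))
        have h7 := mul_le_mul_of_nonneg_left h6 (show 0 ≤ 1 - 2 * l by linarith)
        have h8 : -l * G ≤ 1 / 4 * ε := mul_le_mul (by linarith) h5 hG0 (by norm_num)
        have h9 : -l * ε ≤ 1 / 4 * ε := mul_le_mul_of_nonneg_right (by linarith) hε0.le
        linarith
      · have h5 : s0 ≤ s' := by linarith
        have h6 : hf K s' ≤ ε :=
          (hf_anti hK h5).trans ((hf_le hK s0).trans hs0'.le)
        have h7 := mul_le_mul_of_nonneg_left h6 (show 0 ≤ 1 - 2 * l by linarith)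
        have h8 := mul_nonneg (show 0 ≤ 1 - 2 * l by linarith) (hf_nonneg hK s)
        have h9 : -l * ε ≤ 1 / 4 * ε := mul_le_mul_of_nonneg_right (by linarith) hε0.le
        have h10 : 0 ≤ (1 - l) * G := mul_nonneg (by linarith) hG0
        linarith
    show min (M' - l * s' + (1 - 2 * l) * hf K s')
        ((1 - l) * M' + l * s' + 3 * max 0 (-s') + C0) ≤
      min (M - l * s + (1 - 2 * l) * hf K s) ((1 - l) * M + l * s + 3 * max 0 (-s) + C0) - a / 4
    rcases le_or_gt (M - l * s + (1 - 2 * l) * hf K s)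
      ((1 - l) * M + l * s + 3 * max 0 (-s) + C0) with hc | hc
    · rw [min_eq_left hc]
      exact (min_le_left _ _).trans hV1
    · rw [min_eq_right hc.le]
      refine (min_le_right _ _).trans ?_
      have hn := (abs_le.1 (hnear s)).2
      have hn' := mul_le_mul_of_nonneg_left (show hf K s ≤ max 0 (-s) + Bh by linarith)
        (show 0 ≤ 1 - 2 * l by linarith)
      have hM0 : 0 ≤ M := hm0.trans hM
      have hκ0 : 0 ≤ 2 * (-l) * |κl| := mul_nonneg (by linarith) (abs_nonneg _)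
      have hlM : 0 ≤ -l * M := mul_nonneg (by linarith) hM0
      have hs0 : 0 ≤ s := by
        by_contra hneg
        push Not at hneg
        rw [max_eq_right (show (0 : ℝ) ≤ -s by linarith)] at hc hn'
        linarith
      rw [max_eq_left (show -s ≤ (0 : ℝ) by linarith)] at hc hn' ⊢
      have hsM : M / 2 + κl ≤ s := by
        have h5 : 2 * (-l) * |κl| < 2 * (-l) * (s - M / 2) := by linarith
        have h6 : |κl| < s - M / 2 := lt_of_mul_lt_mul_left h5 (by linarith)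
        have h7 := le_abs_self κl
        linarith
      have hG2 : η - ε ≤ G := by rw [hGG]; exact hκl M s hsM
      have hs' : 0 ≤ s' := by linarith
      rw [max_eq_left (show -s' ≤ (0 : ℝ) by linarith)]
      have h4 : -l * (ℓ - G - ε) ≤ -l * (s' - s) :=
        mul_le_mul_of_nonneg_left (by linarith) (by linarith)
      have h5 : (1 - l) * (M' - M) ≤ (1 - l) * (D - G + ε) :=
        mul_le_mul_of_nonneg_left (by linarith) (by linarith)
      have h6 : (1 - l) * D ≤ 0 := mul_nonpos_of_nonneg_of_nonpos (by linarith) hD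
      have h9 : -l * ε ≤ 1 / 4 * ε := mul_le_mul_of_nonneg_right (by linarith) hε0.le
      linarith

end Pool.Agent.H78.K4
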