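import Pool.Agent.H78.K4.PotF

/-!
# The potential for the cycles, `r > 1`

Put `ℓ = log r`, `l = sign ℓ * min (η / (2 |ℓ|)) (1/4)`, so `0 < l * ℓ ≤ η / 2`; `θ = 1 - 2 l`;
take `K`, `δ` from `f_gt` / `f_lt` (the `δ` there is called `4 δ` here);
`V1 M s = M - l s + θ * hf K s`, `V2 M s = (1 - l) M + l s`.
* `near`: `hf K s = max 0 (-s) + O(1)` (`log (1 + K e^{-s}) ≤ max 0 (-s) + log (1 + K)`, and
  `≥ max 0 (-s) - |log K|`).
* Let `κ` be a constant with `g ≤ ε` for `s ≤ M/2 - κ` and `g ≥ η - ε` for `s ≥ M/2 + κ` (`GP`).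
* `V1 M' s' ≤ V1 M s - 2 δ`: region (I) `s ≤ M/2 - κ`: `g ≤ ε`, `hf K` is 1-Lipschitz, so the
  difference is at most `Af - l ℓ + θ (hf K (s + ℓ) - hf K s) + O(ε) ≤ -4 δ + O(ε)`.
  Region (II) `s ≥ M/2 - κ`: `s` is large, `Af ≤ ε`, `hf K s' ≤ ε` (`s' ≥ s - |ℓ| - η - ε`),
  `hf K s ≥ 0`; the difference is at most `Af - g - l (ℓ - g) + O(ε) = Af - (1 - l) g - l ℓ + O(ε)
  ≤ -l ℓ + O(ε)`.
* `V2 M' s' - V2 M s = (1 - l) Af - g + l ℓ + O(ε)` is at most a constant `C8` for all `M`, `s`, and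
  at most `-η/2 + O(ε)` for `s ≥ M/2 + κ` (there `Af ≤ ε`).
* `r > 1`: `V = max V1 (V2 - C0)` with `C0 ≥ 2 l κ + C8 + δ`: if `s ≥ M/2 + κ` both parts decrease;
  otherwise `V2 M s ≤ V1 M s + 2 l κ` and so `V2 M' s' - C0 ≤ V1 M s - δ`.
* `r < 1` (`l < 0`): `V = min V1 (V2 + 3 max 0 (-s) + C0)` with
  `C0 ≥ 2 |l| κ + θ log (1 + K) + …`: if the minimum is `V1` nothing is to be shown besides
  `V1 M' s' ≤ V1 M s - δ`; if the second part is smaller than `V1`, then `s ≥ 0` and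
  `s ≥ M/2 + κ` (compare the two expressions), `s' ≥ 0`, and the second part decreases.
-/

namespace Pool.Agent.H78.K4

open Real

private theorem hf_nonneg {K : ℝ} (hK : 0 < K) (s : ℝ) : 0 ≤ hf K s := by
  unfold hf
  apply log_nonneg
  have : 0 < K * exp (-s) := mul_pos hK (exp_pos _)
  linarith

private theorem hf_le {K : ℝ} (hK : 0 < K) (s : ℝ) : hf K s ≤ K * exp (-s) := by
  unfold hf
  have h1 : 0 < K * exp (-s) := mul_pos hK (exp_pos _)
  have h2 := log_le_sub_one_of_pos (show 0 < 1 + K * exp (-s) by linarith)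
  linarith

private theorem hf_anti {K : ℝ} (hK : 0 < K) {s t : ℝ} (h : s ≤ t) : hf K t ≤ hf K s := by
  unfold hf
  have h1 : 0 < K * exp (-t) := mul_pos hK (exp_pos _)
  apply log_le_log (by linarith)
  have h2 : exp (-t) ≤ exp (-s) := exp_le_exp.2 (by linarith)
  have h3 := mul_le_mul_of_nonneg_left h2 hK.le
  linarith

private theorem hf_lip {K : ℝ} (hK : 0 < K) (s : ℝ) {t : ℝ} (ht : 0 ≤ t) :
    hf K (s - t) ≤ hf K s + t := by
  unfold hf
  have h1 : 0 < K * exp (-s) := mul_pos hK (exp_pos _)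
  have h2 : 0 < K * exp (-(s - t)) := mul_pos hK (exp_pos _)
  have h3 : exp (-(s - t)) = exp (-s) * exp t := by
    rw [← exp_add]
    congr 1
    ring
  have h4 : 1 ≤ exp t := one_le_exp ht
  have h5 : 1 + K * exp (-(s - t)) ≤ (1 + K * exp (-s)) * exp t := by
    rw [h3]
    nlinarith
  calc log (1 + K * exp (-(s - t))) ≤ log ((1 + K * exp (-s)) * exp t) :=
        log_le_log (by linarith) h5
    _ = log (1 + K * exp (-s)) + t := by
        rw [log_mul (by positivity) (exp_pos _).ne', log_exp]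

private theorem hf_near {K : ℝ} (hK : 0 < K) (s : ℝ) :
    |hf K s - max 0 (-s)| ≤ log (1 + K) + |log K| := by
  have hL : 0 ≤ log (1 + K) := log_nonneg (by linarith)
  have ha := abs_nonneg (log K)
  rcases le_total 0 s with hs | hs
  · rw [max_eq_left (by linarith), sub_zero, abs_of_nonneg (hf_nonneg hK s)]
    have h1 := hf_anti hK hs
    have h2 : hf K 0 = log (1 + K) := by
      unfold hf
      rw [neg_zero, exp_zero, mul_one]
    linarith
  · rw [max_eq_right (by linarith)]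
    have h1 := hf_lip hK 0 (t := -s) (by linarith)
    have h2 : hf K 0 = log (1 + K) := by
      unfold hf
      rw [neg_zero, exp_zero, mul_one]
    rw [zero_sub, neg_neg, h2] at h1
    have h3 : log K - s ≤ hf K s := by
      unfold hf
      have h4 : log K - s = log (K * exp (-s)) := by
        rw [log_mul hK.ne' (exp_pos _).ne', log_exp]
        ring
      rw [h4]
      exact log_le_log (mul_pos hK (exp_pos _)) (by linarith)
    have h5 := neg_abs_le (log K)
    rw [abs_le]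
    constructor <;> linarith

private theorem Af_le {p q ℓ η : ℝ} (hp : 0 < p) (hq : 0 < q) (hℓ : 0 < ℓ) (hη : 0 < η)
    (hpq : log (p / q) = ℓ - η) (s : ℝ) : Af p q s ≤ ℓ := by
  unfold Af
  have h1 : 0 < exp s := exp_pos s
  rcases le_total q p with h | h
  · have h2 : log ((exp s + p) / (exp s + q)) ≤ log (p / q) := by
      refine log_le_log (by positivity) ?_
      rw [div_le_div_iff₀ (by positivity) hq]
      nlinarith
    linarith
  · have h2 : log ((exp s + p) / (exp s + q)) ≤ 0 := by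
      refine log_nonpos (by positivity) ?_
      rw [div_le_one (by positivity)]
      linarith
    linarith

private theorem Af_small {p q : ℝ} (hp : 0 < p) (hq : 0 < q) (s : ℝ) :
    Af p q s ≤ |p - q| * exp (-s) := by
  unfold Af
  have h1 : 0 < exp s := exp_pos s
  have h2 : 0 < exp (-s) := exp_pos (-s)
  have h3 : exp s * exp (-s) = 1 := by rw [← exp_add, add_neg_cancel, exp_zero]
  have h4 : log ((exp s + p) / (exp s + q)) ≤ (exp s + p) / (exp s + q) - 1 :=
    log_le_sub_one_of_pos (by positivity)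
  have h5 : (exp s + p) / (exp s + q) - 1 ≤ |p - q| * exp (-s) := by
    rw [sub_le_iff_le_add, div_le_iff₀ (by positivity)]
    have h6 : p - q ≤ |p - q| := le_abs_self _
    have h7 : 0 ≤ |p - q| * exp (-s) * q := by positivity
    have h8 : |p - q| * exp (-s) * exp s = |p - q| := by
      rw [mul_assoc, mul_comm (exp (-s)), h3, mul_one]
    nlinarith
  linarith

theorem potT_gt {p q r η : ℝ} (hp : 0 < p) (hq : 0 < q) (hr : 1 < r) (hη : 0 < η)
    (hpq : p = q * r * exp (-η)) {g : ℝ → ℝ → ℝ} (hg : GP η g) :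
    ∃ l, 0 < l ∧ l ≤ 1 / 4 ∧ ∃ ε > 0, ∃ δ > 0, ∃ (m B : ℝ) (V : ℝ → ℝ → ℝ),
      PotT p q (log r) g (Pgt l) ε δ m B V := by
  obtain ⟨ℓ, hℓ⟩ : ∃ ℓ, ℓ = log r := ⟨_, rfl⟩
  have hℓ0 : 0 < ℓ := by rw [hℓ]; exact log_pos hr
  have hr0 : 0 < r := by linarith
  have hlog : log (p / q) = ℓ - η := by
    have e : p / q = r * exp (-η) := by
      rw [hpq]
      field_simp
    rw [e, log_mul hr0.ne' (exp_pos _).ne', log_exp, hℓ]
    ring
  obtain ⟨l, hl0, hl1, hl2⟩ : ∃ l : ℝ, 0 < l ∧ l ≤ 1 / 4 ∧ l * ℓ ≤ η / 2 := by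
    have h1 : 0 < η / (2 * ℓ) := div_pos hη (by linarith)
    refine ⟨min (η / (2 * ℓ)) (1 / 4), lt_min h1 (by norm_num), min_le_right _ _, ?_⟩
    have hℓne : ℓ ≠ 0 := hℓ0.ne'
    have h2 := min_le_left (η / (2 * ℓ)) (1 / 4)
    have h3 := mul_le_mul_of_nonneg_right h2 hℓ0.le
    have h4 : η / (2 * ℓ) * ℓ = η / 2 := by
      field_simp
    linarith
  have hlℓ : 0 < l * ℓ := mul_pos hl0 hℓ0
  obtain ⟨K, hK, δ₀, hδ₀, hf0⟩ := f_gt hp hq hr hη hpq hl0 hl1 (by rw [← hℓ]; exact hl2)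
  rw [← hℓ] at hf0
  obtain ⟨a, ha0, ha1, ha2, ha3⟩ : ∃ a : ℝ, 0 < a ∧ a ≤ δ₀ ∧ a ≤ l * ℓ ∧ a ≤ η :=
    ⟨min δ₀ (min (l * ℓ) η), lt_min hδ₀ (lt_min hlℓ hη), min_le_left _ _,
      (min_le_right _ _).trans (min_le_left _ _), (min_le_right _ _).trans (min_le_right _ _)⟩
  obtain ⟨ε, hε⟩ : ∃ ε, ε = a / 16 := ⟨_, rfl⟩
  have hε0 : 0 < ε := by rw [hε]; linarith
  obtain ⟨κs, hκs⟩ := hg.small ε hε0
  obtain ⟨κl, hκl⟩ := hg.large ε hε0
  obtain ⟨Bh, hBh⟩ : ∃ Bh, Bh = log (1 + K) + |log K| := ⟨_, rfl⟩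
  have hnear : ∀ s, |hf K s - max 0 (-s)| ≤ Bh := by
    intro s
    rw [hBh]
    exact hf_near hK s
  obtain ⟨C0, hC0⟩ : ∃ C0, C0 = 2 * l * |κl| + (ℓ + η / 2 + ε) + a / 4 := ⟨_, rfl⟩
  obtain ⟨s0, hs0⟩ : ∃ s0, s0 = log (K / ε) := ⟨_, rfl⟩
  have hs0' : K * exp (-s0) = ε := by
    rw [hs0, exp_neg, exp_log (div_pos hK hε0)]
    field_simp
  obtain ⟨s1, hs1⟩ : ∃ s1, s1 = log ((|p - q| + 1) / ε) := ⟨_, rfl⟩
  have hpq1 : 0 < |p - q| + 1 := by positivity
  have hs1' : (|p - q| + 1) * exp (-s1) = ε := by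
    rw [hs1, exp_neg, exp_log (div_pos hpq1 hε0)]
    field_simp
  have hsm : ∀ s, s1 ≤ s → Af p q s ≤ ε := by
    intro s hs
    refine (Af_small hp hq s).trans ?_
    have h1 : exp (-s) ≤ exp (-s1) := exp_le_exp.2 (by linarith)
    have h2 : 0 < exp (-s1) := exp_pos _
    have h3 := mul_le_mul_of_nonneg_left h1 (abs_nonneg (p - q))
    linarith
  obtain ⟨m, hm⟩ : ∃ m, m = max (2 * (s0 + κs - ℓ + η + ε)) (max (2 * (s1 + κs)) (2 * (s1 - κl))) :=
    ⟨_, rfl⟩
  have hm1 : 2 * (s0 + κs - ℓ + η + ε) ≤ m := by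
    rw [hm]; exact le_max_left _ _
  have hm2 : 2 * (s1 + κs) ≤ m := by
    rw [hm]; exact (le_max_left _ _).trans (le_max_right _ _)
  have hm3 : 2 * (s1 - κl) ≤ m := by
    rw [hm]; exact (le_max_right _ _).trans (le_max_right _ _)
  refine ⟨l, hl0, hl1, ε, hε0, a / 4, by linarith, m, max ((1 - 2 * l) * Bh) |C0|,
    fun M s => max (M - l * s + (1 - 2 * l) * hf K s) ((1 - l) * M + l * s - C0), ⟨?_, ?_⟩⟩
  · intro M s hM
    unfold Pgt
    refine (abs_max_sub_max_le_max _ _ _ _).trans (max_le_max ?_ ?_)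
    · have h1 : M - l * s + (1 - 2 * l) * hf K s - (M - l * s + (1 - 2 * l) * max 0 (-s)) =
          (1 - 2 * l) * (hf K s - max 0 (-s)) := by ring
      rw [h1, abs_mul, abs_of_pos (show 0 < 1 - 2 * l by linarith)]
      exact mul_le_mul_of_nonneg_left (hnear s) (by linarith)
    · have h1 : (1 - l) * M + l * s - C0 - ((1 - l) * M + l * s) = -C0 := by ring
      rw [h1, abs_neg]
  · intro M s M' s' hM hs h1 h2
    rw [← hℓ] at h2
    have hD := Af_le hp hq hℓ0 hη hlog s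
    have hG0 := hg.nonneg M s
    have hG1 := hg.le M s
    have h3 := hf0 s
    have hDs := hsm s
    obtain ⟨D, hDD⟩ : ∃ D, D = Af p q s := ⟨_, rfl⟩
    obtain ⟨G, hGG⟩ : ∃ G, G = g M s := ⟨_, rfl⟩
    rw [← hDD] at hD h1 h3 hDs
    rw [← hGG] at hG0 hG1 h1 h2
    have h1' := (abs_le.1 h1).2
    have h2a := (abs_le.1 h2).1
    have h2b := (abs_le.1 h2).2
    have hlε : l * ε ≤ 1 / 4 * ε := mul_le_mul_of_nonneg_right hl1 hε0.le
    have hlε0 : 0 ≤ l * ε := by positivity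
    have hlG : 0 ≤ l * G := mul_nonneg hl0.le hG0
    have hV1 : M' - l * s' + (1 - 2 * l) * hf K s' ≤
        M - l * s + (1 - 2 * l) * hf K s - a / 4 := by
      have h4 : l * (ℓ - G - ε) ≤ l * (s' - s) :=
        mul_le_mul_of_nonneg_left (by linarith) hl0.le
      rcases le_total s (M / 2 - κs) with hI | hII
      · have h5 : G ≤ ε := by rw [hGG]; exact hκs M s hI
        have h6 : hf K s' ≤ hf K (s + ℓ) + (G + ε) :=
          (hf_anti hK (show s + ℓ - (G + ε) ≤ s' by linarith)).trans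
            (hf_lip hK (s + ℓ) (by linarith))
        have h7 := mul_le_mul_of_nonneg_left h6 (show 0 ≤ 1 - 2 * l by linarith)
        linarith
      · have h5 : s0 ≤ s' := by linarith
        have h6 : hf K s' ≤ ε :=
          (hf_anti hK h5).trans ((hf_le hK s0).trans hs0'.le)
        have h7 := mul_le_mul_of_nonneg_left h6 (show 0 ≤ 1 - 2 * l by linarith)
        have h8 := mul_nonneg (show 0 ≤ 1 - 2 * l by linarith) (hf_nonneg hK s)
        have h10 : 0 ≤ (1 - l) * G := mul_nonneg (by linarith) hG0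
        have h11 : D ≤ ε := hDs (by linarith)
        linarith
    have hV2 : (1 - l) * M' + l * s' ≤ (1 - l) * M + l * s + ((1 - l) * D - G + l * ℓ + ε) := by
      have h5 : (1 - l) * (M' - M) ≤ (1 - l) * (D - G + ε) :=
        mul_le_mul_of_nonneg_left (by linarith) (by linarith)
      have h6 : l * (s' - s) ≤ l * (ℓ - G + ε) :=
        mul_le_mul_of_nonneg_left (by linarith) hl0.le
      linarith
    show max (M' - l * s' + (1 - 2 * l) * hf K s') ((1 - l) * M' + l * s' - C0) ≤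
      max (M - l * s + (1 - 2 * l) * hf K s) ((1 - l) * M + l * s - C0) - a / 4
    have hm1' := le_max_left (M - l * s + (1 - 2 * l) * hf K s) ((1 - l) * M + l * s - C0)
    have hm2' := le_max_right (M - l * s + (1 - 2 * l) * hf K s) ((1 - l) * M + l * s - C0)
    refine max_le (by linarith) ?_
    rcases le_total (M / 2 + κl) s with hs2 | hs2
    · have hG2 : η - ε ≤ G := by rw [hGG]; exact hκl M s hs2
      have h11 : D ≤ ε := hDs (by linarith)
      have h12 : (1 - l) * D ≤ (1 - l) * ε := mul_le_mul_of_nonneg_left h11 (by linarith)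
      linarith
    · have h12 : (1 - l) * D ≤ (1 - l) * ℓ := mul_le_mul_of_nonneg_left hD (by linarith)
      have h13 : 2 * l * (s - M / 2) ≤ 2 * l * |κl| :=
        mul_le_mul_of_nonneg_left (by have := le_abs_self κl; linarith) (by linarith)
      have h14 := mul_nonneg (show 0 ≤ 1 - 2 * l by linarith) (hf_nonneg hK s)
      linarith

end Pool.Agent.H78.K4
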