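import Pool.Agent.H78.K4.Step320
import Pool.Agent.H78.K4.Iter320

/-!
# Records of (3,20)

* `rec320`: put `X = x n` (large), `x_{-j} = x (n-j)`. All terms of the window are at least
  `a / ((1 + c) X)`. From the equation at `n`: `x_{-2}`, `x_{-4} ≤ (a + x_{-1}) / (min 1 c * X) ≤ C`.
  From the equation at `n-1`: `x_{-1} x_{-3} ≤ a + x_{-2} ≤ C`. From the equation at `n-2`:
  `x_{-3} ≤ x_{-2} (x_{-4} + c x_{-6})`.
  Case A `x_{-1} ≥ X^(1/3)`: `In320` at `n-2` with `e` of the size `X^(-2/3)` (or simply `e = 1`):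
  `c x_{-2} ≤ C ≤ X`; `x_1 (x_{-1} + c x_{-3}) = a + X`, so
  `x_{-1} x_1 / X = (1 + a/X) / (1 + c x_{-3} / x_{-1})`, `x_{-3} / x_{-1} ≤ C X^(-2/3)`; and
  `S = x_1` lies between `1/2` and `2 X^(2/3)`.
  Case B `x_{-1} < X^(1/3)`: then `x_{-2}`, `x_{-4} ≤ C X^(-2/3)` and so `x_{-3} ≤ C X^(1/3)`
  (as `x_{-6} ≤ X`). `In320` at `n-1` with the large term
  `X' = x_1 = (a + X) / (x_{-1} + c x_{-3}) ≥ X^(2/3) / C`, `x_1 ≤ C X ^ 2`, and
  `S' = x_2 = (a + x_1) / (X + c x_{-2})`: `c x_{-1} ≤ X'`,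
  `X x_2 / x_1 = (1 + a / x_1) / (1 + c x_{-2} / X)`; `log S' = log X' - log X + O(1)` lies between
  `-(1/2) log X' - C` and `(1/2) log X' + C`.
  Then `rough320` gives a state at `n + 5` or `n + 6`. The bound `P` for `x (n + j)` comes from
  `iter320` at `n - 4` (all terms before `n` are at most `T` and at least `a / ((1 + c) T)`).
-/

namespace Pool.Agent.H78.K4

open Real

/-- the case of a large previous term -/
private theorem caseA {a c X y1 y2 y3 x1 u m : ℝ} (ha : 0 < a) (hc : 0 < c) (hu : u ^ 3 = X) (h16 : 16 ≤ u) (hau : a ≤ u)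
    (hcu : c * (2 * a + 1) ≤ u) (hm : m ≤ 3 * log u) (p1 : 0 < y1) (p2 : 0 < y2) (p3 : 0 < y3) (px : 0 < x1)
    (hy : u ≤ y1) (hyX : y1 ≤ X) (e1 : y2 ≤ 1 + a) (e2 : y1 * y3 ≤ 2 * a + 1) (e3 : x1 * (y1 + c * y3) = a + X) :
    c * y2 ≤ 1 * X ∧ R 1 (y1 * x1) X ∧ 1 ≤ 1 * X ∧ x1 ≤ 1 * X ∧ 1 ≤ 1 * (x1 * X) ∧ m ≤ log X ∧ |log x1| ≤ 3 / 4 * log X := by
  have hu0 : 0 < u := by linarith
  have hu2 : 256 ≤ u ^ 2 := by nlinarith
  have hX : u ≤ X := by
    rw [← hu]
    nlinarith
  have hX0 : 0 < X := by linarith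
  have hcy : c * y3 ≤ y1 := by
    -- `c y3 y1 ≤ c (2a+1) ≤ u ≤ u² ≤ y1²`
    have h1 : c * y3 * y1 ≤ y1 * y1 := by
      calc c * y3 * y1 = c * (y1 * y3) := by ring
        _ ≤ c * (2 * a + 1) := by gcongr
        _ ≤ u := hcu
        _ ≤ u * u := by nlinarith
        _ ≤ y1 * y1 := mul_le_mul hy hy hu0.le p1.le
    exact le_of_mul_le_mul_right h1 p1
  have h2 : y1 * x1 ≤ 2 * X := by
    have : 0 < c * y3 * x1 := by positivity
    nlinarith
  have h3 : X ≤ 2 * (y1 * x1) := by
    have : c * y3 * x1 ≤ y1 * x1 := mul_le_mul_of_nonneg_right hcy px.le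
    nlinarith
  have h4 : x1 ≤ 2 * u ^ 2 := by
    have : x1 * u ≤ 2 * u ^ 2 * u := by
      calc x1 * u ≤ x1 * y1 := mul_le_mul_of_nonneg_left hy px.le
        _ = y1 * x1 := by ring
        _ ≤ 2 * X := h2
        _ = 2 * u ^ 2 * u := by rw [← hu]; ring
    exact le_of_mul_le_mul_right this hu0
  have h5 : 1 / 2 ≤ x1 := by
    have : 1 / 2 * X ≤ x1 * X := by
      calc 1 / 2 * X ≤ y1 * x1 := by linarith
        _ = x1 * y1 := by ring
        _ ≤ x1 * X := mul_le_mul_of_nonneg_left hyX px.le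
    exact le_of_mul_le_mul_right this hX0
  have hexp : 2 ≤ exp 1 := by
    have := add_one_le_exp (1 : ℝ)
    linarith
  have hlX : log X = 3 * log u := by
    rw [← hu, log_pow]
    norm_num
  have hlu : 4 * log 2 ≤ log u := by
    have h6 : log 16 ≤ log u := log_le_log (by norm_num) h16
    have h7 : log 16 = 4 * log 2 := by
      rw [show (16 : ℝ) = 2 ^ 4 by norm_num, log_pow]
      norm_num
    linarith
  have hl2 : 0 < log 2 := log_pos (by norm_num)
  refine ⟨?_, ⟨by positivity, hX0, ?_, ?_⟩, by linarith, ?_, ?_, by linarith, ?_⟩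
  · have : c * y2 ≤ c * (2 * a + 1) := by
      apply mul_le_mul_of_nonneg_left _ hc.le
      linarith
    linarith
  · calc y1 * x1 ≤ 2 * X := h2
      _ ≤ exp 1 * X := mul_le_mul_of_nonneg_right hexp hX0.le
  · calc X ≤ 2 * (y1 * x1) := h3
      _ ≤ exp 1 * (y1 * x1) := mul_le_mul_of_nonneg_right hexp (by positivity)
  · rw [← hu]
    nlinarith
  · nlinarith
  · have h6 : log x1 ≤ log 2 + 2 * log u := by
      calc log x1 ≤ log (2 * u ^ 2) := log_le_log px h4
        _ = log 2 + 2 * log u := by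
          rw [log_mul (by norm_num) (by positivity), log_pow]
          norm_num
    have h7 : -log 2 ≤ log x1 := by
      have h8 : log (1 / 2) ≤ log x1 := log_le_log (by norm_num) h5
      rwa [one_div, log_inv] at h8
    rw [abs_le, hlX]
    constructor <;> linarith

/-- the case of a small previous term -/
private theorem caseB {a c X y1 y2 y3 y4 y6 x1 x2 u m D B : ℝ} (ha : 0 < a) (hc : 0 < c) (hu : u ^ 3 = X) (h16 : 16 ≤ u) (hau : a ≤ u)
    (hD : D = 1 + 4 * c ^ 2) (hB : B = 2 * (1 + c) / a) (hcu : 2 ≤ c ^ 2 * u) (hcD : c * D ≤ u) (haD : a * D ≤ u) (hc2 : 2 * c ≤ u)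
    (p1 : 0 < y1) (p2 : 0 < y2) (p3 : 0 < y3) (p4 : 0 < y4) (p6 : 0 < y6) (px : 0 < x1) (px2 : 0 < x2)
    (hy : y1 ≤ u) (hy6 : y6 ≤ X) (hlow : a ≤ y1 * ((1 + c) * X)) (e0 : X * (y2 + c * y4) = a + y1)
    (e1 : y2 * (y4 + c * y6) = a + y3) (e3 : x1 * (y1 + c * y3) = a + X) (e4 : x2 * (X + c * y2) = a + x1)
    (hm : m ≤ 2 * log u - log D) (hm1 : 4 * log 2 + 2 * log B ≤ 2 * log u - log D) (hm2 : 4 * log 2 + 6 * log D ≤ 2 * log u - log D)
    (hm3 : 4 * log 2 ≤ 2 * log u - log D) :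
    c * y1 ≤ 1 * x1 ∧ R 1 (X * x2) x1 ∧ 1 ≤ 1 * x1 ∧ x2 ≤ 1 * x1 ∧ 1 ≤ 1 * (x2 * x1) ∧ m ≤ log x1 ∧ |log x2| ≤ 3 / 4 * log x1 := by
  have hu0 : 0 < u := by linarith
  have hX0 : 0 < X := by rw [← hu]; positivity
  have hD0 : 1 ≤ D := by
    rw [hD]
    nlinarith [sq_nonneg c]
  have hB0 : 0 < B := by
    rw [hB]
    positivity
  -- the small terms
  have h1 : y2 * u ^ 2 ≤ 2 := by
    have h : y2 * u ^ 2 * u ≤ 2 * u := by
      have : 0 < X * (c * y4) := by positivity
      calc y2 * u ^ 2 * u = X * y2 := by rw [← hu]; ring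
        _ ≤ a + y1 := by nlinarith
        _ ≤ 2 * u := by linarith
    exact le_of_mul_le_mul_right h hu0
  have h2 : c * y4 * u ^ 2 ≤ 2 := by
    have h : c * y4 * u ^ 2 * u ≤ 2 * u := by
      have : 0 < X * y2 := by positivity
      calc c * y4 * u ^ 2 * u = X * (c * y4) := by rw [← hu]; ring
        _ ≤ a + y1 := by nlinarith
        _ ≤ 2 * u := by linarith
    exact le_of_mul_le_mul_right h hu0
  have h3 : y4 ≤ c * X := by
    -- `c y4 ≤ 2 / u² ≤ c² u³`
    have h : c * y4 ≤ c * (c * X) := by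
      have h4 : c * y4 ≤ 2 := by
        have : 1 ≤ u ^ 2 := by nlinarith
        have h5 : 0 ≤ c * y4 := by positivity
        nlinarith
      have h6 : c ^ 2 * u ≤ c ^ 2 * X := by
        apply mul_le_mul_of_nonneg_left _ (by positivity)
        rw [← hu]
        nlinarith [sq_nonneg u]
      nlinarith
    exact le_of_mul_le_mul_left h hc
  have h4 : y3 ≤ 4 * c * u := by
    have h : y3 * u ^ 2 ≤ 4 * c * u * u ^ 2 := by
      have h5 : y3 ≤ y2 * (2 * (c * X)) := by
        have h6 : y4 + c * y6 ≤ 2 * (c * X) := by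
          have : c * y6 ≤ c * X := mul_le_mul_of_nonneg_left hy6 hc.le
          linarith
        have h7 := mul_le_mul_of_nonneg_left h6 p2.le
        linarith
      calc y3 * u ^ 2 ≤ y2 * (2 * (c * X)) * u ^ 2 := mul_le_mul_of_nonneg_right h5 (by positivity)
        _ = (y2 * u ^ 2) * (2 * (c * X)) := by ring
        _ ≤ 2 * (2 * (c * X)) := mul_le_mul_of_nonneg_right h1 (by positivity)
        _ = 4 * c * u * u ^ 2 := by rw [← hu]; ring
    exact le_of_mul_le_mul_right h (by positivity)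
  have h5 : y1 + c * y3 ≤ D * u := by
    have : c * y3 ≤ c * (4 * c * u) := mul_le_mul_of_nonneg_left h4 hc.le
    rw [hD]
    nlinarith
  have h6 : u ^ 2 ≤ D * x1 := by
    have h : u ^ 2 * u ≤ D * x1 * u := by
      calc u ^ 2 * u = X := by rw [← hu]; ring
        _ ≤ a + X := by linarith
        _ = x1 * (y1 + c * y3) := e3.symm
        _ ≤ x1 * (D * u) := mul_le_mul_of_nonneg_left h5 px.le
        _ = D * x1 * u := by ring
    exact le_of_mul_le_mul_right h hu0
  have huX : u ≤ X := by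
    rw [← hu]
    nlinarith [sq_nonneg u]
  have h7 : x1 ≤ B * u ^ 6 := by
    -- `a x1 ≤ x1 y1 (1+c) X ≤ 2 X (1+c) X`
    have h : x1 * a ≤ B * u ^ 6 * a := by
      have h8 : x1 * y1 ≤ 2 * X := by
        have : 0 < x1 * (c * y3) := by positivity
        nlinarith
      calc x1 * a ≤ x1 * (y1 * ((1 + c) * X)) := mul_le_mul_of_nonneg_left hlow px.le
        _ = (x1 * y1) * ((1 + c) * X) := by ring
        _ ≤ (2 * X) * ((1 + c) * X) := mul_le_mul_of_nonneg_right h8 (by positivity)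
        _ = B * u ^ 6 * a := by
          rw [hB, ← hu]
          field_simp
    exact le_of_mul_le_mul_right h ha
  have hD1 : 0 < D := by linarith
  have h8 : D * (c * y1) ≤ D * x1 := by
    calc D * (c * y1) = (c * D) * y1 := by ring
      _ ≤ u * u := mul_le_mul hcD hy p1.le hu0.le
      _ = u ^ 2 := by ring
      _ ≤ D * x1 := h6
  have h9 : a ≤ x1 := by
    have h : D * a ≤ D * x1 := by
      calc D * a = a * D := by ring
        _ ≤ u := haD
        _ ≤ u ^ 2 := by nlinarith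
        _ ≤ D * x1 := h6
    exact le_of_mul_le_mul_left h hD1
  have h10 : c * y2 ≤ X := by
    have h11 : y2 ≤ 2 := by
      have : 1 ≤ u ^ 2 := by nlinarith
      nlinarith
    have : c * y2 ≤ c * 2 := mul_le_mul_of_nonneg_left h11 hc.le
    linarith
  have h11 : X * x2 ≤ 2 * x1 := by
    have : 0 < x2 * (c * y2) := by positivity
    nlinarith
  have h12 : x1 ≤ 2 * (X * x2) := by
    have : x2 * (c * y2) ≤ x2 * X := mul_le_mul_of_nonneg_left h10 px2.le
    nlinarith
  have hexp : 2 ≤ exp 1 := by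
    have := add_one_le_exp (1 : ℝ)
    linarith
  -- logarithms
  have hlX : log X = 3 * log u := by
    rw [← hu, log_pow]
    norm_num
  have l1 : 2 * log u ≤ log D + log x1 := by
    have h := log_le_log (by positivity) h6
    rw [log_mul hD1.ne' px.ne', log_pow] at h
    exact_mod_cast h
  have l2 : log x1 ≤ log B + 6 * log u := by
    have h := log_le_log px h7
    rw [log_mul hB0.ne' (by positivity), log_pow] at h
    exact_mod_cast h
  have l3 : log X + log x2 ≤ log 2 + log x1 := by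
    have h := log_le_log (by positivity) h11
    rwa [log_mul hX0.ne' px2.ne', log_mul (by norm_num) px.ne'] at h
  have l4 : log x1 ≤ log 2 + (log X + log x2) := by
    have h := log_le_log px h12
    rwa [log_mul (by norm_num) (by positivity), log_mul hX0.ne' px2.ne'] at h
  have hl2 : 0 < log 2 := log_pos (by norm_num)
  have l5 : |log x2| ≤ 3 / 4 * log x1 := by
    rw [abs_le]
    constructor <;> linarith
  have l6 : 0 ≤ log x1 := by linarith
  refine ⟨?_, ⟨by positivity, px, ?_, ?_⟩, ?_, ?_, ?_, by linarith, l5⟩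
  · rw [one_mul]
    exact le_of_mul_le_mul_left h8 hD1
  · calc X * x2 ≤ 2 * x1 := h11
      _ ≤ exp 1 * x1 := mul_le_mul_of_nonneg_right hexp px.le
  · calc x1 ≤ 2 * (X * x2) := h12
      _ ≤ exp 1 * (X * x2) := mul_le_mul_of_nonneg_right hexp (by positivity)
  · rw [one_mul]
    by_contra h
    have := log_neg px (not_le.1 h)
    linarith
  · rw [one_mul]
    rw [abs_le] at l5
    exact (log_le_log_iff px2 px).1 (by linarith)
  · rw [one_mul]
    rw [abs_le] at l5
    have h : 0 ≤ log (x2 * x1) := by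
      rw [log_mul px2.ne' px.ne']
      linarith
    by_contra h13
    have := log_neg (by positivity) (not_le.1 h13)
    linarith

theorem rec320 {a c : ℝ} (ha : 0 < a) (hc : 0 < c) : ∃ K0 : ℝ, ∀ K ≥ K0, ∃ T0 : ℝ, ∀ T ≥ T0,
    ∃ P : ℝ, ∀ (x : ℕ → ℝ) (n : ℕ), Eq320 a c x → 12 ≤ n → T < x n →
      (∀ j, 1 ≤ j → j ≤ 12 → x (n - j) ≤ T) →
      ∃ i ≤ 10, ∃ M s, St320 c K x (n + i) M s ∧ M ≤ P ∧ ∀ j ≤ 20, x (n + j) ≤ P := by
  obtain ⟨K0, hK0⟩ := rough320 ha hc
  refine ⟨K0, fun K hK => ?_⟩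
  obtain ⟨C, m, hrough⟩ := hK0 K hK
  obtain ⟨D, hD⟩ : ∃ D : ℝ, D = 1 + 4 * c ^ 2 := ⟨_, rfl⟩
  obtain ⟨B, hB⟩ : ∃ B : ℝ, B = 2 * (1 + c) / a := ⟨_, rfl⟩
  -- a bound for `u`
  obtain ⟨U, hU⟩ : ∃ U : ℝ, U = max (exp (|m| + |log D| + (4 * log 2 + 2 * |log B|) + (4 * log 2 + 6 * |log D|)))
      (16 + a + c * (2 * a + 1) + 2 / c ^ 2 + c * D + a * D + 2 * c) := ⟨_, rfl⟩
  refine ⟨max 1 U ^ 3, fun T hT => ?_⟩
  obtain ⟨Q', hQ'⟩ := iter320 ha hc 24 (max T ((1 + c) * T / a))
  refine ⟨max Q' (log Q' + C), fun x n hE hn hX hprev => ?_⟩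
  obtain ⟨k, rfl⟩ : ∃ k, n = k + 12 := ⟨n - 12, by omega⟩
  have hp : ∀ i < 12, x (k + i) ≤ T := by
    intro i hi
    have h := hprev (12 - i) (by omega) (by omega)
    rwa [show k + 12 - (12 - i) = k + i by omega] at h
  have h1T : 1 ≤ T := by
    have h1 : (1 : ℝ) ≤ max 1 U := le_max_left _ _
    have h2 : (1 : ℝ) ≤ max 1 U ^ 3 := one_le_pow₀ h1
    linarith
  obtain ⟨X, hXd⟩ : ∃ X : ℝ, X = x (k + 12) := ⟨_, rfl⟩
  have hTX : T < X := by
    rw [hXd]
    exact hX
  have hX1 : 1 ≤ X := by linarith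
  obtain ⟨u, hud⟩ : ∃ u : ℝ, u = X ^ (1 / 3 : ℝ) := ⟨_, rfl⟩
  have hu3 : u ^ 3 = X := by
    rw [hud, ← rpow_natCast, ← rpow_mul (by linarith)]
    norm_num
  have hu0 : 0 < u := by
    rw [hud]
    exact rpow_pos_of_pos (by linarith) _
  have huU : max 1 U ≤ u := by
    have h1 : max 1 U ^ 3 ≤ u ^ 3 := by
      rw [hu3]
      linarith
    exact le_of_pow_le_pow_left₀ (by norm_num) hu0.le h1
  have huU1 : exp (|m| + |log D| + (4 * log 2 + 2 * |log B|) + (4 * log 2 + 6 * |log D|)) ≤ u := by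
    refine le_trans ?_ huU
    refine le_trans ?_ (le_max_right _ _)
    rw [hU]
    exact le_max_left _ _
  have huU2 : 16 + a + c * (2 * a + 1) + 2 / c ^ 2 + c * D + a * D + 2 * c ≤ u := by
    refine le_trans ?_ huU
    refine le_trans ?_ (le_max_right _ _)
    rw [hU]
    exact le_max_right _ _
  have hD0 : 0 < D := by
    rw [hD]
    positivity
  have t1 : 0 < c * (2 * a + 1) := by positivity
  have t2 : 0 < 2 / c ^ 2 := by positivity
  have t3 : 0 < c * D := by positivity
  have t4 : 0 < a * D := by positivity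
  have hlu : |m| + |log D| + (4 * log 2 + 2 * |log B|) + (4 * log 2 + 6 * |log D|) ≤ log u := by
    rw [le_log_iff_exp_le hu0]
    exact huU1
  have hl2 : 0 < log 2 := log_pos (by norm_num)
  have a1 := le_abs_self m
  have a2 := le_abs_self (log D)
  have a3 := le_abs_self (log B)
  have a4 := abs_nonneg m
  have a5 := abs_nonneg (log D)
  have a6 := abs_nonneg (log B)
  -- positivity
  have hpos := hE.pos
  have pT : 0 < T := by linarith
  -- the equations
  have E6 := hE.eq (k + 6)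
  have E7 := hE.eq (k + 7)
  have E8 := hE.eq (k + 8)
  have E9 := hE.eq (k + 9)
  have E10 := hE.eq (k + 10)
  simp only [Nat.add_assoc, Nat.reduceAdd] at E6 E7 E8 E9 E10
  rw [← hXd] at E8 E9 E10
  have q1 := hpos (k + 11)
  have q2 := hpos (k + 10)
  have q3 := hpos (k + 9)
  have q4 := hpos (k + 8)
  have q5 := hpos (k + 7)
  have q6 := hpos (k + 6)
  have r1 := hpos (k + 13)
  have r2 := hpos (k + 14)
  have b1 := hp 11 (by norm_num)
  have b2 := hp 10 (by norm_num)
  have b3 := hp 9 (by norm_num)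
  have b4 := hp 8 (by norm_num)
  have b5 := hp 7 (by norm_num)
  have b6 := hp 6 (by norm_num)
  -- lower bounds
  have low1 : a ≤ x (k + 11) * ((1 + c) * T) := by
    have h1 : x (k + 9) + c * x (k + 7) ≤ (1 + c) * T := by nlinarith
    have h2 := mul_le_mul_of_nonneg_left h1 q1.le
    linarith
  have low2 : a ≤ x (k + 10) * ((1 + c) * T) := by
    have h1 : x (k + 8) + c * x (k + 6) ≤ (1 + c) * T := by nlinarith
    have h2 := mul_le_mul_of_nonneg_left h1 q2.le
    linarith
  -- the bound for the following terms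
  have hiter : ∀ i ≤ 24, x (k + 8 + i) ≤ Q' := by
    refine hQ' x (k + 8) hE ?_ ?_ ?_
    · intro i hi
      refine le_trans ?_ (le_max_left _ _)
      rw [Nat.add_assoc]
      exact hp (8 + i) (by omega)
    · have h1 : 1 ≤ (1 + c) * T / a * x (k + 8 + 2) := by
        rw [Nat.add_assoc, div_mul_eq_mul_div, le_div_iff₀ ha]
        show 1 * a ≤ (1 + c) * T * x (k + 10)
        linarith
      exact h1.trans (mul_le_mul_of_nonneg_right (le_max_right _ _) (hpos _).le)
    · have h1 : 1 ≤ (1 + c) * T / a * x (k + 8 + 3) := by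
        rw [Nat.add_assoc, div_mul_eq_mul_div, le_div_iff₀ ha]
        show 1 * a ≤ (1 + c) * T * x (k + 11)
        linarith
      exact h1.trans (mul_le_mul_of_nonneg_right (le_max_right _ _) (hpos _).le)
  have hfin : ∀ j ≤ 20, x (k + 12 + j) ≤ max Q' (log Q' + C) := by
    intro j hj
    have h := hiter (4 + j) (by omega)
    rw [show k + 8 + (4 + j) = k + 12 + j by omega] at h
    exact h.trans (le_max_left _ _)
  have hXQ : X ≤ Q' := by
    rw [hXd]
    exact hiter 4 (by norm_num)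
  have hx1Q : x (k + 13) ≤ Q' := hiter 5 (by norm_num)
  have hau : a ≤ u := by linarith
  have s1 : x (k + 10) ≤ 1 + a := by
    have h1 : X * x (k + 10) ≤ X * (1 + a) := by
      have h2 : 0 < X * (c * x (k + 8)) := by positivity
      nlinarith
    exact le_of_mul_le_mul_left h1 (by linarith)
  rcases le_total u (x (k + 11)) with hcase | hcase
  · -- case A
    have s2 : x (k + 11) * x (k + 9) ≤ 2 * a + 1 := by
      have h2 : 0 < x (k + 11) * (c * x (k + 7)) := by positivity
      nlinarith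
    obtain ⟨g1, g2, g3, g4, g5, g6, g7⟩ := caseA (m := m) ha hc hu3 (by linarith) hau (by linarith) (by linarith) q1 q2 q3 r1 hcase
      (b1.trans hTX.le) s1 s2 E9
    obtain ⟨M', s', hst, hM'⟩ := hrough x (k + 10) 1 1 hE
      { e0 := zero_le_one
        e1 := le_rfl
        E1 := le_rfl
        hw := by
          show c * x (k + 10) ≤ 1 * x (k + 12)
          rw [← hXd]
          exact g1
        hv := by
          show R 1 (x (k + 11) * x (k + 13)) (x (k + 12))
          rw [← hXd]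
          exact g2
        hX := by
          show 1 ≤ 1 * x (k + 12)
          rw [← hXd]
          exact g3
        hS := by
          show x (k + 13) ≤ 1 * x (k + 12)
          rw [← hXd]
          exact g4
        hi := by
          show 1 ≤ 1 * (x (k + 13) * x (k + 12))
          rw [← hXd]
          exact g5 }
      (by
        show m ≤ log (x (k + 12))
        rw [← hXd]
        exact g6)
      (by
        show |log (x (k + 13))| ≤ 3 / 4 * log (x (k + 12))
        rw [← hXd]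
        exact g7)
    refine ⟨5, by norm_num, M', s', hst, ?_, hfin⟩
    refine hM'.trans (le_trans ?_ (le_max_right _ _))
    have h1 : log (x (k + 10 + 2)) ≤ log Q' := by
      show log (x (k + 12)) ≤ log Q'
      rw [← hXd]
      exact log_le_log (by linarith) hXQ
    linarith
  · -- case B
    have hlow : a ≤ x (k + 11) * ((1 + c) * X) := by
      refine low1.trans (mul_le_mul_of_nonneg_left ?_ q1.le)
      exact mul_le_mul_of_nonneg_left hTX.le (by positivity)
    have hcu : 2 ≤ c ^ 2 * u := by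
      have h1 : 2 / c ^ 2 ≤ u := by linarith
      have h2 := (div_le_iff₀ (by positivity)).1 h1
      linarith
    obtain ⟨g1, g2, g3, g4, g5, g6, g7⟩ := caseB (m := m) ha hc hu3 (by linarith) hau hD hB hcu (by linarith) (by linarith) (by linarith)
      q1 q2 q3 q4 q6 r1 r2 hcase (b6.trans hTX.le) hlow E8 E6 E9 E10 (by linarith) (by linarith) (by linarith) (by linarith)
    obtain ⟨M', s', hst, hM'⟩ := hrough x (k + 11) 1 1 hE
      { e0 := zero_le_one
        e1 := le_rfl
        E1 := le_rfl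
        hw := g1
        hv := by
          show R 1 (x (k + 12) * x (k + 14)) (x (k + 13))
          rw [← hXd]
          exact g2
        hX := g3
        hS := g4
        hi := g5 }
      g6 g7
    refine ⟨6, by norm_num, M', s', hst, ?_, hfin⟩
    refine hM'.trans (le_trans ?_ (le_max_right _ _))
    have h1 : log (x (k + 11 + 2)) ≤ log Q' := log_le_log r1 hx1Q
    linarith

end Pool.Agent.H78.K4
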