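import Pool.Agent.H78.K4.Step518
import Pool.Agent.H78.K4.Iter518

/-!
# Records of (5,18)

* `rec518`: put `X = x n` (large), `x_{-j} = x (n-j)`. All terms of the window are at least
  `a / ((1 + c) X)`. From the equation at `n`: `x_{-1} ≤ (a + x_{-2}) / X ≤ 2`, `x_{-4} ≤ C`.
  From the equation at `n-1`: `a + x_{-3} = x_{-1} (x_{-2} + c x_{-5}) ≤ (a + x_{-2}) (1 + c)`; from
  the equation at `n-2`: `x_{-2} x_{-3} ≤ a + x_{-4} ≤ C`; together `x_{-3} ≤ C`. Again from the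
  equation at `n-1`: `x_{-1} x_{-2} ≤ a + x_{-3} ≤ C`, so `X x_{-1} ≤ a + C / x_{-1}` and
  `x_{-1} ≤ C X^(-1/2)`.
  Case A `x_{-2} ≥ X^(1/3)`: `In518` at `n-1`: `x_1 (X + c x_{-3}) = a + x_{-1}`, so
  `x_1 X / a = (1 + x_{-1} / a) / (1 + c x_{-3} / X)`; `S = x_2 = (a + X) / (x_1 + c x_{-2})` lies
  between `1 / C` and `C X^(2/3)`; `c x_{-1} ≤ S`.
  Case B `x_{-2} < X^(1/3)`: `In518` at `n+1`: window `(x_1, x_2, x_3, x_4)`,
  `X' = x_2 ≥ X^(2/3) / C`, `x_2 ≤ C X ^ 2` (as `x_1 ≥ a / (2 X)`), `x_3 (x_2 + c x_{-1}) = a + x_1`,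
  `x_4 (x_3 + c X) = a + x_2`: `S' = x_4`, `log S' = log X' - log X + O(1)` lies between
  `-(1/2) log X' - C` and `(1/2) log X' + C`; `c x_1 ≤ C / X ≤ S'`.
  Then `rough518` gives a state at `n + 6` or `n + 8`. The bound `P` for `x (n + j)` comes from
  `iter518` at `n - 4` (all terms before `n` are at most `T` and at least `a / ((1 + c) T)`).
-/

namespace Pool.Agent.H78.K4

open Real

/-- the input of a cycle, with `e = 1` -/
private theorem mkIn {a c : ℝ} {x : ℕ → ℝ} {n : ℕ} (hx : Eq518 a c x) (hu : c * x n ≤ x (n + 3))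
    (h1 : x (n + 2) * x (n + 1) ≤ 2 * a) (h2 : a ≤ 2 * (x (n + 2) * x (n + 1)))
    (h3 : |log (x (n + 3))| ≤ 3 / 4 * log (x (n + 1))) (h4 : 0 ≤ log (x (n + 1))) :
    In518 a c x n 1 (exp (|log (x (n + 3))| - log (x (n + 1)))) := by
  have he : (2 : ℝ) ≤ exp 1 := by
    have := add_one_le_exp (1 : ℝ)
    linarith
  have hp1 := hx.pos (n + 1)
  have hp2 := hx.pos (n + 2)
  have hp3 := hx.pos (n + 3)
  have hX : exp (log (x (n + 1))) = x (n + 1) := exp_log hp1
  have hS : exp (log (x (n + 3))) = x (n + 3) := exp_log hp3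
  have e1 : exp (|log (x (n + 3))| - log (x (n + 1))) * x (n + 1) = exp |log (x (n + 3))| := by
    nth_rewrite 2 [← hX]
    rw [← exp_add, sub_add_cancel]
  refine ⟨zero_le_one, le_refl 1, ?_, ?_, ⟨mul_pos hp2 hp1, hx.a0, ?_, ?_⟩, ?_, ?_, ?_⟩
  · rw [← exp_zero]
    exact exp_le_exp.2 (by linarith)
  · rw [one_mul]
    exact hu
  · have := mul_le_mul_of_nonneg_right he hx.a0.le
    linarith
  · have := mul_le_mul_of_nonneg_right he (mul_pos hp2 hp1).le
    linarith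
  · rw [e1]
    exact one_le_exp (abs_nonneg _)
  · rw [e1]
    nth_rewrite 1 [← hS]
    exact exp_le_exp.2 (le_abs_self _)
  · have e2 : exp (|log (x (n + 3))| - log (x (n + 1))) * (x (n + 3) * x (n + 1)) =
        x (n + 3) * exp |log (x (n + 3))| := by
      rw [← e1]
      ring
    rw [e2]
    nth_rewrite 1 [← hS]
    rw [← exp_add]
    refine one_le_exp ?_
    have := neg_abs_le (log (x (n + 3)))
    linarith

/-- the bounds of the window -/
private theorem win {a c X p1 p2 p3 p4 p5 p6 : ℝ} (ha : 0 < a) (hc : 0 < c) (hX : a ≤ X)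
    (h1 : 0 < p1) (h2 : 0 < p2) (h3 : 0 < p3) (h4 : 0 < p4) (h6 : 0 < p6) (l2 : p2 ≤ X)
    (l5 : p5 ≤ X) (E0 : X * (p1 + c * p4) = a + p2) (E1 : p1 * (p2 + c * p5) = a + p3)
    (h5 : 0 < p5) (E2 : p2 * (p3 + c * p6) = a + p4) :
    p1 ≤ 2 ∧ p3 ≤ a + 2 / c + (1 + c) * (a + 1) ∧
      X * p1 ^ 2 ≤ 3 * a + (a + 2 / c + (1 + c) * (a + 1)) := by
  have hX0 : 0 < X := by linarith
  have hc4 : 0 < c * p4 := mul_pos hc h4
  have hXp : X * p1 ≤ a + p2 := by
    have : 0 < X * (c * p4) := mul_pos hX0 hc4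
    linarith
  have hp1 : p1 ≤ 2 := by
    have h7 : X * p1 ≤ X * 2 := by linarith
    exact le_of_mul_le_mul_left h7 hX0
  have hp4 : p4 ≤ 2 / c := by
    rw [le_div_iff₀ hc]
    have h7 : X * (c * p4) ≤ X * 2 := by
      have : 0 < X * p1 := mul_pos hX0 h1
      linarith
    have := le_of_mul_le_mul_left h7 hX0
    linarith
  have h23 : p2 * p3 ≤ a + 2 / c := by
    have : 0 < p2 * (c * p6) := mul_pos h2 (mul_pos hc h6)
    linarith
  have hp3' : p3 ≤ (1 + c) * (a + p2) := by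
    have h7 : p2 + c * p5 ≤ (1 + c) * X := by
      have := mul_le_mul_of_nonneg_left l5 hc.le
      linarith
    have h8 : p1 * (p2 + c * p5) ≤ p1 * ((1 + c) * X) := mul_le_mul_of_nonneg_left h7 h1.le
    have h9 : (1 + c) * (X * p1) ≤ (1 + c) * (a + p2) :=
      mul_le_mul_of_nonneg_left hXp (by linarith)
    linarith
  have hc2 : 0 < 2 / c := by positivity
  have hp3 : p3 ≤ a + 2 / c + (1 + c) * (a + 1) := by
    rcases le_total 1 p2 with h7 | h7
    · have h8 : 1 * p3 ≤ p2 * p3 := mul_le_mul_of_nonneg_right h7 h3.le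
      have h9 : 0 < (1 + c) * (a + 1) := by positivity
      linarith
    · have h8 : (1 + c) * (a + p2) ≤ (1 + c) * (a + 1) :=
        mul_le_mul_of_nonneg_left (by linarith) (by linarith)
      linarith
  refine ⟨hp1, hp3, ?_⟩
  have h12 : p1 * p2 ≤ a + p3 := by
    have : 0 < p1 * (c * p5) := mul_pos h1 (mul_pos hc h5)
    linarith
  have h7 : X * p1 ^ 2 ≤ p1 * (a + p2) := by
    have := mul_le_mul_of_nonneg_left hXp h1.le
    linarith
  have h8 : p1 * a ≤ 2 * a := mul_le_mul_of_nonneg_right hp1 ha.le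
  linarith

/-- after a large term -/
private theorem aft {a c X p1 p3 x1 : ℝ} (ha : 0 < a) (hX2 : 2 ≤ X) (hX2a : 2 * a ≤ X)
    (hp1a : p1 ≤ a) (h1 : 0 < p1) (hx1 : 0 < x1) (hc3 : c * p3 ≤ X) (hc3' : 0 < c * p3)
    (E : x1 * (X + c * p3) = a + p1) :
    x1 * X ≤ 2 * a ∧ a ≤ 2 * (x1 * X) ∧ x1 ≤ 1 ∧ x1 ≤ a := by
  have hX0 : 0 < X := by linarith
  have h2 : x1 * X ≤ 2 * a := by
    have : 0 < x1 * (c * p3) := mul_pos hx1 hc3'
    linarith
  have h3 : a ≤ 2 * (x1 * X) := by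
    have := mul_le_mul_of_nonneg_left hc3 hx1.le
    linarith
  refine ⟨h2, h3, ?_, ?_⟩
  · have h4 : x1 * X ≤ 1 * X := by linarith
    exact le_of_mul_le_mul_right h4 hX0
  · have h4 : x1 * 2 ≤ x1 * X := mul_le_mul_of_nonneg_left hX2 hx1.le
    linarith

/-- case A -/
private theorem caA {a c X t p1 p2 x1 x2 : ℝ} (hc : 0 < c) (ha : 0 < a) (ht : 0 < t)
    (htX : t ^ 3 = X) (hX1 : 1 ≤ X) (haX : a ≤ X) (hx1 : 0 < x1) (hx1' : x1 ≤ 1) (hx2 : 0 < x2)
    (hp2 : t ≤ p2) (hp2X : p2 ≤ X) (hp1 : p1 ≤ 1 / (c * (1 + c)))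
    (E : x2 * (x1 + c * p2) = a + X) (hl1 : 12 * log (2 / c) ≤ log X)
    (hl2 : 4 / 3 * log (1 + c) ≤ log X) :
    c * p1 ≤ x2 ∧ |log x2| ≤ 3 / 4 * log X := by
  have hX0 : 0 < X := by linarith
  have hc1 : 0 < 1 + c := by linarith
  have h1 : 1 / (1 + c) ≤ x2 := by
    rw [div_le_iff₀ hc1]
    have h2 : x1 + c * p2 ≤ (1 + c) * X := by
      have := mul_le_mul_of_nonneg_left hp2X hc.le
      linarith
    have h3 := mul_le_mul_of_nonneg_left h2 hx2.le
    have h4 : 1 * X ≤ x2 * (1 + c) * X := by linarith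
    exact le_of_mul_le_mul_right h4 hX0
  have h2 : x2 ≤ 2 / c * t ^ 2 := by
    have h3 : x2 * (c * t) ≤ 2 * t ^ 3 := by
      have h4 : c * t ≤ x1 + c * p2 := by
        have := mul_le_mul_of_nonneg_left hp2 hc.le
        linarith
      have h5 := mul_le_mul_of_nonneg_left h4 hx2.le
      rw [htX]
      linarith
    have h4 : x2 * c ≤ 2 * t ^ 2 := by
      have h5 : x2 * c * t ≤ 2 * t ^ 2 * t := by linarith
      exact le_of_mul_le_mul_right h5 ht
    rw [div_mul_eq_mul_div, le_div_iff₀ hc]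
    exact h4
  constructor
  · refine le_trans ?_ h1
    have h3 := mul_le_mul_of_nonneg_left hp1 hc.le
    refine h3.trans (le_of_eq ?_)
    field_simp
  · have hlX : log X = 3 * log t := by
      rw [← htX, log_pow]
      norm_num
    have h3 : -log (1 + c) ≤ log x2 := by
      have h4 := log_le_log (by positivity) h1
      rwa [one_div, log_inv] at h4
    have h5 : log x2 ≤ log (2 / c) + 2 * log t := by
      have h4 := log_le_log hx2 h2
      rw [log_mul (by positivity) (by positivity), log_pow] at h4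
      push_cast at h4
      exact h4
    rw [abs_le]
    constructor
    · linarith
    · linarith

/-- case B -/
private theorem caB {a c X t p1 p2 x1 x2 x3 x4 B : ℝ} (hc : 0 < c) (ha : 0 < a) (ht : 1 ≤ t)
    (htX : t ^ 3 = X) (haX : a ≤ X) (hx1 : 0 < x1) (hx1' : x1 ≤ 1) (hx1a : x1 ≤ a)
    (hx1X : x1 * X ≤ 2 * a) (hx1X' : a ≤ 2 * (x1 * X)) (hx2 : 0 < x2) (hx3 : 0 < x3)
    (hx4 : 0 < x4) (h2 : 0 < p2) (hp2 : p2 ≤ t) (h1 : 0 < p1) (hp1 : p1 ≤ 2)
    (E2 : x2 * (x1 + c * p2) = a + X) (E3 : x3 * (x2 + c * p1) = a + x1)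
    (E4 : x4 * (x3 + c * X) = a + x2) (hB0 : 0 ≤ B) (hB1 : log (2 * a) ≤ B) (hB2 : log (2 * c) ≤ B)
    (hB3 : log (2 * a * c * (1 + c)) ≤ B) (hB4 : 4 * (log (2 / c) + 1 / 2 * log (4 / a)) ≤ B)
    (hB5 : 10 * log (1 + c) ≤ B) (hl : 3 / 2 * (B + log (1 + c)) ≤ log X) :
    B ≤ log x2 ∧ c * x1 ≤ x4 ∧ x3 * x2 ≤ 2 * a ∧ a ≤ 2 * (x3 * x2) ∧
      |log x4| ≤ 3 / 4 * log x2 := by
  have ht0 : 0 < t := by linarith
  have hX0 : 0 < X := by linarith
  have hc1 : 0 < 1 + c := by linarith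
  have hX1 : 1 ≤ X := by
    rw [← htX]
    exact one_le_pow₀ ht
  have hlX : log X = 3 * log t := by
    rw [← htX, log_pow]
    norm_num
  have h3 : t ^ 2 ≤ (1 + c) * x2 := by
    have h4 : x1 + c * p2 ≤ (1 + c) * t := by
      have := mul_le_mul_of_nonneg_left hp2 hc.le
      linarith
    have h5 := mul_le_mul_of_nonneg_left h4 hx2.le
    have h6 : t ^ 2 * t ≤ (1 + c) * x2 * t := by
      have : t ^ 2 * t = X := by rw [← htX]; ring
      rw [this]
      linarith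
    exact le_of_mul_le_mul_right h6 ht0
  have h4 : 2 * log t ≤ log (1 + c) + log x2 := by
    have h5 := log_le_log (by positivity) h3
    rw [log_mul hc1.ne' hx2.ne', log_pow] at h5
    push_cast at h5
    exact h5
  have hB : B ≤ log x2 := by linarith
  have hbig : ∀ y : ℝ, 0 < y → log y ≤ B → y ≤ x2 := fun y hy h =>
    (log_le_log_iff hy hx2).1 (h.trans hB)
  have b1 : 2 * a ≤ x2 := hbig _ (by positivity) hB1
  have b2 : 2 * c ≤ x2 := hbig _ (by positivity) hB2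
  have b3 : 2 * a * c * (1 + c) ≤ x2 := hbig _ (by positivity) hB3
  have h5 : x2 ≤ 4 / a * X ^ 2 := by
    rw [div_mul_eq_mul_div, le_div_iff₀ ha]
    have h6 : x2 * x1 ≤ 2 * X := by
      have : 0 < x2 * (c * p2) := mul_pos hx2 (mul_pos hc h2)
      linarith
    have h7 := mul_le_mul_of_nonneg_left hx1X' hx2.le
    have h8 := mul_le_mul_of_nonneg_right h6 hX0.le
    nlinarith
  have h6 : log x2 ≤ log (4 / a) + 2 * log X := by
    have h7 := log_le_log hx2 h5
    rw [log_mul (by positivity) (by positivity), log_pow] at h7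
    push_cast at h7
    exact h7
  have h7 : x3 * x2 ≤ 2 * a := by
    have : 0 < x3 * (c * p1) := mul_pos hx3 (mul_pos hc h1)
    linarith
  have h8 : a ≤ 2 * (x3 * x2) := by
    have h9 : c * p1 ≤ x2 := by
      have := mul_le_mul_of_nonneg_left hp1 hc.le
      linarith
    have := mul_le_mul_of_nonneg_left h9 hx3.le
    linarith
  have h9 : x3 ≤ 1 := by
    have h10 : x3 * x2 ≤ 1 * x2 := by linarith
    exact le_of_mul_le_mul_right h10 hx2
  have h10 : x4 * (c * X) ≤ 2 * x2 := by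
    have : 0 < x4 * x3 := mul_pos hx4 hx3
    linarith
  have h11 : x2 ≤ x4 * ((1 + c) * X) := by
    have h12 : x3 + c * X ≤ (1 + c) * X := by linarith
    have := mul_le_mul_of_nonneg_left h12 hx4.le
    linarith
  refine ⟨hB, ?_, h7, h8, ?_⟩
  · have h12 : c * x1 * ((1 + c) * X) ≤ x4 * ((1 + c) * X) := by
      refine le_trans ?_ h11
      refine le_trans ?_ b3
      have h13 := mul_le_mul_of_nonneg_left hx1X (mul_pos hc hc1).le
      linarith
    exact le_of_mul_le_mul_right h12 (mul_pos hc1 hX0)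
  · have h12 : log x4 + log X ≤ log (2 / c) + log x2 := by
      have h13 : x4 * X ≤ 2 / c * x2 := by
        rw [div_mul_eq_mul_div, le_div_iff₀ hc]
        linarith
      have h14 := log_le_log (by positivity) h13
      rwa [log_mul hx4.ne' hX0.ne', log_mul (by positivity) hx2.ne'] at h14
    have h13 : log x2 ≤ log x4 + (log (1 + c) + log X) := by
      have h14 := log_le_log hx2 h11
      rwa [log_mul hx4.ne' (by positivity), log_mul hc1.ne' hX0.ne'] at h14
    rw [abs_le]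
    constructor
    · linarith
    · linarith

theorem rec518 {a c : ℝ} (ha : 0 < a) (hc : 0 < c) : ∃ K0 : ℝ, ∀ K ≥ K0, ∃ T0 : ℝ, ∀ T ≥ T0,
    ∃ P : ℝ, ∀ (x : ℕ → ℝ) (n : ℕ), Eq518 a c x → 12 ≤ n → T < x n →
      (∀ j, 1 ≤ j → j ≤ 12 → x (n - j) ≤ T) →
      ∃ i ≤ 10, ∃ M s, St518 a K x (n + i) M s ∧ M ≤ P ∧ ∀ j ≤ 20, x (n + j) ≤ P := by
  obtain ⟨K0, hK0⟩ := rough518 ha hc
  refine ⟨K0, fun K hK => ?_⟩
  obtain ⟨C, m, hrough⟩ := hK0 K hK
  obtain ⟨C2, hC2⟩ : ∃ C2 : ℝ, C2 = a + 2 / c + (1 + c) * (a + 1) := ⟨_, rfl⟩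
  have hC20 : 0 < C2 := by
    rw [hC2]
    positivity
  obtain ⟨δ, hδ⟩ : ∃ δ : ℝ, δ = min a (1 / (c * (1 + c))) := ⟨_, rfl⟩
  have hδ0 : 0 < δ := by
    rw [hδ]
    exact lt_min ha (by positivity)
  obtain ⟨B, hB⟩ : ∃ B : ℝ, B = |m| + |log (2 * a)| + |log (2 * c)| + |log (2 * a * c * (1 + c))| +
      |4 * (log (2 / c) + 1 / 2 * log (4 / a))| + |10 * log (1 + c)| := ⟨_, rfl⟩
  obtain ⟨L, hL⟩ : ∃ L : ℝ, L = |m| + |12 * log (2 / c)| + |4 / 3 * log (1 + c)| +
      |3 / 2 * (B + log (1 + c))| := ⟨_, rfl⟩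
  have a1 := le_abs_self m
  have a2 := le_abs_self (log (2 * a))
  have a3 := le_abs_self (log (2 * c))
  have a4 := le_abs_self (log (2 * a * c * (1 + c)))
  have a5 := le_abs_self (4 * (log (2 / c) + 1 / 2 * log (4 / a)))
  have a6 := le_abs_self (10 * log (1 + c))
  have a7 := le_abs_self (12 * log (2 / c))
  have a8 := le_abs_self (4 / 3 * log (1 + c))
  have a9 := le_abs_self (3 / 2 * (B + log (1 + c)))
  have n1 := abs_nonneg m
  have n2 := abs_nonneg (log (2 * a))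
  have n3 := abs_nonneg (log (2 * c))
  have n4 := abs_nonneg (log (2 * a * c * (1 + c)))
  have n5 := abs_nonneg (4 * (log (2 / c) + 1 / 2 * log (4 / a)))
  have n6 := abs_nonneg (10 * log (1 + c))
  have n7 := abs_nonneg (12 * log (2 / c))
  have n8 := abs_nonneg (4 / 3 * log (1 + c))
  have n9 := abs_nonneg (3 / 2 * (B + log (1 + c)))
  have hQ1 : 0 < c * C2 := mul_pos hc hC20
  have hQ2 : 0 < (3 * a + C2) / δ ^ 2 := by positivity
  have hL0 : 0 < exp L := exp_pos L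
  refine ⟨2 + 2 * a + c * C2 + (3 * a + C2) / δ ^ 2 + exp L, fun T hT => ?_⟩
  obtain ⟨Q', hQ'⟩ := iter518 ha hc 24 (T + (1 + c) * T / a)
  have hT0 : 0 < T := by linarith
  refine ⟨max Q' (log Q' + C), fun x n hx hn hXT hpre => ?_⟩
  obtain ⟨N, rfl⟩ : ∃ N, n = N + 12 := ⟨n - 12, by omega⟩
  have hx0 := hx.pos
  have q1 : x (N + 11) ≤ T := hpre 1 (by norm_num) (by norm_num)
  have q2 : x (N + 10) ≤ T := hpre 2 (by norm_num) (by norm_num)
  have q3 : x (N + 9) ≤ T := hpre 3 (by norm_num) (by norm_num)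
  have q4 : x (N + 8) ≤ T := hpre 4 (by norm_num) (by norm_num)
  have q5 : x (N + 7) ≤ T := hpre 5 (by norm_num) (by norm_num)
  have E0 : x (N + 12) * (x (N + 11) + c * x (N + 8)) = a + x (N + 10) := hx.eq (N + 8)
  have E1 : x (N + 11) * (x (N + 10) + c * x (N + 7)) = a + x (N + 9) := hx.eq (N + 7)
  have E2 : x (N + 10) * (x (N + 9) + c * x (N + 6)) = a + x (N + 8) := hx.eq (N + 6)
  have F1 : x (N + 13) * (x (N + 12) + c * x (N + 9)) = a + x (N + 11) := hx.eq (N + 9)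
  have F2 : x (N + 14) * (x (N + 13) + c * x (N + 10)) = a + x (N + 12) := hx.eq (N + 10)
  have F3 : x (N + 15) * (x (N + 14) + c * x (N + 11)) = a + x (N + 13) := hx.eq (N + 11)
  have F4 : x (N + 16) * (x (N + 15) + c * x (N + 12)) = a + x (N + 14) := hx.eq (N + 12)
  have hX0 := hx0 (N + 12)
  have hX2 : 2 ≤ x (N + 12) := by linarith
  have hX2a : 2 * a ≤ x (N + 12) := by linarith
  have hXc : c * C2 ≤ x (N + 12) := by linarith
  have hXδ : (3 * a + C2) / δ ^ 2 ≤ x (N + 12) := by linarith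
  have hXL : L ≤ log (x (N + 12)) := by
    rw [le_log_iff_exp_le hX0]
    linarith
  obtain ⟨w1, w2, w3⟩ := win ha hc (by linarith) (hx0 (N + 11)) (hx0 (N + 10)) (hx0 (N + 9))
    (hx0 (N + 8)) (hx0 (N + 6)) (by linarith) (by linarith) E0 E1 (hx0 (N + 7)) E2
  rw [← hC2] at w2 w3
  have hp1δ : x (N + 11) ≤ δ := by
    have h1 : 3 * a + C2 ≤ x (N + 12) * δ ^ 2 := by
      rwa [div_le_iff₀ (by positivity)] at hXδ
    have h2 : x (N + 12) * x (N + 11) ^ 2 ≤ x (N + 12) * δ ^ 2 := w3.trans h1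
    have h3 := le_of_mul_le_mul_left h2 hX0
    exact (pow_le_pow_iff_left₀ (hx0 _).le hδ0.le two_ne_zero).1 h3
  have hp1a : x (N + 11) ≤ a := hp1δ.trans (by rw [hδ]; exact min_le_left _ _)
  have hp1c : x (N + 11) ≤ 1 / (c * (1 + c)) := hp1δ.trans (by rw [hδ]; exact min_le_right _ _)
  have hc3 : c * x (N + 9) ≤ x (N + 12) := (mul_le_mul_of_nonneg_left w2 hc.le).trans hXc
  obtain ⟨v1, v2, v3, v4⟩ := aft ha hX2 hX2a hp1a (hx0 (N + 11)) (hx0 (N + 13)) hc3
    (mul_pos hc (hx0 (N + 9))) F1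
  -- the bound `Q'`
  have hall : ∀ j ≤ 20, x (N + 12 + j) ≤ Q' := by
    intro j hj
    have h1 : ∀ i < 4, x (N + 8 + i) ≤ T + (1 + c) * T / a := by
      have h0 : 0 < (1 + c) * T / a := by positivity
      intro i hi
      interval_cases i
      · exact (show x (N + 8) ≤ T + (1 + c) * T / a by linarith)
      · exact (show x (N + 9) ≤ T + (1 + c) * T / a by linarith)
      · exact (show x (N + 10) ≤ T + (1 + c) * T / a by linarith)
      · exact (show x (N + 11) ≤ T + (1 + c) * T / a by linarith)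
    have h2 : 1 ≤ (T + (1 + c) * T / a) * x (N + 8 + 3) := by
      have h3 : x (N + 10) + c * x (N + 7) ≤ (1 + c) * T := by
        have := mul_le_mul_of_nonneg_left q5 hc.le
        linarith
      have h4 := mul_le_mul_of_nonneg_left h3 (hx0 (N + 11)).le
      have h5 : a ≤ (1 + c) * T * x (N + 11) := by
        have := hx0 (N + 9)
        linarith
      have h6 : 1 ≤ (1 + c) * T / a * x (N + 11) := by
        rw [div_mul_eq_mul_div, le_div_iff₀ ha]
        linarith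
      have h7 : 0 < T * x (N + 11) := mul_pos hT0 (hx0 _)
      exact (show 1 ≤ (T + (1 + c) * T / a) * x (N + 11) by linarith)
    have h3 := hQ' x (N + 8) hx h1 h2 (4 + j) (by omega)
    have h4 : N + 8 + (4 + j) = N + 12 + j := by omega
    rwa [h4] at h3
  have hallP : ∀ j ≤ 20, x (N + 12 + j) ≤ max Q' (log Q' + C) := fun j hj =>
    (hall j hj).trans (le_max_left _ _)
  have hMP : ∀ j ≤ 20, ∀ M : ℝ, M ≤ log (x (N + 12 + j)) + C → M ≤ max Q' (log Q' + C) := by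
    intro j hj M hM
    have h1 := log_le_log (hx0 (N + 12 + j)) (hall j hj)
    exact (hM.trans (by linarith)).trans (le_max_right _ _)
  -- the cube root
  obtain ⟨t, ht⟩ : ∃ t : ℝ, t = x (N + 12) ^ (1 / 3 : ℝ) := ⟨_, rfl⟩
  have ht1 : 1 ≤ t := by
    rw [ht]
    exact one_le_rpow (by linarith) (by norm_num)
  have ht3 : t ^ 3 = x (N + 12) := by
    rw [ht, ← rpow_natCast, ← rpow_mul hX0.le]
    norm_num
  rcases le_total t (x (N + 10)) with hcase | hcase
  · obtain ⟨u1, u2⟩ := caA hc ha (by linarith) ht3 (by linarith) (by linarith) (hx0 (N + 13)) v3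
      (hx0 (N + 14)) hcase (by linarith) hp1c F2 (by linarith) (by linarith)
    have hlog0 : 0 ≤ log (x (N + 12)) := log_nonneg (by linarith)
    have hIn := mkIn (n := N + 11) hx u1 v1 v2 u2 hlog0
    obtain ⟨M', s', hSt, hM'⟩ := hrough x (N + 11) 1 _ hx hIn
      (show m ≤ log (x (N + 12)) by linarith) le_rfl u2
    exact ⟨6, by norm_num, M', s', hSt, hMP 0 (by norm_num) M' hM', hallP⟩
  · obtain ⟨u0, u1, u2, u3, u4⟩ := caB (B := B) hc ha ht1 ht3 (by linarith) (hx0 (N + 13)) v3 v4 v1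
      v2 (hx0 (N + 14)) (hx0 (N + 15)) (hx0 (N + 16)) (hx0 (N + 10)) hcase (hx0 (N + 11)) w1 F2 F3
      F4 (by linarith) (by linarith) (by linarith) (by linarith) (by linarith) (by linarith)
      (by linarith)
    have hlog0 : 0 ≤ log (x (N + 14)) := by linarith
    have hIn := mkIn (n := N + 13) hx u1 u2 u3 u4 hlog0
    obtain ⟨M', s', hSt, hM'⟩ := hrough x (N + 13) 1 _ hx hIn
      (show m ≤ log (x (N + 14)) by linarith) le_rfl u4
    exact ⟨8, by norm_num, M', s', hSt, hMP 2 (by norm_num) M' hM', hallP⟩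

end Pool.Agent.H78.K4
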