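import Pool.Agent.H78.K4.Step524
import Pool.Agent.H78.K4.Iter524

/-!
# Records of (5,24)

`X = x n > T` (large), `x_{-j} = x (n-j) ≤ T < X` for `1 ≤ j ≤ 12`, `V = x_{-2}`; `C` = constants.
(E0) `X (x_{-3} + c x_{-4}) = a + V`, so `x_{-3} ≤ (a + V) / X ≤ 2` (`a ≤ X`), `c x_{-4} ≤ (a + V) / X`.
(E1) `x_{-1} (x_{-4} + c x_{-5}) = a + x_{-3} ≤ a + 2`.
(E2) `V (x_{-5} + c x_{-6}) = a + x_{-4} ≤ a + 2 / c`, so `x_{-5}, x_{-6} ≤ C / V`.
(E3) `x_{-3} (x_{-6} + c x_{-7}) = a + x_{-5}`; as `x_{-3} ≤ (a + V) / X` and the terms are `< X`: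
  `x_{-5} ≤ (1 + c) (a + V)`. (E4) `x_{-4} (x_{-7} + c x_{-8}) = a + x_{-6}`: `x_{-6} ≤ (1 + c) (a + V) / c`.
(i) `V ≥ c0 > 0`: if `V ≤ 1`, (E2) gives `a ≤ V (x_{-5} + c x_{-6}) ≤ 2 V (1 + c) (a + 1)`. Hence
  `x_{-5}, x_{-6} ≤ C`.
(E3) again: `x_{-3} x_{-6} ≤ ((a + V) / X) (C / V) ≤ C / X ≤ a / 2`, so `c x_{-3} x_{-7} ≥ a / 2`,
  `x_{-7} ≥ X / (C V)`, in particular `x_{-7} ≥ 1 / C`, and `x_{-6} ≤ C x_{-7}`.
(ii) `x_{-1} ≤ C V`: (E5) `x_{-5} (x_{-8} + c x_{-9}) = a + x_{-7}`, the bracket is `≤ (1 + c) X`, so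
  `x_{-5} ≥ 1 / (C V)`; use (E1).
(iii) `x_{-1} V ≤ C X`: (E4) gives `x_{-4} ≤ C / x_{-7}`, (E3) gives `x_{-3} ≥ a / (C x_{-7})`, so
  `x_{-4} ≤ C x_{-3}` and by (E0) `x_{-3} ≥ V / (C X)`; (E3): `x_{-7} ≤ C / x_{-3} ≤ C X / V`;
  (E6) `x_{-6} (x_{-9} + c x_{-10}) = a + x_{-8}`: `x_{-8} ≤ C X / V`; (E4): `x_{-4} ≥ V / (C X)`; (E1).
Forward: `x_1 (V + c x_{-3}) = a + x_{-1}`, `x_2 (x_{-1} + c V) = a + X`, so
`X / (C V) ≤ x_2 ≤ (a + X) / (c V)`, `x_1 ≤ (a + x_{-1}) / V ≤ C`.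
Case A `V ≥ X^(1/4)`: `In524 Ki x (n-1)`: `x_{-1} ≤ C X / V ≤ C x_2`; `x_1 ≤ C`;
  `x_1 X ≤ (a + C X / V) X / V ≤ C x_2 (1 + x_2)`; `|log x_2| ≤ 3/4 log X + C ≤ 39/50 log X`.
  `rough524` at `n - 1` gives a state at `n + 8`.
Case B `V < X^(1/4)`: `In524 Ki x (n+1)`: large term `x_2` (`≥ X^(3/4) / C`, `≤ C X`), `x_1 ≤ C`,
  `x_3 (X + c x_{-1}) = a + x_1`: `x_3 ≤ C / X`; `x_4 (x_1 + c X) = a + x_2`: `x_4` is between
  `x_2 / (C X)` and `C x_2 / X` , `x_3 x_2 ≤ C x_4`; `|log x_4| ≤ 1/4 log X + C ≤ 39/50 log x_2`.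
  `rough524` at `n + 1` gives a state at `n + 10`.
The bound `P` for `x (n + j)`: `iter524` at `n - 4` (all terms before `n` are at most `T`, and
`x (n-4), …, x (n-1)` are at least `a / ((1 + c) T)`); then `M' ≤ log Q' + C`.
-/

namespace Pool.Agent.H78.K4

open Real

/-- the window before a record: first part -/
private theorem winA {a c X p2 p3 p4 p5 p6 p7 p8 c0 : ℝ} (ha : 0 < a) (hc : 0 < c) (hX : a ≤ X)
    (h2 : 0 < p2) (h3 : 0 < p3) (h4 : 0 < p4) (h5 : 0 < p5) (h6 : 0 < p6)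
    (l2 : p2 ≤ X) (l6 : p6 ≤ X) (l7 : p7 ≤ X) (l8 : p8 ≤ X)
    (E0 : X * (p3 + c * p4) = a + p2) (E2 : p2 * (p5 + c * p6) = a + p4)
    (E3 : p3 * (p6 + c * p7) = a + p5) (E4 : p4 * (p7 + c * p8) = a + p6)
    (hc0 : c0 = a / (2 * (1 + c) * (a + 1))) :
    X * p3 ≤ a + p2 ∧ p3 ≤ 2 ∧ p2 * p5 ≤ a + 2 / c ∧ p2 * (c * p6) ≤ a + 2 / c ∧ c0 ≤ p2 := by
  have hX0 : 0 < X := by linarith
  have k1 : 0 < X * (c * p4) := by positivity
  have k2 : 0 < X * p3 := by positivity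
  have e1 : X * p3 ≤ a + p2 := by linarith
  have e1' : X * (c * p4) ≤ a + p2 := by linarith
  have e2 : p3 ≤ 2 := by
    have h7 : X * p3 ≤ X * 2 := by linarith
    exact le_of_mul_le_mul_left h7 hX0
  have e3 : p4 ≤ 2 / c := by
    rw [le_div_iff₀ hc]
    have h7 : X * (c * p4) ≤ X * 2 := by linarith
    have := le_of_mul_le_mul_left h7 hX0
    linarith
  have e4 : p2 * p5 ≤ a + 2 / c := by
    have : 0 < p2 * (c * p6) := by positivity
    linarith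
  have e5 : p2 * (c * p6) ≤ a + 2 / c := by
    have : 0 < p2 * p5 := by positivity
    linarith
  have f5 : p5 ≤ (1 + c) * (a + p2) := by
    have h7 : p6 + c * p7 ≤ (1 + c) * X := by
      have := mul_le_mul_of_nonneg_left l7 hc.le
      linarith
    have h8 := mul_le_mul_of_nonneg_left h7 h3.le
    have h9 : (1 + c) * (X * p3) ≤ (1 + c) * (a + p2) :=
      mul_le_mul_of_nonneg_left e1 (by linarith)
    linarith
  have f6 : c * p6 ≤ (1 + c) * (a + p2) := by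
    have h7 : p7 + c * p8 ≤ (1 + c) * X := by
      have := mul_le_mul_of_nonneg_left l8 hc.le
      linarith
    have h8 := mul_le_mul_of_nonneg_left (mul_le_mul_of_nonneg_left h7 h4.le) hc.le
    have h9 : (1 + c) * (X * (c * p4)) ≤ (1 + c) * (a + p2) :=
      mul_le_mul_of_nonneg_left e1' (by linarith)
    have h10 : 0 < c * a := mul_pos hc ha
    rw [E4] at h8
    linarith
  have hden : 0 < 2 * (1 + c) * (a + 1) := by positivity
  refine ⟨e1, e2, e4, e5, ?_⟩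
  rw [hc0, div_le_iff₀ hden]
  have hca : 0 < c * a := mul_pos hc ha
  rcases le_total 1 p2 with h7 | h7
  · have h8 : 1 * (2 * (1 + c) * (a + 1)) ≤ p2 * (2 * (1 + c) * (a + 1)) :=
      mul_le_mul_of_nonneg_right h7 hden.le
    linarith
  · have h8 : p5 + c * p6 ≤ 2 * (1 + c) * (a + 1) := by
      have h9 : (1 + c) * (a + p2) ≤ (1 + c) * (a + 1) :=
        mul_le_mul_of_nonneg_left (by linarith) (by linarith)
      linarith
    have h10 := mul_le_mul_of_nonneg_left h8 h2.le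
    linarith

/-- the window before a record: `p1 ≤ A1 * p2` -/
private theorem winB {a c X p1 p2 p3 p4 p5 p6 p7 p8 p9 c0 A2 A7 C7 : ℝ} (ha : 0 < a) (hc : 0 < c)
    (hX : 0 < X) (h1 : 0 < p1) (h2 : 0 < p2) (h3 : 0 < p3) (h4 : 0 < p4) (h5 : 0 < p5)
    (h6 : 0 < p6) (h7 : 0 < p7) (l2 : p2 ≤ X) (l8 : p8 ≤ X) (l9 : p9 ≤ X)
    (E1 : p1 * (p4 + c * p5) = a + p3) (E3 : p3 * (p6 + c * p7) = a + p5)
    (E5 : p5 * (p8 + c * p9) = a + p7) (hp3 : X * p3 ≤ a + p2) (hp3' : p3 ≤ 2)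
    (hc0 : 0 < c0) (hc0p : c0 ≤ p2) (h26 : p2 * (c * p6) ≤ A2)
    (hA7 : A7 = a / c0 + 1) (hC7 : C7 = 2 * c * A7 / a) (hbig : 2 * (A7 * A2) / (a * c) ≤ X) :
    X ≤ C7 * (p7 * p2) ∧ 1 ≤ C7 * p7 ∧ p1 ≤ C7 * (1 + c) / c * (a + 2) * p2 := by
  have hA70 : 0 < A7 := by
    rw [hA7]
    positivity
  have hC70 : 0 < C7 := by
    rw [hC7]
    positivity
  have g1 : a + p2 ≤ A7 * p2 := by
    have h8 : a ≤ a / c0 * p2 := by
      rw [div_mul_eq_mul_div, le_div_iff₀ hc0]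
      exact mul_le_mul_of_nonneg_left hc0p ha.le
    rw [hA7]
    linarith
  have g2 : X * (p3 * p6) ≤ X * (a / 2) := by
    have h8 : c * (X * p3 * p6) ≤ A7 * A2 := by
      have h9 := mul_le_mul_of_nonneg_right (hp3.trans g1) h6.le
      have h10 := mul_le_mul_of_nonneg_left h9 hc.le
      have h11 := mul_le_mul_of_nonneg_left h26 hA70.le
      linarith
    rw [div_le_iff₀ (mul_pos ha hc)] at hbig
    have h12 : c * (X * (p3 * p6)) ≤ c * (X * (a / 2)) := by linarith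
    exact le_of_mul_le_mul_left h12 hc
  have g3 : p3 * p6 ≤ a / 2 := le_of_mul_le_mul_left g2 hX
  have g4 : a / 2 ≤ c * (p3 * p7) := by linarith
  have g5 : a * X ≤ 2 * c * A7 * (p7 * p2) := by
    have h8 := mul_le_mul_of_nonneg_left g4 hX.le
    have h9 := mul_le_mul_of_nonneg_left (hp3.trans g1) (mul_pos hc h7).le
    linarith
  have g6 : X ≤ C7 * (p7 * p2) := by
    rw [hC7, div_mul_eq_mul_div, le_div_iff₀ ha]
    linarith
  have g7 : 1 ≤ C7 * p7 := by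
    have h8 : C7 * p7 * p2 ≤ C7 * p7 * X := mul_le_mul_of_nonneg_left l2 (mul_pos hC70 h7).le
    have h9 : 1 * X ≤ C7 * p7 * X := by linarith
    exact le_of_mul_le_mul_right h9 hX
  refine ⟨g6, g7, ?_⟩
  have g8 : p7 ≤ p5 * ((1 + c) * X) := by
    have h8 : p8 + c * p9 ≤ (1 + c) * X := by
      have := mul_le_mul_of_nonneg_left l9 hc.le
      linarith
    have h9 := mul_le_mul_of_nonneg_left h8 h5.le
    linarith
  have g9 : 1 ≤ C7 * (1 + c) * (p2 * p5) := by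
    have h8 := mul_le_mul_of_nonneg_left g8 (mul_pos hC70 h2).le
    have h9 : 1 * X ≤ C7 * (1 + c) * (p2 * p5) * X := by linarith
    exact le_of_mul_le_mul_right h9 hX
  have g10 : p1 * (c * p5) ≤ a + 2 := by
    have : 0 < p1 * p4 := mul_pos h1 h4
    linarith
  have g11 : p1 ≤ C7 * (1 + c) * (p2 * p5) * p1 := by
    have h8 := mul_le_mul_of_nonneg_right g9 h1.le
    linarith
  have g12 : c * p1 ≤ C7 * (1 + c) * (a + 2) * p2 := by
    have h8 := mul_le_mul_of_nonneg_left g11 hc.le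
    have h9 : 0 < C7 * (1 + c) * p2 := by positivity
    have h10 := mul_le_mul_of_nonneg_left g10 h9.le
    linarith
  have g13 : C7 * (1 + c) / c * (a + 2) * p2 = C7 * (1 + c) * (a + 2) * p2 / c := by ring
  rw [g13, le_div_iff₀ hc]
  linarith

/-- the window before a record: `p1 * p2 ≤ A9 * X` -/
private theorem winC {a c X p1 p2 p3 p4 p5 p6 p7 p8 p9 p10 c0 A2 C7 A5 A6 G A4 A3 H : ℝ}
    (ha : 0 < a) (hc : 0 < c)
    (hX : 0 < X) (h1 : 0 < p1) (h2 : 0 < p2) (h3 : 0 < p3) (h4 : 0 < p4) (h5 : 0 < p5)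
    (h6 : 0 < p6) (h7 : 0 < p7) (h8 : 0 < p8) (l9 : p9 ≤ X) (l10 : p10 ≤ X)
    (E0 : X * (p3 + c * p4) = a + p2) (E1 : p1 * (p4 + c * p5) = a + p3)
    (E3 : p3 * (p6 + c * p7) = a + p5) (E4 : p4 * (p7 + c * p8) = a + p6)
    (E6 : p6 * (p9 + c * p10) = a + p8) (hp3' : p3 ≤ 2)
    (hc0 : 0 < c0) (hc0p : c0 ≤ p2) (h25 : p2 * p5 ≤ A2) (h26 : p2 * (c * p6) ≤ A2)
    (hC70 : 0 < C7) (h17 : 1 ≤ C7 * p7) (hA5 : A5 = A2 / c0) (hA6 : A6 = A2 / (c * c0))
    (hG : G = A6 * C7 + c) (hA4 : A4 = (a + A6) * G / a) (hA3 : A3 = 1 + c * A4)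
    (hH : H = A3 * (a + A5) / c + A2 * (1 + c)) :
    p1 * p2 ≤ (a + 2) * H / a * X := by
  have hcc : 0 < c * c0 := mul_pos hc hc0
  have u5 : p5 ≤ A5 := by
    rw [hA5, le_div_iff₀ hc0]
    have := mul_le_mul_of_nonneg_right hc0p h5.le
    linarith
  have u6 : p6 ≤ A6 := by
    rw [hA6, le_div_iff₀ hcc]
    have := mul_le_mul_of_nonneg_right hc0p (mul_pos hc h6).le
    linarith
  have hA60 : 0 < A6 := lt_of_lt_of_le h6 u6
  have hG0 : 0 < G := by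
    rw [hG]
    positivity
  have hA40 : 0 < A4 := by
    rw [hA4]
    positivity
  have hA30 : 0 < A3 := by
    rw [hA3]
    positivity
  have g1 : p6 + c * p7 ≤ G * p7 := by
    have h9 := mul_le_mul_of_nonneg_left h17 hA60.le
    rw [hG]
    linarith
  have g2 : a ≤ G * (p3 * p7) := by
    have h9 := mul_le_mul_of_nonneg_left g1 h3.le
    linarith
  have g3 : p4 * p7 ≤ a + A6 := by
    have : 0 < p4 * (c * p8) := by positivity
    linarith
  have g4 : p4 ≤ A4 * p3 := by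
    rw [hA4, div_mul_eq_mul_div, le_div_iff₀ ha]
    have h9 := mul_le_mul_of_nonneg_left g2 (by linarith : (0 : ℝ) ≤ a + A6)
    have h10 := mul_le_mul_of_nonneg_left g3 ha.le
    have h11 : p4 * a * p7 ≤ (a + A6) * G * p3 * p7 := by linarith
    exact le_of_mul_le_mul_right h11 h7
  have g5 : p2 ≤ X * p3 * A3 := by
    have h9 := mul_le_mul_of_nonneg_left g4 (mul_pos hX hc).le
    rw [hA3]
    linarith
  have g6 : c * (p3 * p7) ≤ a + A5 := by
    have : 0 < p3 * p6 := mul_pos h3 h6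
    linarith
  have g7 : p2 * p7 ≤ A3 * (a + A5) / c * X := by
    have h9 := mul_le_mul_of_nonneg_right g5 h7.le
    have h10 := mul_le_mul_of_nonneg_left g6 (mul_pos hX hA30).le
    rw [div_mul_eq_mul_div, le_div_iff₀ hc]
    have h11 := mul_le_mul_of_nonneg_right h9 hc.le
    linarith
  have g8 : c * (p2 * p8) ≤ A2 * (1 + c) * X := by
    have h9 : p9 + c * p10 ≤ (1 + c) * X := by
      have := mul_le_mul_of_nonneg_left l10 hc.le
      linarith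
    have h10 := mul_le_mul_of_nonneg_left h9 h6.le
    have h11 : p8 ≤ p6 * ((1 + c) * X) := by linarith
    have h12 := mul_le_mul_of_nonneg_left h11 (mul_pos hc h2).le
    have h13 : 0 < (1 + c) * X := by positivity
    have h14 := mul_le_mul_of_nonneg_right h26 h13.le
    linarith
  have g9 : a * p2 ≤ p4 * (H * X) := by
    have h9 : p2 * (p4 * (p7 + c * p8)) = p2 * (a + p6) := by rw [E4]
    have h10 := mul_le_mul_of_nonneg_left (add_le_add g7 g8) h4.le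
    have h11 : 0 < p2 * p6 := mul_pos h2 h6
    have h12 : H * X = A3 * (a + A5) / c * X + A2 * (1 + c) * X := by
      rw [hH]
      ring
    rw [h12]
    linarith
  have g10 : p1 * p4 ≤ a + 2 := by
    have : 0 < p1 * (c * p5) := by positivity
    linarith
  have hHX : 0 < H * X := by
    have h9 : 0 < p4 * (H * X) := lt_of_lt_of_le (mul_pos ha h2) g9
    exact (mul_pos_iff_of_pos_left h4).1 h9
  rw [div_mul_eq_mul_div, le_div_iff₀ ha]
  have h9 := mul_le_mul_of_nonneg_left g9 h1.le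
  have h10 := mul_le_mul_of_nonneg_right g10 hHX.le
  linarith

/-- case A: `p2` large -/
private theorem caA {a c X t p1 p2 p3 x1 x2 c0 A1 A9 k1 Ki : ℝ} (ha : 0 < a) (hc : 0 < c)
    (ht : 0 < t) (htX : t ^ 4 = X) (haX : a ≤ X) (h1 : 0 < p1) (h2 : 0 < p2) (h3 : 0 < p3)
    (hx1 : 0 < x1) (hx2 : 0 < x2) (hc0 : 0 < c0) (hc0p : c0 ≤ p2) (l2 : p2 ≤ X) (hp2 : t ≤ p2)
    (hA1 : 0 < A1) (hp1 : p1 ≤ A1 * p2) (hp12 : p1 * p2 ≤ A9 * X)
    (F1 : x1 * (p2 + c * p3) = a + p1) (F2 : x2 * (p1 + c * p2) = a + X) (hA9 : 0 < A9)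
    (hk1 : k1 = A9 * (A1 + c)) (hKi1 : k1 ≤ Ki) (hKi2 : a / c0 + A1 ≤ Ki)
    (hKi3 : (A1 + c) * (a + k1) ≤ Ki) (hl1 : 100 / 3 * log (2 / c) ≤ log X)
    (hl2 : 50 / 39 * log (A1 + c) ≤ log X) :
    p1 ≤ Ki * (1 + x2) ∧ x1 ≤ Ki ∧ x1 * X ≤ Ki * (x2 * (1 + x2)) ∧
      |log x2| ≤ 39 / 50 * log X := by
  have hX0 : 0 < X := by linarith
  have hA1c : 0 < A1 + c := by linarith
  have hk10 : 0 < k1 := by
    rw [hk1]
    positivity
  have b1 : x1 * p2 ≤ a + p1 := by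
    have : 0 < x1 * (c * p3) := by positivity
    linarith
  have b2 : X ≤ (A1 + c) * (p2 * x2) := by
    have h4 := mul_le_mul_of_nonneg_left hp1 hx2.le
    linarith
  have b3 : c * (p2 * x2) ≤ 2 * X := by
    have : 0 < x2 * p1 := mul_pos hx2 h1
    linarith
  have g1 : p1 ≤ k1 * x2 := by
    have h4 := mul_le_mul_of_nonneg_left b2 hA9.le
    have h5 : p1 * p2 ≤ k1 * x2 * p2 := by
      rw [hk1]
      linarith
    exact le_of_mul_le_mul_right h5 h2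
  have g2 : x1 ≤ a / c0 + A1 := by
    have h4 : a ≤ a / c0 * p2 := by
      rw [div_mul_eq_mul_div, le_div_iff₀ hc0]
      exact mul_le_mul_of_nonneg_left hc0p ha.le
    have h5 : x1 * p2 ≤ (a / c0 + A1) * p2 := by linarith
    exact le_of_mul_le_mul_right h5 h2
  refine ⟨?_, g2.trans hKi2, ?_, ?_⟩
  · have h4 := mul_le_mul_of_nonneg_right hKi1 hx2.le
    have h5 : 0 < Ki := lt_of_lt_of_le hk10 hKi1
    linarith
  · have h4 := mul_le_mul_of_nonneg_left b2 hx1.le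
    have h5 : x1 * p2 ≤ a + k1 * x2 := by linarith
    have h6 := mul_le_mul_of_nonneg_left h5 (mul_pos hA1c hx2).le
    have h7 := mul_le_mul_of_nonneg_right hKi3 (mul_pos hx2 (by linarith : 0 < 1 + x2)).le
    have h8 : (A1 + c) * x2 * (a + k1 * x2) ≤ (A1 + c) * (a + k1) * (x2 * (1 + x2)) := by
      have h9 : a + k1 * x2 ≤ (a + k1) * (1 + x2) := by
        have : 0 < a * x2 := mul_pos ha hx2
        linarith
      have h10 := mul_le_mul_of_nonneg_left h9 (mul_pos hA1c hx2).le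
      linarith
    linarith
  · have hlX : log X = 4 * log t := by
      rw [← htX, log_pow]
      norm_num
    have h4 : x2 ≤ 2 / c * t ^ 3 := by
      have h5 : c * (t * x2) ≤ 2 * t ^ 4 := by
        have h6 := mul_le_mul_of_nonneg_right hp2 (mul_pos hc hx2).le
        rw [htX]
        linarith
      have h6 : x2 * c ≤ 2 * t ^ 3 := by
        have h7 : x2 * c * t ≤ 2 * t ^ 3 * t := by linarith
        exact le_of_mul_le_mul_right h7 ht
      rw [div_mul_eq_mul_div, le_div_iff₀ hc]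
      exact h6
    have h5 : log x2 ≤ log (2 / c) + 3 * log t := by
      have h6 := log_le_log hx2 h4
      rw [log_mul (by positivity) (by positivity), log_pow] at h6
      push_cast at h6
      exact h6
    have h6 : 1 ≤ (A1 + c) * x2 := by
      have h7 := mul_le_mul_of_nonneg_right l2 (mul_pos hA1c hx2).le
      have h8 : 1 * X ≤ (A1 + c) * x2 * X := by linarith
      exact le_of_mul_le_mul_right h8 hX0
    have h7 : 0 ≤ log (A1 + c) + log x2 := by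
      rw [← log_mul hA1c.ne' hx2.ne']
      exact log_nonneg h6
    rw [abs_le]
    constructor
    · linarith
    · linarith

/-- case B: `p2` small -/
private theorem caB {a c X t p1 p2 p3 x1 x2 x3 x4 c0 A1 B1 Ki B : ℝ} (ha : 0 < a) (hc : 0 < c)
    (ht : 1 ≤ t) (htX : t ^ 4 = X) (haX : a ≤ X) (h1 : 0 < p1) (h2 : 0 < p2) (h3 : 0 < p3)
    (hx1 : 0 < x1) (hx2 : 0 < x2) (hx3 : 0 < x3) (hx4 : 0 < x4) (hc0 : 0 < c0) (hc0p : c0 ≤ p2)
    (hp2 : p2 ≤ t) (hA1 : 0 < A1) (hp1 : p1 ≤ A1 * p2)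
    (F1 : x1 * (p2 + c * p3) = a + p1) (F2 : x2 * (p1 + c * p2) = a + X)
    (F3 : x3 * (X + c * p1) = a + x1) (F4 : x4 * (x1 + c * X) = a + x2)
    (hB1 : B1 = a / c0 + A1) (hKi1 : a + B1 ≤ Ki) (hKi2 : (a + B1) * (B1 + c) ≤ Ki)
    (hb1 : log a ≤ B) (hb2 : 2 * (log (2 / c) + log (2 / (c * c0))) ≤ B)
    (hb3 : 3 * (4 / 3 * log (A1 + c) + log (B1 + c)) ≤ B) (hB0 : 0 ≤ B)
    (hl : 4 / 3 * (B + log (A1 + c)) ≤ log X) :
    B ≤ log x2 ∧ x1 ≤ Ki * (1 + x4) ∧ x3 ≤ Ki ∧ x3 * x2 ≤ Ki * (x4 * (1 + x4)) ∧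
      |log x4| ≤ 39 / 50 * log x2 := by
  have ht0 : 0 < t := by linarith
  have hX0 : 0 < X := by linarith
  have hX1 : 1 ≤ X := by
    rw [← htX]
    exact one_le_pow₀ ht
  have hA1c : 0 < A1 + c := by linarith
  have hB10 : 0 < B1 := by
    rw [hB1]
    positivity
  have hB1c : 0 < B1 + c := by linarith
  have hcc : 0 < c * c0 := mul_pos hc hc0
  have hlX : log X = 4 * log t := by
    rw [← htX, log_pow]
    norm_num
  have b1 : x1 * p2 ≤ a + p1 := by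
    have : 0 < x1 * (c * p3) := by positivity
    linarith
  have b2 : X ≤ (A1 + c) * (p2 * x2) := by
    have h4 := mul_le_mul_of_nonneg_left hp1 hx2.le
    linarith
  have b3 : c * (p2 * x2) ≤ 2 * X := by
    have : 0 < x2 * p1 := mul_pos hx2 h1
    linarith
  have g2 : x1 ≤ B1 := by
    have h4 : a ≤ a / c0 * p2 := by
      rw [div_mul_eq_mul_div, le_div_iff₀ hc0]
      exact mul_le_mul_of_nonneg_left hc0p ha.le
    have h5 : x1 * p2 ≤ B1 * p2 := by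
      rw [hB1]
      linarith
    exact le_of_mul_le_mul_right h5 h2
  have g3 : t ^ 3 ≤ (A1 + c) * x2 := by
    have h4 := mul_le_mul_of_nonneg_right hp2 (mul_pos hA1c hx2).le
    have h5 : t ^ 3 * t ≤ (A1 + c) * x2 * t := by
      have : t ^ 3 * t = X := by rw [← htX]; ring
      rw [this]
      linarith
    exact le_of_mul_le_mul_right h5 ht0
  have g4 : 3 * log t ≤ log (A1 + c) + log x2 := by
    have h5 := log_le_log (by positivity) g3
    rw [log_mul hA1c.ne' hx2.ne', log_pow] at h5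
    push_cast at h5
    exact h5
  have g5 : log x2 ≤ log (2 / (c * c0)) + log X := by
    have h5 : x2 ≤ 2 / (c * c0) * X := by
      rw [div_mul_eq_mul_div, le_div_iff₀ hcc]
      have := mul_le_mul_of_nonneg_right hc0p (mul_pos hc hx2).le
      linarith
    have h6 := log_le_log hx2 h5
    rwa [log_mul (by positivity) hX0.ne'] at h6
  have hB : B ≤ log x2 := by linarith
  have hax2 : a ≤ x2 := (log_le_log_iff ha hx2).1 (hb1.trans hB)
  have g6 : x3 * X ≤ a + B1 := by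
    have : 0 < x3 * (c * p1) := by positivity
    linarith
  have g7 : x4 * (c * X) ≤ 2 * x2 := by
    have : 0 < x4 * x1 := mul_pos hx4 hx1
    linarith
  have g8 : x2 ≤ x4 * ((B1 + c) * X) := by
    have h5 : B1 ≤ B1 * X := by
      have := mul_le_mul_of_nonneg_left hX1 hB10.le
      linarith
    have h6 : x1 + c * X ≤ (B1 + c) * X := by linarith
    have := mul_le_mul_of_nonneg_left h6 hx4.le
    linarith
  have g9 : x3 ≤ a + B1 := by
    have h5 := mul_le_mul_of_nonneg_left hX1 hx3.le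
    linarith
  have hKi0 : 0 < Ki := by linarith
  refine ⟨hB, ?_, g9.trans hKi1, ?_, ?_⟩
  · have : 0 < Ki * x4 := mul_pos hKi0 hx4
    linarith
  · have h5 := mul_le_mul_of_nonneg_left g8 hx3.le
    have h6 := mul_le_mul_of_nonneg_right g6 (mul_pos hB1c hx4).le
    have h7 := mul_le_mul_of_nonneg_right hKi2 hx4.le
    have h8 : 0 < Ki * (x4 * x4) := by positivity
    linarith
  · have h12 : log x4 + log X ≤ log (2 / c) + log x2 := by
      have h13 : x4 * X ≤ 2 / c * x2 := by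
        rw [div_mul_eq_mul_div, le_div_iff₀ hc]
        linarith
      have h14 := log_le_log (by positivity) h13
      rwa [log_mul hx4.ne' hX0.ne', log_mul (by positivity) hx2.ne'] at h14
    have h13 : log x2 ≤ log x4 + (log (B1 + c) + log X) := by
      have h14 := log_le_log hx2 g8
      rwa [log_mul hx4.ne' (by positivity), log_mul hB1c.ne' hX0.ne'] at h14
    rw [abs_le]
    constructor
    · linarith
    · linarith

theorem rec524 {a c : ℝ} (ha : 0 < a) (hc : 0 < c) : ∃ K0 : ℝ, ∀ K ≥ K0, ∃ T0 : ℝ, ∀ T ≥ T0,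
    ∃ P : ℝ, ∀ (x : ℕ → ℝ) (n : ℕ), Eq524 a c x → 12 ≤ n → T < x n →
      (∀ j, 1 ≤ j → j ≤ 12 → x (n - j) ≤ T) →
      ∃ i ≤ 10, ∃ M s, St524 K x (n + i) M s ∧ M ≤ P ∧ ∀ j ≤ 20, x (n + j) ≤ P := by
  obtain ⟨K0, hK0⟩ := rough524 ha hc
  refine ⟨K0, fun K hK => ?_⟩
  -- the constants
  obtain ⟨c0, hc0⟩ : ∃ c0 : ℝ, c0 = a / (2 * (1 + c) * (a + 1)) := ⟨_, rfl⟩
  have hc00 : 0 < c0 := by
    rw [hc0]
    positivity
  obtain ⟨A2, hA2⟩ : ∃ A2 : ℝ, A2 = a + 2 / c := ⟨_, rfl⟩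
  have hA20 : 0 < A2 := by
    rw [hA2]
    positivity
  obtain ⟨A7, hA7⟩ : ∃ A7 : ℝ, A7 = a / c0 + 1 := ⟨_, rfl⟩
  have hA70 : 0 < A7 := by
    rw [hA7]
    positivity
  obtain ⟨C7, hC7⟩ : ∃ C7 : ℝ, C7 = 2 * c * A7 / a := ⟨_, rfl⟩
  have hC70 : 0 < C7 := by
    rw [hC7]
    positivity
  obtain ⟨A5, hA5⟩ : ∃ A5 : ℝ, A5 = A2 / c0 := ⟨_, rfl⟩
  have hA50 : 0 < A5 := by
    rw [hA5]
    positivity
  obtain ⟨A6, hA6⟩ : ∃ A6 : ℝ, A6 = A2 / (c * c0) := ⟨_, rfl⟩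
  have hA60 : 0 < A6 := by
    rw [hA6]
    positivity
  obtain ⟨G, hG⟩ : ∃ G : ℝ, G = A6 * C7 + c := ⟨_, rfl⟩
  have hG0 : 0 < G := by
    rw [hG]
    positivity
  obtain ⟨A4, hA4⟩ : ∃ A4 : ℝ, A4 = (a + A6) * G / a := ⟨_, rfl⟩
  have hA40 : 0 < A4 := by
    rw [hA4]
    positivity
  obtain ⟨A3, hA3⟩ : ∃ A3 : ℝ, A3 = 1 + c * A4 := ⟨_, rfl⟩
  have hA30 : 0 < A3 := by
    rw [hA3]
    positivity
  obtain ⟨H, hH⟩ : ∃ H : ℝ, H = A3 * (a + A5) / c + A2 * (1 + c) := ⟨_, rfl⟩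
  have hH0 : 0 < H := by
    rw [hH]
    positivity
  obtain ⟨A1, hA1⟩ : ∃ A1 : ℝ, A1 = C7 * (1 + c) / c * (a + 2) := ⟨_, rfl⟩
  have hA10 : 0 < A1 := by
    rw [hA1]
    positivity
  obtain ⟨A9, hA9⟩ : ∃ A9 : ℝ, A9 = (a + 2) * H / a := ⟨_, rfl⟩
  have hA90 : 0 < A9 := by
    rw [hA9]
    positivity
  obtain ⟨k1, hk1⟩ : ∃ k1 : ℝ, k1 = A9 * (A1 + c) := ⟨_, rfl⟩
  have hk10 : 0 < k1 := by
    rw [hk1]
    positivity
  obtain ⟨B1, hB1⟩ : ∃ B1 : ℝ, B1 = a / c0 + A1 := ⟨_, rfl⟩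
  have hB10 : 0 < B1 := by
    rw [hB1]
    positivity
  obtain ⟨Ki, hKi⟩ : ∃ Ki : ℝ, Ki = k1 + (A1 + c) * (a + k1) + (a + B1) + (a + B1) * (B1 + c) :=
    ⟨_, rfl⟩
  have y1 : 0 < (A1 + c) * (a + k1) := by positivity
  have y2 : 0 < (a + B1) * (B1 + c) := by positivity
  obtain ⟨C, m, hrough⟩ := hK0 K hK Ki
  obtain ⟨B, hB⟩ : ∃ B : ℝ, B = |m| + |log a| + |2 * (log (2 / c) + log (2 / (c * c0)))| +
      |3 * (4 / 3 * log (A1 + c) + log (B1 + c))| := ⟨_, rfl⟩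
  obtain ⟨L, hL⟩ : ∃ L : ℝ, L = |m| + |100 / 3 * log (2 / c)| + |50 / 39 * log (A1 + c)| +
      |4 / 3 * (B + log (A1 + c))| := ⟨_, rfl⟩
  have a1 := le_abs_self m
  have a2 := le_abs_self (log a)
  have a3 := le_abs_self (2 * (log (2 / c) + log (2 / (c * c0))))
  have a4 := le_abs_self (3 * (4 / 3 * log (A1 + c) + log (B1 + c)))
  have a5 := le_abs_self (100 / 3 * log (2 / c))
  have a6 := le_abs_self (50 / 39 * log (A1 + c))
  have a7 := le_abs_self (4 / 3 * (B + log (A1 + c)))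
  have n1 := abs_nonneg m
  have n2 := abs_nonneg (log a)
  have n3 := abs_nonneg (2 * (log (2 / c) + log (2 / (c * c0))))
  have n4 := abs_nonneg (3 * (4 / 3 * log (A1 + c) + log (B1 + c)))
  have n5 := abs_nonneg (100 / 3 * log (2 / c))
  have n6 := abs_nonneg (50 / 39 * log (A1 + c))
  have n7 := abs_nonneg (4 / 3 * (B + log (A1 + c)))
  have hQ2 : 0 < 2 * (A7 * A2) / (a * c) := by positivity
  have hL0 : 0 < exp L := exp_pos L
  have z1 : k1 ≤ Ki := by linarith only [hKi, y1, y2, ha, hB10]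
  have z2 : a / c0 + A1 ≤ Ki := by linarith only [hKi, y1, y2, ha, hB1, hk10]
  have z3 : (A1 + c) * (a + k1) ≤ Ki := by linarith only [hKi, y2, ha, hB10, hk10]
  have z4 : a + B1 ≤ Ki := by linarith only [hKi, y1, y2, hk10]
  have z5 : (a + B1) * (B1 + c) ≤ Ki := by linarith only [hKi, y1, ha, hB10, hk10]
  have d1 : m ≤ B := by linarith only [hB, a1, n2, n3, n4]
  have d2 : log a ≤ B := by linarith only [hB, a2, n1, n3, n4]
  have d3 : 2 * (log (2 / c) + log (2 / (c * c0))) ≤ B := by linarith only [hB, a3, n1, n2, n4]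
  have d4 : 3 * (4 / 3 * log (A1 + c) + log (B1 + c)) ≤ B := by
    linarith only [hB, a4, n1, n2, n3]
  have d5 : 0 ≤ B := by linarith only [hB, n1, n2, n3, n4]
  have r1 : m ≤ L := by linarith only [hL, a1, n5, n6, n7]
  have r2 : 100 / 3 * log (2 / c) ≤ L := by linarith only [hL, a5, n1, n6, n7]
  have r3 : 50 / 39 * log (A1 + c) ≤ L := by linarith only [hL, a6, n1, n5, n7]
  have r4 : 4 / 3 * (B + log (A1 + c)) ≤ L := by linarith only [hL, a7, n1, n5, n6]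
  clear hKi hL hB a1 a2 a3 a4 a5 a6 a7 n1 n2 n3 n4 n5 n6 n7 y1 y2
  refine ⟨2 + 2 * a + 2 * (A7 * A2) / (a * c) + exp L, fun T hT => ?_⟩
  obtain ⟨Q', hQ'⟩ := iter524 ha hc 24 (T + (1 + c) * T / a)
  have hT0 : 0 < T := by linarith only [hT, ha, hQ2, hL0]
  refine ⟨max Q' (log Q' + C), fun x n hx hn hXT hpre => ?_⟩
  obtain ⟨N, rfl⟩ : ∃ N, n = N + 12 := ⟨n - 12, by omega⟩
  have hx0 := hx.pos
  have q1 : x (N + 11) ≤ T := hpre 1 (by norm_num) (by norm_num)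
  have q2 : x (N + 10) ≤ T := hpre 2 (by norm_num) (by norm_num)
  have q3 : x (N + 9) ≤ T := hpre 3 (by norm_num) (by norm_num)
  have q4 : x (N + 8) ≤ T := hpre 4 (by norm_num) (by norm_num)
  have q5 : x (N + 7) ≤ T := hpre 5 (by norm_num) (by norm_num)
  have q6 : x (N + 6) ≤ T := hpre 6 (by norm_num) (by norm_num)
  have q7 : x (N + 5) ≤ T := hpre 7 (by norm_num) (by norm_num)
  have q8 : x (N + 4) ≤ T := hpre 8 (by norm_num) (by norm_num)
  have q9 : x (N + 3) ≤ T := hpre 9 (by norm_num) (by norm_num)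
  have q10 : x (N + 2) ≤ T := hpre 10 (by norm_num) (by norm_num)
  have E0 : x (N + 12) * (x (N + 9) + c * x (N + 8)) = a + x (N + 10) := hx.eq (N + 8)
  have E1 : x (N + 11) * (x (N + 8) + c * x (N + 7)) = a + x (N + 9) := hx.eq (N + 7)
  have E2 : x (N + 10) * (x (N + 7) + c * x (N + 6)) = a + x (N + 8) := hx.eq (N + 6)
  have E3 : x (N + 9) * (x (N + 6) + c * x (N + 5)) = a + x (N + 7) := hx.eq (N + 5)
  have E4 : x (N + 8) * (x (N + 5) + c * x (N + 4)) = a + x (N + 6) := hx.eq (N + 4)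
  have E5 : x (N + 7) * (x (N + 4) + c * x (N + 3)) = a + x (N + 5) := hx.eq (N + 3)
  have E6 : x (N + 6) * (x (N + 3) + c * x (N + 2)) = a + x (N + 4) := hx.eq (N + 2)
  have F1 : x (N + 13) * (x (N + 10) + c * x (N + 9)) = a + x (N + 11) := hx.eq (N + 9)
  have F2 : x (N + 14) * (x (N + 11) + c * x (N + 10)) = a + x (N + 12) := hx.eq (N + 10)
  have F3 : x (N + 15) * (x (N + 12) + c * x (N + 11)) = a + x (N + 13) := hx.eq (N + 11)
  have F4 : x (N + 16) * (x (N + 13) + c * x (N + 12)) = a + x (N + 14) := hx.eq (N + 12)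
  have hX0 := hx0 (N + 12)
  have hTX : T ≤ x (N + 12) := hXT.le
  have hX1 : 1 ≤ x (N + 12) := by linarith only [hTX, hT, ha, hQ2, hL0]
  have hXa : a ≤ x (N + 12) := by linarith only [hTX, hT, ha, hQ2, hL0]
  have hXq : 2 * (A7 * A2) / (a * c) ≤ x (N + 12) := by linarith only [hTX, hT, ha, hQ2, hL0]
  have hXL : L ≤ log (x (N + 12)) := by
    rw [le_log_iff_exp_le hX0]
    linarith only [hTX, hT, ha, hQ2, hL0]
  obtain ⟨w1, w2, w3, w4, w5⟩ := winA ha hc hXa (hx0 (N + 10)) (hx0 (N + 9)) (hx0 (N + 8))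
    (hx0 (N + 7)) (hx0 (N + 6)) (q2.trans hTX) (q6.trans hTX) (q7.trans hTX) (q8.trans hTX) E0 E2
    E3 E4 hc0
  rw [← hA2] at w3 w4
  obtain ⟨-, v2, v3⟩ := winB ha hc hX0 (hx0 (N + 11)) (hx0 (N + 10)) (hx0 (N + 9)) (hx0 (N + 8))
    (hx0 (N + 7)) (hx0 (N + 6)) (hx0 (N + 5)) (q2.trans hTX) (q8.trans hTX) (q9.trans hTX) E1 E3
    E5 w1 w2 hc00 w5 w4 hA7 hC7 hXq
  rw [← hA1] at v3
  have v4 := winC ha hc hX0 (hx0 (N + 11)) (hx0 (N + 10)) (hx0 (N + 9)) (hx0 (N + 8))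
    (hx0 (N + 7)) (hx0 (N + 6)) (hx0 (N + 5)) (hx0 (N + 4)) (q9.trans hTX) (q10.trans hTX) E0 E1
    E3 E4 E6 w2 hc00 w5 w3 w4 hC70 v2 hA5 hA6 hG hA4 hA3 hH
  rw [← hA9] at v4
  -- the bound `Q'`
  have hlow : ∀ y z w v : ℝ, 0 < y → 0 < v → z ≤ T → w ≤ T → y * (z + c * w) = a + v →
      1 ≤ (T + (1 + c) * T / a) * y := by
    intro y z w v hy hv hz hw h
    have h3 : z + c * w ≤ (1 + c) * T := by
      have := mul_le_mul_of_nonneg_left hw hc.le
      linarith only [this, hz]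
    have h4 := mul_le_mul_of_nonneg_left h3 hy.le
    have h6 : 1 ≤ (1 + c) * T / a * y := by
      rw [div_mul_eq_mul_div, le_div_iff₀ ha]
      linarith only [h4, h, hv]
    have h7 : 0 < T * y := mul_pos hT0 hy
    linarith only [h6, h7]
  have hall : ∀ j ≤ 20, x (N + 12 + j) ≤ Q' := by
    intro j hj
    have h1 : ∀ i < 4, x (N + 8 + i) ≤ T + (1 + c) * T / a := by
      have h0 : 0 < (1 + c) * T / a := by positivity
      intro i hi
      interval_cases i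
      · exact (show x (N + 8) ≤ T + (1 + c) * T / a by linarith only [q4, h0])
      · exact (show x (N + 9) ≤ T + (1 + c) * T / a by linarith only [q3, h0])
      · exact (show x (N + 10) ≤ T + (1 + c) * T / a by linarith only [q2, h0])
      · exact (show x (N + 11) ≤ T + (1 + c) * T / a by linarith only [q1, h0])
    have h2 : ∀ i < 4, 1 ≤ (T + (1 + c) * T / a) * x (N + 8 + i) := by
      intro i hi
      interval_cases i
      · exact hlow _ _ _ _ (hx0 (N + 8)) (hx0 (N + 6)) q7 q8 E4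
      · exact hlow _ _ _ _ (hx0 (N + 9)) (hx0 (N + 7)) q6 q7 E3
      · exact hlow _ _ _ _ (hx0 (N + 10)) (hx0 (N + 8)) q5 q6 E2
      · exact hlow _ _ _ _ (hx0 (N + 11)) (hx0 (N + 9)) q4 q5 E1
    have h3 := hQ' x (N + 8) hx h1 h2 (4 + j) (by omega)
    have h4 : N + 8 + (4 + j) = N + 12 + j := by omega
    rwa [h4] at h3
  have hallP : ∀ j ≤ 20, x (N + 12 + j) ≤ max Q' (log Q' + C) := fun j hj =>
    (hall j hj).trans (le_max_left _ _)
  have hMP : ∀ j ≤ 20, ∀ M : ℝ, |M - log (x (N + 12 + j))| ≤ C → M ≤ max Q' (log Q' + C) := by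
    intro j hj M hM
    have h1 := log_le_log (hx0 (N + 12 + j)) (hall j hj)
    have h2 := (abs_le.1 hM).2
    exact (show M ≤ log Q' + C by linarith only [h1, h2]).trans (le_max_right _ _)
  -- the fourth root
  obtain ⟨t, ht⟩ : ∃ t : ℝ, t = x (N + 12) ^ (1 / 4 : ℝ) := ⟨_, rfl⟩
  have ht1 : 1 ≤ t := by
    rw [ht]
    exact one_le_rpow hX1 (by norm_num)
  have ht4 : t ^ 4 = x (N + 12) := by
    rw [ht, ← rpow_natCast, ← rpow_mul hX0.le]
    norm_num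
  rcases le_total t (x (N + 10)) with hcase | hcase
  · obtain ⟨u1, u2, u3, u4⟩ := caA (Ki := Ki) ha hc (zero_lt_one.trans_le ht1) ht4 hXa (hx0 (N + 11))
      (hx0 (N + 10)) (hx0 (N + 9)) (hx0 (N + 13)) (hx0 (N + 14)) hc00 w5 (q2.trans hTX) hcase hA10
      v3 v4 F1 F2 hA90 hk1 z1 z2 z3 (r2.trans hXL) (r3.trans hXL)
    have hIn : In524 Ki x (N + 11) := ⟨u1, u2, u3⟩
    obtain ⟨M', s', hSt, hM', -⟩ := hrough x (N + 11) hx hIn
      (show m ≤ log (x (N + 12)) from r1.trans hXL) u4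
    exact ⟨8, by norm_num, M', s', hSt, hMP 0 (by norm_num) M' hM', hallP⟩
  · obtain ⟨u0, u1, u2, u3, u4⟩ := caB (Ki := Ki) (B := B) ha hc ht1 ht4 hXa (hx0 (N + 11))
      (hx0 (N + 10)) (hx0 (N + 9)) (hx0 (N + 13)) (hx0 (N + 14)) (hx0 (N + 15)) (hx0 (N + 16))
      hc00 w5 hcase hA10 v3 F1 F2 F3 F4 hB1 z4 z5 d2 d3 d4 d5 (r4.trans hXL)
    have hIn : In524 Ki x (N + 13) := ⟨u1, u2, u3⟩
    obtain ⟨M', s', hSt, hM', -⟩ := hrough x (N + 13) hx hIn
      (show m ≤ log (x (N + 14)) from d1.trans u0) u4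
    exact ⟨10, by norm_num, M', s', hSt, hMP 2 (by norm_num) M' hM', hallP⟩

end Pool.Agent.H78.K4
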