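import Mathlib

/-!
# MP_5c7d49_an, the cases (3,20) and (5,18): comparison up to a factor `exp e`
-/

namespace Pool.Agent.H78.K4

open Real

/-- `x` and `y` are positive and agree up to the factor `exp e` -/
structure R (e x y : ℝ) : Prop where
  px : 0 < x
  py : 0 < y
  le : x ≤ exp e * y
  ge : y ≤ exp e * x

namespace R

variable {e e' x y z x' y' : ℝ}

theorem symm (h : R e x y) : R e y x := ⟨h.py, h.px, h.ge, h.le⟩

theorem mono (h : R e x y) (he : e ≤ e') : R e' x y :=
  ⟨h.px, h.py, h.le.trans (mul_le_mul_of_nonneg_right (exp_le_exp.2 he) h.py.le),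
    h.ge.trans (mul_le_mul_of_nonneg_right (exp_le_exp.2 he) h.px.le)⟩

theorem refl (hx : 0 < x) (he : 0 ≤ e) : R e x x := by
  have h1 : x ≤ exp e * x := by
    have := one_le_exp he
    nlinarith
  exact ⟨hx, hx, h1, h1⟩

theorem trans (h : R e x y) (h' : R e' y z) : R (e + e') x z := by
  refine ⟨h.px, h'.py, ?_, ?_⟩
  · calc x ≤ exp e * y := h.le
      _ ≤ exp e * (exp e' * z) := mul_le_mul_of_nonneg_left h'.le (exp_pos _).le
      _ = exp (e + e') * z := by rw [exp_add]; ring
  · calc z ≤ exp e' * y := h'.ge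
      _ ≤ exp e' * (exp e * x) := mul_le_mul_of_nonneg_left h.ge (exp_pos _).le
      _ = exp (e + e') * x := by rw [exp_add]; ring

theorem add (h : R e x y) (h' : R e x' y') : R e (x + x') (y + y') := by
  refine ⟨add_pos h.px h'.px, add_pos h.py h'.py, ?_, ?_⟩
  · have := h.le; have := h'.le; linarith
  · have := h.ge; have := h'.ge; linarith

theorem mul (h : R e x y) (h' : R e' x' y') : R (e + e') (x * x') (y * y') := by
  refine ⟨mul_pos h.px h'.px, mul_pos h.py h'.py, ?_, ?_⟩
  · calc x * x' ≤ (exp e * y) * (exp e' * y') :=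
          mul_le_mul h.le h'.le h'.px.le (mul_pos (exp_pos _) h.py).le
      _ = _ := by rw [exp_add]; ring
  · calc y * y' ≤ (exp e * x) * (exp e' * x') :=
          mul_le_mul h.ge h'.ge h'.py.le (mul_pos (exp_pos _) h.px).le
      _ = _ := by rw [exp_add]; ring

theorem inv (h : R e x y) : R e x⁻¹ y⁻¹ := by
  refine ⟨inv_pos.2 h.px, inv_pos.2 h.py, ?_, ?_⟩
  · rw [← div_eq_mul_inv, inv_eq_one_div, div_le_div_iff₀ h.px h.py, one_mul]
    exact h.ge
  · rw [← div_eq_mul_inv, inv_eq_one_div, div_le_div_iff₀ h.py h.px, one_mul]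
    exact h.le

theorem div (h : R e x y) (h' : R e' x' y') : R (e + e') (x / x') (y / y') := by
  rw [div_eq_mul_inv, div_eq_mul_inv]
  exact h.mul h'.inv

theorem const_mul {k : ℝ} (hk : 0 < k) (h : R e x y) : R e (k * x) (k * y) := by
  have := (refl hk le_rfl).mul h
  rwa [zero_add] at this

/-- a small positive term does not matter -/
theorem small {δ : ℝ} (hx : 0 < x) (hz : 0 ≤ z) (h : z ≤ δ * x) : R δ (x + z) x := by
  have hδ : 0 ≤ δ := by
    by_contra hc
    push Not at hc
    nlinarith
  have h1 := add_one_le_exp δ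
  refine ⟨by linarith, hx, ?_, ?_⟩
  · nlinarith
  · have := one_le_exp hδ
    nlinarith

theorem small' {δ : ℝ} (hx : 0 < x) (hz : 0 ≤ z) (h : z ≤ δ * x) : R δ (z + x) x := by
  rw [add_comm]
  exact small hx hz h

theorem log_le (h : R e x y) : |log x - log y| ≤ e := by
  have h1 : log x ≤ e + log y := by
    have := Real.log_le_log h.px h.le
    rwa [log_mul (exp_pos _).ne' h.py.ne', log_exp] at this
  have h2 : log y ≤ e + log x := by
    have := Real.log_le_log h.py h.ge
    rwa [log_mul (exp_pos _).ne' h.px.ne', log_exp] at this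
  rw [abs_le]
  constructor <;> linarith

theorem of_log (hx : 0 < x) (hy : 0 < y) (h : |log x - log y| ≤ e) : R e x y := by
  rw [abs_le] at h
  refine ⟨hx, hy, ?_, ?_⟩
  · calc x = exp (Real.log x) := (exp_log hx).symm
      _ ≤ exp (e + Real.log y) := exp_le_exp.2 (by linarith [h.2])
      _ = exp e * y := by rw [exp_add, exp_log hy]
  · calc y = exp (Real.log y) := (exp_log hy).symm
      _ ≤ exp (e + Real.log x) := exp_le_exp.2 (by linarith [h.1])
      _ = exp e * x := by rw [exp_add, exp_log hx]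

end R

end Pool.Agent.H78.K4
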