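import Pool.Agent.H78.K4.Chain320
import Pool.Agent.H78.K4.Pot

/-!
# The transitions between states of (3,20)

Write `X = x (n+2)`, `S = x (n+3)`. If `|s| ≤ 4/5 M` then `E = exp (-M/5)` satisfies the conditions
`hX`, `hS`, `hi` of `In320`; a state with constant `K` gives `In320` with `e = K E` if `K E ≤ 1`
(`c w ≤ K / S = K / (S X) * X`, `K / X ≤ K E`).
* `rough320`: `chain320`; the constants of the window of `Out320` do not depend on `e`, `E`
  (`w`, `v`), so `K0 = C` works; `|M' - M| ≤ C'`, `|s' - s| ≤ C'` with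
  `C'` depending on `a`, `c` only (the quotient `(S + 1/c) / (S + q)` lies between positive constants
  and `1 / (1 + c ^ 2) ≤ G ≤ 1`), so `|s'| ≤ 4/5 M'` for `M` large.
* `t1_320`: the same with `e = K E`; `C (K + 1) E ≤ ε` for `M` large; use `R.log_le`.
* `term320`: `x_2, …, x_8` from `chain320`; all values are at most `C X ^ 2`.
-/

namespace Pool.Agent.H78.K4

open Real

private theorem exp_small {A ε M : ℝ} (hε : 0 < ε) (h : 5 * (A / ε) ≤ M) :
    A * exp (-(M / 5)) ≤ ε := by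
  have h1 : A / ε ≤ exp (M / 5) := by
    have := add_one_le_exp (M / 5)
    linarith
  rw [div_le_iff₀ hε] at h1
  have h2 : exp (M / 5) * exp (-(M / 5)) = 1 := by
    rw [← exp_add, add_neg_cancel, exp_zero]
  calc A * exp (-(M / 5)) ≤ (exp (M / 5) * ε) * exp (-(M / 5)) :=
        mul_le_mul_of_nonneg_right h1 (exp_pos _).le
    _ = ε * (exp (M / 5) * exp (-(M / 5))) := by ring
    _ = ε := by rw [h2, mul_one]

private theorem st_in {c K : ℝ} {x : ℕ → ℝ} {n : ℕ} {M s : ℝ} (hx : ∀ n, 0 < x n) (hK : 0 ≤ K)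
    (h : St320 c K x n M s) (hKE : K * exp (-(M / 5)) ≤ 1) :
    In320 c x n (K * exp (-(M / 5))) (exp (-(M / 5))) := by
  have eX : x (n + 2) = exp M := by rw [h.hM, exp_log (hx _)]
  have eS : x (n + 3) = exp s := by rw [h.hs, exp_log (hx _)]
  have h1 := h.one
  obtain ⟨d1, d2⟩ := abs_le.1 h.dom
  have hEX : exp (-(M / 5)) * exp M = exp (4 / 5 * M) := by
    rw [← exp_add]
    congr 1
    ring
  refine ⟨mul_nonneg hK (exp_pos _).le, hKE, exp_le_one_iff.2 (by linarith), ?_, ?_, ?_, ?_, ?_⟩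
  · rw [eX, mul_assoc, hEX]
    have hw := h.w
    rw [eS] at hw
    have h2 : exp s * exp (-s) = 1 := by rw [← exp_add, add_neg_cancel, exp_zero]
    calc c * x n = (c * x n * exp s) * exp (-s) := by rw [mul_assoc (c * x n), h2, mul_one]
      _ ≤ K * exp (-s) := mul_le_mul_of_nonneg_right hw (exp_pos _).le
      _ ≤ K * exp (4 / 5 * M) := mul_le_mul_of_nonneg_left (exp_le_exp.2 (by linarith)) hK
  · refine h.v.mono ?_
    rw [eX, div_eq_mul_inv, ← exp_neg]
    exact mul_le_mul_of_nonneg_left (exp_le_exp.2 (by linarith)) hK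
  · rw [eX, hEX]
    exact one_le_exp (by linarith)
  · rw [eX, eS, hEX]
    exact exp_le_exp.2 d2
  · rw [eX, eS, ← exp_add, ← exp_add]
    exact one_le_exp (by linarith)

private theorem lam_bd {p q S : ℝ} (hp : 0 < p) (hq : 0 < q) (hS : 0 < S) :
    (S + p) / (S + q) ≤ 1 + p / q ∧
      |log ((S + p) / (S + q))| ≤ log (1 + p / q) + log (1 + q / p) := by
  have hpq : 0 < p / q := div_pos hp hq
  have hqp : 0 < q / p := div_pos hq hp
  have h1 : (S + p) / (S + q) ≤ 1 + p / q := by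
    rw [div_le_iff₀ (by linarith)]
    have e1 : (1 + p / q) * (S + q) = S + p + (q + p / q * S) := by
      field_simp
      ring
    rw [e1]
    have := mul_pos hpq hS
    linarith
  have h2 : (S + q) / (S + p) ≤ 1 + q / p := by
    rw [div_le_iff₀ (by linarith)]
    have e1 : (1 + q / p) * (S + p) = S + q + (p + q / p * S) := by
      field_simp
      ring
    rw [e1]
    have := mul_pos hqp hS
    linarith
  refine ⟨h1, ?_⟩
  have l1 : 0 ≤ log (1 + p / q) := log_nonneg (by linarith)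
  have l2 : 0 ≤ log (1 + q / p) := log_nonneg (by linarith)
  have l3 : log ((S + p) / (S + q)) ≤ log (1 + p / q) :=
    log_le_log (div_pos (by linarith) (by linarith)) h1
  have l4 : log ((S + q) / (S + p)) ≤ log (1 + q / p) :=
    log_le_log (div_pos (by linarith) (by linarith)) h2
  have l5 : log ((S + q) / (S + p)) = -log ((S + p) / (S + q)) := by
    rw [← log_inv, inv_div]
  rw [l5] at l4
  rw [abs_le]
  constructor <;> linarith

private theorem G_bd {c X S : ℝ} (hc : 0 < c) (hX : 0 < X) (hS : 0 < S) :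
    0 < G320 c X S ∧ G320 c X S ≤ 1 ∧ |log (G320 c X S)| ≤ log (1 + c ^ 2) := by
  have h1 : 0 ≤ c ^ 2 * S ^ 2 / (S ^ 2 + c * X) := by positivity
  have h2 : c ^ 2 * S ^ 2 / (S ^ 2 + c * X) ≤ c ^ 2 := by
    rw [div_le_iff₀ (by positivity), mul_add]
    have := mul_pos (pow_pos hc 2) (mul_pos hc hX)
    linarith
  have h3 : G320 c X S = (1 + c ^ 2 * S ^ 2 / (S ^ 2 + c * X))⁻¹ := by
    unfold G320
    rw [one_div]
  have h4 : 0 < 1 + c ^ 2 * S ^ 2 / (S ^ 2 + c * X) := by linarith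
  rw [h3, log_inv]
  refine ⟨inv_pos.2 h4, inv_le_one_of_one_le₀ (by linarith), ?_⟩
  rw [abs_neg, abs_of_nonneg (log_nonneg (by linarith))]
  exact log_le_log h4 (by linarith)

private theorem q_pos {a c : ℝ} (ha : 0 < a) (hc : 0 < c) : 0 < q320 a c := by
  unfold q320
  positivity

/-- one cycle, with all the consequences -/
private theorem core {a c : ℝ} (ha : 0 < a) (hc : 0 < c) : ∃ C0 C1 m : ℝ, 0 < C0 ∧ 0 ≤ C1 ∧
    ∀ K ≥ C0, ∀ (x : ℕ → ℝ) (n : ℕ) (e E : ℝ), Eq320 a c x → In320 c x n e E →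
      m ≤ log (x (n + 2)) → |log (x (n + 3))| ≤ 3 / 4 * log (x (n + 2)) →
      St320 c K x (n + 7) (log (x (n + 9))) (log (x (n + 10))) ∧
      |log (x (n + 9)) - (log (x (n + 2)) + log ((x (n + 3) + 1 / c) / (x (n + 3) + q320 a c)) +
        log (G320 c (x (n + 2)) (x (n + 3))))| ≤ C0 * (e + E) ∧
      |log (x (n + 10)) - (log (x (n + 3)) + log (c / a) +
        log (G320 c (x (n + 2)) (x (n + 3))))| ≤ C0 * (e + E) ∧
      log (x (n + 9)) ≤ log (x (n + 2)) + C1 := by
  obtain ⟨C0, hC0, hch⟩ := chain320 ha hc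
  obtain ⟨L0, hL0⟩ : ∃ L0, L0 = log (1 + (1 / c) / q320 a c) + log (1 + q320 a c / (1 / c)) := ⟨_, rfl⟩
  obtain ⟨L1, hL1⟩ : ∃ L1, L1 = log (1 + c ^ 2) := ⟨_, rfl⟩
  obtain ⟨L2, hL2⟩ : ∃ L2, L2 = |log (c / a)| := ⟨_, rfl⟩
  have hq := q_pos ha hc
  have hp : 0 < 1 / c := by positivity
  have n0 : 0 ≤ L0 := by
    rw [hL0]
    have h1 : 0 ≤ log (1 + (1 / c) / q320 a c) := log_nonneg (by
      have := div_pos hp hq
      linarith)
    have h2 : 0 ≤ log (1 + q320 a c / (1 / c)) := log_nonneg (by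
      have := div_pos hq hp
      linarith)
    linarith
  have n1 : 0 ≤ L1 := by
    rw [hL1]
    exact log_nonneg (by
      have := pow_pos hc 2
      linarith)
  have n2 : 0 ≤ L2 := by
    rw [hL2]
    exact abs_nonneg _
  refine ⟨C0, 2 * C0 + L0 + L1, 20 * ((2 * C0 + L0 + L1) + (2 * C0 + L2 + L1)) + 1 +
    (2 * C0 + L0 + L1), hC0, by linarith, ?_⟩
  intro K hK x n e E hE hI hm hs
  obtain ⟨X, hX⟩ : ∃ X, X = x (n + 2) := ⟨_, rfl⟩
  obtain ⟨S, hS⟩ : ∃ S, S = x (n + 3) := ⟨_, rfl⟩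
  have o := hch x n e E hE hI
  rw [← hX] at hm hs ⊢
  rw [← hS] at hs ⊢
  rw [← hX, ← hS] at o
  have pX : 0 < X := by rw [hX]; exact hE.pos _
  have pS : 0 < S := by rw [hS]; exact hE.pos _
  have p9 := hE.pos (n + 9)
  have p10 := hE.pos (n + 10)
  obtain ⟨g1, g2, g3⟩ := G_bd hc pX pS
  obtain ⟨l1, l2⟩ := lam_bd hp hq pS
  rw [← hL0] at l2
  rw [← hL1] at g3
  have pl : 0 < (S + 1 / c) / (S + q320 a c) := div_pos (by linarith) (by linarith)
  have hD : C0 * (e + E) ≤ 2 * C0 := by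
    have h1 := hI.e1
    have h2 := hI.E1
    rw [mul_comm 2 C0]
    exact mul_le_mul_of_nonneg_left (by linarith) hC0.le
  have a7 := o.x7.log_le
  have a8 := o.x8.log_le
  rw [log_mul (mul_pos pX pl).ne' g1.ne', log_mul pX.ne' pl.ne'] at a7
  rw [log_mul (mul_pos (div_pos hc ha) pS).ne' g1.ne', log_mul (div_pos hc ha).ne' pS.ne'] at a8
  have b8 : |log (x (n + 10)) - (log S + log (c / a) + log (G320 c X S))| ≤ C0 * (e + E) := by
    rw [add_comm (log S)]
    exact a8
  obtain ⟨u1, u2⟩ := abs_le.1 a7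
  obtain ⟨v1, v2⟩ := abs_le.1 b8
  obtain ⟨w1, w2⟩ := abs_le.1 g3
  obtain ⟨y1, y2⟩ := abs_le.1 l2
  obtain ⟨z1, z2⟩ := abs_le.1 hs
  have t1 := le_abs_self (log (c / a))
  have t2 := neg_abs_le (log (c / a))
  rw [← hL2] at t1 t2
  refine ⟨⟨rfl, rfl, by linarith, ?_, o.w.trans hK, ?_⟩, a7, b8, by linarith⟩
  · rw [abs_le]
    constructor <;> linarith
  · exact o.v.mono (div_le_div_of_nonneg_right hK p9.le)

/-- a rough window becomes a state after one cycle -/
theorem rough320 {a c : ℝ} (ha : 0 < a) (hc : 0 < c) : ∃ K0 : ℝ, ∀ K ≥ K0, ∃ C m : ℝ,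
    ∀ (x : ℕ → ℝ) (n : ℕ) (e E : ℝ), Eq320 a c x → In320 c x n e E → m ≤ log (x (n + 2)) →
      |log (x (n + 3))| ≤ 3 / 4 * log (x (n + 2)) →
      ∃ M' s', St320 c K x (n + 7) M' s' ∧ M' ≤ log (x (n + 2)) + C := by
  obtain ⟨C0, C1, m, h0, h1, h⟩ := core ha hc
  refine ⟨C0, fun K hK => ⟨C1, m, fun x n e E hE hI hm hs => ?_⟩⟩
  obtain ⟨h2, -, -, h3⟩ := h K hK x n e E hE hI hm hs
  exact ⟨_, _, h2, h3⟩

theorem t1_320 {a c : ℝ} (ha : 0 < a) (hc : 0 < c) : ∃ K0 : ℝ, ∀ K ≥ K0, ∀ ε > 0, ∃ m : ℝ,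
    ∀ (x : ℕ → ℝ) (n : ℕ) (M s : ℝ), Eq320 a c x → St320 c K x n M s → m ≤ M → |s| ≤ 3 / 4 * M →
      ∃ M' s', St320 c K x (n + 7) M' s' ∧
        |M' - (M + Af (1 / c) (q320 a c) s - g320 c M s)| ≤ ε ∧
        |s' - (s + log (c / a) - g320 c M s)| ≤ ε := by
  obtain ⟨C0, C1, m, h0, h1, h⟩ := core ha hc
  refine ⟨C0, fun K hK ε hε => ⟨max m (max (5 * (K / 1)) (5 * (C0 * (K + 1) / ε))),
    fun x n M s hE hst hm hs => ?_⟩⟩
  have hK0 : 0 ≤ K := h0.le.trans hK
  have m1 := (le_max_left _ _).trans hm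
  have m2 := ((le_max_left _ _).trans (le_max_right _ _)).trans hm
  have m3 := ((le_max_right _ _).trans (le_max_right _ _)).trans hm
  have k1 := exp_small one_pos m2
  have k2 := exp_small hε m3
  have hI := st_in hE.pos hK0 hst k1
  have eX : x (n + 2) = exp M := by rw [hst.hM, exp_log (hE.pos _)]
  have eS : x (n + 3) = exp s := by rw [hst.hs, exp_log (hE.pos _)]
  obtain ⟨h2, h3, h4, -⟩ := h K hK x n _ _ hE hI (by rw [← hst.hM]; exact m1)
    (by rw [← hst.hM, ← hst.hs]; exact hs)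
  refine ⟨_, _, h2, ?_, ?_⟩
  · rw [← hst.hM, eX, eS] at h3
    unfold Af g320
    rw [sub_neg_eq_add]
    refine h3.trans (le_trans (le_of_eq ?_) k2)
    ring
  · rw [← hst.hs, eX, eS] at h4
    unfold g320
    rw [sub_neg_eq_add]
    refine h4.trans (le_trans (le_of_eq ?_) k2)
    ring

theorem term320 {a c : ℝ} (ha : 0 < a) (hc : 0 < c) (K : ℝ) : ∃ B m : ℝ,
    ∀ (x : ℕ → ℝ) (n : ℕ) (M s : ℝ), Eq320 a c x → St320 c K x n M s → m ≤ M →
      ∀ i ≤ 10, x (n + i) ≤ exp (B + 2 * M) := by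
  obtain ⟨C0, hC0, hch⟩ := chain320 ha hc
  have hq := q_pos ha hc
  have hp : 0 < 1 / c := by positivity
  obtain ⟨l, hl⟩ : ∃ l, l = 1 + (1 / c) / q320 a c := ⟨_, rfl⟩
  have pl : 0 < l := by rw [hl]; positivity
  obtain ⟨Q, hQ⟩ : ∃ Q, Q = (a + 1) + a / c + (a / c) * l + l + c / a := ⟨_, rfl⟩
  obtain ⟨A, hA⟩ : ∃ A, A = |K| / c + exp |K| + 1 + exp (2 * C0) * Q := ⟨_, rfl⟩
  have r1 : 0 < a / c := by positivity
  have r2 : 0 < (a / c) * l := by positivity
  have r3 : 0 < c / a := by positivity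
  have r4 : 0 ≤ |K| / c := by positivity
  have r5 : 0 < exp |K| := exp_pos _
  have r6 : 0 < exp (2 * C0) := exp_pos _
  have pQ : 0 < Q := by rw [hQ]; linarith
  have r7 : 0 < exp (2 * C0) * Q := mul_pos r6 pQ
  have pA : 0 < A := by rw [hA]; linarith
  refine ⟨log A, 5 * (K / 1), fun x n M s hE hst hm => ?_⟩
  have hx := hE.pos
  have eX : x (n + 2) = exp M := by rw [hst.hM, exp_log (hx _)]
  have eS : x (n + 3) = exp s := by rw [hst.hs, exp_log (hx _)]
  have hK0 : 0 ≤ K := le_trans (mul_pos (mul_pos hc (hx n)) (hx (n + 3))).le hst.w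
  have k1 := exp_small one_pos hm
  have hI := st_in hx hK0 hst k1
  have o := hch x n _ _ hE hI
  have h1 := hst.one
  obtain ⟨d1, d2⟩ := abs_le.1 hst.dom
  have hD : C0 * (K * exp (-(M / 5)) + exp (-(M / 5))) ≤ 2 * C0 := by
    have h2 := hI.E1
    rw [mul_comm 2 C0]
    exact mul_le_mul_of_nonneg_left (by linarith) hC0.le
  rw [eX, eS] at o
  have eT : exp (log A + 2 * M) = A * exp (2 * M) := by rw [exp_add, exp_log pA]
  rw [eT]
  obtain ⟨X, hX⟩ : ∃ X, X = exp M := ⟨_, rfl⟩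
  obtain ⟨S, hS⟩ : ∃ S, S = exp s := ⟨_, rfl⟩
  obtain ⟨T, hT⟩ : ∃ T, T = exp (2 * M) := ⟨_, rfl⟩
  have pX : 0 < X := by rw [hX]; exact exp_pos _
  have pS : 0 < S := by rw [hS]; exact exp_pos _
  have pT : 0 < T := by rw [hT]; exact exp_pos _
  have X1 : 1 ≤ X := by rw [hX]; exact one_le_exp (by linarith)
  have T1 : 1 ≤ T := by rw [hT]; exact one_le_exp (by linarith)
  have XT : X ≤ T := by rw [hX, hT]; exact exp_le_exp.2 (by linarith)
  have ST : S ≤ T := by rw [hS, hT]; exact exp_le_exp.2 (by linarith)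
  have iS : S⁻¹ ≤ T := by rw [hS, hT, ← exp_neg]; exact exp_le_exp.2 (by linarith)
  have XS : X / S ≤ T := by
    rw [hX, hS, hT, ← exp_sub]
    exact exp_le_exp.2 (by linarith)
  rw [← hX, ← hS] at o
  rw [← hX] at eX
  rw [← hS] at eS
  rw [← hT]
  have up : ∀ {y z κ : ℝ}, R (C0 * (K * exp (-(M / 5)) + exp (-(M / 5)))) y z → z ≤ κ * T → κ ≤ Q →
      y ≤ A * T := by
    intro y z κ h2 h3 h4
    have h5 := (h2.mono hD).le
    calc y ≤ exp (2 * C0) * z := h5
      _ ≤ exp (2 * C0) * (Q * T) := by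
          refine mul_le_mul_of_nonneg_left (h3.trans ?_) r6.le
          exact mul_le_mul_of_nonneg_right h4 pT.le
      _ = (exp (2 * C0) * Q) * T := by ring
      _ ≤ A * T := by
          refine mul_le_mul_of_nonneg_right ?_ pT.le
          rw [hA]
          linarith
  obtain ⟨g1, g2, -⟩ := G_bd hc pX pS
  obtain ⟨l1, -⟩ := lam_bd hp hq pS
  rw [← hl] at l1
  have pl2 : 0 < (S + 1 / c) / (S + q320 a c) := div_pos (by linarith) (by linarith)
  intro i hi
  interval_cases i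
  · -- w
    have h2 := hst.w
    rw [eS] at h2
    have h3 : x (n + 0) ≤ |K| / c * T := by
      have h4 : x (n + 0) = (c * x n * S) / c * S⁻¹ := by
        have : n + 0 = n := rfl
        rw [this]
        field_simp
      rw [h4]
      refine mul_le_mul ?_ iS (inv_pos.2 pS).le r4
      exact div_le_div_of_nonneg_right (h2.trans (le_abs_self K)) hc.le
    refine h3.trans (mul_le_mul_of_nonneg_right ?_ pT.le)
    rw [hA]
    linarith
  · have h2 := hst.v.le
    rw [eX, eS] at h2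
    have h3 : exp (K / X) ≤ exp |K| := by
      refine exp_le_exp.2 ?_
      rw [div_le_iff₀ pX]
      exact (le_abs_self K).trans (le_mul_of_one_le_right (abs_nonneg K) X1)
    have h4 : x (n + 1) ≤ exp |K| * T := by
      have h5 : x (n + 1) = (x (n + 1) * S) / S := by field_simp
      rw [h5]
      calc (x (n + 1) * S) / S ≤ (exp |K| * X) / S :=
            div_le_div_of_nonneg_right (h2.trans (mul_le_mul_of_nonneg_right h3 pX.le)) pS.le
        _ = exp |K| * (X / S) := by ring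
        _ ≤ exp |K| * T := mul_le_mul_of_nonneg_left XS r5.le
    refine h4.trans (mul_le_mul_of_nonneg_right ?_ pT.le)
    rw [hA]
    linarith
  · rw [eX]
    have h2 : 1 ≤ A := by rw [hA]; linarith
    exact XT.trans (le_mul_of_one_le_left pT.le h2)
  · rw [eS]
    have h2 : 1 ≤ A := by rw [hA]; linarith
    exact ST.trans (le_mul_of_one_le_left pT.le h2)
  · refine up (κ := a + 1) o.x2 ?_ (by rw [hQ]; linarith)
    rw [div_le_iff₀ pX]
    calc a + S ≤ a * T + T := add_le_add (le_mul_of_one_le_right ha.le T1) ST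
      _ = (a + 1) * T := by ring
      _ ≤ (a + 1) * T * X := le_mul_of_one_le_right (by positivity) X1
  · refine up (κ := a / c) o.x3 ?_ (by rw [hQ]; linarith)
    rw [div_le_iff₀ (by positivity)]
    calc a * S = a / c * (c * S) := by field_simp
      _ ≤ a / c * (T * (S ^ 2 + c * X)) := by
          refine mul_le_mul_of_nonneg_left ?_ r1.le
          have h2 : c * S ≤ T * (c * X) := by
            calc c * S ≤ c * T := mul_le_mul_of_nonneg_left ST hc.le
              _ ≤ c * T * X := le_mul_of_one_le_right (by positivity) X1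
              _ = T * (c * X) := by ring
          have h3 : 0 ≤ T * S ^ 2 := by positivity
          linarith
      _ = a / c * T * (S ^ 2 + c * X) := by ring
  · refine up (κ := a / c) o.x4 ?_ (by rw [hQ]; linarith)
    rw [← div_div]
    calc a / c / X ≤ a / c := div_le_self r1.le X1
      _ ≤ a / c * T := le_mul_of_one_le_right r1.le T1
  · refine up (κ := a / c) o.x5 ?_ (by rw [hQ]; linarith)
    rw [← div_div, div_eq_mul_inv (a / c) S]
    exact mul_le_mul_of_nonneg_left iS r1.le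
  · refine up (κ := (a / c) * l) o.x6 ?_ (by rw [hQ]; linarith)
    calc X / S * (a / c) * ((S + 1 / c) / (S + q320 a c)) ≤ T * (a / c) * l := by
          refine mul_le_mul (mul_le_mul_of_nonneg_right XS r1.le) l1 pl2.le (by positivity)
      _ = a / c * l * T := by ring
  · refine up (κ := l) o.x7 ?_ (by rw [hQ]; linarith)
    calc X * ((S + 1 / c) / (S + q320 a c)) * G320 c X S ≤ X * ((S + 1 / c) / (S + q320 a c)) * 1 :=
          mul_le_mul_of_nonneg_left g2 (mul_pos pX pl2).le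
      _ = X * ((S + 1 / c) / (S + q320 a c)) := mul_one _
      _ ≤ T * l := mul_le_mul XT l1 pl2.le pT.le
      _ = l * T := mul_comm _ _
  · refine up (κ := c / a) o.x8 ?_ (by rw [hQ]; linarith)
    calc c / a * S * G320 c X S ≤ c / a * S * 1 :=
          mul_le_mul_of_nonneg_left g2 (mul_pos r3 pS).le
      _ = c / a * S := mul_one _
      _ ≤ c / a * T := mul_le_mul_of_nonneg_left ST r3.le

end Pool.Agent.H78.K4
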