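import Pool.Agent.H78.K4.Chain518
import Pool.Agent.H78.K4.Pot

/-!
# The transitions between states of (5,18)

Write `X = x (n+1)`, `S = x (n+3)`. `E = exp (|s| - M) = max S (1/S) / X` satisfies the conditions
`hX`, `hS`, `hi` of `In518`, and `E ≤ exp (-M/5)` in a state; a state with constant `K` gives
`In518` with `e = (c + 1) K E` if `(c + 1) K E ≤ 1`.
* `rough518`: `chain518`; the constants of the new window of `Out518` (`x8`, `u`) do not depend on
  `e`; `|M' - M| ≤ C'`, `|s' - s| ≤ C'` with `C'` depending on `a`, `c` only (the quotient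
  `(S + 1) / (S + q)` lies between positive constants and `c ^ 2 / (1 + c ^ 2) ≤ G ≤ 1`), so
  `|s'| ≤ 4/5 M'` for `M` large and `E ≤ C exp (|s'| - M')`.
* `t1_518`: the same; `C (e + E) ≤ ε` for `M` large; use `R.log_le`.
* `term518`: all values of `chain518` are at most `C X ^ 2`.
-/

namespace Pool.Agent.H78.K4

open Real

/-- the conclusions of one cycle in logarithmic form -/
private structure Co (a c C C' : ℝ) (x : ℕ → ℝ) (n : ℕ) (e E : ℝ) : Prop where
  o : Out518 a c C x n E (C * (e + E)) (x (n + 1)) (x (n + 3))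
  d : C * (e + E) ≤ 2 * C
  m1 : |log (x (n + 8)) - (log (x (n + 1)) + Af 1 (q518 a c) (log (x (n + 3))) -
    g518 a c (log (x (n + 1))) (log (x (n + 3))))| ≤ C * (e + E)
  s1 : |log (x (n + 10)) - (log (x (n + 3)) + log (1 / (a * c ^ 2)) -
    g518 a c (log (x (n + 1))) (log (x (n + 3))))| ≤ C * (e + E)
  m2 : |log (x (n + 8)) - log (x (n + 1))| ≤ C'
  s2 : |log (x (n + 10)) - log (x (n + 3))| ≤ C'

private theorem F_pos {a c X S : ℝ} (ha : 0 < a) (hc : 0 < c) (hX : 0 < X) (hS : 0 < S) :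
    0 < F518 a c X S := by
  unfold F518 q518
  positivity

private theorem R_q {q S : ℝ} (hq : 0 < q) (hS : 0 < S) :
    R |log q| ((S + 1) / (S + q)) 1 := by
  have h1 : R |log q| (S + 1) (S + q) :=
    (R.refl hS (abs_nonneg _)).add (R.of_log one_pos hq (by simp))
  have h3 : 0 < S + q := by linarith
  have h2 := h1.div (R.refl h3 (le_refl (0 : ℝ)))
  rwa [add_zero, div_self h3.ne'] at h2

private theorem R_G {a c X S : ℝ} (ha : 0 < a) (hc : 0 < c) (hX : 0 < X) (hS : 0 < S) :
    R |log (c ^ 2) - log (1 + c ^ 2)| (G518 a c X S) 1 := by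
  have hF := F_pos ha hc hX hS
  have h0 : 0 < c * F518 a c X S := by positivity
  have h1 : R |log (c ^ 2) - log (1 + c ^ 2)| (c * F518 a c X S + c ^ 2 * S)
      (c * F518 a c X S + (1 + c ^ 2) * S) := by
    refine (R.refl h0 (abs_nonneg _)).add (R.of_log (by positivity) (by positivity) ?_)
    rw [log_mul (by positivity) hS.ne', log_mul (by positivity) hS.ne']
    have : log (c ^ 2) + log S - (log (1 + c ^ 2) + log S) = log (c ^ 2) - log (1 + c ^ 2) := by
      ring
    rw [this]
  have h3 : 0 < c * F518 a c X S + (1 + c ^ 2) * S := by positivity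
  have h2 := h1.div (R.refl h3 (le_refl (0 : ℝ)))
  rwa [add_zero, div_self h3.ne'] at h2

private theorem core {a c : ℝ} (ha : 0 < a) (hc : 0 < c) : ∃ C C' : ℝ, 0 < C ∧ 0 ≤ C' ∧
    ∀ (x : ℕ → ℝ) (n : ℕ) (e E : ℝ), Eq518 a c x → In518 a c x n e E →
      Co a c C C' x n e E := by
  obtain ⟨C, hC, H⟩ := chain518 ha hc
  have hq : 0 < q518 a c := by unfold q518; positivity
  have hac : 0 < a * c ^ 2 := by positivity
  refine ⟨C, 2 * C + (|log (q518 a c)| + |log (c ^ 2) - log (1 + c ^ 2)| + |log (a * c ^ 2)|), hC,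
    by positivity, ?_⟩
  intro x n e E hx hi
  have o := H x n e E hx hi
  have hX := hx.pos (n + 1)
  have hS := hx.pos (n + 3)
  have hG := R_G (a := a) (c := c) ha hc hX hS
  have hQ := R_q hq hS
  have d : C * (e + E) ≤ 2 * C := by
    have := hi.e1
    have := hi.E1
    nlinarith
  have eX : exp (log (x (n + 1))) = x (n + 1) := exp_log hX
  have eS : exp (log (x (n + 3))) = x (n + 3) := exp_log hS
  have e1 : log (x (n + 1) * ((x (n + 3) + 1) / (x (n + 3) + q518 a c)) *
      G518 a c (x (n + 1)) (x (n + 3))) = log (x (n + 1)) + Af 1 (q518 a c) (log (x (n + 3))) -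
      g518 a c (log (x (n + 1))) (log (x (n + 3))) := by
    rw [log_mul (mul_pos hX hQ.px).ne' hG.px.ne', log_mul hX.ne' hQ.px.ne']
    unfold Af g518
    rw [eX, eS]
    ring
  have e2 : log (x (n + 3) / (a * c ^ 2) * G518 a c (x (n + 1)) (x (n + 3))) =
      log (x (n + 3)) + log (1 / (a * c ^ 2)) -
      g518 a c (log (x (n + 1))) (log (x (n + 3))) := by
    rw [log_mul (div_pos hS hac).ne' hG.px.ne', log_div hS.ne' hac.ne', one_div, log_inv]
    unfold g518
    rw [eX, eS]
    ring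
  have m1 := o.x7.log_le
  have s1 := o.x9.log_le
  have g1 := hG.log_le
  have q1 := hQ.log_le
  rw [log_one, sub_zero] at g1 q1
  rw [e1] at m1
  rw [e2] at s1
  refine ⟨o, d, m1, s1, ?_, ?_⟩
  · have h1 : log (x (n + 8)) - log (x (n + 1)) =
        (log (x (n + 8)) - (log (x (n + 1)) + Af 1 (q518 a c) (log (x (n + 3))) -
          g518 a c (log (x (n + 1))) (log (x (n + 3))))) +
        (log ((x (n + 3) + 1) / (x (n + 3) + q518 a c)) +
          log (G518 a c (x (n + 1)) (x (n + 3)))) := by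
      unfold Af g518
      rw [eX, eS]
      ring
    rw [h1]
    refine (abs_add_le _ _).trans ?_
    have h2 := abs_add_le (log ((x (n + 3) + 1) / (x (n + 3) + q518 a c)))
      (log (G518 a c (x (n + 1)) (x (n + 3))))
    have h3 := abs_nonneg (log (a * c ^ 2))
    linarith
  · have h1 : log (x (n + 10)) - log (x (n + 3)) =
        (log (x (n + 10)) - (log (x (n + 3)) + log (1 / (a * c ^ 2)) -
          g518 a c (log (x (n + 1))) (log (x (n + 3))))) +
        (- log (a * c ^ 2) + log (G518 a c (x (n + 1)) (x (n + 3)))) := by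
      rw [one_div, log_inv]
      unfold g518
      rw [eX, eS]
      ring
    rw [h1]
    refine (abs_add_le _ _).trans ?_
    have h2 := abs_add_le (- log (a * c ^ 2)) (log (G518 a c (x (n + 1)) (x (n + 3))))
    rw [abs_neg] at h2
    have h3 := abs_nonneg (log (q518 a c))
    linarith

/-- the new state -/
private theorem st {a c C C' : ℝ} (hC : 0 < C) (hC' : 0 ≤ C') {K : ℝ}
    (hK : C * exp (2 * C') ≤ K) {x : ℕ → ℝ} {n : ℕ} {e E : ℝ} (hx : Eq518 a c x)
    (h : Co a c C C' x n e E) (hm : 36 * C' + 1 ≤ log (x (n + 1)))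
    (hE : E ≤ exp (|log (x (n + 3))| - log (x (n + 1))))
    (hs : |log (x (n + 3))| ≤ 3 / 4 * log (x (n + 1))) :
    St518 a K x (n + 7) (log (x (n + 8))) (log (x (n + 10))) := by
  obtain ⟨m1, m2⟩ := abs_le.1 h.m2
  have s0 := abs_le.1 h.s2
  have s3 : |log (x (n + 10))| ≤ |log (x (n + 3))| + C' := by
    have := abs_sub_abs_le_abs_sub (log (x (n + 10))) (log (x (n + 3)))
    linarith [h.s2]
  have s4 : |log (x (n + 3))| ≤ |log (x (n + 10))| + C' := by
    have := abs_sub_abs_le_abs_sub (log (x (n + 3))) (log (x (n + 10)))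
    rw [abs_sub_comm] at this
    linarith [h.s2]
  have e1 : (1 : ℝ) ≤ exp (2 * C') := one_le_exp (by linarith)
  have hCK : C ≤ K := by nlinarith
  have p8 := hx.pos (n + 8)
  have p10 := hx.pos (n + 10)
  refine ⟨rfl, rfl, by linarith, by linarith, ?_, ?_⟩
  · exact h.o.u.trans (mul_le_mul_of_nonneg_right hCK p10.le)
  · refine h.o.x8.mono ?_
    have e2 : exp (|log (x (n + 3))| - log (x (n + 1))) ≤
        exp (2 * C') * exp (|log (x (n + 10))| - log (x (n + 8))) := by
      rw [← exp_add]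
      exact exp_le_exp.2 (by linarith)
    calc C * E ≤ C * (exp (2 * C') * exp (|log (x (n + 10))| - log (x (n + 8)))) :=
          mul_le_mul_of_nonneg_left (hE.trans e2) hC.le
      _ = C * exp (2 * C') * exp (|log (x (n + 10))| - log (x (n + 8))) := by ring
      _ ≤ K * exp (|log (x (n + 10))| - log (x (n + 8))) :=
          mul_le_mul_of_nonneg_right hK (exp_pos _).le

private theorem Kpos {a c K : ℝ} {x : ℕ → ℝ} {n : ℕ} {M s : ℝ} (hx : Eq518 a c x)
    (h : St518 a K x n M s) : 0 < K := by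
  have h1 := h.u
  have h2 : 0 < x n * x (n + 1) := mul_pos (hx.pos _) (hx.pos _)
  have h3 := hx.pos (n + 3)
  by_contra hc
  push Not at hc
  nlinarith

private theorem le5 {M s : ℝ} (h1 : 1 ≤ M) (h : |s| ≤ 4 / 5 * M) : M * exp (|s| - M) ≤ 5 := by
  have h2 : exp (|s| - M) ≤ exp (-(M / 5)) := exp_le_exp.2 (by linarith)
  have h3 := add_one_le_exp (M / 5)
  have h4 : exp (M / 5) * exp (-(M / 5)) = 1 := by rw [← exp_add, add_neg_cancel, exp_zero]
  have h5 := exp_pos (-(M / 5))
  nlinarith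

/-- a state is an input -/
private theorem inp {a c K : ℝ} (hc : 0 < c) {x : ℕ → ℝ} {n : ℕ} {M s : ℝ} (hx : Eq518 a c x)
    (h : St518 a K x n M s) (hm : 5 * ((c + 1) * K) ≤ M) :
    In518 a c x n ((c + 1) * K * exp (|s| - M)) (exp (|s| - M)) := by
  have hK := Kpos hx h
  have hX := hx.pos (n + 1)
  have hS := hx.pos (n + 3)
  have h0 := hx.pos n
  have hE := exp_pos (|s| - M)
  have eX : x (n + 1) = exp M := by rw [h.hM, exp_log hX]
  have eS : x (n + 3) = exp s := by rw [h.hs, exp_log hS]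
  have h1 := h.one
  have h5 := le5 h1 h.dom
  have kk : 0 < (c + 1) * K := by positivity
  have hX1 : 1 ≤ exp (|s| - M) * x (n + 1) := by
    rw [eX, ← exp_add]
    exact one_le_exp (by linarith [abs_nonneg s])
  refine ⟨by positivity, ?_, ?_, ?_, ?_, hX1, ?_, ?_⟩
  · nlinarith
  · rw [exp_le_one_iff]
    linarith [h.dom]
  · have h6 := h.u
    have h7 : x n ≤ exp (|s| - M) * (x n * x (n + 1)) := by nlinarith
    have h8 : x n ≤ exp (|s| - M) * (K * x (n + 3)) :=
      h7.trans (mul_le_mul_of_nonneg_left h6 hE.le)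
    have h9 : 0 < exp (|s| - M) * (K * x (n + 3)) := by positivity
    calc c * x n ≤ c * (exp (|s| - M) * (K * x (n + 3))) := mul_le_mul_of_nonneg_left h8 hc.le
      _ ≤ (c + 1) * (exp (|s| - M) * (K * x (n + 3))) := by nlinarith
      _ = (c + 1) * K * exp (|s| - M) * x (n + 3) := by ring
  · refine h.y.mono ?_
    have : 0 < K * exp (|s| - M) := by positivity
    nlinarith
  · rw [eX, eS, ← exp_add]
    exact exp_le_exp.2 (by linarith [le_abs_self s])
  · rw [eX, eS, ← exp_add, ← exp_add]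
    exact one_le_exp (by linarith [neg_abs_le s])

/-- a rough window becomes a state after one cycle -/
theorem rough518 {a c : ℝ} (ha : 0 < a) (hc : 0 < c) : ∃ K0 : ℝ, ∀ K ≥ K0, ∃ C m : ℝ,
    ∀ (x : ℕ → ℝ) (n : ℕ) (e E : ℝ), Eq518 a c x → In518 a c x n e E → m ≤ log (x (n + 1)) →
      E ≤ exp (|log (x (n + 3))| - log (x (n + 1))) →
      |log (x (n + 3))| ≤ 3 / 4 * log (x (n + 1)) →
      ∃ M' s', St518 a K x (n + 7) M' s' ∧ M' ≤ log (x (n + 1)) + C := by
  obtain ⟨C, C', hC, hC', H⟩ := core ha hc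
  refine ⟨C * exp (2 * C'), fun K hK => ⟨C', 36 * C' + 1, ?_⟩⟩
  intro x n e E hx hi hm hE hs
  have h := H x n e E hx hi
  refine ⟨_, _, st hC hC' hK hx h hm hE hs, ?_⟩
  linarith [(abs_le.1 h.m2).2]

theorem t1_518 {a c : ℝ} (ha : 0 < a) (hc : 0 < c) : ∃ K0 : ℝ, ∀ K ≥ K0, ∀ ε > 0, ∃ m : ℝ,
    ∀ (x : ℕ → ℝ) (n : ℕ) (M s : ℝ), Eq518 a c x → St518 a K x n M s → m ≤ M → |s| ≤ 3 / 4 * M →
      ∃ M' s', St518 a K x (n + 7) M' s' ∧
        |M' - (M + Af 1 (q518 a c) s - g518 a c M s)| ≤ ε ∧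
        |s' - (s + log (1 / (a * c ^ 2)) - g518 a c M s)| ≤ ε := by
  obtain ⟨C, C', hC, hC', H⟩ := core ha hc
  refine ⟨C * exp (2 * C'), fun K hK ε hε =>
    ⟨(36 * C' + 1) + (5 * ((c + 1) * K) + 5 * C * ((c + 1) * K + 1) / ε), ?_⟩⟩
  intro x n M s hx h0 hm hs
  have hK0 := Kpos hx h0
  have p1 : 0 < 5 * ((c + 1) * K) := by positivity
  have p2 : 0 < 5 * C * ((c + 1) * K + 1) / ε := by positivity
  have hi := inp hc hx h0 (by linarith)
  have h := H x n _ _ hx hi
  have hM := h0.hM
  have hS := h0.hs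
  have hd : C * ((c + 1) * K * exp (|s| - M) + exp (|s| - M)) ≤ ε := by
    have h1 : 5 * C * ((c + 1) * K + 1) / ε ≤ M := by linarith
    rw [div_le_iff₀ hε] at h1
    have h2 := le5 h0.one h0.dom
    have h3 := exp_pos (|s| - M)
    have hM0 : 0 < M := by linarith [h0.one]
    have h4 : M * (C * ((c + 1) * K * exp (|s| - M) + exp (|s| - M))) ≤ M * ε := by
      calc M * (C * ((c + 1) * K * exp (|s| - M) + exp (|s| - M))) =
          (C * ((c + 1) * K + 1)) * (M * exp (|s| - M)) := by ring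
        _ ≤ (C * ((c + 1) * K + 1)) * 5 := mul_le_mul_of_nonneg_left h2 (by positivity)
        _ = 5 * C * ((c + 1) * K + 1) := by ring
        _ ≤ M * ε := h1
    exact le_of_mul_le_mul_left h4 hM0
  have m1 := h.m1
  have s1 := h.s1
  rw [← hM, ← hS] at m1 s1
  refine ⟨_, _, st hC hC' hK hx h (by rw [← hM]; linarith) (by rw [← hM, ← hS])
    (by rw [← hM, ← hS]; exact hs), m1.trans hd, s1.trans hd⟩

theorem term518 {a c : ℝ} (ha : 0 < a) (hc : 0 < c) (K : ℝ) : ∃ B m : ℝ,
    ∀ (x : ℕ → ℝ) (n : ℕ) (M s : ℝ), Eq518 a c x → St518 a K x n M s → m ≤ M →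
      ∀ i ≤ 10, x (n + i) ≤ exp (B + 2 * M) := by
  obtain ⟨C, C', hC, hC', H⟩ := core ha hc
  have hq : 0 < q518 a c := by unfold q518; positivity
  refine ⟨(|K| + exp 1 * a) + (exp (2 * C) * a + exp (2 * C) * ((a + 1) / c)) +
    (exp (2 * C) * (a * c * exp |log (q518 a c)|) + exp (2 * C) * (a / c)) +
    (C' + C * C' + (exp C * a * exp C')), 5 * ((c + 1) * K), ?_⟩
  intro x n M s hx h0 hm
  have hK0 := Kpos hx h0
  have hi := inp hc hx h0 hm
  have h := H x n _ _ hx hi
  have hX := hx.pos (n + 1)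
  have hS := hx.pos (n + 3)
  have eX : x (n + 1) = exp M := by rw [h0.hM, exp_log hX]
  have eS : x (n + 3) = exp s := by rw [h0.hs, exp_log hS]
  have hM1 := h0.one
  have hE := exp_pos (|s| - M)
  have hE1 := hi.E1
  have he1 := hi.e1
  obtain ⟨sl, su⟩ := abs_le.1 h0.dom
  have m0 : 1 ≤ exp M := one_le_exp (by linarith)
  have sM : exp s ≤ exp M := exp_le_exp.2 (by linarith)
  have iM : exp (-s) ≤ exp M := exp_le_exp.2 (by linarith)
  have i1 : exp (-s) * exp s = 1 := by rw [← exp_add, neg_add_cancel, exp_zero]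
  have e2M : exp (2 * M) = exp M * exp M := by rw [← exp_add]; ring_nf
  have hM2 : exp M ≤ exp (2 * M) := exp_le_exp.2 (by linarith)
  have h12 : 1 ≤ exp (2 * M) := m0.trans hM2
  have p2M := exp_pos (2 * M)
  have pM := exp_pos M
  have ps := exp_pos s
  have eD : exp (C * ((c + 1) * K * exp (|s| - M) + exp (|s| - M))) ≤ exp (2 * C) :=
    exp_le_exp.2 h.d
  have k1 := abs_nonneg K
  have k2 : 0 < exp 1 * a := by positivity
  have k3 : 0 < exp (2 * C) * a := by positivity
  have k4 : 0 < exp (2 * C) * ((a + 1) / c) := by positivity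
  have k5 : 0 < exp (2 * C) * (a * c * exp |log (q518 a c)|) := by positivity
  have k6 : 0 < exp (2 * C) * (a / c) := by positivity
  have k7 : 0 ≤ C * C' := by positivity
  have k8 : 0 < exp C * a * exp C' := by positivity
  have fin : ∀ y b : ℝ, b ≤ (|K| + exp 1 * a) + (exp (2 * C) * a + exp (2 * C) * ((a + 1) / c)) +
      (exp (2 * C) * (a * c * exp |log (q518 a c)|) + exp (2 * C) * (a / c)) +
      (C' + C * C' + (exp C * a * exp C')) → y ≤ b * exp (2 * M) →
      y ≤ exp ((|K| + exp 1 * a) + (exp (2 * C) * a + exp (2 * C) * ((a + 1) / c)) +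
      (exp (2 * C) * (a * c * exp |log (q518 a c)|) + exp (2 * C) * (a / c)) +
      (C' + C * C' + (exp C * a * exp C')) + 2 * M) := by
    intro y b hb hy
    rw [exp_add]
    refine hy.trans (mul_le_mul_of_nonneg_right ?_ p2M.le)
    have h1 := add_one_le_exp b
    exact (by linarith : b ≤ exp b).trans (exp_le_exp.2 hb)
  have fin2 : ∀ y t : ℝ, t ≤ (|K| + exp 1 * a) + (exp (2 * C) * a + exp (2 * C) * ((a + 1) / c)) +
      (exp (2 * C) * (a * c * exp |log (q518 a c)|) + exp (2 * C) * (a / c)) +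
      (C' + C * C' + (exp C * a * exp C')) + 2 * M → y ≤ exp t →
      y ≤ exp ((|K| + exp 1 * a) + (exp (2 * C) * a + exp (2 * C) * ((a + 1) / c)) +
      (exp (2 * C) * (a * c * exp |log (q518 a c)|) + exp (2 * C) * (a / c)) +
      (C' + C * C' + (exp C * a * exp C')) + 2 * M) :=
    fun y t ht hy => hy.trans (exp_le_exp.2 ht)
  have o := h.o
  rw [eX, eS] at o
  have c0 : x n ≤ |K| * exp (2 * M) := by
    have h1 := h0.u
    rw [eX, eS, ← abs_of_pos hK0] at h1
    have h2 : x n ≤ x n * exp M := le_mul_of_one_le_right (hx.pos n).le m0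
    refine (h2.trans h1).trans (mul_le_mul_of_nonneg_left (sM.trans hM2) k1)
  have c2 : x (n + 2) ≤ exp 1 * a * exp (2 * M) := by
    have h1 := hi.hy.le
    rw [eX] at h1
    have h2 : x (n + 2) ≤ x (n + 2) * exp M := le_mul_of_one_le_right (hx.pos _).le m0
    have h3 : exp ((c + 1) * K * exp (|s| - M)) ≤ exp 1 := exp_le_exp.2 he1
    calc x (n + 2) ≤ exp ((c + 1) * K * exp (|s| - M)) * a := h2.trans h1
      _ ≤ exp 1 * a := mul_le_mul_of_nonneg_right h3 ha.le
      _ ≤ exp 1 * a * exp (2 * M) := le_mul_of_one_le_right k2.le h12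
  have dS : ∀ t : ℝ, t / exp s = t * exp (-s) := fun t => by rw [exp_neg]; rfl
  have c4 : x (n + 4) ≤ exp (2 * C) * a * exp (2 * M) := by
    have h1 := o.x3.le
    rw [dS] at h1
    calc x (n + 4) ≤ _ := h1
      _ ≤ exp (2 * C) * (a * exp (-s)) := mul_le_mul_of_nonneg_right eD (by positivity)
      _ = exp (2 * C) * a * exp (-s) := by ring
      _ ≤ exp (2 * C) * a * exp (2 * M) := mul_le_mul_of_nonneg_left (iM.trans hM2) k3.le
  have c5 : x (n + 5) ≤ exp (2 * C) * ((a + 1) / c) * exp (2 * M) := by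
    have h1 := o.x4.le
    have h2 : (a + exp s) / (c * exp M) ≤ (a + 1) / c := by
      rw [div_le_div_iff₀ (by positivity) hc]
      nlinarith [mul_le_mul_of_nonneg_left m0 ha.le]
    calc x (n + 5) ≤ _ := h1
      _ ≤ exp (2 * C) * ((a + exp s) / (c * exp M)) :=
          mul_le_mul_of_nonneg_right eD (by positivity)
      _ ≤ exp (2 * C) * ((a + 1) / c) := mul_le_mul_of_nonneg_left h2 (exp_pos _).le
      _ ≤ _ := le_mul_of_one_le_right k4.le h12
  have hQ := R_q hq ps
  have hQ1 : (exp s + 1) / (exp s + q518 a c) ≤ exp |log (q518 a c)| := by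
    have := hQ.le
    rwa [mul_one] at this
  have c6 : x (n + 6) ≤ exp (2 * C) * (a * c * exp |log (q518 a c)|) * exp (2 * M) := by
    have h1 := o.x5.le
    have h2 : F518 a c (exp M) (exp s) =
        a * c * ((exp s + 1) / (exp s + q518 a c)) * (exp M * exp (-s)) := by
      unfold F518
      rw [exp_neg]
      field_simp
    have h3 : F518 a c (exp M) (exp s) ≤ a * c * exp |log (q518 a c)| * exp (2 * M) := by
      rw [h2, e2M]
      exact mul_le_mul (mul_le_mul_of_nonneg_left hQ1 (by positivity))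
        (mul_le_mul_of_nonneg_left iM pM.le) (by positivity) (by positivity)
    have hF := F_pos ha hc pM ps
    calc x (n + 6) ≤ _ := h1
      _ ≤ exp (2 * C) * F518 a c (exp M) (exp s) := mul_le_mul_of_nonneg_right eD hF.le
      _ ≤ exp (2 * C) * (a * c * exp |log (q518 a c)| * exp (2 * M)) :=
          mul_le_mul_of_nonneg_left h3 (exp_pos _).le
      _ = _ := by ring
  have c7 : x (n + 7) ≤ exp (2 * C) * (a / c) * exp (2 * M) := by
    have h1 := o.x6.le
    have hF := F_pos ha hc pM ps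
    have h2 : a / (F518 a c (exp M) (exp s) + c * exp s) ≤ a / c * exp (-s) := by
      rw [exp_neg, ← div_eq_mul_inv, div_div]
      exact div_le_div_of_nonneg_left ha.le (by positivity) (by linarith)
    calc x (n + 7) ≤ _ := h1
      _ ≤ exp (2 * C) * (a / (F518 a c (exp M) (exp s) + c * exp s)) :=
          mul_le_mul_of_nonneg_right eD (by positivity)
      _ ≤ exp (2 * C) * (a / c * exp (-s)) := mul_le_mul_of_nonneg_left h2 (exp_pos _).le
      _ = exp (2 * C) * (a / c) * exp (-s) := by ring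
      _ ≤ _ := mul_le_mul_of_nonneg_left (iM.trans hM2) k6.le
  have l8 := abs_le.1 h.m2
  have l10 := abs_le.1 h.s2
  rw [← h0.hM] at l8
  rw [← h0.hs] at l10
  have c8 : x (n + 8) ≤ exp (M + C') := by
    rw [← exp_log (hx.pos (n + 8))]
    exact exp_le_exp.2 (by linarith [l8.2])
  have c8' : exp (M - C') ≤ x (n + 8) := by
    rw [← exp_log (hx.pos (n + 8))]
    exact exp_le_exp.2 (by linarith [l8.1])
  have c10 : x (n + 10) ≤ exp (s + C') := by
    rw [← exp_log (hx.pos (n + 10))]
    exact exp_le_exp.2 (by linarith [l10.2])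
  have c9 : x (n + 9) ≤ exp C * a * exp C' * exp (2 * M) := by
    have h1 := o.x8.le
    have h2 : exp (C * exp (|s| - M)) ≤ exp C := exp_le_exp.2 (by nlinarith)
    have h3 : x (n + 9) * exp (M - C') ≤ exp C * a :=
      calc x (n + 9) * exp (M - C') ≤ x (n + 9) * x (n + 8) :=
            mul_le_mul_of_nonneg_left c8' (hx.pos _).le
        _ ≤ _ := h1
        _ ≤ _ := mul_le_mul_of_nonneg_right h2 ha.le
    have h4 : exp (M - C') * exp (C' - M) = 1 := by
      rw [← exp_add]
      simp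
    calc x (n + 9) = x (n + 9) * exp (M - C') * exp (C' - M) := by rw [mul_assoc, h4, mul_one]
      _ ≤ exp C * a * exp (C' - M) := mul_le_mul_of_nonneg_right h3 (exp_pos _).le
      _ ≤ exp C * a * exp (C' + 2 * M) :=
          mul_le_mul_of_nonneg_left (exp_le_exp.2 (by linarith)) (by positivity)
      _ = exp C * a * exp C' * exp (2 * M) := by rw [exp_add]; ring
  intro i hi10
  interval_cases i
  · exact fin _ _ (by linarith) c0
  · exact fin2 _ M (by linarith) eX.le
  · exact fin _ _ (by linarith) c2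
  · exact fin2 _ s (by linarith) eS.le
  · exact fin _ _ (by linarith) c4
  · exact fin _ _ (by linarith) c5
  · exact fin _ _ (by linarith) c6
  · exact fin _ _ (by linarith) c7
  · exact fin2 _ _ (by linarith) c8
  · exact fin _ _ (by linarith) c9
  · exact fin2 _ _ (by linarith) c10

end Pool.Agent.H78.K4
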