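import Pool.Agent.H78.K4.Mid524
import Pool.Agent.H78.K4.Out524

/-!
# (5,24), one cycle of the states

Put `X = x (n+1) = exp M`, `S = x (n+3) = exp s`, `E = exp (|s| - M)`: `Sz524 x n E`. With the constants
of `mid524` (for `K`) and `out524`: `D = C' E`, `E ≤ exp (-M/5)` (`|s| ≤ 39/50 M`), so `D` is as small
as we like for `M ≥ m`.
* `rough524`: from `x10`, `x12`: `|M' - M| ≤ C`, `|s' - s| ≤ C` (`(1 + S) / (S + q)` lies between
  `min 1 (1/q)` and `max 1 (1/q)`), `|s'| ≤ 39/50 M + C ≤ 4/5 (M - C) ≤ 4/5 M'`, window constant `H ≤ K`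
  (In524 is monotone in the constant as `x` is positive).
* `t1_524`: `M' ≤ M - η + log ((1 + S) / (S + q)) + D`;
  `1 + 1 / S' ≤ 1 + exp D * q (1 + h) / S ≤ exp D * (S + q + q h) / S ≤ exp (2 D) * (S + q) / S`
  (`q h ≤ D (S + q)`, `1 + D ≤ exp D`); the sum is `≤ M + log (1 + exp (-s)) - η + 3 D`, `3 D ≤ η / 2`.
-/

namespace Pool.Agent.H78.K4

open Real

private theorem R_q {q S : ℝ} (hq : 0 < q) (hS : 0 < S) :
    R |log q| ((1 + S) / (S + q)) 1 := by
  have h1 : R |log q| (S + 1) (S + q) :=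
    (R.refl hS (abs_nonneg _)).add (R.of_log one_pos hq (by simp))
  have h3 : 0 < S + q := by linarith
  have h2 := h1.div (R.refl h3 (le_refl (0 : ℝ)))
  rw [add_zero, div_self h3.ne', add_comm S 1] at h2
  exact h2

private theorem le5 {M s : ℝ} (h1 : 1 ≤ M) (h : |s| ≤ 39 / 50 * M) : exp (|s| - M) * M ≤ 5 := by
  have h2 : exp (|s| - M) ≤ exp (-(M / 5)) := exp_le_exp.2 (by linarith)
  have h3 := add_one_le_exp (M / 5)
  have h4 : exp (M / 5) * exp (-(M / 5)) = 1 := by rw [← exp_add, add_neg_cancel, exp_zero]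
  have h5 := exp_pos (-(M / 5))
  nlinarith

private theorem mono_in {K K' : ℝ} (h : K ≤ K') {x : ℕ → ℝ} (hx : ∀ n, 0 < x n) {n : ℕ}
    (hi : In524 K x n) : In524 K' x n := by
  have h3 := hx (n + 3)
  refine ⟨hi.t.trans ?_, hi.y.trans h, hi.z.trans ?_⟩
  · exact mul_le_mul_of_nonneg_right h (by linarith)
  · exact mul_le_mul_of_nonneg_right h (by positivity)

/-- the conclusions of one cycle -/
private structure Co (a c H D C : ℝ) (x : ℕ → ℝ) (n : ℕ) : Prop where
  D0 : 0 ≤ D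
  D1 : D ≤ 1
  o : Out524 a c H D x n (x (n + 1)) (x (n + 3))
  m : |log (x (n + 10)) - log (x (n + 1))| ≤ C
  s : |log (x (n + 12)) - log (x (n + 3))| ≤ C

private theorem core {a c : ℝ} (ha : 0 < a) (hc : 0 < c) : ∃ H C : ℝ, 0 < H ∧ 0 ≤ C ∧
    ∀ K : ℝ, ∃ C' m : ℝ, 0 < C' ∧ 1 ≤ m ∧ ∀ (x : ℕ → ℝ) (n : ℕ), Eq524 a c x → In524 K x n →
      m ≤ log (x (n + 1)) → |log (x (n + 3))| ≤ 39 / 50 * log (x (n + 1)) →
      ∃ D : ℝ, D * log (x (n + 1)) ≤ 5 * C' ∧ Co a c H D C x n := by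
  obtain ⟨H, hH, HO⟩ := out524 ha hc
  have hq : 0 < q524 a c := by unfold q524; positivity
  have hk : 0 < c ^ 2 / (1 + c ^ 2) := by positivity
  have hl : 0 ≤ log (1 + H) := log_nonneg (by linarith)
  refine ⟨H, 1 + |log (q524 a c)| + |log (c ^ 2 / (1 + c ^ 2))| + log (1 + H), hH, by positivity,
    fun K => ?_⟩
  obtain ⟨C1, hC1, HM⟩ := mid524 ha hc K
  obtain ⟨C', hC', HO'⟩ := HO C1 hC1
  refine ⟨C', 1 + 5 * C1 + 5 * C', hC', by linarith, fun x n hx hi hm hs => ?_⟩
  have hX := hx.pos (n + 1)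
  have hS := hx.pos (n + 3)
  have eX : exp (log (x (n + 1))) = x (n + 1) := exp_log hX
  have eS : exp (log (x (n + 3))) = x (n + 3) := exp_log hS
  set M := log (x (n + 1)) with hM
  set s := log (x (n + 3)) with hs'
  have hM1 : 1 ≤ M := by linarith
  have h5 := le5 hM1 hs
  have hE := exp_pos (|s| - M)
  have hsz : Sz524 x n (exp (|s| - M)) := by
    refine ⟨?_, ?_, ?_, ?_⟩
    · rw [exp_le_one_iff]; linarith
    · rw [← eX, ← exp_add]
      exact one_le_exp (by linarith [abs_nonneg s])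
    · rw [← eX, ← eS, ← exp_add]
      exact exp_le_exp.2 (by linarith [le_abs_self s])
    · rw [← eX, ← eS, ← exp_add, ← exp_add]
      exact one_le_exp (by linarith [neg_abs_le s])
  have hC1E : C1 * exp (|s| - M) ≤ 1 := by nlinarith
  have hCE : C' * exp (|s| - M) ≤ 1 := by nlinarith
  have hD0 : 0 ≤ C' * exp (|s| - M) := by positivity
  have o := HO' x n _ hx hsz hC1E (HM x n _ hx hsz hi)
  refine ⟨C' * exp (|s| - M), by nlinarith, hD0, hCE, o, ?_, ?_⟩
  · have h1 := o.x10.log_le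
    have hQ := R_q hq hS
    rw [log_mul (mul_pos hX hk).ne' hQ.px.ne', log_mul hX.ne' hk.ne'] at h1
    have h2 := hQ.log_le
    rw [log_one, sub_zero] at h2
    have h3 := abs_le.1 h1
    have h4 := abs_le.1 h2
    have h6 := le_abs_self (log (c ^ 2 / (1 + c ^ 2)))
    have h7 := neg_abs_le (log (c ^ 2 / (1 + c ^ 2)))
    rw [abs_le]
    constructor <;> linarith [h3.1, h3.2, h4.1, h4.2]
  · obtain ⟨h, h0, hH1, -, hR⟩ := o.x12
    have h1 := hR.log_le
    have h1h : 0 < 1 + h := by linarith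
    rw [log_div hS.ne' (mul_pos hq h1h).ne', log_mul hq.ne' h1h.ne'] at h1
    have h2 : log (1 + h) ≤ log (1 + H) := log_le_log h1h (by linarith)
    have h2' : 0 ≤ log (1 + h) := log_nonneg (by linarith)
    have h3 := abs_le.1 h1
    have h6 := le_abs_self (log (q524 a c))
    have h7 := neg_abs_le (log (q524 a c))
    have h8 := abs_nonneg (log (c ^ 2 / (1 + c ^ 2)))
    rw [abs_le]
    constructor <;> linarith [h3.1, h3.2]

/-- the new state -/
private theorem st {a c H D C K : ℝ} (hHK : H ≤ K) (hC : 0 ≤ C) {x : ℕ → ℝ} {n : ℕ}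
    (hx : Eq524 a c x) (h : Co a c H D C x n) (hm : 90 * C + 1 ≤ log (x (n + 1)))
    (hs : |log (x (n + 3))| ≤ 39 / 50 * log (x (n + 1))) :
    St524 K x (n + 9) (log (x (n + 10))) (log (x (n + 12))) := by
  have h1 := abs_le.1 h.m
  have s3 : |log (x (n + 12))| ≤ |log (x (n + 3))| + C := by
    have := abs_sub_abs_le_abs_sub (log (x (n + 12))) (log (x (n + 3)))
    linarith [h.s]
  exact ⟨rfl, rfl, by linarith [h1.1], by linarith [h1.1], mono_in hHK hx.pos h.o.w⟩

theorem rough524 {a c : ℝ} (ha : 0 < a) (hc : 0 < c) : ∃ K0 : ℝ, ∀ K ≥ K0, ∀ Ki : ℝ, ∃ C m : ℝ,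
    ∀ (x : ℕ → ℝ) (n : ℕ), Eq524 a c x → In524 Ki x n → m ≤ log (x (n + 1)) →
      |log (x (n + 3))| ≤ 39 / 50 * log (x (n + 1)) →
      ∃ M' s', St524 K x (n + 9) M' s' ∧ |M' - log (x (n + 1))| ≤ C ∧ |s' - log (x (n + 3))| ≤ C := by
  obtain ⟨H, C, hH, hC, hh⟩ := core ha hc
  refine ⟨H, fun K hK Ki => ?_⟩
  obtain ⟨C', m, hC', hm1, hh'⟩ := hh Ki
  refine ⟨C, m + (90 * C + 1), fun x n hx hi hm hs => ?_⟩
  obtain ⟨D, -, h⟩ := hh' x n hx hi (by linarith) hs
  exact ⟨_, _, st hK hC hx h (by linarith) hs, h.m, h.s⟩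

theorem t1_524 {a c : ℝ} (ha : 0 < a) (hc : 0 < c) : ∃ K0 : ℝ, ∀ K ≥ K0, ∃ C m : ℝ,
    ∀ (x : ℕ → ℝ) (n : ℕ) (M s : ℝ), Eq524 a c x → St524 K x n M s → m ≤ M → |s| ≤ 3 / 4 * M →
      ∃ M' s', St524 K x (n + 9) M' s' ∧ |M' - M| ≤ C ∧ |s' - s| ≤ C ∧
        M' + log (1 + exp (-s')) ≤ M + log (1 + exp (-s)) - eta524 c / 2 := by
  obtain ⟨H, C, hH, hC, hh⟩ := core ha hc
  have hq : 0 < q524 a c := by unfold q524; positivity
  have hk : 0 < c ^ 2 / (1 + c ^ 2) := by positivity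
  have hη : 0 < eta524 c := by
    unfold eta524
    refine log_pos ?_
    rw [one_lt_div (by positivity)]
    linarith
  have ek : log (c ^ 2 / (1 + c ^ 2)) = - eta524 c := by
    unfold eta524
    rw [log_div (by positivity) (by positivity), log_div (by positivity) (by positivity)]
    ring
  refine ⟨H, fun K hK => ?_⟩
  obtain ⟨C', m, hC', hm1, hh'⟩ := hh K
  have hz : 0 < 30 * C' / eta524 c := by positivity
  refine ⟨C, m + (90 * C + 1) + 30 * C' / eta524 c, fun x n M s hx h0 hm hs => ?_⟩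
  have hM := h0.hM
  have hS := h0.hs
  have hM0 : 0 < M := by linarith
  obtain ⟨D, hD, h⟩ := hh' x n hx h0.w (by rw [← hM]; linarith) (by rw [← hM, ← hS]; linarith)
  have hst := st hK hC hx h (by rw [← hM]; linarith) (by rw [← hM, ← hS]; linarith)
  refine ⟨_, _, hst, by rw [hM]; exact h.m, by rw [hS]; exact h.s, ?_⟩
  have pX := hx.pos (n + 1)
  have pS := hx.pos (n + 3)
  have p10 := hx.pos (n + 10)
  have p12 := hx.pos (n + 12)
  -- `D` is small
  have hD6 : 3 * D ≤ eta524 c / 2 := by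
    have h1 : 30 * C' / eta524 c ≤ M := by linarith
    rw [div_le_iff₀ hη] at h1
    rw [← hM] at hD
    have h2 : D * M * 6 ≤ M * eta524 c := by linarith
    have h3 : D * 6 ≤ eta524 c := by
      by_contra hcon
      push Not at hcon
      nlinarith
    linarith
  -- the first term
  have hQ := R_q hq pS
  have a1 := (abs_le.1 h.o.x10.log_le).2
  rw [log_mul (mul_pos pX hk).ne' hQ.px.ne', log_mul pX.ne' hk.ne', ek, ← hM,
    log_div (by positivity) (by positivity)] at a1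
  -- the second term
  obtain ⟨g, g0, -, gD, gR⟩ := h.o.x12
  have b1 : exp (-log (x (n + 12))) ≤ exp D * (q524 a c * (1 + g) / x (n + 3)) := by
    have h1 := gR.inv.le
    rw [inv_div] at h1
    rwa [exp_neg, exp_log p12]
  have b2 : 1 + exp (-log (x (n + 12))) ≤ exp (2 * D) * ((x (n + 3) + q524 a c) / x (n + 3)) := by
    have e1 : 1 ≤ exp D := one_le_exp h.D0
    have e2 := add_one_le_exp D
    have e3 : exp (2 * D) = exp D * exp D := by rw [← exp_add]; ring_nf
    have h3 : 0 ≤ q524 a c * g := by positivity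
    calc 1 + exp (-log (x (n + 12))) ≤ exp D + exp D * (q524 a c * (1 + g) / x (n + 3)) :=
          add_le_add e1 b1
      _ = exp D * ((x (n + 3) + q524 a c + q524 a c * g) / x (n + 3)) := by
          field_simp
          ring
      _ ≤ exp D * (exp D * (x (n + 3) + q524 a c) / x (n + 3)) := by
          refine mul_le_mul_of_nonneg_left ?_ (exp_pos _).le
          refine div_le_div_of_nonneg_right ?_ pS.le
          have : 0 < x (n + 3) + q524 a c := by positivity
          nlinarith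
      _ = _ := by rw [e3]; ring
  have b3 : log (1 + exp (-log (x (n + 12)))) ≤
      2 * D + (log (x (n + 3) + q524 a c) - log (x (n + 3))) := by
    have h1 := log_le_log (by positivity) b2
    rwa [log_mul (exp_pos _).ne' (by positivity), log_exp,
      log_div (by positivity) (by positivity)] at h1
  have b4 : log (1 + exp (-s)) = log (1 + x (n + 3)) - log (x (n + 3)) := by
    rw [← log_div (by positivity) (by positivity), hS, exp_neg, exp_log pS]
    congr 1
    field_simp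
    ring
  rw [b4]
  linarith

end Pool.Agent.H78.K4
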